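import Pool.Agent.Helper67.LB.Defs
import Pool.Agent.Helper67.EQP.CCirc

set_option autoImplicit false
set_option linter.unusedSectionVars false

/-!
Codes and strings. (LB-W1.)

* `cat_length`, `cat_inj`: `List.length_flatten`, and induction on `k` (or: the flattening of a list of
  lists of equal length determines the list; `List.ofFn_succ`, `List.append_inj`,
  `List.ofFn_injective`).
* `ones_append`: `takeWhile` stops at the first `false`.
* `qcode_inj`: `EQP.rep_inj` and `EQP.pcode_inj` (both in `EQP/CWorld.lean`).
* `mstr_code`: if `mstr κ y = mstr κ' y'` (for the lengths `lam (ones κ)`, `wid κ`) then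
  `κ ++ cat y = κ' ++ cat y'`, so `ones κ = ones κ'` by `ones_append`; write `l = lam (ones κ)`; the
  lengths give `κ.length + l * (32 (κ.length + 1)) = κ'.length + l * (32 (κ'.length + 1))`, so
  `κ.length = κ'.length`, and `List.append_inj`.
* `MB_code`: `ones (Q.code i e x) = i`; generalise: for all `j = i` the statement with `lam j` is equivalent
  to the statement with `lam i`.
* `bstr_ne_mstr` etc.: the first two symbols differ.
-/

namespace Pool.Agent.Helper67.LB

open Finset Function Classical
open Pool.Agent.Helper67.EQP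

/-- Number of leading ones. -/
def ones (κ : List Bool) : ℕ := (κ.takeWhile id).length

/-- The value of the block with the code `κ` in the oracle `A`. -/
def MB (lam : ℕ → ℕ) (A : List Bool → Bool) (κ : List Bool) : Prop :=
  Alt (lam (ones κ)) true (fun y : Fin (lam (ones κ)) → Fin (wid κ) → Bool => A (mstr κ y) = true)

/-- `s` is a string of the block with the code `κ`. -/
def InB (lam : ℕ → ℕ) (κ s : List Bool) : Prop :=
  ∃ y : Fin (lam (ones κ)) → Fin (wid κ) → Bool, s = mstr κ y

theorem cat_length {k m : ℕ} (y : Fin k → Fin m → Bool) : (cat y).length = k * m := by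
  unfold cat
  rw [List.length_flatten, List.map_ofFn]
  simp [Function.comp_def]

private theorem cat_succ {k m : ℕ} (y : Fin (k + 1) → Fin m → Bool) :
    cat y = List.ofFn (y 0) ++ cat (fun j : Fin k => y j.succ) := by
  unfold cat
  rw [List.ofFn_succ, List.flatten_cons]

theorem cat_inj {k m : ℕ} {y y' : Fin k → Fin m → Bool} (h : cat y = cat y') : y = y' := by
  induction k with
  | zero => exact funext fun j => j.elim0
  | succ k ih =>
    rw [cat_succ, cat_succ] at h
    obtain ⟨h1, h2⟩ := List.append_inj h (by simp)
    have h3 := List.ofFn_injective h1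
    have h4 := ih h2
    funext j
    refine Fin.cases h3 (fun j => ?_) j
    exact congrFun h4 j

theorem mstr_length {k m : ℕ} (κ : List Bool) (y : Fin k → Fin m → Bool) :
    (mstr κ y).length = κ.length + 2 + k * m := by
  simp only [mstr, List.length_cons, List.length_append, cat_length]
  omega

theorem fstr_length {k m : ℕ} (n : ℕ) (y : Fin k → Fin m → Bool) :
    (fstr n y).length = 2 + k + 1 + n + 1 + k * m := by
  simp only [fstr, List.length_cons, List.length_append, List.length_replicate, cat_length]
  omega

theorem qcode_length (Q : QMachine) (i e : ℕ) (x : List Bool) :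
    (Q.code i e x).length = i + 1 + (e + (144 * (Q.time x + 1)) ^ 4 + x.length + 2) := by
  simp only [QMachine.code, List.length_cons, List.length_append, List.length_replicate, pcode_length]
  omega

theorem false_mem_qcode (Q : QMachine) (i e : ℕ) (x : List Bool) : false ∈ Q.code i e x := by
  unfold QMachine.code
  exact List.mem_append_right _ List.mem_cons_self

theorem ones_append {κ z : List Bool} (h : false ∈ κ) : ones (κ ++ z) = ones κ := by
  induction κ with
  | nil => simp at h
  | cons a κ ih =>
    cases a with
    | false => simp [ones]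
    | true =>
      have h1 : false ∈ κ := by simpa using h
      have h2 := ih h1
      simp only [ones] at h2 ⊢
      simp only [List.cons_append, List.takeWhile_cons, id, if_true, List.length_cons, h2]

private theorem ones_rep (i : ℕ) (z : List Bool) : ones (List.replicate i true ++ false :: z) = i := by
  induction i with
  | zero => simp [ones]
  | succ i ih =>
    simp only [ones] at ih ⊢
    simp only [List.replicate_succ, List.cons_append, List.takeWhile_cons, id, if_true, List.length_cons, ih]

theorem ones_qcode (Q : QMachine) (i e : ℕ) (x : List Bool) : ones (Q.code i e x) = i :=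
  ones_rep i _

theorem qcode_inj {Q Q' : QMachine} {i e i' e' : ℕ} {x x' : List Bool}
    (h : Q.code i e x = Q'.code i' e' x') : i = i' ∧ e = e' ∧ x = x' := by
  unfold QMachine.code at h
  obtain ⟨h1, h2⟩ := rep_inj h
  exact ⟨h1, pcode_inj h2⟩

theorem rcode_length (s e n : ℕ) : (rcode s e n).length = s + e + n + 2 := by
  simp only [rcode, List.length_cons, List.length_append, List.length_replicate]
  omega

theorem rcode_inj {s e n s' e' n' : ℕ} (h : rcode s e n = rcode s' e' n') :
    s = s' ∧ e = e' ∧ n = n' := by
  unfold rcode at h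
  obtain ⟨h1, h2⟩ := rep_inj h
  obtain ⟨h3, h4⟩ := rep_inj h2
  have h5 := congrArg List.length h4
  rw [List.length_replicate, List.length_replicate] at h5
  exact ⟨h1, h3, h5⟩

theorem InB.length {lam : ℕ → ℕ} {κ s : List Bool} (h : InB lam κ s) :
    s.length = κ.length + 2 + lam (ones κ) * wid κ := by
  obtain ⟨y, rfl⟩ := h
  exact mstr_length κ y

theorem mstr_code {lam : ℕ → ℕ} {κ κ' s : List Bool} (hκ : false ∈ κ) (hκ' : false ∈ κ')
    (h : InB lam κ s) (h' : InB lam κ' s) : κ = κ' := by
  have hl := h.length
  rw [h'.length] at hl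
  obtain ⟨y, h1⟩ := h
  obtain ⟨y', h1'⟩ := h'
  rw [h1] at h1'
  unfold mstr at h1'
  have h2 : κ ++ cat y = κ' ++ cat y' := by
    simpa using h1'
  have h3 : ones κ = ones κ' := by
    rw [← ones_append (z := cat y) hκ, h2, ones_append hκ']
  rw [h3] at hl
  have h4 : κ.length = κ'.length := by
    simp only [wid] at hl
    rcases Nat.lt_trichotomy κ.length κ'.length with h5 | h5 | h5
    · have h6 : lam (ones κ') * (4 * (8 * (κ.length + 1))) ≤ lam (ones κ') * (4 * (8 * (κ'.length + 1))) :=
        Nat.mul_le_mul_left _ (by omega)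
      omega
    · exact h5
    · have h6 : lam (ones κ') * (4 * (8 * (κ'.length + 1))) ≤ lam (ones κ') * (4 * (8 * (κ.length + 1))) :=
        Nat.mul_le_mul_left _ (by omega)
      omega
  exact (List.append_inj h2 h4).1

theorem mstr_inj {k m : ℕ} {κ : List Bool} {y y' : Fin k → Fin m → Bool}
    (h : mstr κ y = mstr κ y') : y = y' := by
  unfold mstr at h
  have h2 : κ ++ cat y = κ ++ cat y' := by
    simpa using h
  exact cat_inj (List.append_cancel_left h2)

theorem fstr_inj {k m n : ℕ} {y y' : Fin k → Fin m → Bool} (h : fstr n y = fstr n y') :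
    y = y' := by
  unfold fstr at h
  rw [List.cons.injEq, List.cons.injEq] at h
  obtain ⟨_, h2⟩ := rep_inj h.2.2
  obtain ⟨_, h3⟩ := rep_inj h2
  exact cat_inj h3

theorem MB_code (lam : ℕ → ℕ) (A : List Bool → Bool) (Q : QMachine) (i e : ℕ) (x : List Bool) :
    MB lam A (Q.code i e x) ↔ Alt (lam i) true
      (fun y : Fin (lam i) → Fin (wid (Q.code i e x)) → Bool =>
        A (mstr (Q.code i e x) y) = true) := by
  unfold MB
  have key : ∀ j, j = i → (Alt (lam j) true
      (fun y : Fin (lam j) → Fin (wid (Q.code i e x)) → Bool =>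
        A (mstr (Q.code i e x) y) = true) ↔ Alt (lam i) true
      (fun y : Fin (lam i) → Fin (wid (Q.code i e x)) → Bool =>
        A (mstr (Q.code i e x) y) = true)) := by
    rintro j rfl
    rfl
  exact key _ (ones_qcode Q i e x)

theorem MB_congr {lam : ℕ → ℕ} {A A' : List Bool → Bool} {κ : List Bool}
    (h : ∀ s, InB lam κ s → A s = A' s) : MB lam A κ ↔ MB lam A' κ := by
  unfold MB
  have h1 : (fun y : Fin (lam (ones κ)) → Fin (wid κ) → Bool => A (mstr κ y) = true) =
      fun y => A' (mstr κ y) = true := by
    funext y
    rw [h _ ⟨y, rfl⟩]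
  rw [h1]

private theorem alt_const {Y : Type} [Nonempty Y] (P : Prop) : ∀ (k : ℕ) (b : Bool),
    Alt k b (fun _ : Fin k → Y => P) ↔ P
  | 0, _ => Iff.rfl
  | k + 1, true => by
    change (∃ _ : Y, Alt k false (fun _ => P)) ↔ P
    rw [exists_const]
    exact alt_const P k false
  | k + 1, false => by
    change (∀ _ : Y, Alt k true (fun _ => P)) ↔ P
    rw [forall_const]
    exact alt_const P k true

/-- If all strings of the block have the same value then this is the value of the block. -/
theorem MB_const {lam : ℕ → ℕ} {A : List Bool → Bool} {κ : List Bool} {P : Prop}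
    (h : ∀ s, InB lam κ s → (A s = true ↔ P)) : MB lam A κ ↔ P := by
  unfold MB
  have h1 : (fun y : Fin (lam (ones κ)) → Fin (wid κ) → Bool => A (mstr κ y) = true) =
      fun _ => P := by
    funext y
    exact propext (h _ ⟨y, rfl⟩)
  rw [h1]
  exact alt_const P _ _

theorem not_InB_bstr (lam : ℕ → ℕ) (κ κ' : List Bool) (a : B0 (par κ') × Bool) :
    ¬ InB lam κ (bstr κ' a) := by
  rintro ⟨y, h⟩
  simp [mstr, bstr] at h

theorem not_InB_fstr (lam : ℕ → ℕ) (κ : List Bool) {k m : ℕ} (n : ℕ) (y : Fin k → Fin m → Bool) :
    ¬ InB lam κ (fstr n y) := by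
  rintro ⟨y, h⟩
  simp [mstr, fstr] at h

theorem fstr_ne_bstr {κ' : List Bool} (a : B0 (par κ') × Bool) {k m : ℕ} (n : ℕ)
    (y : Fin k → Fin m → Bool) : fstr n y ≠ bstr κ' a := by
  intro h
  simp [fstr, bstr] at h

theorem bstr_inj2 {κ : List Bool} {a a' : B0 (par κ) × Bool} (h : bstr κ a = bstr κ a') :
    a = a' := by
  unfold bstr at h
  rw [List.cons.injEq] at h
  exact enc_inj (List.append_cancel_left h.2)

end Pool.Agent.Helper67.LB
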