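import Pool.Agent.Helper67.LB.Defs
import Pool.Agent.Helper67.EQP.Comp
import Pool.Agent.Helper67.EQP.CComp

set_option autoImplicit false
set_option linter.unusedSectionVars false

/-!
`Σ_k` machines over shallow trees are computed by circuits with `k` layers. (LB-Q6.)

* `DTd.ite`: if `b` has a tree of depth `D` and `f0`, `f1` have trees of depth `d` then
  `fun y => if b y then f1 y else f0 y` has a tree of depth `D + d`: induction on the tree of `b`,
  for all `f0`, `f1` (`DTd.restrict` or `DTd.upd` for the branches: `f1 (update y i c)` has a tree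
  of depth `d`; in the branch `c` the function is
  `fun y => if b (update y i c) then f1 (update y i c) else f0 (update y i c)`).
* `DTree.comp_dtd`: induction on the decision tree `T` with `DTd.ite`.
* `smachine_comp`: `EQP.Comp.alt` with `Y = Fin (n ^ c + c) → Bool`.
-/

namespace Pool.Agent.Helper67.LB

open Finset Function Classical
open Pool.Agent.Helper67.EQP

variable {ι : Type} [DecidableEq ι]

private theorem DTd.upd' {w : ℕ} {f : (ι → Bool) → Bool} (h : DTd w f) (i : ι) (c : Bool) :
    DTd w (fun x => f (update x i c)) := by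
  have h1 := h.restrict (fun j => if j = i then some c else none)
  have h2 : (fun x : ι → Bool => f (mrg (fun j => if j = i then some c else none) x)) =
      fun x => f (update x i c) := by
    funext x
    congr 1
    funext j
    by_cases hj : j = i
    · subst hj
      simp [mrg]
    · simp [mrg, hj]
  rwa [h2] at h1

theorem DTd.ite {D d : ℕ} {b f0 f1 : (ι → Bool) → Bool} (hb : DTd D b) (h0 : DTd d f0)
    (h1 : DTd d f1) : DTd (D + d) (fun y => if b y then f1 y else f0 y) := by
  induction hb generalizing f0 f1 with
  | const w c =>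
    cases c with
    | false => simpa using h0.mono (by omega)
    | true => simpa using h1.mono (by omega)
  | query w i b hb0 hb1 ih0 ih1 =>
    have e : w + 1 + d = (w + d) + 1 := by omega
    rw [e]
    exact DTd.query (w + d) i _ (ih0 (DTd.upd' h0 i false) (DTd.upd' h1 i false))
      (ih1 (DTd.upd' h0 i true) (DTd.upd' h1 i true))

theorem DTree.comp_dtd {D d : ℕ} {P : List Bool → Prop} {T : DTree (List Bool)} (hT : T.All P)
    (hd : T.depth ≤ d) (A : (ι → Bool) → List Bool → Bool)
    (hA : ∀ s, P s → DTd D (fun y => A y s)) : DTd (d * D) (fun y => T.eval (A y)) := by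
  induction T generalizing d with
  | leaf v =>
    exact DTd.const _ v
  | node s t0 t1 ih0 ih1 =>
    obtain ⟨d, rfl⟩ : ∃ d', d = d' + 1 := by
      simp only [DTree.depth] at hd
      exact ⟨d - 1, by omega⟩
    simp only [DTree.depth] at hd
    obtain ⟨hs, hT0, hT1⟩ := hT
    have h0 := ih0 hT0 (d := d) (by omega)
    have h1 := ih1 hT1 (d := d) (by omega)
    have h2 := DTd.ite (hA s hs) h0 h1
    have e : (d + 1) * D = D + d * D := by ring
    rw [e]
    exact h2

theorem smachine_comp {k : ℕ} (M : SMachine k) (n D : ℕ) (A : (ι → Bool) → List Bool → Bool)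
    (hA : ∀ s : List Bool, s.length ≤ n ^ M.c + M.c → DTd D (fun y => A y s)) :
    Comp ((n ^ M.c + M.c) * D) k ((1 + 2 ^ (n ^ M.c + M.c)) ^ k)
      (fun y => decide (M.Accepts (A y) n)) := by
  have h1 := Comp.alt (ι := ι) (Y := Fin (n ^ M.c + M.c) → Bool) (w := (n ^ M.c + M.c) * D) k true
    (fun ys x => (M.tree n ys).eval (A x))
    (fun ys => DTree.comp_dtd (M.short n ys) (M.depth_le n ys) A hA)
  have h2 : Fintype.card (Fin (n ^ M.c + M.c) → Bool) = 2 ^ (n ^ M.c + M.c) := by simp
  rw [h2] at h1
  exact h1

private theorem DTree.eval_congr {K : Type} {P : K → Prop} {A A' : K → Bool} (h : ∀ s, P s → A s = A' s)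
    (T : DTree K) (hT : T.All P) : T.eval A = T.eval A' := by
  induction T with
  | leaf v => rfl
  | node s t0 t1 ih0 ih1 =>
    obtain ⟨hs, hT0, hT1⟩ := hT
    simp only [DTree.eval]
    rw [h s hs, ih0 hT0, ih1 hT1]

/-- The machine depends only on short strings. -/
theorem SMachine.accepts_congr {k : ℕ} (M : SMachine k) (n : ℕ) {A A' : List Bool → Bool}
    (h : ∀ s : List Bool, s.length ≤ n ^ M.c + M.c → A s = A' s) :
    M.Accepts A n ↔ M.Accepts A' n := by
  unfold SMachine.Accepts
  have h1 : (fun y => (M.tree n y).eval A = true) = fun y => (M.tree n y).eval A' = true := by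
    funext y
    rw [DTree.eval_congr h (M.tree n y) (M.short n y)]
  rw [h1]

end Pool.Agent.Helper67.LB
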