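import Pool.Agent.Helper67.LB.SDefs
import Pool.Agent.Helper67.EQP.ODefs
import Pool.Agent.Helper67.EQP.Lin

set_option autoImplicit false
set_option linter.unusedSectionVars false

/-!
The hard distributions for alternating quantifiers (Sipser functions): definitions.
-/

namespace Pool.Agent.Helper67.LB

open Finset Function Classical
open Pool.Agent.Helper67.EQP

/-- The neutral value of the `j`-th quantifier (`j = 1, 2, ...`): `false` for the existential
quantifiers (`j` odd), `true` for the universal quantifiers (`j` even). -/
def nu (j : ℕ) : Bool := decide (j % 2 = 0)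

/-- The value of `k` alternating quantifiers, the first one existential. -/
noncomputable def TT {Y : Type} (k : ℕ) (x : (Fin k → Y) → Bool) : Bool :=
  decide (Alt k true (fun y => x y = true))

/-- Block restrictions of assignments to `Fin (k + 1) → Y`: the blocks are indexed by the first
`k` coordinates. -/
def appV {Y : Type} (k : ℕ) (ν : Bool) (ρ : (Fin k → Y) → Blk Y) (z : (Fin k → Y) → Bool) :
    (Fin (k + 1) → Y) → Bool :=
  fun v => app ν ρ z (Fin.init (α := fun _ => Y) v, v (Fin.last k))

/-- Weights of a bit which is `true` with probability `p`. -/
def bern {V : Type} (p : ℝ) (_ : V) (b : Bool) : ℝ := if b then p else 1 - p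

/-- Only the values selected by `M` are kept, the others are replaced by `ν`. -/
def msk {V : Type} (ν : Bool) (M x : V → Bool) : V → Bool := fun v => if M v then x v else ν

/-- The expectation of `F` under the hard distribution for `k + 1` quantifiers, intended value `b`. -/
noncomputable def Ex {Y : Type} [Fintype Y] [DecidableEq Y] (p : ℝ) :
    (k : ℕ) → Bool → (((Fin (k + 1) → Y) → Bool) → ℝ) → ℝ
  | 0, b, F => pm (bern p) (fun S : (Fin 1 → Y) → Bool => F (fun v => if S v then b else false))
  | k + 1, b, F => pm (bw p (nu (k + 2))) (fun ρ : (Fin (k + 1) → Y) → Blk Y =>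
      Ex p k b (fun z => F (appV (k + 1) (nu (k + 2)) ρ z)))

end Pool.Agent.Helper67.LB
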