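import Pool.Agent.Helper67.LB.KOX

set_option autoImplicit false
set_option linter.unusedSectionVars false

/-!
Consistent contents give worlds. (LB-K3.)

Let `W = WX lam Q c r μ κs X`, `κs = rcode r (c.G r) n`, `c.l < n`, so `c.l < 13 * κs.length + 20`.
* `cons_WW`, first part: `wld_short`. Second part, machine `i < μ` with `c.E i = some e`: if `i < r`
  use `wld_right` (`m = min r μ`, `OX_early`, `Right lam Q c.A i e` from `hok.world`). If `r ≤ i` let
  `x` be an input and `κ = (Q i).code i e x`. All strings of the block have the same length `ℓ`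
  (`InB.length`). If `ℓ ≤ c.l` then `W = c.A` on the block and on the strings of length at most
  `(Q i).time x < ℓ`, and the claim follows from `Right lam Q c.A i e`. If `c.l < ℓ` then
  `W (mstr κ y) = X (some κ) y` for all `y` (`wld_O`, `OX_mstr`), so `MB lam W κ` iff
  `TT (lam (ones κ)) (X (some κ)) = true` iff (`Cons`; exactly one of `Yk`, `Nk` holds)
  `BXk .. (some κ) X` iff `(Q i).Acc W x` (`Late.unique`). Third part: the block with the code
  `rcode r' (c.G r') n'`, `r' < ρ`: if the code is different from `κs`: `wld_valid` with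
  `OX_other`. If it is `κs`: `wld_reads` with `OX_bstr`, and `X none` is a yes- or no-instance.
* `cons_RYes`: `wld_reads`, and `reads_yes_no` if `β` fails.
-/

namespace Pool.Agent.Helper67.LB

open Finset Function Classical
open Pool.Agent.Helper67.EQP

variable {lam : ℕ → ℕ} {Q : ℕ → QMachine}

private theorem alt_const_k3 {Y : Type} [Nonempty Y] (k : ℕ) : ∀ (e : Bool) (P : Prop),
    Alt k e (fun _ : Fin k → Y => P) ↔ P := by
  induction k with
  | zero => intro e P; cases e <;> exact Iff.rfl
  | succ k ih =>
    intro e P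
    cases e with
    | true =>
      change (∃ _ : Y, Alt k false (fun _ : Fin k → Y => P)) ↔ P
      rw [ih false P]
      exact exists_const Y
    | false =>
      change (∀ _ : Y, Alt k true (fun _ : Fin k → Y => P)) ↔ P
      rw [ih true P]
      exact forall_const Y

private theorem cons_WW_k3 {c : Cond} {μ ρ r n : ℕ} (hok : Ok lam Q c μ ρ) (hn : c.l < n)
    {β : Prop} {κs : List Bool} (hκs : κs = rcode r (c.G r) n) {X : ContK (iK lam κs)}
    (hX : Cons (Yk lam κs) (Nk lam κs) (BXk lam Q c r μ κs β) X) :
    WW lam Q c.A c.l c.E c.G μ ρ (WX lam Q c r μ κs X) := by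
  have hlen : c.l < 13 * κs.length + 20 := by
    rw [hκs, rcode_length]
    omega
  have hsh : ∀ s : List Bool, s.length ≤ c.l → WX lam Q c r μ κs X s = c.A s :=
    fun s hs => wld_short lam Q hs
  refine ⟨hsh, ?_, ?_⟩
  · intro i hi e he
    by_cases hir : i < r
    · exact wld_right (lt_min hir hi) he (fun x s hs => OX_early X hir hs)
        (Or.inr (hok.world.2.1 i hi e he))
    · intro x
      have hl : Late Q c.E r μ ((Q i).code i e x) i e x := ⟨by omega, hi, he, rfl⟩
      have htl := hl.time_lt
      obtain ⟨κ, hκ⟩ : ∃ κ, κ = (Q i).code i e x := ⟨_, rfl⟩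
      rw [← hκ] at hl htl ⊢
      by_cases hℓ : κ.length + 2 + lam (ones κ) * wid κ ≤ c.l
      · rw [(Q i).acc_congr x (A := WX lam Q c r μ κs X) (A' := c.A)
          (fun s hs => hsh s (by omega)),
          MB_congr (A := WX lam Q c r μ κs X) (A' := c.A)
            (fun s hs => hsh s (by rw [hs.length]; exact hℓ)), hκ]
        exact hok.world.2.1 i hi e he x
      · have h1 : ∀ y : Fin (lam (ones κ)) → Fin (wid κ) → Bool,
            WX lam Q c r μ κs X (mstr κ y) = X (some κ) y := by
          intro y
          refine wld_O lam Q ?_ (OX_mstr X hl y)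
          have h2 := InB.length (lam := lam) (κ := κ) (s := mstr κ y) ⟨y, rfl⟩
          omega
        have h2 : MB lam (WX lam Q c r μ κs X) κ ↔ Yk lam κs (some κ) (X (some κ)) := by
          unfold MB
          simp only [h1]
          show _ ↔ decide _ = true
          rw [decide_eq_true_iff]
        have h3 : BXk lam Q c r μ κs β (some κ) X ↔ (Q i).Acc (WX lam Q c r μ κs X) x := by
          constructor
          · rintro ⟨i', e', x', hl', ha⟩
            obtain ⟨h4, h5, h6⟩ := hl.unique hl'
            subst h4 h6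
            exact ha
          · intro ha
            exact ⟨i, e, x, hl, ha⟩
        rw [h2, ← h3]
        obtain ⟨h4, h5⟩ := hX (some κ)
        refine ⟨h4, fun h6 => ?_⟩
        by_contra h7
        have h8 := h5 h7
        change TT (Y := Fin (wid κ) → Bool) (lam (ones κ)) (X (some κ)) = true at h6
        change TT (Y := Fin (wid κ) → Bool) (lam (ones κ)) (X (some κ)) = false at h8
        rw [h6] at h8
        exact absurd h8 (by simp)
  · intro r' hr' n'
    by_cases hne : rcode r' (c.G r') n' = κs
    · rw [hne]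
      refine ⟨X none, wld_reads hlen (fun a => OX_bstr X a), ?_⟩
      obtain ⟨h4, h5⟩ := hX none
      by_cases hβ : β
      · exact Or.inl (h4 hβ)
      · exact Or.inr (h5 hβ)
    · exact wld_valid (fun a => OX_other X hne a) (hok.world.2.2 r' hr' n')

private theorem cons_RYes_k3 {c : Cond} {μ r n : ℕ} (hn : c.l < n)
    {β : Prop} {κs : List Bool} (hκs : κs = rcode r (c.G r) n) {X : ContK (iK lam κs)}
    (hX : Cons (Yk lam κs) (Nk lam κs) (BXk lam Q c r μ κs β) X) :
    RYes (WX lam Q c r μ κs X) κs ↔ β := by
  have hlen : c.l < 13 * κs.length + 20 := by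
    rw [hκs, rcode_length]
    omega
  have hr : Reads (WX lam Q c r μ κs X) κs (X none) := wld_reads hlen (fun a => OX_bstr X a)
  obtain ⟨h4, h5⟩ := hX none
  constructor
  · rintro ⟨x, hx, hy⟩
    by_contra hβ
    exact reads_yes_no hx hr hy (h5 hβ)
  · intro hβ
    exact ⟨X none, hr, h4 hβ⟩

theorem cons_WW {c : Cond} {μ ρ r n : ℕ} (hok : Ok lam Q c μ ρ) (hr : r < ρ) (hn : c.l < n)
    {β : Prop} {X : ContK (iK lam (rcode r (c.G r) n))}
    (hX : Cons (Yk lam (rcode r (c.G r) n)) (Nk lam (rcode r (c.G r) n))
      (BXk lam Q c r μ (rcode r (c.G r) n) β) X) :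
    WW lam Q c.A c.l c.E c.G μ ρ (WX lam Q c r μ (rcode r (c.G r) n) X) := by
  exact cons_WW_k3 hok hn rfl hX

theorem cons_RYes {c : Cond} {μ r n : ℕ} (hn : c.l < n)
    {β : Prop} {X : ContK (iK lam (rcode r (c.G r) n))}
    (hX : Cons (Yk lam (rcode r (c.G r) n)) (Nk lam (rcode r (c.G r) n))
      (BXk lam Q c r μ (rcode r (c.G r) n) β) X) :
    RYes (WX lam Q c r μ (rcode r (c.G r) n) X) (rcode r (c.G r) n) ↔ β := by
  exact cons_RYes_k3 hn rfl hX

theorem exists_Yk (lam : ℕ → ℕ) (κs : List Bool) (κ : Option (List Bool)) :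
    ∃ y, Yk lam κs κ y := by
  rcases κ with _ | κ
  · exact exists_yes (m := par κs) (by show 0 < 4 * κs.length + 4; omega)
  · refine ⟨fun _ => true, ?_⟩
    show decide _ = true
    rw [decide_eq_true_iff, alt_const_k3]

theorem exists_Nk (lam : ℕ → ℕ) (κs : List Bool) (κ : Option (List Bool)) :
    ∃ y, Nk lam κs κ y := by
  rcases κ with _ | κ
  · exact exists_no (m := par κs) (by show 0 < 4 * κs.length + 4; omega)
  · refine ⟨fun _ => false, ?_⟩
    show decide _ = false
    rw [decide_eq_false_iff_not, alt_const_k3]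
    simp

end Pool.Agent.Helper67.LB
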