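import Pool.Agent.Helper67.LB.TDefs

set_option autoImplicit false
set_option linter.unusedSectionVars false

/-!
Alternating quantifiers, peeled off from the inside. (LB-T3.)

* `alt_snoc`: prove first by induction on `k`, for both values of `e`, that
  `Alt (k + 1) e P` iff `Alt k e (fun ys => if e = decide (k % 2 = 0) then ∃ y, P (Fin.snoc ys y) else
  ∀ y, P (Fin.snoc ys y))` (with suitable treatment of the flag: the last quantifier is existential iff
  (`e = true` and `k` even) or (`e = false` and `k` odd)), using
  `Fin.cons_snoc_eq_snoc_cons : cons a (snoc q b) = snoc (cons a q) b`.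
* `alt_congr`: the quantified predicates may be replaced by equivalent ones.
* `TT_appV`: by `alt_snoc` and `alt_congr` one has to show for all `v : Fin k → Y` that
  the last quantifier applied to `fun y => appV k ν ρ z (Fin.snoc v y) = true` (`ν = nu (k + 1)`) is
  equivalent to `((ρ v).2).getD (z v) = true`. We have
  `appV k ν ρ z (Fin.snoc v y) = if (ρ v).1 y then ((ρ v).2).getD (z v) else ν` (`Fin.init_snoc`,
  `Fin.snoc_last`), and some `y` has `(ρ v).1 y = true`; if `ν = false` the quantifier is
  existential, if `ν = true` it is universal.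
* `TT_const`: all values `b`, `Y` nonempty (induction with `alt_snoc`, or a general lemma
  that `Alt k e (fun _ => Q) ↔ Q`).
-/

namespace Pool.Agent.Helper67.LB

open Finset Function Classical
open Pool.Agent.Helper67.EQP

variable {Y : Type}

theorem alt_congr {k : ℕ} {e : Bool} {P Q : (Fin k → Y) → Prop} (h : ∀ y, P y ↔ Q y) :
    Alt k e P ↔ Alt k e Q := by
  have h1 : P = Q := funext fun y => propext (h y)
  rw [h1]

private theorem alt_snoc_gen (k : ℕ) : ∀ (e : Bool) (P : (Fin (k + 1) → Y) → Prop),
    Alt (k + 1) e P ↔ Alt k e (fun ys =>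
      if e = decide (k % 2 = 0) then ∃ y, P (Fin.snoc (α := fun _ => Y) ys y)
      else ∀ y, P (Fin.snoc (α := fun _ => Y) ys y)) := by
  induction k with
  | zero =>
    intro e P
    have h1 : ∀ y : Y, (Fin.cons y (fun i : Fin 0 => i.elim0) : Fin 1 → Y) =
        Fin.snoc (α := fun _ => Y) (fun i : Fin 0 => i.elim0) y := by
      intro y
      funext i
      have hi : i = Fin.last 0 := Fin.ext (by have := i.isLt; omega)
      subst hi
      rw [Fin.snoc_last]
      rfl
    cases e with
    | true =>
      simp only [Alt, h1]
      simp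
    | false =>
      simp only [Alt, h1]
      simp
  | succ k ih =>
    intro e P
    have hflag : ∀ b : Bool, (b = decide ((k + 1) % 2 = 0)) ↔ ((!b) = decide (k % 2 = 0)) := by
      intro b
      rcases Nat.mod_two_eq_zero_or_one k with h | h
      · have h2 : (k + 1) % 2 = 1 := by omega
        rw [h, h2]
        cases b <;> simp
      · have h2 : (k + 1) % 2 = 0 := by omega
        rw [h, h2]
        cases b <;> simp
    cases e with
    | true =>
      change (∃ y, Alt (k + 1) false (fun ys => P (Fin.cons y ys))) ↔
        (∃ y, Alt k false (fun zs => if true = decide ((k + 1) % 2 = 0) then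
          ∃ y', P (Fin.snoc (α := fun _ => Y) (Fin.cons y zs) y')
          else ∀ y', P (Fin.snoc (α := fun _ => Y) (Fin.cons y zs) y')))
      refine exists_congr fun y => ?_
      rw [ih false]
      refine alt_congr fun zs => ?_
      have h2 : (true = decide ((k + 1) % 2 = 0)) ↔ (false = decide (k % 2 = 0)) := hflag true
      rw [if_congr h2 rfl rfl]
      simp only [Fin.cons_snoc_eq_snoc_cons]
    | false =>
      change (∀ y, Alt (k + 1) true (fun ys => P (Fin.cons y ys))) ↔
        (∀ y, Alt k true (fun zs => if false = decide ((k + 1) % 2 = 0) then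
          ∃ y', P (Fin.snoc (α := fun _ => Y) (Fin.cons y zs) y')
          else ∀ y', P (Fin.snoc (α := fun _ => Y) (Fin.cons y zs) y')))
      refine forall_congr' fun y => ?_
      rw [ih true]
      refine alt_congr fun zs => ?_
      have h2 : (false = decide ((k + 1) % 2 = 0)) ↔ (true = decide (k % 2 = 0)) := hflag false
      rw [if_congr h2 rfl rfl]
      simp only [Fin.cons_snoc_eq_snoc_cons]

theorem alt_snoc (k : ℕ) (P : (Fin (k + 1) → Y) → Prop) :
    Alt (k + 1) true P ↔ Alt k true (fun ys =>
      if nu (k + 1) = false then ∃ y, P (Fin.snoc (α := fun _ => Y) ys y)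
      else ∀ y, P (Fin.snoc (α := fun _ => Y) ys y)) := by
  rw [alt_snoc_gen k true P]
  refine alt_congr fun ys => ?_
  have h : (true = decide (k % 2 = 0)) ↔ (nu (k + 1) = false) := by
    unfold nu
    rcases Nat.mod_two_eq_zero_or_one k with h | h
    · have h2 : (k + 1) % 2 = 1 := by omega
      rw [h, h2]
      simp
    · have h2 : (k + 1) % 2 = 0 := by omega
      rw [h, h2]
      simp
  rw [if_congr h rfl rfl]

theorem TT_appV (k : ℕ) (ρ : (Fin k → Y) → Blk Y) (z : (Fin k → Y) → Bool)
    (hρ : ∀ v, ∃ y, (ρ v).1 y = true) :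
    TT (k + 1) (appV k (nu (k + 1)) ρ z) = TT k (fun v => ((ρ v).2).getD (z v)) := by
  unfold TT
  congr 1
  rw [eq_iff_iff, alt_snoc]
  refine alt_congr fun v => ?_
  have happ : ∀ y, appV k (nu (k + 1)) ρ z (Fin.snoc (α := fun _ => Y) v y) =
      if (ρ v).1 y then ((ρ v).2).getD (z v) else nu (k + 1) := by
    intro y
    unfold appV app kv
    simp only [Fin.init_snoc, Fin.snoc_last]
    split_ifs <;> rfl
  obtain ⟨y₀, hy₀⟩ := hρ v
  split_ifs with hnu
  · constructor
    · rintro ⟨y, hy⟩
      rw [happ] at hy
      split_ifs at hy with h1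
      · exact hy
      · rw [hnu] at hy
        exact absurd hy (by simp)
    · intro h
      refine ⟨y₀, ?_⟩
      rw [happ, if_pos hy₀]
      exact h
  · have hnu' : nu (k + 1) = true := by
      cases h : nu (k + 1) with
      | true => rfl
      | false => exact absurd h hnu
    constructor
    · intro h
      have h1 := h y₀
      rw [happ, if_pos hy₀] at h1
      exact h1
    · intro h y
      rw [happ]
      split_ifs
      · exact h
      · exact hnu'

private theorem alt_const [Nonempty Y] (k : ℕ) : ∀ (e : Bool) (Q : Prop),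
    Alt k e (fun _ : Fin k → Y => Q) ↔ Q := by
  induction k with
  | zero => intro e Q; cases e <;> exact Iff.rfl
  | succ k ih =>
    intro e Q
    cases e with
    | true =>
      change (∃ _ : Y, Alt k false (fun _ : Fin k → Y => Q)) ↔ Q
      rw [ih false Q]
      exact exists_const Y
    | false =>
      change (∀ _ : Y, Alt k true (fun _ : Fin k → Y => Q)) ↔ Q
      rw [ih true Q]
      exact forall_const Y

theorem TT_const [Nonempty Y] (k : ℕ) (b : Bool) : TT k (fun _ : Fin k → Y => b) = b := by
  unfold TT
  cases b with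
  | true =>
    rw [decide_eq_true_iff, alt_const]
  | false =>
    rw [decide_eq_false_iff_not, alt_const]
    simp

theorem nu_succ (j : ℕ) : nu (j + 1) = !nu j := by
  unfold nu
  rcases Nat.mod_two_eq_zero_or_one j with h | h
  · have h2 : (j + 1) % 2 = 1 := by omega
    rw [h, h2]
    simp
  · have h2 : (j + 1) % 2 = 0 := by omega
    rw [h, h2]
    simp

theorem TT_one (x : (Fin 1 → Y) → Bool) : TT 1 x = true ↔ ∃ v, x v = true := by
  unfold TT
  rw [decide_eq_true_iff]
  change (∃ y, x (Fin.cons y (fun i : Fin 0 => i.elim0)) = true) ↔ _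
  constructor
  · rintro ⟨y, hy⟩
    exact ⟨_, hy⟩
  · rintro ⟨v, hv⟩
    refine ⟨v 0, ?_⟩
    have h1 : (Fin.cons (v 0) (fun i : Fin 0 => i.elim0) : Fin 1 → Y) = v := by
      funext i
      have hi : i = 0 := Fin.ext (by have := i.isLt; simp only [Fin.val_zero]; omega)
      subst hi
      rfl
    rw [h1]
    exact hv

end Pool.Agent.Helper67.LB
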