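import Pool.Agent.Helper67.LB.TLin
import Pool.Agent.Helper67.LB.TAlt

set_option autoImplicit false
set_option linter.unusedSectionVars false

/-!
The hard distributions have the intended value, with high probability, even after deleting
elements at random. (LB-T4.)

Proof of `bad_le` by induction on `k`, for all `m`. Let `N = card Y`, `V = Fin (k + 1) → Y`,
`ν = nu (k + 1)`.
`k = 0`. If `b = false` the assignment is constantly false, and so is the masked one (`nu 1 = false`),
hence the indicator is 0 (`TT_one`). If `b = true` the masked assignment is `v ↦ S v && M v` and the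
value is false only if `S v && M v = false` for all `v`, which has probability
`(1 - p * m) ^ (card (Fin 1 → Y)) ≤ (1 - p ^ 2) ^ N` (`EQP.pm_prod_fun` twice, or `pm_comp` to combine
the two independent families into one with parameter `p * m`).
`k + 1`. `Ex p (k+1) b` is an average over `ρ : (Fin (k+1) → Y) → Blk Y` with weights
`bw p (nu (k+2))`, and the mask `M` is a random subset of `Fin (k + 2) → Y`. We have
`msk (nu (k+2)) M (appV (k+1) (nu (k+2)) ρ z) = appV (k+1) (nu (k+2)) ρ' z` where
`(ρ' v).1 y = (ρ v).1 y && M (Fin.snoc v y)`, `(ρ' v).2 = (ρ v).2`. If every block of `ρ'` is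
nonempty then by `TT_appV` the value is `TT (k+1) (fun v => ((ρ v).2).getD (z v))`, and
with `M' v = decide ((ρ v).2 = none)` this is `TT (k+1) (msk (nu (k+1)) M' z)`, because
`(ρ v).2 = some (!nu (k+2)) = some (nu (k+1))` for all `v` with `(ρ v).2 ≠ none`, unless the weight of
`ρ` is 0. So the indicator is at most
`(if ∃ v, ∀ y, ((ρ v).1 y && M (Fin.snoc v y)) = false then 1 else 0) +
 (if TT (k+1) (msk (nu (k+1)) M' z) = b then 0 else 1)` for `ρ` of positive weight. The average of
the first term is at most `∑ v, (1 - p m) ^ N ≤ N ^ (k+1) * (1 - p ^ 2) ^ N`; the second depends on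
`ρ` only through the independent bits `M' v` which are true with probability `p`, so its average is
the left side for `k` and `m = p`, at most `(k + 1) * N ^ (k + 1) * (1 - p ^ 2) ^ N` by induction.
Since `N ≥ 1` the sum is at most `(k + 2) * N ^ (k + 2) * (1 - p ^ 2) ^ N`.

For the average over `ρ` of a function of the `(ρ v).2` use `EQP.pm_comp` or `EQP.pm_prod_fun`-like
manipulations; it may be convenient to prove the general lemma: if `q : C → D` and
`θ' i d = ∑ c with q c = d, θ i c`, then `pm θ (fun a => F (fun i => q (a i))) = pm θ' F`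
(this is `EQP.pm_comp` with `φ` trivial). The order of the averages over `ρ`, `z`, `M` may be changed
with `Ex_dist`/`Ex_sum` (all are finite sums). `bad_le_one` is the case `m = 1`:
`pm (bern 1) F = F (fun _ => true)`.
-/

namespace Pool.Agent.Helper67.LB

open Finset Function Classical
open Pool.Agent.Helper67.EQP

variable {Y : Type} [Fintype Y] [DecidableEq Y] [Nonempty Y]

/-- Image of a product measure under coordinatewise maps. -/
theorem pm_map {ι C D : Type} [Fintype ι] [DecidableEq ι] [Fintype C] [Fintype D] [DecidableEq D]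
    (θ : ι → C → ℝ) (θ' : ι → D → ℝ) (q : C → D)
    (h : ∀ i d, θ' i d = ∑ c, if q c = d then θ i c else 0) (F : (ι → D) → ℝ) :
    pm θ (fun a => F (fun i => q (a i))) = pm θ' F := by
  have h1 := pm_comp (B := Unit) θ (fun _ _ => (1 : ℝ)) θ' (fun _ c _ => q c) (by
    intro i d
    rw [h i d]
    refine Finset.sum_congr rfl fun c _ => ?_
    simp) F
  rw [← h1]
  refine congrArg (pm θ) (funext fun a => ?_)
  rw [pm_const _ (by intro i; simp)]

private theorem bern_sum' {V : Type} (p : ℝ) (v : V) : ∑ b : Bool, bern p v b = 1 := by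
  rw [Fintype.sum_bool]
  simp [bern]

private theorem bern_nonneg' {V : Type} {p : ℝ} (h0 : 0 ≤ p) (h1 : p ≤ 1) (v : V) (b : Bool) :
    0 ≤ bern p v b := by
  unfold bern
  split_ifs
  · exact h0
  · linarith

private theorem pm_mono_wt {ι A : Type} [Fintype ι] [DecidableEq ι] [Fintype A]
    (θ : ι → A → ℝ) (h0 : ∀ i b, 0 ≤ θ i b) {F G : (ι → A) → ℝ}
    (h : ∀ a, (∀ i, θ i (a i) ≠ 0) → F a ≤ G a) : pm θ F ≤ pm θ G := by
  unfold pm
  apply sum_le_sum
  intro a _
  by_cases ha : ∀ i, θ i (a i) ≠ 0
  · exact mul_le_mul_of_nonneg_left (h a ha) (prod_nonneg fun i _ => h0 i (a i))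
  · push Not at ha
    obtain ⟨i, hi⟩ := ha
    rw [prod_eq_zero (mem_univ i) hi, zero_mul, zero_mul]

private theorem pm_bern_one {V : Type} [Fintype V] [DecidableEq V] (F : (V → Bool) → ℝ) :
    pm (bern 1) F = F (fun _ => true) := by
  unfold pm
  rw [Finset.sum_eq_single (fun _ => true)]
  · have : ∏ i : V, bern (1 : ℝ) i true = 1 := prod_eq_one fun i _ => by simp [bern]
    rw [this, one_mul]
  · intro M _ hM
    have : ∃ v, M v = false := by
      by_contra hcon
      push Not at hcon
      apply hM
      funext v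
      simpa using hcon v
    obtain ⟨v, hv⟩ := this
    rw [prod_eq_zero (mem_univ v) (by rw [hv]; simp [bern]), zero_mul]
  · intro h
    exact absurd (mem_univ _) h

/-- Products over the last coordinate. -/
private theorem prod_snoc (k : ℕ) (v : Fin k → Y) (f : (Fin (k + 1) → Y) → ℝ) :
    ∏ w : Fin (k + 1) → Y, (if Fin.init (α := fun _ => Y) w = v then f w else 1) =
      ∏ y : Y, f (Fin.snoc (α := fun _ => Y) v y) := by
  rw [← Finset.prod_filter]
  symm
  refine Finset.prod_nbij' (fun y => Fin.snoc (α := fun _ => Y) v y) (fun w => w (Fin.last k))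
    ?_ ?_ ?_ ?_ ?_
  · intro y _
    simp
  · intro w _
    simp
  · intro y _
    simp
  · intro w hw
    rw [mem_filter] at hw
    rw [← hw.2]
    exact Fin.snoc_init_self w
  · intro y _
    rfl

private theorem sum_bw_prod (P : Type) (p m : ℝ) (ν : Bool) (u : P) :
    ∑ B : Blk Y, bw p ν u B * ∏ y, (if B.1 y then 1 - m else 1) =
      (1 - p * m) ^ Fintype.card Y := by
  have h2 : ∑ o : Option Bool, (match o with
      | none => p
      | some b => if b = ν then (0 : ℝ) else 1 - p) = 1 := by
    rw [Fintype.sum_option, Fintype.sum_bool]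
    cases ν <;> simp
  have h1 : ∑ s : Y → Bool, ∏ y, ((if s y then p else 1 - p) * (if s y then 1 - m else 1)) =
      (1 - p * m) ^ Fintype.card Y := by
    rw [sum_prod_eq (fun (_ : Y) (b : Bool) =>
      (if b then p else 1 - p) * (if b then 1 - m else 1))]
    rw [Finset.prod_congr rfl (g := fun _ => 1 - p * m), Finset.prod_const, Finset.card_univ]
    intro y _
    rw [Fintype.sum_bool]
    simp
    ring
  calc ∑ B : Blk Y, bw p ν u B * ∏ y, (if B.1 y then 1 - m else 1)
      = ∑ s : Y → Bool, ∑ o : Option Bool,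
        (∏ y, ((if s y then p else 1 - p) * (if s y then 1 - m else 1))) * (match o with
      | none => p
      | some b => if b = ν then (0 : ℝ) else 1 - p) := by
        rw [Fintype.sum_prod_type]
        refine Finset.sum_congr rfl fun s _ => Finset.sum_congr rfl fun o _ => ?_
        rw [Finset.prod_mul_distrib]
        unfold bw
        exact mul_right_comm _ _ _
    _ = (∑ s : Y → Bool, ∏ y, ((if s y then p else 1 - p) * (if s y then 1 - m else 1))) *
        ∑ o : Option Bool, (match o with
      | none => p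
      | some b => if b = ν then (0 : ℝ) else 1 - p) := by
        rw [Finset.sum_mul_sum]
    _ = _ := by rw [h1, h2, mul_one]

private theorem ind_all_prod {α : Type} [Fintype α] (P : α → Prop) [DecidablePred P] :
    (if ∀ a, ¬ P a then (1 : ℝ) else 0) = ∏ a, (if P a then (0 : ℝ) else 1) := by
  by_cases h : ∀ a, ¬ P a
  · rw [if_pos h, prod_eq_one fun a _ => if_neg (h a)]
  · rw [if_neg h]
    push Not at h
    obtain ⟨a, ha⟩ := h
    have h2 : ∏ a, (if P a then (0 : ℝ) else 1) = 0 :=
      Finset.prod_eq_zero (mem_univ a) (if_pos ha)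
    exact h2.symm

/-- Average of the event that the block of `v` is empty. -/
private theorem avg_empty (k : ℕ) (p m : ℝ) (ν : Bool) (v : Fin k → Y) :
    pm (bw p ν) (fun ρ : (Fin k → Y) → Blk Y => pm (bern m)
      (fun M : (Fin (k + 1) → Y) → Bool =>
        if ∀ y, ¬ ((ρ v).1 y = true ∧ M (Fin.snoc (α := fun _ => Y) v y) = true) then (1 : ℝ)
          else 0)) = (1 - p * m) ^ Fintype.card Y := by
  have h1 : ∀ ρ : (Fin k → Y) → Blk Y, pm (bern m)
      (fun M : (Fin (k + 1) → Y) → Bool =>
        if ∀ y, ¬ ((ρ v).1 y = true ∧ M (Fin.snoc (α := fun _ => Y) v y) = true) then (1 : ℝ)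
          else 0) = ∏ y, (if (ρ v).1 y then 1 - m else 1) := by
    intro ρ
    have h2 : ∀ M : (Fin (k + 1) → Y) → Bool,
        (if ∀ y, ¬ ((ρ v).1 y = true ∧ M (Fin.snoc (α := fun _ => Y) v y) = true) then (1 : ℝ)
          else 0) = ∏ w : Fin (k + 1) → Y, (if Fin.init (α := fun _ => Y) w = v then
            (if (ρ v).1 (w (Fin.last k)) = true ∧ M w = true then (0 : ℝ) else 1) else 1) := by
      intro M
      rw [prod_snoc k v (fun w => if (ρ v).1 (w (Fin.last k)) = true ∧ M w = true then (0 : ℝ)
        else 1), ind_all_prod]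
      refine Finset.prod_congr rfl fun y _ => ?_
      rw [Fin.snoc_last]
    rw [show (fun M : (Fin (k + 1) → Y) → Bool =>
        if ∀ y, ¬ ((ρ v).1 y = true ∧ M (Fin.snoc (α := fun _ => Y) v y) = true) then (1 : ℝ)
          else 0) = fun M => ∏ w : Fin (k + 1) → Y, (if Fin.init (α := fun _ => Y) w = v then
            (if (ρ v).1 (w (Fin.last k)) = true ∧ M w = true then (0 : ℝ) else 1) else 1)
        from funext h2, pm_prod_fun (bern m) (fun (w : Fin (k + 1) → Y) (b : Bool) =>
            (if Fin.init (α := fun _ => Y) w = v then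
            (if (ρ v).1 (w (Fin.last k)) = true ∧ b = true then (0 : ℝ) else 1) else 1))]
    have h3 : ∀ w : Fin (k + 1) → Y, ∑ b : Bool, bern m w b *
        (if Fin.init (α := fun _ => Y) w = v then
            (if (ρ v).1 (w (Fin.last k)) = true ∧ b = true then (0 : ℝ) else 1) else 1) =
        if Fin.init (α := fun _ => Y) w = v then
          (if (ρ v).1 (w (Fin.last k)) then 1 - m else 1) else 1 := by
      intro w
      rw [Fintype.sum_bool]
      by_cases hw : Fin.init (α := fun _ => Y) w = v
      · by_cases hy : (ρ v).1 (w (Fin.last k)) = true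
        · simp [hw, hy, bern]
        · simp [hw, hy, bern]
      · simp [hw, bern]
    rw [Finset.prod_congr rfl fun w _ => h3 w,
      prod_snoc k v (fun w => if (ρ v).1 (w (Fin.last k)) then 1 - m else 1)]
    refine Finset.prod_congr rfl fun y _ => ?_
    rw [Fin.snoc_last]
  rw [show (fun ρ : (Fin k → Y) → Blk Y => pm (bern m)
      (fun M : (Fin (k + 1) → Y) → Bool =>
        if ∀ y, ¬ ((ρ v).1 y = true ∧ M (Fin.snoc (α := fun _ => Y) v y) = true) then (1 : ℝ)
          else 0)) = fun ρ => ∏ u : Fin k → Y,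
            (if u = v then ∏ y, (if (ρ u).1 y then 1 - m else 1) else 1) from ?_,
            pm_prod_fun (bw p ν) (fun (u : Fin k → Y) (B : Blk Y) =>
            if u = v then ∏ y, (if B.1 y then 1 - m else 1) else 1)]
  · rw [Finset.prod_eq_single v]
    · simp only [if_true]
      exact sum_bw_prod _ p m ν v
    · intro u _ hu
      simp only [if_neg hu, mul_one]
      exact bw_sum p ν u
    · intro h
      exact absurd (mem_univ _) h
  · funext ρ
    rw [h1 ρ, Finset.prod_ite_eq' univ v]
    simp

/-- The main pointwise identity. -/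
private theorem TT_step (k : ℕ) (ρ : (Fin (k + 1) → Y) → Blk Y) (z : (Fin (k + 1) → Y) → Bool)
    (M : (Fin (k + 2) → Y) → Bool) (hρ : ∀ v, (ρ v).2 ≠ some (nu (k + 2)))
    (h : ∀ v, ∃ y, (ρ v).1 y = true ∧ M (Fin.snoc (α := fun _ => Y) v y) = true) :
    TT (k + 2) (msk (nu (k + 2)) M (appV (k + 1) (nu (k + 2)) ρ z)) =
      TT (k + 1) (msk (nu (k + 1)) (fun v => decide ((ρ v).2 = none)) z) := by
  set ρ' : (Fin (k + 1) → Y) → Blk Y := fun v =>
    (fun y => (ρ v).1 y && M (Fin.snoc (α := fun _ => Y) v y), (ρ v).2) with hρ'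
  have e1 : msk (nu (k + 2)) M (appV (k + 1) (nu (k + 2)) ρ z) =
      appV (k + 1) (nu (k + 2)) ρ' z := by
    funext w
    have hw : Fin.snoc (α := fun _ => Y) (Fin.init (α := fun _ => Y) w) (w (Fin.last (k + 1)))
        = w := Fin.snoc_init_self w
    unfold msk appV app kv
    rw [hρ']
    simp only [hw]
    by_cases h1 : M w = true
    · simp [h1]
    · simp [h1]
  have e2 : (fun v => ((ρ' v).2).getD (z v)) =
      msk (nu (k + 1)) (fun v => decide ((ρ v).2 = none)) z := by
    funext v
    unfold msk
    show ((ρ v).2).getD (z v) = _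
    rcases hv : (ρ v).2 with _ | c
    · simp [hv]
    · have h1 := hρ v
      rw [hv] at h1
      have h2 : c = nu (k + 1) := by
        have h3 : nu (k + 2) = !nu (k + 1) := nu_succ (k + 1)
        rw [h3] at h1
        cases c <;> cases hh : nu (k + 1) <;> simp_all
      simp [hv, h2]
  rw [e1, TT_appV (k + 1) ρ' z, e2]
  intro v
  obtain ⟨y, h1, h2⟩ := h v
  refine ⟨y, ?_⟩
  rw [hρ']
  simp [h1, h2]

private theorem base_case {p m : ℝ} (hp : 0 ≤ p) (hpm : p ≤ m) (hm : m ≤ 1) (b : Bool) :
    Ex p 0 b (fun x => pm (bern m) (fun M : (Fin (0 + 1) → Y) → Bool =>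
      if TT (0 + 1) (msk (nu (0 + 1)) M x) = b then 0 else 1)) ≤
      (Fintype.card Y : ℝ) * (1 - p ^ 2) ^ Fintype.card Y := by
  have hp1 : p ≤ 1 := hpm.trans hm
  have hq : 0 ≤ 1 - p ^ 2 := by nlinarith
  have hN : (1 : ℝ) ≤ Fintype.card Y := by exact_mod_cast Fintype.card_pos
  have hnu : nu (0 + 1) = false := by decide
  show pm (bern p) (fun S : (Fin 1 → Y) → Bool => pm (bern m)
    (fun M : (Fin 1 → Y) → Bool => if TT 1 (msk (nu (0 + 1)) M
      (fun v => if S v then b else false)) = b then (0 : ℝ) else 1)) ≤ _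
  rw [hnu]
  cases b with
  | false =>
    have h1 : ∀ S M : (Fin 1 → Y) → Bool, (if TT 1 (msk false M
      (fun v => if S v then false else false)) = false then (0 : ℝ) else 1) = 0 := by
      intro S M
      rw [if_pos]
      by_contra hcon
      have h2 : TT 1 (msk false M (fun v => if S v then false else false)) = true := by
        simpa using hcon
      rw [TT_one] at h2
      obtain ⟨v, hv⟩ := h2
      simp [msk] at hv
    simp only [h1]
    rw [show pm (bern p) (fun _ : (Fin 1 → Y) → Bool => pm (bern m)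
      (fun _ : (Fin 1 → Y) → Bool => (0 : ℝ))) = 0 from by unfold pm; simp]
    positivity
  | true =>
    have h1 : ∀ S M : (Fin 1 → Y) → Bool, (if TT 1 (msk false M
        (fun v => if S v then true else false)) = true then (0 : ℝ) else 1) =
        ∏ v : Fin 1 → Y, (if S v = true ∧ M v = true then (0 : ℝ) else 1) := by
      intro S M
      rw [← ind_all_prod (fun v : Fin 1 → Y => S v = true ∧ M v = true)]
      have h2 : TT 1 (msk false M (fun v => if S v then true else false)) = true ↔
          ¬ ∀ v : Fin 1 → Y, ¬ (S v = true ∧ M v = true) := by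
        rw [TT_one]
        push Not
        refine exists_congr fun v => ?_
        unfold msk
        by_cases h5 : S v = true <;> by_cases h6 : M v = true <;> simp [h5, h6]
      by_cases h3 : ∀ v : Fin 1 → Y, ¬ (S v = true ∧ M v = true)
      · rw [if_pos h3, if_neg (fun h4 => (h2.mp h4) h3)]
      · rw [if_neg h3, if_pos (h2.mpr h3)]
    simp only [h1]
    have h4 : ∀ S : (Fin 1 → Y) → Bool, pm (bern m) (fun M : (Fin 1 → Y) → Bool =>
        ∏ v : Fin 1 → Y, (if S v = true ∧ M v = true then (0 : ℝ) else 1)) =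
        ∏ v : Fin 1 → Y, (if S v then 1 - m else 1) := by
      intro S
      rw [pm_prod_fun (bern m) (fun (v : Fin 1 → Y) (c : Bool) =>
        if S v = true ∧ c = true then (0 : ℝ) else 1)]
      refine Finset.prod_congr rfl fun v _ => ?_
      rw [Fintype.sum_bool]
      cases S v <;> simp [bern]
    simp only [h4]
    rw [pm_prod_fun (bern p) (fun (_ : Fin 1 → Y) (s : Bool) => if s then 1 - m else 1)]
    have h5 : ∀ v : Fin 1 → Y, ∑ s : Bool, bern p v s * (if s then 1 - m else 1) = 1 - p * m := by
      intro v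
      rw [Fintype.sum_bool]
      simp [bern]
      ring
    rw [Finset.prod_congr rfl fun v _ => h5 v, Finset.prod_const, Finset.card_univ]
    have hc : Fintype.card (Fin 1 → Y) = Fintype.card Y := by simp
    rw [hc]
    have h6 : (1 - p * m) ^ Fintype.card Y ≤ (1 - p ^ 2) ^ Fintype.card Y := by
      apply pow_le_pow_left₀
      · nlinarith
      · nlinarith
    have h7 : 0 ≤ (1 - p ^ 2) ^ Fintype.card Y := by positivity
    nlinarith

theorem bad_le (k : ℕ) {p m : ℝ} (hp : 0 ≤ p) (hpm : p ≤ m) (hm : m ≤ 1) (b : Bool) :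
    Ex p k b (fun x => pm (bern m) (fun M : (Fin (k + 1) → Y) → Bool =>
      if TT (k + 1) (msk (nu (k + 1)) M x) = b then 0 else 1)) ≤
      (k + 1) * (Fintype.card Y : ℝ) ^ (k + 1) * (1 - p ^ 2) ^ Fintype.card Y := by
  have hp1 : p ≤ 1 := hpm.trans hm
  have hq : 0 ≤ 1 - p ^ 2 := by nlinarith
  have hN : (1 : ℝ) ≤ Fintype.card Y := by exact_mod_cast Fintype.card_pos
  induction k generalizing m with
  | zero =>
    refine (base_case hp hpm hm b).trans (le_of_eq ?_)
    simp
  | succ k ih =>
    have hm0 : 0 ≤ m := hp.trans hpm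
    set ν := nu (k + 2) with hν
    show pm (bw p ν) (fun ρ : (Fin (k + 1) → Y) → Blk Y =>
      Ex p k b (fun z => pm (bern m) (fun M : (Fin (k + 2) → Y) → Bool =>
        if TT (k + 2) (msk ν M (appV (k + 1) ν ρ z)) = b then (0 : ℝ) else 1))) ≤ _
    set E1 : (Fin (k + 1) → Y) → ((Fin (k + 1) → Y) → Blk Y) →
        ((Fin (k + 2) → Y) → Bool) → ℝ := fun v ρ M =>
      if ∀ y, ¬ ((ρ v).1 y = true ∧ M (Fin.snoc (α := fun _ => Y) v y) = true) then (1 : ℝ)
          else 0 with hE1
    set E2 : ((Fin (k + 1) → Y) → Bool) → ((Fin (k + 1) → Y) → Bool) → ℝ := fun M' z =>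
      if TT (k + 1) (msk (nu (k + 1)) M' z) = b then (0 : ℝ) else 1 with hE2
    have hE1n : ∀ v ρ M, 0 ≤ E1 v ρ M := by
      intro v ρ M
      rw [hE1]
      simp only []
      split_ifs <;> norm_num
    have hE2n : ∀ M' z, 0 ≤ E2 M' z := by
      intro M' z
      rw [hE2]
      simp only []
      split_ifs <;> norm_num
    have hE2o : ∀ M' z, E2 M' z ≤ 1 := by
      intro M' z
      rw [hE2]
      simp only []
      split_ifs <;> norm_num
    -- pointwise bound
    have hpt : ∀ (ρ : (Fin (k + 1) → Y) → Blk Y), (∀ v, (ρ v).2 ≠ some ν) →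
        ∀ (z : (Fin (k + 1) → Y) → Bool) (M : (Fin (k + 2) → Y) → Bool),
        (if TT (k + 2) (msk ν M (appV (k + 1) ν ρ z)) = b then (0 : ℝ) else 1) ≤
          (∑ v, E1 v ρ M) + E2 (fun v => decide ((ρ v).2 = none)) z := by
      intro ρ hρ z M
      by_cases h : ∀ v, ∃ y, (ρ v).1 y = true ∧ M (Fin.snoc (α := fun _ => Y) v y) = true
      · rw [TT_step k ρ z M hρ h]
        have : 0 ≤ ∑ v, E1 v ρ M := sum_nonneg fun v _ => hE1n v ρ M
        rw [hE2]
        simp only []
        linarith
      · push Not at h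
        obtain ⟨v, hv⟩ := h
        have h1 : E1 v ρ M = 1 := by
          rw [hE1]
          simp only []
          rw [if_pos]
          intro y hy
          exact hv y hy.1 hy.2
        have h2 : E1 v ρ M ≤ ∑ v, E1 v ρ M :=
          single_le_sum (f := fun v => E1 v ρ M) (fun v _ => hE1n v ρ M) (mem_univ v)
        have h3 := hE2n (fun v => decide ((ρ v).2 = none)) z
        split_ifs <;> linarith
    have hbsum : ∀ v : Fin (k + 2) → Y, ∑ c : Bool, bern m v c = 1 := fun v => bern_sum' m v
    have step1 : pm (bw p ν) (fun ρ : (Fin (k + 1) → Y) → Blk Y =>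
        Ex p k b (fun z => pm (bern m) (fun M : (Fin (k + 2) → Y) → Bool =>
        if TT (k + 2) (msk ν M (appV (k + 1) ν ρ z)) = b then (0 : ℝ) else 1))) ≤
        pm (bw p ν) (fun ρ : (Fin (k + 1) → Y) → Blk Y =>
          (∑ v, pm (bern m) (E1 v ρ)) +
            Ex p k b (E2 (fun v => decide ((ρ v).2 = none)))) := by
      refine pm_mono_wt _ (fun i B => bw_nonneg hp hp1 ν i B) fun ρ hρ => ?_
      have hρ' : ∀ v, (ρ v).2 ≠ some ν := by
        intro v hv
        apply hρ v
        unfold bw
        rw [hv]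
        simp
      have h1 : ∀ z, pm (bern m) (fun M : (Fin (k + 2) → Y) → Bool =>
          if TT (k + 2) (msk ν M (appV (k + 1) ν ρ z)) = b then (0 : ℝ) else 1) ≤
          (∑ v, pm (bern m) (E1 v ρ)) + E2 (fun v => decide ((ρ v).2 = none)) z := by
        intro z
        have h2 := pm_mono (bern m) (fun v c => bern_nonneg' hm0 hm v c) (hpt ρ hρ' z)
        refine h2.trans (le_of_eq ?_)
        rw [pm_add, pm_sum, pm_const _ hbsum]
      refine (Ex_mono hp hp1 k b h1).trans (le_of_eq ?_)
      rw [Ex_add, Ex_const]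
    have step2 : pm (bw p ν) (fun ρ : (Fin (k + 1) → Y) → Blk Y =>
          (∑ v, pm (bern m) (E1 v ρ))) = (Fintype.card Y : ℝ) ^ (k + 1) *
            (1 - p * m) ^ Fintype.card Y := by
      rw [pm_sum]
      have h1 : ∀ v : Fin (k + 1) → Y, pm (bw p ν) (fun ρ => pm (bern m) (E1 v ρ)) =
          (1 - p * m) ^ Fintype.card Y := fun v => avg_empty (k + 1) p m ν v
      rw [Finset.sum_congr rfl fun v _ => h1 v, Finset.sum_const, Finset.card_univ, nsmul_eq_mul]
      congr 1
      simp
    have step3 : pm (bw p ν) (fun ρ : (Fin (k + 1) → Y) → Blk Y =>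
          Ex p k b (E2 (fun v => decide ((ρ v).2 = none)))) ≤
          (k + 1) * (Fintype.card Y : ℝ) ^ (k + 1) * (1 - p ^ 2) ^ Fintype.card Y := by
      have h1 := pm_map (bw p ν) (bern p) (fun B : Blk Y => decide (B.2 = none)) (by
        intro v c
        have h2 : ∑ s : Y → Bool, ∏ y, (if s y then p else 1 - p) = 1 := by
          rw [sum_prod_eq (fun (_ : Y) (b : Bool) => if b then p else 1 - p)]
          apply Finset.prod_eq_one
          intro y _
          rw [Fintype.sum_bool]
          simp
        have h3 : ∑ o : Option Bool, (if decide (o = none) = c then (match o with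
            | none => p
            | some b => if b = ν then (0 : ℝ) else 1 - p) else 0) = bern p v c := by
          rw [Fintype.sum_option, Fintype.sum_bool]
          cases c <;> cases ν <;> simp [bern]
        rw [Fintype.sum_prod_type]
        calc bern p v c = (∑ s : Y → Bool, ∏ y, (if s y then p else 1 - p)) *
            ∑ o : Option Bool, (if decide (o = none) = c then (match o with
            | none => p
            | some b => if b = ν then (0 : ℝ) else 1 - p) else 0) := by rw [h2, h3, one_mul]
          _ = _ := by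
            rw [Finset.sum_mul_sum]
            refine Finset.sum_congr rfl fun s _ => Finset.sum_congr rfl fun o _ => ?_
            unfold bw
            simp only []
            split_ifs
            · rfl
            · rw [mul_zero]) (fun M' => Ex p k b (E2 M'))
      rw [h1]
      have h4 : pm (bern p) (fun M' : (Fin (k + 1) → Y) → Bool => Ex p k b (E2 M')) =
          Ex p k b (fun z => pm (bern p) (fun M' => E2 M' z)) := by
        unfold pm
        rw [Ex_sum]
        refine Finset.sum_congr rfl fun M' _ => ?_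
        rw [← Ex_mul]
      rw [h4]
      exact ih le_rfl hp1
    have step4 : (1 - p * m) ^ Fintype.card Y ≤ (1 - p ^ 2) ^ Fintype.card Y := by
      apply pow_le_pow_left₀
      · nlinarith
      · nlinarith
    have hsplit : pm (bw p ν) (fun ρ : (Fin (k + 1) → Y) → Blk Y =>
          (∑ v, pm (bern m) (E1 v ρ)) +
            Ex p k b (E2 (fun v => decide ((ρ v).2 = none)))) =
        pm (bw p ν) (fun ρ : (Fin (k + 1) → Y) → Blk Y =>
          (∑ v, pm (bern m) (E1 v ρ))) + pm (bw p ν) (fun ρ : (Fin (k + 1) → Y) → Blk Y =>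
          Ex p k b (E2 (fun v => decide ((ρ v).2 = none)))) := pm_add _ _ _
    refine step1.trans ?_
    rw [hsplit, step2]
    have hA : 0 ≤ (Fintype.card Y : ℝ) ^ (k + 1) := by positivity
    have hB : 0 ≤ (1 - p ^ 2) ^ Fintype.card Y := by positivity
    have h5 : (Fintype.card Y : ℝ) ^ (k + 1) * (1 - p * m) ^ Fintype.card Y ≤
        (Fintype.card Y : ℝ) ^ (k + 1) * (1 - p ^ 2) ^ Fintype.card Y :=
      mul_le_mul_of_nonneg_left step4 hA
    have h6 : (Fintype.card Y : ℝ) ^ (k + 1) ≤ (Fintype.card Y : ℝ) ^ (k + 1 + 1) :=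
      pow_le_pow_right₀ hN (by omega)
    have h7 : ((k : ℝ) + 1 + 1) * (Fintype.card Y : ℝ) ^ (k + 1) *
        (1 - p ^ 2) ^ Fintype.card Y ≤ ((k : ℝ) + 1 + 1) * (Fintype.card Y : ℝ) ^ (k + 1 + 1) *
        (1 - p ^ 2) ^ Fintype.card Y := by
      apply mul_le_mul_of_nonneg_right _ hB
      apply mul_le_mul_of_nonneg_left h6
      positivity
    push_cast
    linarith

theorem bad_le_one (k : ℕ) {p : ℝ} (hp : 0 ≤ p) (hp1 : p ≤ 1) (b : Bool) :
    Ex p k b (fun x : (Fin (k + 1) → Y) → Bool => if TT (k + 1) x = b then 0 else 1) ≤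
      (k + 1) * (Fintype.card Y : ℝ) ^ (k + 1) * (1 - p ^ 2) ^ Fintype.card Y := by
  have h := bad_le (Y := Y) k (m := 1) hp hp1 le_rfl b
  refine le_trans (le_of_eq ?_) h
  congr 1
  funext x
  rw [pm_bern_one]
  rfl

end Pool.Agent.Helper67.LB
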