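import Mathlib

set_option autoImplicit false

/-!
Numeric estimates. (LB-T6n.)

* `bad_num`: `(1 - x) ^ N ≤ exp (-(x N))` (`Real.one_sub_le_exp_neg` or
  `Real.add_one_le_exp`), with `x N = 2 ^ (4u) / 2 ^ (2u) = 2 ^ (2u)`, and `exp (-a) ≤ 2 ^ (-a)`
  (`exp 1 ≥ 2`). So it suffices that `(k + 1) * 2 ^ (4u(k+1)) * 2 ^ u ≤ 2 ^ (2 ^ (2u))`, and as
  `k + 1 ≤ 2 ^ (k+1)`, that `(k + 1) + 4u(k + 1) + u ≤ 2 ^ (2u)`: the left side is at most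
  `6u(k+1) ≤ 2 ^ u`.
* `switch_num`: let `q = 16 W / 2 ^ u`; by hypothesis `q ≤ 1/4`. `q ^ (W + 1) ≤ q * (1/4) ^ W ≤
  q * (1/4) ^ k'`, so `2 ^ k' * q ^ (W + 1) ≤ q * 2 ^ (-k') ≤ q`, hence
  `k * (2 ^ k' * q ^ (W + 1)) ≤ k * q = 16 k W / 2 ^ u`.
-/

namespace Pool.Agent.Helper67.LB

theorem bad_num (k u : ℕ) (hu : 0 < u) (h : 320 * (k + 1) * u < 2 ^ u) :
    ((k : ℝ) + 1) * ((2 ^ (4 * u) : ℕ) : ℝ) ^ (k + 1) *
      (1 - (1 / 2 ^ u) ^ 2) ^ (2 ^ (4 * u)) ≤ 1 / 2 ^ u := by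
  have hM : (0 : ℝ) < ((2 ^ (2 * u) : ℕ) : ℝ) := by positivity
  have hM1 : (1 : ℝ) ≤ ((2 ^ (2 * u) : ℕ) : ℝ) := by
    exact_mod_cast Nat.one_le_two_pow
  have h1 : (1 - 1 / ((2 ^ (2 * u) : ℕ) : ℝ)) ^ (2 ^ (2 * u)) ≤ 1 / 2 := by
    have h2 := Real.one_sub_div_pow_le_exp_neg (n := 2 ^ (2 * u)) (t := 1) hM1
    have h3 : Real.exp (-1) ≤ 1 / 2 := by
      rw [Real.exp_neg, one_div]
      apply inv_anti₀ (by norm_num)
      have := Real.add_one_le_exp (1 : ℝ)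
      linarith
    exact h2.trans h3
  have hx0 : (0 : ℝ) ≤ 1 - 1 / ((2 ^ (2 * u) : ℕ) : ℝ) := by
    rw [sub_nonneg, div_le_one hM]
    exact hM1
  have h4 : (1 - (1 / 2 ^ u) ^ 2 : ℝ) = 1 - 1 / ((2 ^ (2 * u) : ℕ) : ℝ) := by
    push_cast
    rw [div_pow, one_pow, ← pow_mul, mul_comm u 2]
  have h5 : (1 - (1 / 2 ^ u) ^ 2 : ℝ) ^ (2 ^ (4 * u)) ≤ (1 / 2) ^ (2 ^ (2 * u)) := by
    rw [h4, show 4 * u = 2 * u + 2 * u by ring, pow_add, pow_mul]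
    exact pow_le_pow_left₀ (pow_nonneg hx0 _) h1 _
  have h6 : ((k : ℝ) + 1) ≤ 2 ^ (k + 1) := by
    have : k + 1 < 2 ^ (k + 1) := Nat.lt_two_pow_self
    exact_mod_cast this.le
  have h7 : (k + 1) + 4 * u * (k + 1) + u ≤ 2 ^ (2 * u) := by
    have h8 : 2 ^ u ≤ 2 ^ (2 * u) := Nat.pow_le_pow_right (by norm_num) (by omega)
    have h9 : (k + 1) * 1 ≤ (k + 1) * u := Nat.mul_le_mul_left _ hu
    have h10 : 1 * u ≤ (k + 1) * u := Nat.mul_le_mul_right _ (by omega)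
    have h11 : 4 * u * (k + 1) = 4 * ((k + 1) * u) := by ring
    have h12 : 320 * (k + 1) * u = 320 * ((k + 1) * u) := by ring
    omega
  have h13 : ((2 : ℝ)) ^ ((k + 1) + 4 * u * (k + 1) + u) ≤ 2 ^ (2 ^ (2 * u)) :=
    pow_le_pow_right₀ (by norm_num) h7
  have hpos : (0 : ℝ) < 2 ^ (2 ^ (2 * u)) := by positivity
  have hpu : (0 : ℝ) < 2 ^ u := by positivity
  calc ((k : ℝ) + 1) * ((2 ^ (4 * u) : ℕ) : ℝ) ^ (k + 1) * (1 - (1 / 2 ^ u) ^ 2) ^ (2 ^ (4 * u))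
      ≤ 2 ^ (k + 1) * ((2 ^ (4 * u) : ℕ) : ℝ) ^ (k + 1) * (1 / 2) ^ (2 ^ (2 * u)) := by
        apply mul_le_mul _ h5 (pow_nonneg (by rw [h4]; exact hx0) _) (by positivity)
        exact mul_le_mul_of_nonneg_right h6 (by positivity)
    _ = (2 ^ ((k + 1) + 4 * u * (k + 1) + u) / 2 ^ (2 ^ (2 * u))) / 2 ^ u := by
        push_cast
        rw [← pow_mul, pow_add 2 ((k + 1) + 4 * u * (k + 1)) u, pow_add 2 (k + 1) (4 * u * (k + 1)), div_pow,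
          one_pow]
        field_simp
    _ ≤ 1 / 2 ^ u := by
        apply div_le_div_of_nonneg_right _ hpu.le
        rw [div_le_one hpos]
        exact h13

theorem switch_num (k k' u W : ℕ) (hW : k' ≤ W) (h : 64 * (k + 1) * W < 2 ^ u) :
    (k : ℝ) * ((2 ^ k' : ℕ) * (16 * (1 / 2 ^ u) * W) ^ (W + 1)) ≤ 16 * k * W / 2 ^ u := by
  have hpu : (0 : ℝ) < 2 ^ u := by positivity
  have h0 : 64 * W < 2 ^ u := by
    have h1 : 1 * W ≤ (k + 1) * W := Nat.mul_le_mul_right _ (by omega)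
    have h12 : 64 * (k + 1) * W = 64 * ((k + 1) * W) := by ring
    omega
  have h1 : (64 : ℝ) * W < 2 ^ u := by exact_mod_cast h0
  set q : ℝ := 16 * (1 / 2 ^ u) * W with hq
  have hq0 : 0 ≤ q := by positivity
  have hq1 : 2 * q ≤ 1 := by
    have : q = 16 * W / 2 ^ u := by rw [hq]; ring
    rw [this, mul_div_assoc', div_le_one hpu]
    have : (0 : ℝ) ≤ W := Nat.cast_nonneg _
    linarith
  have h2 : ((2 ^ k' : ℕ) : ℝ) ≤ 2 ^ W := by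
    push_cast
    exact pow_le_pow_right₀ (by norm_num) hW
  have h3 : ((2 ^ k' : ℕ) : ℝ) * q ^ (W + 1) ≤ q := by
    clear_value q
    calc ((2 ^ k' : ℕ) : ℝ) * q ^ (W + 1) ≤ 2 ^ W * q ^ (W + 1) :=
          mul_le_mul_of_nonneg_right h2 (pow_nonneg hq0 _)
      _ = (2 * q) ^ W * q := by rw [mul_pow, pow_succ]; ring
      _ ≤ 1 * q := mul_le_mul_of_nonneg_right (pow_le_one₀ (by positivity) hq1) hq0
      _ = q := one_mul q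
  calc (k : ℝ) * ((2 ^ k' : ℕ) * q ^ (W + 1)) ≤ k * q :=
        mul_le_mul_of_nonneg_left h3 (Nat.cast_nonneg _)
    _ = 16 * k * W / 2 ^ u := by rw [hq]; ring

end Pool.Agent.Helper67.LB
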