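import Pool.Agent.Helper67.LB.THide
import Pool.Agent.Helper67.LB.TBad
import Pool.Agent.Helper67.LB.TNum
import Pool.Agent.Helper67.EQP.CComp

set_option autoImplicit false
set_option linter.unusedSectionVars false

/-!
The lower bound for `k + 1` alternating quantifiers. (LB-T6.)

Proof of `sip_comp`. Let `W = k' + 5u`. If `2 ^ u ≤ 64 (k + 1) W` the bound is at least 1; take point
masses at the assignments constantly `true` and constantly `false` (`TT_const`,
`EQP.isDist_single`, `EQP.dist_diff_le_one`). Otherwise let `p = 1 / 2 ^ u`, let `W1`, `W0` be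
the distributions of `Ex p k true`, `Ex p k false` (`Ex_dist`), and let `μ1`, `μ0` be the distributions
conditioned on `TT (k+1) x = true`, `= false` (`cond_dist`): by `bad_le_one` and `bad_num` the bad
probabilities are at most `1 / 2 ^ u ≤ 1/2` (`card (Fin (4u) → Bool) = 2 ^ (4u)`). For `f` with
`Comp w h (2 ^ k') f`, `h ≤ k`: either `DTd w f`, then `DTd W f` and `hide_dtd` gives
`W / 2 ^ u`; or `f = g j` for a family with at most `2 ^ k'` gates and all levels `< h ≤ k`; it is a
family for width `W` (`ACfam.mono`), and `hide` with `k0 = 0` (`GoodUpTo W 0` is vacuous) and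
`16 p W ≤ 1` gives `W / 2 ^ u + k * (s' * (16 p W) ^ (W + 1)) ≤ (1 + 16 k) W / 2 ^ u`
(`switch_num`). The conditioning changes each of the two averages by at most `1 / 2 ^ u ≤ W / 2 ^ u`.
Total: at most `(1 + 16 k + 2) W / 2 ^ u`.

`cond_dist`: `μ x = if P x then W x / (1 - q) else 0` where `q = ∑ x, if P x then 0 else W x ≤ ε < 1`;
for `0 ≤ f ≤ 1`, `∑ μ f - ∑ W f = (q / (1 - q)) ∑_{P x} W x f x - ∑_{¬ P x} W x f x`, and the first
term lies between 0 and `q`, the second too.
-/

namespace Pool.Agent.Helper67.LB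

open Finset Function Classical
open Pool.Agent.Helper67.EQP

/-- Conditioning on a likely event. -/
theorem cond_dist {Ω : Type} [Fintype Ω] {W : Ω → ℝ} (hW : IsDist W) (P : Ω → Prop) {ε : ℝ}
    (hε : ε < 1) (hP : ∑ x, W x * (if P x then 0 else 1) ≤ ε) :
    ∃ μ : Ω → ℝ, IsDist μ ∧ (∀ x, ¬ P x → μ x = 0) ∧
      ∀ f : Ω → Bool, |∑ x, μ x * b2 (f x) - ∑ x, W x * b2 (f x)| ≤ ε := by
  set q : ℝ := ∑ x, W x * (if P x then 0 else 1) with hq
  have hq0 : 0 ≤ q := by
    apply sum_nonneg
    intro x _
    apply mul_nonneg (hW.1 x)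
    split_ifs <;> norm_num
  have hq1 : 0 < 1 - q := by linarith
  have hsum : ∑ x, (if P x then W x else 0) = 1 - q := by
    rw [← hW.2, hq, ← sum_sub_distrib]
    apply sum_congr rfl
    intro x _
    split_ifs <;> ring
  refine ⟨fun x => (if P x then W x else 0) / (1 - q), ⟨?_, ?_⟩, ?_, ?_⟩
  · intro x
    apply div_nonneg _ hq1.le
    split_ifs
    · exact hW.1 x
    · exact le_refl _
  · rw [← sum_div, hsum, div_self hq1.ne']
  · intro x hx
    beta_reduce
    rw [if_neg hx, zero_div]
  · intro f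
    set A : ℝ := ∑ x, (if P x then W x else 0) * b2 (f x) with hA
    set B : ℝ := ∑ x, (if P x then 0 else W x) * b2 (f x) with hB
    have h1 : ∑ x, W x * b2 (f x) = A + B := by
      rw [hA, hB, ← sum_add_distrib]
      apply sum_congr rfl
      intro x _
      split_ifs <;> ring
    have h2 : ∑ x, (if P x then W x else 0) / (1 - q) * b2 (f x) = A / (1 - q) := by
      rw [hA, sum_div]
      apply sum_congr rfl
      intro x _
      ring
    have hA0 : 0 ≤ A := by
      apply sum_nonneg
      intro x _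
      apply mul_nonneg _ (b2_nonneg _)
      split_ifs
      · exact hW.1 x
      · exact le_refl _
    have hA1 : A ≤ 1 - q := by
      rw [← hsum]
      apply sum_le_sum
      intro x _
      have h3 : (0 : ℝ) ≤ if P x then W x else 0 := by
        split_ifs
        · exact hW.1 x
        · exact le_refl _
      have h4 := mul_le_mul_of_nonneg_left (b2_le_one (f x)) h3
      linarith
    have hB0 : 0 ≤ B := by
      apply sum_nonneg
      intro x _
      apply mul_nonneg _ (b2_nonneg _)
      split_ifs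
      · exact le_refl _
      · exact hW.1 x
    have hB1 : B ≤ q := by
      rw [hB, hq]
      apply sum_le_sum
      intro x _
      split_ifs
      · simp
      · have h4 := mul_le_mul_of_nonneg_left (b2_le_one (f x)) (hW.1 x)
        linarith
    rw [h1, h2]
    have h5 : A / (1 - q) - (A + B) = A / (1 - q) * q - B := by
      field_simp
      ring
    have h6 : 0 ≤ A / (1 - q) := div_nonneg hA0 hq1.le
    have h7 : A / (1 - q) ≤ 1 := by
      rw [div_le_one hq1]
      exact hA1
    rw [h5, abs_le]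
    constructor
    · nlinarith [mul_nonneg h6 hq0]
    · nlinarith [mul_le_mul_of_nonneg_right h7 hq0]

theorem sip_comp (k u k' w : ℕ) (hu : 0 < u) (hw : w ≤ k' + 5 * u) :
    ∃ μ1 μ0 : ((Fin (k + 1) → Fin (4 * u) → Bool) → Bool) → ℝ, IsDist μ1 ∧ IsDist μ0 ∧
      (∀ x, TT (k + 1) x = false → μ1 x = 0) ∧ (∀ x, TT (k + 1) x = true → μ0 x = 0) ∧
      ∀ h ≤ k, ∀ f : ((Fin (k + 1) → Fin (4 * u) → Bool) → Bool) → Bool, Comp w h (2 ^ k') f →
        |∑ x, μ1 x * b2 (f x) - ∑ x, μ0 x * b2 (f x)| ≤
          64 * (k + 1) * (k' + 5 * u) / 2 ^ u := by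
  set W := k' + 5 * u with hWdef
  have hWr : ((k' : ℝ) + 5 * u) = (W : ℝ) := by
    rw [hWdef]
    push_cast
    ring
  rw [hWr]
  have hW0 : 0 < W := by omega
  have hpow : (0 : ℝ) < 2 ^ u := by positivity
  by_cases hbig : 2 ^ u ≤ 64 * (k + 1) * W
  · refine ⟨fun x => if x = (fun _ => true) then (1 : ℝ) else 0,
      fun x => if x = (fun _ => false) then (1 : ℝ) else 0, isDist_single _, isDist_single _,
      ?_, ?_, ?_⟩
    · intro x hx
      beta_reduce
      rw [if_neg]
      rintro rfl
      rw [TT_const] at hx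
      exact Bool.noConfusion hx
    · intro x hx
      beta_reduce
      rw [if_neg]
      rintro rfl
      rw [TT_const] at hx
      exact Bool.noConfusion hx
    · intro h hh f hf
      refine (dist_diff_le_one (isDist_single _) (isDist_single _) f).trans ?_
      rw [le_div_iff₀ hpow, one_mul]
      exact_mod_cast hbig
  · push Not at hbig
    set p : ℝ := 1 / 2 ^ u with hp
    have hp0 : 0 < p := by positivity
    have h2u : (1 : ℝ) ≤ 2 ^ u := one_le_pow₀ (by norm_num)
    have hp1 : p ≤ 1 := by
      rw [hp, div_le_one hpow]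
      exact h2u
    have hp2 : p < 1 := by
      rw [hp, div_lt_one hpow]
      exact one_lt_pow₀ (by norm_num) (by omega)
    have hbigr : 64 * ((k : ℝ) + 1) * W < 2 ^ u := by exact_mod_cast hbig
    have hWr1 : (1 : ℝ) ≤ W := by exact_mod_cast hW0
    have hk0 : (0 : ℝ) ≤ k := Nat.cast_nonneg k
    have hpw : 16 * p * W ≤ 1 := by
      rw [hp]
      have h1 : 16 * (1 / 2 ^ u) * (W : ℝ) = 16 * W / 2 ^ u := by ring
      rw [h1, div_le_one hpow]
      nlinarith [mul_nonneg hk0 (by linarith : (0 : ℝ) ≤ W)]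
    have hcard : Fintype.card (Fin (4 * u) → Bool) = 2 ^ (4 * u) := by
      rw [Fintype.card_fun, Fintype.card_bool, Fintype.card_fin]
    have hu5 : 320 * (k + 1) * u < 2 ^ u := by
      have h1 : 64 * (k + 1) * (5 * u) ≤ 64 * (k + 1) * W :=
        Nat.mul_le_mul_left _ (by omega)
      calc 320 * (k + 1) * u = 64 * (k + 1) * (5 * u) := by ring
        _ ≤ _ := h1
        _ < _ := hbig
    have hbad : ∀ b : Bool, Ex p k b (fun x : (Fin (k + 1) → Fin (4 * u) → Bool) → Bool =>
        if TT (k + 1) x = b then 0 else 1) ≤ p := by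
      intro b
      have h1 := bad_le_one (Y := Fin (4 * u) → Bool) k hp0.le hp1 b
      rw [hcard] at h1
      refine h1.trans ?_
      exact bad_num k u hu hu5
    obtain ⟨W1, hW1, hE1⟩ := Ex_dist (Y := Fin (4 * u) → Bool) hp0.le hp1 k true
    obtain ⟨W2, hW2, hE2⟩ := Ex_dist (Y := Fin (4 * u) → Bool) hp0.le hp1 k false
    have hb1 := hbad true
    rw [hE1] at hb1
    have hb2 := hbad false
    rw [hE2] at hb2
    obtain ⟨μ1, hμ1, hz1, hc1⟩ := cond_dist hW1 (fun x => TT (k + 1) x = true) hp2
      (by convert hb1)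
    obtain ⟨μ0, hμ0, hz0, hc0⟩ := cond_dist hW2 (fun x => TT (k + 1) x = false) hp2
      (by convert hb2)
    refine ⟨μ1, μ0, hμ1, hμ0, ?_, ?_, ?_⟩
    · intro x hx
      apply hz1
      rw [hx]
      exact Bool.noConfusion
    · intro x hx
      apply hz0
      rw [hx]
      exact Bool.noConfusion
    · intro h hh f hf
      have hmain : |Ex p k true (fun x => b2 (f x)) - Ex p k false (fun x => b2 (f x))| ≤
          (1 + 16 * k) * W / 2 ^ u := by
        have hsw := switch_num k k' u W (by omega) hbig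
        obtain ⟨s', level, g, h1, h2, h3, h4⟩ := hf
        rcases h4 with h4 | ⟨j, rfl⟩
        · have h5 := hide_dtd hp0.le hp1 k (h4.mono hw)
          refine h5.trans ?_
          rw [hp]
          rw [mul_one_div]
          apply div_le_div_of_nonneg_right _ hpow.le
          nlinarith [mul_nonneg hk0 (by linarith : (0 : ℝ) ≤ W)]
        · have h5 := hide hW0 hp0 hpw k 0 (h2.mono hw) (fun j hj => absurd hj (Nat.not_lt_zero _)) j
            (by have := h3 j; omega)
          refine h5.trans ?_
          have h6 : (k : ℝ) * (s' * (16 * p * W) ^ (W + 1)) ≤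
              (k : ℝ) * ((2 ^ k' : ℕ) * (16 * p * W) ^ (W + 1)) := by
            apply mul_le_mul_of_nonneg_left _ hk0
            apply mul_le_mul_of_nonneg_right
            · exact_mod_cast h1
            · positivity
          have h7 : (1 + 16 * (k : ℝ)) * W / 2 ^ u = W * p + 16 * k * W / 2 ^ u := by
            rw [hp]
            ring
          rw [h7]
          have h8 : (k : ℝ) * ((2 ^ k' : ℕ) * (16 * p * W) ^ (W + 1)) ≤ 16 * k * W / 2 ^ u := hsw
          linarith
      rw [hE1, hE2] at hmain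
      have hd1 := hc1 f
      have hd0 := hc0 f
      have hpW : p ≤ W / 2 ^ u := by
        rw [hp]
        exact div_le_div_of_nonneg_right hWr1 hpow.le
      have htri : |∑ x, μ1 x * b2 (f x) - ∑ x, μ0 x * b2 (f x)| ≤
          |∑ x, μ1 x * b2 (f x) - ∑ x, W1 x * b2 (f x)| +
          |∑ x, W1 x * b2 (f x) - ∑ x, W2 x * b2 (f x)| +
          |∑ x, μ0 x * b2 (f x) - ∑ x, W2 x * b2 (f x)| := by
        have e : ∑ x, μ1 x * b2 (f x) - ∑ x, μ0 x * b2 (f x) =
            (∑ x, μ1 x * b2 (f x) - ∑ x, W1 x * b2 (f x)) +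
            (∑ x, W1 x * b2 (f x) - ∑ x, W2 x * b2 (f x)) +
            -(∑ x, μ0 x * b2 (f x) - ∑ x, W2 x * b2 (f x)) := by ring
        rw [e]
        refine (abs_add_le _ _).trans ?_
        rw [abs_neg]
        have := abs_add_le (∑ x, μ1 x * b2 (f x) - ∑ x, W1 x * b2 (f x))
          (∑ x, W1 x * b2 (f x) - ∑ x, W2 x * b2 (f x))
        linarith
      have hfin : (1 + 16 * (k : ℝ)) * W / 2 ^ u + W / 2 ^ u + W / 2 ^ u ≤
          64 * (k + 1) * W / 2 ^ u := by
        rw [← add_div, ← add_div]
        apply div_le_div_of_nonneg_right _ hpow.le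
        nlinarith [mul_nonneg hk0 (by linarith : (0 : ℝ) ≤ W)]
      linarith

end Pool.Agent.Helper67.LB
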