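import Pool.Agent.Helper67.LB.KDefs
import Pool.Agent.Helper67.LB.TFin
import Pool.Agent.Helper67.LB.KCons

set_option autoImplicit false
set_option linter.unusedSectionVars false

/-!
The hard distributions for all keys. (LB-K5.)

* `sip_comp'`: `sip_comp` with `l = k' + 1` (cases on `l`).
* `dist_key`. For `κ = none` take `EQP.avg_comp (k + 1) (par κs) K w` (`0 < par κs = 4 * κs.length + 4`,
  `w ≤ K + 5 * par κs`); `Comp w k` implies `Comp w (k + 1)` (`Comp.mono`). The bound is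
  `160 * (32 * (K + 5 * par κs)) ^ (k + 2) / √(2 ^ par κs)`, with `√(2 ^ par κs) = 4 * 4 ^ κs.length`
  (see the end of `EQP.stage2` in `EQP/CStage.lean`) and `5 * par κs ≤ 20 * t + 20`.
  For `κ = some κ'` with `0 < lam (ones κ')` take `sip_comp'` with `u = 8 * (κ'.length + 1)`
  (`wid κ' = 4 * u` by definition): the bound is
  `64 * lam (ones κ') * (K + 40 * (κ'.length + 1)) / 2 ^ (8 * (κ'.length + 1))` and
  `4 ^ κ'.length ≤ 2 ^ (8 * (κ'.length + 1))`, `κ'.length ≤ t`. For `lam (ones κ') = 0` take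
  point masses (`EQP.isDist_single`) at a yes-instance and a no-instance (`exists_Yk`, `exists_Nk`); there is
  nothing to prove for the bound because `k < lam (ones κ')` is impossible.
* `num_key`: everything is bounded by a constant times a power of `n`: `EQP.pow_lt_two_pow`.
-/

namespace Pool.Agent.Helper67.LB

open Finset Function Classical
open Pool.Agent.Helper67.EQP

theorem sip_comp' (l u k' w : ℕ) (hl : 0 < l) (hu : 0 < u) (hw : w ≤ k' + 5 * u) :
    ∃ μ1 μ0 : ((Fin l → Fin (4 * u) → Bool) → Bool) → ℝ, IsDist μ1 ∧ IsDist μ0 ∧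
      (∀ x, TT l x = false → μ1 x = 0) ∧ (∀ x, TT l x = true → μ0 x = 0) ∧
      ∀ h < l, ∀ f : ((Fin l → Fin (4 * u) → Bool) → Bool) → Bool, Comp w h (2 ^ k') f →
        |∑ x, μ1 x * b2 (f x) - ∑ x, μ0 x * b2 (f x)| ≤ 64 * l * (k' + 5 * u) / 2 ^ u := by
  obtain ⟨k, rfl⟩ : ∃ k, l = k + 1 := ⟨l - 1, by omega⟩
  obtain ⟨μ1, μ0, h1, h0, hs1, hs0, hb⟩ := sip_comp k u k' w hu hw
  refine ⟨μ1, μ0, h1, h0, hs1, hs0, fun h hh f hf => ?_⟩
  have h2 := hb h (by omega) f hf
  push_cast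
  exact h2

/-- The bound. -/
def QQ (k K t Lam : ℕ) : ℕ := 160 * (32 * (K + 20 * t + 20)) ^ (k + 2) + 64 * Lam * (K + 40 * (t + 1))

theorem dist_key (lam : ℕ → ℕ) (κs : List Bool) (k K w t Lam : ℕ) (hw : w ≤ K)
    (κ : Option (List Bool)) :
    ∃ μ1 μ0 : (iK lam κs κ → Bool) → ℝ, IsDist μ1 ∧ IsDist μ0 ∧
      (∀ x, ¬ Yk lam κs κ x → μ1 x = 0) ∧ (∀ x, ¬ Nk lam κs κ x → μ0 x = 0) ∧
      (rkO κs.length κ ≤ t → (∀ κ', κ = some κ' → k < lam (ones κ') ∧ lam (ones κ') ≤ Lam) →
        ∀ f : (iK lam κs κ → Bool) → Bool, Comp w k (2 ^ K) f →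
          |∑ x, μ1 x * b2 (f x) - ∑ x, μ0 x * b2 (f x)| ≤
            (QQ k K t Lam : ℝ) / 4 ^ rkO κs.length κ) := by
  rcases κ with _ | κ'
  · obtain ⟨μ1, μ0, h1, h0, hs1, hs0, hb⟩ := avg_comp (k + 1) (par κs) K w
      (by rw [show par κs = 4 * κs.length + 4 from rfl]; omega) (Nat.succ_pos _) (by omega)
    refine ⟨μ1, μ0, h1, h0, hs1, hs0, ?_⟩
    intro ht _ f hf
    have ht' : κs.length ≤ t := ht
    have hf' : Comp w (k + 1) (2 ^ K) f := Comp.mono hf (Nat.le_succ k) le_rfl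
    refine (hb f hf').trans ?_
    have e1 : Real.sqrt (2 ^ par κs) = 4 * 4 ^ κs.length := by
      rw [Real.sqrt_eq_iff_mul_self_eq (by positivity) (by positivity)]
      have : (4 : ℝ) ^ κs.length = 2 ^ (2 * κs.length) := by
        rw [pow_mul]; norm_num
      rw [this]
      rw [show par κs = 4 * κs.length + 4 from rfl]
      ring
    rw [e1]
    change _ ≤ (QQ k K t Lam : ℝ) / 4 ^ κs.length
    apply div_le_div₀ (Nat.cast_nonneg _)
    · unfold QQ
      push_cast
      have h5 : ((κs.length : ℕ) : ℝ) ≤ t := by exact_mod_cast ht'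
      have h6 : (32 * ((K : ℝ) + 5 * (4 * κs.length + 4)) : ℝ) ≤ 32 * ((K : ℝ) + 20 * t + 20) := by
        linarith
      have h7 : (0 : ℝ) ≤ 32 * ((K : ℝ) + 5 * (4 * κs.length + 4)) := by positivity
      have h8 := pow_le_pow_left₀ h7 h6 (k + 1 + 1)
      have h9 : (0 : ℝ) ≤ 64 * Lam * (K + 40 * (t + 1)) := by positivity
      have h10 : k + 1 + 1 = k + 2 := rfl
      rw [h10] at h8 ⊢
      linarith
    · positivity
    · have : (0 : ℝ) < 4 ^ κs.length := by positivity
      linarith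
  · by_cases hl : 0 < lam (ones κ')
    · obtain ⟨μ1, μ0, h1, h0, hs1, hs0, hb⟩ := sip_comp' (lam (ones κ')) (8 * (κ'.length + 1)) K w hl
        (by omega) (by omega)
      refine ⟨μ1, μ0, h1, h0, ?_, ?_, ?_⟩
      · intro x hx
        apply hs1
        have hx' : ¬ (TT (Y := Fin (wid κ') → Bool) (lam (ones κ')) x = true) := hx
        exact Bool.eq_false_iff.mpr hx'
      · intro x hx
        apply hs0
        have hx' : ¬ (TT (Y := Fin (wid κ') → Bool) (lam (ones κ')) x = false) := hx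
        cases h : TT (Y := Fin (wid κ') → Bool) (lam (ones κ')) x with
        | true => rfl
        | false => exact absurd h hx'
      · intro ht hk f hf
        have ht' : κ'.length ≤ t := ht
        obtain ⟨hk1, hk2⟩ := hk κ' rfl
        refine (hb k hk1 f hf).trans ?_
        change _ ≤ (QQ k K t Lam : ℝ) / 4 ^ κ'.length
        apply div_le_div₀ (Nat.cast_nonneg _)
        · unfold QQ
          push_cast
          have h5 : ((κ'.length : ℕ) : ℝ) ≤ t := by exact_mod_cast ht'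
          have h6 : ((lam (ones κ') : ℕ) : ℝ) ≤ Lam := by exact_mod_cast hk2
          have h7 : (K : ℝ) + 5 * (8 * (κ'.length + 1)) ≤ K + 40 * (t + 1) := by linarith
          have h8 : (64 : ℝ) * lam (ones κ') * (K + 5 * (8 * (κ'.length + 1))) ≤
              64 * Lam * (K + 40 * (t + 1)) := by
            apply mul_le_mul
            · linarith
            · exact h7
            · positivity
            · positivity
          have h9 : (0 : ℝ) ≤ 160 * (32 * (K + 20 * t + 20)) ^ (k + 2) := by positivity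
          linarith
        · positivity
        · have h5 : (4 : ℝ) ^ κ'.length = 2 ^ (2 * κ'.length) := by
            rw [pow_mul]; norm_num
          rw [h5]
          exact pow_le_pow_right₀ (by norm_num) (by omega)
    · obtain ⟨y, hy⟩ := exists_Yk lam κs (some κ')
      obtain ⟨z, hz⟩ := exists_Nk lam κs (some κ')
      refine ⟨fun x => if x = y then 1 else 0, fun x => if x = z then 1 else 0,
        isDist_single _, isDist_single _, ?_, ?_, ?_⟩
      · intro x hx
        beta_reduce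
        rw [if_neg]
        rintro rfl
        exact hx hy
      · intro x hx
        beta_reduce
        rw [if_neg]
        rintro rfl
        exact hx hz
      · intro _ hk
        have := (hk κ' rfl).1
        omega

theorem num_key (k c Lam : ℕ) : ∃ n1, ∀ n ≥ n1,
    8 * QQ k ((n ^ c + c + 1) * k + (n ^ c + c) * (1 + (n ^ c + c) ^ 7)) (n ^ c + c) Lam <
      2 ^ n := by
  obtain ⟨n1, hn1⟩ := pow_lt_two_pow (8 * (160 * (32 * (k + 22)) ^ (k + 2) + 64 * Lam * (k + 42)) *
    (c + 2) ^ (8 * (k + 2))) (c * (8 * (k + 2)))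
  refine ⟨max n1 1, fun n hn => ?_⟩
  have h1 := hn1 n (le_trans (le_max_left _ _) hn)
  have hn0 : 1 ≤ n := le_trans (le_max_right _ _) hn
  refine lt_of_le_of_lt ?_ h1
  set T := n ^ c + c with hT
  set S := (c + 2) * n ^ c with hS
  have hnc : 1 ≤ n ^ c := Nat.one_le_pow _ _ hn0
  have hTS : T + 1 ≤ S := by
    have e : (c + 2) * n ^ c = n ^ c + (c + 1) * n ^ c := by ring
    have h2 : (c + 1) * 1 ≤ (c + 1) * n ^ c := Nat.mul_le_mul_left _ hnc
    rw [hS, e]
    omega
  have hS1 : 1 ≤ S := by omega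
  have hS8 : S ≤ S ^ 8 := Nat.le_self_pow (by norm_num) S
  have hT8 : T * T ^ 7 ≤ S ^ 8 := by
    calc T * T ^ 7 = T ^ 8 := by ring
      _ ≤ S ^ 8 := Nat.pow_le_pow_left (by omega) 8
  have hK : (T + 1) * k + T * (1 + T ^ 7) ≤ S ^ 8 * (k + 2) := by
    have h3 : (T + 1) * k ≤ S ^ 8 * k := Nat.mul_le_mul_right _ (by omega)
    have h4 : T * (1 + T ^ 7) = T + T * T ^ 7 := by ring
    have h5 : S ^ 8 * (k + 2) = S ^ 8 * k + S ^ 8 + S ^ 8 := by ring
    rw [h4, h5]
    omega
  set K := (T + 1) * k + T * (1 + T ^ 7) with hKdef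
  have hA : 32 * (K + 20 * T + 20) ≤ 32 * (k + 22) * S ^ 8 := by
    have h5 : 32 * (k + 22) * S ^ 8 = 32 * (S ^ 8 * (k + 2) + 20 * S ^ 8) := by ring
    rw [h5]
    apply Nat.mul_le_mul_left
    omega
  have hB : K + 40 * (T + 1) ≤ (k + 42) * S ^ 8 := by
    have h5 : (k + 42) * S ^ 8 = S ^ 8 * (k + 2) + 40 * S ^ 8 := by ring
    rw [h5]
    omega
  have hSS : S ^ 8 ≤ S ^ (8 * (k + 2)) := Nat.pow_le_pow_right hS1 (by omega)
  have hpow : (32 * (K + 20 * T + 20)) ^ (k + 2) ≤ (32 * (k + 22)) ^ (k + 2) * S ^ (8 * (k + 2)) := by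
    calc (32 * (K + 20 * T + 20)) ^ (k + 2) ≤ (32 * (k + 22) * S ^ 8) ^ (k + 2) :=
          Nat.pow_le_pow_left hA _
      _ = _ := by rw [mul_pow, ← pow_mul]
  have hfin : QQ k K T Lam ≤ (160 * (32 * (k + 22)) ^ (k + 2) + 64 * Lam * (k + 42)) *
      S ^ (8 * (k + 2)) := by
    unfold QQ
    calc 160 * (32 * (K + 20 * T + 20)) ^ (k + 2) + 64 * Lam * (K + 40 * (T + 1)) ≤
        160 * ((32 * (k + 22)) ^ (k + 2) * S ^ (8 * (k + 2))) +
          64 * Lam * ((k + 42) * S ^ (8 * (k + 2))) := by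
          apply Nat.add_le_add
          · exact Nat.mul_le_mul_left _ hpow
          · exact Nat.mul_le_mul_left _ (hB.trans (Nat.mul_le_mul_left _ hSS))
      _ = _ := by ring
  calc 8 * QQ k K T Lam ≤ 8 * ((160 * (32 * (k + 22)) ^ (k + 2) + 64 * Lam * (k + 42)) *
      S ^ (8 * (k + 2))) := Nat.mul_le_mul_left _ hfin
    _ = _ := by
      rw [hS, mul_pow (c + 2) (n ^ c) (8 * (k + 2)), ← pow_mul]
      ring

end Pool.Agent.Helper67.LB
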