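import Pool.Agent.Helper67.EQP.CHyb

set_option autoImplicit false
set_option linter.unusedSectionVars false

/-!
The abstract hybrid argument. (LB-H1; this is `EE`, `EE_congr`, `EE_diff`, `hyb`, `hyb_main` of
`EQP/CHyb.lean` for an arbitrary set `K` of keys.)

Every key `κ` has a rank `rk κ` and a content `X κ : ι κ → Bool`. `B κ X` depends only on the
contents of the keys of smaller rank. `Cons B X` says that the content of `κ` is a yes-instance
(`Yp`) if `B κ X` and a no-instance (`Np`) otherwise.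

* `exists_cons`: `EQP.exists_fix` for the operator
  `Φ X κ = if rk κ < m then X0 κ else if B κ X then (a yes-instance) else (a no-instance)`, provided
  that `X0` is consistent below `m`.
* `cons_update`: similarly with
  `Φ X' κ' = if κ' = κ then y else if rk κ' ≤ rk κ then X κ' else (a yes- or no-instance according to
  B κ' X')`.
* `EE_congrK`, `EE_diffK`: as in `CHyb.lean`.
* `hybK`: as `EQP.hyb`: by induction on `ks` for all `X` with `Cons B X`:
  `|EEK μ0 g ks X - v| ≤ (ks.map ε).sum`. Step `κ :: ks`: for every `y` which is a valid content of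
  `κ` given `B κ X`, let `X'` be given by `cons_update`; then
  `EEK μ0 g ks X' = EEK μ0 g ks (update X κ y)` by `EE_congrK` because a key `κ' ∉ ks` with `rk κ' ≤ b`
  has `rk κ' ≤ rk κ`. So `|EEK μ0 g ks (update X κ y) - v| ≤ S` for all valid `y`; average over
  `μ1 κ` or `μ0 κ` (`EQP.dist_near`), and use `EE_diffK` if `B κ X` holds.
* `hyb_mainK`: let `X1` be consistent for `B1` and let `X0` be consistent for `B0` and equal to `X1` on all
  keys of rank `< n` (`exists_cons`). `EEK μ0 g L X1 = EEK μ0 g L X0` by `EE_congrK`. So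
  `1 = |1 - 0| ≤ 2 * (L.map ε).sum`.
-/

namespace Pool.Agent.Helper67.LB

open Finset Function Classical
open Pool.Agent.Helper67.EQP

variable {K : Type} {ι : K → Type} [∀ κ, Fintype (ι κ)] [∀ κ, DecidableEq (ι κ)]

/-- Contents of all keys. -/
abbrev ContK (ι : K → Type) : Type := (κ : K) → ι κ → Bool

/-- Average over the contents of the keys in the list. -/
noncomputable def EEK (μ : (κ : K) → (ι κ → Bool) → ℝ) (g : ContK ι → ℝ) :
    List K → ContK ι → ℝ
  | [], X => g X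
  | κ :: ks, X => ∑ z, μ κ z * EEK μ g ks (update X κ z)

/-- The contents are the right ones. -/
def Cons (Yp Np : (κ : K) → (ι κ → Bool) → Prop) (B : K → ContK ι → Prop) (X : ContK ι) : Prop :=
  ∀ κ, (B κ X → Yp κ (X κ)) ∧ (¬ B κ X → Np κ (X κ))

/-- Lists of keys sorted by rank and complete above. -/
def GoodLK (rk : K → ℕ) (n b : ℕ) : List K → Prop
  | [] => True
  | κ :: ks => κ ∉ ks ∧ n ≤ rk κ ∧ (∀ κ', rk κ' ≤ b → κ' ∉ ks → rk κ' ≤ rk κ) ∧
      GoodLK rk n b ks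

theorem EE_congrK {rk : K → ℕ} {μ : (κ : K) → (ι κ → Bool) → ℝ} {g : ContK ι → ℝ} {b : ℕ}
    (hg : ∀ X X' : ContK ι, (∀ κ, rk κ ≤ b → X κ = X' κ) → g X = g X') (ks : List K) :
    ∀ X X' : ContK ι, (∀ κ, κ ∉ ks → rk κ ≤ b → X κ = X' κ) → EEK μ g ks X = EEK μ g ks X' := by
  induction ks with
  | nil =>
    intro X X' h
    exact hg X X' (fun κ hκ => h κ (by simp) hκ)
  | cons κ ks ih =>
    intro X X' h
    unfold EEK
    apply sum_congr rfl
    intro z _
    rw [ih (update X κ z) (update X' κ z)]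
    intro κ' hκ' hl
    by_cases hk : κ' = κ
    · subst hk
      rw [update_self, update_self]
    · rw [update_of_ne hk, update_of_ne hk]
      exact h κ' (by simp [hk, hκ']) hl

theorem EE_diffK {μ : (κ : K) → (ι κ → Bool) → ℝ} {g : ContK ι → ℝ} (hμ : ∀ κ, IsDist (μ κ))
    {κ : K} {μ1 : (ι κ → Bool) → ℝ} {ε : ℝ}
    (hd : ∀ X : ContK ι,
      |∑ y, μ1 y * g (update X κ y) - ∑ z, μ κ z * g (update X κ z)| ≤ ε)
    (ks : List K) (hks : κ ∉ ks) (X : ContK ι) :
    |∑ y, μ1 y * EEK μ g ks (update X κ y) - ∑ z, μ κ z * EEK μ g ks (update X κ z)| ≤ ε := by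
  induction ks generalizing X with
  | nil => exact hd X
  | cons κ' ks ih =>
    have hne : κ ≠ κ' := fun h => hks (by simp [h])
    have hks' : κ ∉ ks := fun h => hks (by simp [h])
    have hcomm : ∀ y z', update (update X κ y) κ' z' = update (update X κ' z') κ y :=
      fun y z' => update_comm hne y z' X
    have h1 : ∀ ν : (ι κ → Bool) → ℝ,
        ∑ y, ν y * EEK μ g (κ' :: ks) (update X κ y) =
        ∑ z', μ κ' z' * ∑ y, ν y * EEK μ g ks (update (update X κ' z') κ y) := by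
      intro ν
      have : ∀ y, ν y * EEK μ g (κ' :: ks) (update X κ y) =
          ∑ z', μ κ' z' * (ν y * EEK μ g ks (update (update X κ' z') κ y)) := by
        intro y
        change ν y * (∑ z', μ κ' z' * EEK μ g ks (update (update X κ y) κ' z')) = _
        rw [mul_sum]
        apply sum_congr rfl
        intro z' _
        rw [hcomm]
        ring
      simp_rw [this]
      rw [sum_comm]
      apply sum_congr rfl
      intro z' _
      rw [mul_sum]
    rw [h1, h1, ← sum_sub_distrib]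
    simp_rw [← mul_sub]
    calc |∑ z', μ κ' z' * (∑ y, μ1 y * EEK μ g ks (update (update X κ' z') κ y) -
          ∑ y, μ κ y * EEK μ g ks (update (update X κ' z') κ y))|
        ≤ ∑ z', |μ κ' z' * (∑ y, μ1 y * EEK μ g ks (update (update X κ' z') κ y) -
          ∑ y, μ κ y * EEK μ g ks (update (update X κ' z') κ y))| := abs_sum_le_sum_abs _ _
      _ ≤ ∑ z', μ κ' z' * ε := by
          apply sum_le_sum
          intro z' _
          rw [abs_mul, abs_of_nonneg ((hμ κ').1 z')]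
          exact mul_le_mul_of_nonneg_left (ih hks' _) ((hμ κ').1 z')
      _ = ε := by rw [← sum_mul, (hμ κ').2, one_mul]

variable {Yp Np : (κ : K) → (ι κ → Bool) → Prop}

theorem exists_cons {rk : K → ℕ} (hY : ∀ κ, ∃ y, Yp κ y) (hN : ∀ κ, ∃ y, Np κ y)
    {B : K → ContK ι → Prop}
    (hB : ∀ κ X X', (∀ κ', rk κ' < rk κ → X κ' = X' κ') → (B κ X ↔ B κ X')) (m : ℕ)
    (X0 : ContK ι) (h0 : ∀ κ, rk κ < m → (B κ X0 → Yp κ (X0 κ)) ∧ (¬ B κ X0 → Np κ (X0 κ))) :
    ∃ X, Cons Yp Np B X ∧ ∀ κ, rk κ < m → X κ = X0 κ := by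
  choose yY hyY using hY
  choose yN hyN using hN
  obtain ⟨X, hX⟩ := exists_fix (V := fun κ => ι κ → Bool) rk
    (fun (X : ContK ι) κ => if rk κ < m then X0 κ else if B κ X then yY κ else yN κ) X0 (by
      intro κ X X' h
      by_cases hm : rk κ < m
      · rw [if_pos hm, if_pos hm]
      · rw [if_neg hm, if_neg hm]
        have := hB κ X X' h
        simp only [this])
  have hlow : ∀ κ, rk κ < m → X κ = X0 κ := by
    intro κ hκ
    rw [hX κ]
    exact if_pos hκ
  refine ⟨X, ?_, hlow⟩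
  intro κ
  by_cases hm : rk κ < m
  · have h1 : B κ X ↔ B κ X0 := hB κ X X0 (fun κ' h' => hlow κ' (by omega))
    rw [hlow κ hm, h1]
    exact h0 κ hm
  · have h2 : X κ = if B κ X then yY κ else yN κ := by
      have h3 := hX κ
      simp only [if_neg hm] at h3
      exact h3
    constructor
    · intro hb
      rw [h2, if_pos hb]
      exact hyY κ
    · intro hb
      rw [h2, if_neg hb]
      exact hyN κ

theorem cons_update {rk : K → ℕ} (hY : ∀ κ, ∃ y, Yp κ y) (hN : ∀ κ, ∃ y, Np κ y)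
    {B : K → ContK ι → Prop}
    (hB : ∀ κ X X', (∀ κ', rk κ' < rk κ → X κ' = X' κ') → (B κ X ↔ B κ X')) {X : ContK ι}
    (hX : Cons Yp Np B X) (κ : K) (y : ι κ → Bool) (hy1 : B κ X → Yp κ y)
    (hy0 : ¬ B κ X → Np κ y) :
    ∃ X', Cons Yp Np B X' ∧ X' κ = y ∧ ∀ κ', κ' ≠ κ → rk κ' ≤ rk κ → X' κ' = X κ' := by
  choose yY hyY using hY
  choose yN hyN using hN
  obtain ⟨X', hX'⟩ := exists_fix (V := fun κ => ι κ → Bool) rk
    (fun (Z : ContK ι) => update (fun κ' => if rk κ' ≤ rk κ then X κ' else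
      if B κ' Z then yY κ' else yN κ') κ y) X (by
      intro κ' Z Z' h
      by_cases hk : κ' = κ
      · subst hk
        rw [update_self, update_self]
      · rw [update_of_ne hk, update_of_ne hk]
        by_cases hm : rk κ' ≤ rk κ
        · rw [if_pos hm, if_pos hm]
        · rw [if_neg hm, if_neg hm]
          have := hB κ' Z Z' h
          simp only [this])
  have e1 : X' κ = y := by
    rw [hX' κ, update_self]
  have e2 : ∀ κ', κ' ≠ κ → rk κ' ≤ rk κ → X' κ' = X κ' := by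
    intro κ' hk hr
    rw [hX' κ', update_of_ne hk, if_pos hr]
  refine ⟨X', ?_, e1, e2⟩
  intro κ'
  by_cases hk : κ' = κ
  · subst hk
    have h1 : B κ' X' ↔ B κ' X := hB κ' X' X (fun κ'' h'' => e2 κ'' (by rintro rfl; omega)
      (by omega))
    rw [h1, e1]
    exact ⟨hy1, hy0⟩
  · by_cases hr : rk κ' ≤ rk κ
    · have h1 : B κ' X' ↔ B κ' X := hB κ' X' X (fun κ'' h'' => e2 κ'' (by rintro rfl; omega)
        (by omega))
      rw [h1, e2 κ' hk hr]
      exact hX κ'
    · have h2 : X' κ' = if B κ' X' then yY κ' else yN κ' := by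
        have h3 := hX' κ'
        rw [update_of_ne hk, if_neg hr] at h3
        exact h3
      constructor
      · intro hb
        rw [h2, if_pos hb]
        exact hyY κ'
      · intro hb
        rw [h2, if_neg hb]
        exact hyN κ'

theorem hybK {rk : K → ℕ} (hY : ∀ κ, ∃ y, Yp κ y) (hN : ∀ κ, ∃ y, Np κ y)
    {B : K → ContK ι → Prop}
    (hB : ∀ κ X X', (∀ κ', rk κ' < rk κ → X κ' = X' κ') → (B κ X ↔ B κ X'))
    {μ1 μ0 : (κ : K) → (ι κ → Bool) → ℝ} (h1 : ∀ κ, IsDist (μ1 κ)) (h0 : ∀ κ, IsDist (μ0 κ))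
    (hs1 : ∀ κ x, ¬ Yp κ x → μ1 κ x = 0) (hs0 : ∀ κ x, ¬ Np κ x → μ0 κ x = 0)
    {g : ContK ι → ℝ} {n b : ℕ} {ε : K → ℝ}
    (hg : ∀ X X' : ContK ι, (∀ κ, rk κ ≤ b → X κ = X' κ) → g X = g X')
    (hd : ∀ κ, n ≤ rk κ → rk κ ≤ b → ∀ X : ContK ι,
      |∑ y, μ1 κ y * g (update X κ y) - ∑ z, μ0 κ z * g (update X κ z)| ≤ ε κ)
    {v : ℝ} (hv : ∀ X, Cons Yp Np B X → g X = v) (ks : List K) (hks : GoodLK rk n b ks)
    (hb : ∀ κ ∈ ks, rk κ ≤ b) :
    ∀ X, Cons Yp Np B X → |EEK μ0 g ks X - v| ≤ (ks.map ε).sum := by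
  induction ks with
  | nil =>
    intro X hX
    change |g X - v| ≤ 0
    rw [hv X hX, sub_self, abs_zero]
  | cons κ ks ih =>
    intro X hX
    obtain ⟨g1, g2, g3, g4⟩ := hks
    have hbκ : rk κ ≤ b := hb κ (by simp)
    have IH := ih g4 (fun κ' h => hb κ' (by simp [h]))
    set S := (ks.map ε).sum with hS
    have hεκ : 0 ≤ ε κ := (abs_nonneg _).trans (hd κ g2 hbκ X)
    have hrepl : ∀ y : ι κ → Bool, (B κ X → Yp κ y) → (¬ B κ X → Np κ y) →
        |EEK μ0 g ks (update X κ y) - v| ≤ S := by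
      intro y hy1 hy0
      obtain ⟨X', c1, c2, c3⟩ := cons_update hY hN hB hX κ y hy1 hy0
      have h2 := IH X' c1
      have h3 : EEK μ0 g ks X' = EEK μ0 g ks (update X κ y) := by
        apply EE_congrK hg
        intro κ' hκ' hl
        by_cases hk : κ' = κ
        · subst hk
          rw [update_self, c2]
        · rw [update_of_ne hk]
          exact c3 κ' hk (g3 κ' hl hκ')
      rw [h3] at h2
      exact h2
    have hE : EEK μ0 g (κ :: ks) X = ∑ z, μ0 κ z * EEK μ0 g ks (update X κ z) := rfl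
    rw [hE, List.map_cons, List.sum_cons, ← hS]
    by_cases ha : B κ X
    · have h2 : |∑ y, μ1 κ y * EEK μ0 g ks (update X κ y) - v| ≤ S := by
        apply dist_near (h1 κ) (hs1 κ)
        intro y hy
        exact hrepl y (fun _ => hy) (fun h => absurd ha h)
      have h3 := EE_diffK h0 (hd κ g2 hbκ) ks g1 X
      have h4 : ∑ z, μ0 κ z * EEK μ0 g ks (update X κ z) - v =
          (∑ y, μ1 κ y * EEK μ0 g ks (update X κ y) - v) -
          (∑ y, μ1 κ y * EEK μ0 g ks (update X κ y) -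
            ∑ z, μ0 κ z * EEK μ0 g ks (update X κ z)) := by ring
      rw [h4]
      have h5 := abs_sub (∑ y, μ1 κ y * EEK μ0 g ks (update X κ y) - v)
          (∑ y, μ1 κ y * EEK μ0 g ks (update X κ y) -
            ∑ z, μ0 κ z * EEK μ0 g ks (update X κ z))
      linarith
    · have h2 : |∑ z, μ0 κ z * EEK μ0 g ks (update X κ z) - v| ≤ S := by
        apply dist_near (h0 κ) (hs0 κ)
        intro z hz
        exact hrepl z (fun h => absurd h ha) (fun _ => hz)
      linarith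

theorem hyb_mainK {rk : K → ℕ} (hY : ∀ κ, ∃ y, Yp κ y) (hN : ∀ κ, ∃ y, Np κ y)
    {B1 B0 : K → ContK ι → Prop}
    (hB1 : ∀ κ X X', (∀ κ', rk κ' < rk κ → X κ' = X' κ') → (B1 κ X ↔ B1 κ X'))
    (hB0 : ∀ κ X X', (∀ κ', rk κ' < rk κ → X κ' = X' κ') → (B0 κ X ↔ B0 κ X'))
    {μ1 μ0 : (κ : K) → (ι κ → Bool) → ℝ} (h1 : ∀ κ, IsDist (μ1 κ)) (h0 : ∀ κ, IsDist (μ0 κ))
    (hs1 : ∀ κ x, ¬ Yp κ x → μ1 κ x = 0) (hs0 : ∀ κ x, ¬ Np κ x → μ0 κ x = 0)
    {g : ContK ι → ℝ} {n b : ℕ} {ε : K → ℝ}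
    (hBB : ∀ κ X, rk κ < n → (B1 κ X ↔ B0 κ X))
    (hg : ∀ X X' : ContK ι, (∀ κ, rk κ ≤ b → X κ = X' κ) → g X = g X')
    (hd : ∀ κ, n ≤ rk κ → rk κ ≤ b → ∀ X : ContK ι,
      |∑ y, μ1 κ y * g (update X κ y) - ∑ z, μ0 κ z * g (update X κ z)| ≤ ε κ)
    (hv1 : ∀ X, Cons Yp Np B1 X → g X = 1) (hv0 : ∀ X, Cons Yp Np B0 X → g X = 0)
    (L : List K) (hL : GoodLK rk n b L) (hLb : ∀ κ ∈ L, rk κ ≤ b)
    (hLc : ∀ κ, n ≤ rk κ → rk κ ≤ b → κ ∈ L) : 1 ≤ 2 * (L.map ε).sum := by
  obtain ⟨X1, c1, _⟩ := exists_cons hY hN hB1 0 (fun κ => choose (hY κ))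
    (fun κ hκ => absurd hκ (Nat.not_lt_zero _))
  obtain ⟨X0, c0, e0⟩ := exists_cons hY hN hB0 n X1 (by
    intro κ hκ
    rw [← hBB κ X1 hκ]
    exact c1 κ)
  have b1 := hybK hY hN hB1 h1 h0 hs1 hs0 hg hd hv1 L hL hLb X1 c1
  have b0 := hybK hY hN hB0 h1 h0 hs1 hs0 hg hd hv0 L hL hLb X0 c0
  have e : EEK μ0 g L X1 = EEK μ0 g L X0 := by
    apply EE_congrK hg
    intro κ hκ hl
    have hlt : rk κ < n := by
      by_contra hlt
      exact hκ (hLc κ (by omega) hl)
    exact (e0 κ hlt).symm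
  rw [e] at b1
  have d1 := abs_le.mp b1
  have d0 := abs_le.mp b0
  linarith [d1.1, d0.2]

end Pool.Agent.Helper67.LB
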