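import Pool.Agent.Helper67.EQP.ODefs
import Pool.Agent.Helper67.EQP.CDefs

set_option autoImplicit false

/-!
# Machines and codes for the location of BQP in the polynomial hierarchy
-/

namespace Pool.Agent.Helper67.LB

open Pool.Agent.Helper67.EQP

/-- A `Σ_k` oracle machine, run on the inputs `1^n`: for some constant `c` it guesses `k`
alternately quantified strings of length `n^c + c`, the first one existentially, and then asks at
most `n^c + c` adaptive queries to the oracle, each of length at most `n^c + c`. (No uniformity is
required.) -/
structure SMachine (k : ℕ) where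
  c : ℕ
  tree : (n : ℕ) → (Fin k → Fin (n ^ c + c) → Bool) → DTree (List Bool)
  depth_le : ∀ n y, (tree n y).depth ≤ n ^ c + c
  short : ∀ n y, (tree n y).All (fun s => s.length ≤ n ^ c + c)

/-- The machine accepts `1^n` relative to the oracle `A`. -/
def SMachine.Accepts {k : ℕ} (M : SMachine k) (A : List Bool → Bool) (n : ℕ) : Prop :=
  Alt k true (fun y => (M.tree n y).eval A = true)

/-- A quantum oracle machine: for some constant `c` and every input `x` a quantum oracle circuit
with at most `|x|^c + c` operations (three-qubit gates, and oracle gates which read at most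
`|x|^c + c` qubits). (No uniformity is required, and arbitrary unitary gates are allowed.) -/
structure QMachine where
  c : ℕ
  circ : List Bool → QCircuit
  size : ∀ x, (circ x).ops.length ≤ x.length ^ c + c
  unitary : ∀ x U e, QOp.gate U e ∈ (circ x).ops → U ∈ Matrix.unitaryGroup (Fin 3 → Bool) ℂ
  short : ∀ x l, QOp.query l ∈ (circ x).ops → l.length ≤ x.length ^ c + c

/-- The bound on the size of the circuit and on the length of the queries. -/
def QMachine.time (Q : QMachine) (x : List Bool) : ℕ := x.length ^ Q.c + Q.c

/-- The machine has bounded error relative to the oracle `A`. -/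
def QMachine.Bounded (Q : QMachine) (A : List Bool → Bool) : Prop :=
  ∀ x, (Q.circ x).acceptProb A ≤ 1 / 3 ∨ 2 / 3 ≤ (Q.circ x).acceptProb A

/-- The machine accepts `x` relative to the oracle `A` with probability at least `2/3`. -/
def QMachine.Acc (Q : QMachine) (A : List Bool → Bool) (x : List Bool) : Prop :=
  2 / 3 ≤ (Q.circ x).acceptProb A

/-- The string `1^i 0 1^e 0 1^T 0 x`, where `T` is a polynomial in the size of the circuit. -/
def QMachine.code (Q : QMachine) (i e : ℕ) (x : List Bool) : List Bool :=
  List.replicate i true ++ false :: pcode e ((144 * (Q.time x + 1)) ^ 4) x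

/-- The length of the quantified strings in the queries for the code `κ`. -/
abbrev wid (κ : List Bool) : ℕ := 4 * (8 * (κ.length + 1))

/-- Concatenation of strings. -/
def cat {k m : ℕ} (y : Fin k → Fin m → Bool) : List Bool :=
  (List.ofFn (fun j => List.ofFn (y j))).flatten

/-- The query `1 1 κ y_1 ... y_k`. -/
def mstr {k m : ℕ} (κ : List Bool) (y : Fin k → Fin m → Bool) : List Bool :=
  true :: true :: (κ ++ cat y)

/-- The query `1 0 1^k 0 1^n 0 y_1 ... y_k`. -/
def fstr {k m : ℕ} (n : ℕ) (y : Fin k → Fin m → Bool) : List Bool :=
  true :: false :: (List.replicate k true ++ false :: (List.replicate n true ++ false :: cat y))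

/-- The code `1^s 0 1^e 0 1^n`. -/
def rcode (s e n : ℕ) : List Bool :=
  List.replicate s true ++ false :: (List.replicate e true ++ false :: List.replicate n true)

end Pool.Agent.Helper67.LB
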