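import Pool.Agent.Helper67.LB.WRight

set_option autoImplicit false
set_option linter.unusedSectionVars false

/-!
Conditions of the forcing construction: definitions.
-/

namespace Pool.Agent.Helper67.LB

open Finset Function Classical
open Pool.Agent.Helper67.EQP

/-- A condition: an oracle `A`, which is fixed on the strings of length at most `l`; the parameter
`e` of every committed machine (`none` for the machines which have been made unbounded); the
parameters of the regions; and the value of `l` at the time when the machine was committed. -/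
structure Cond where
  A : List Bool → Bool
  l : ℕ
  E : ℕ → Option ℕ
  G : ℕ → ℕ
  lv : ℕ → ℕ

/-- The condition is correct for the machines `i < μ` and the regions `r < ρ`. -/
structure Ok (lam : ℕ → ℕ) (Q : ℕ → QMachine) (c : Cond) (μ ρ : ℕ) : Prop where
  le : μ ≤ ρ
  world : WW lam Q c.A c.l c.E c.G μ ρ c.A
  lv_le : ∀ i < μ, ∀ e, c.E i = some e → c.lv i ≤ c.l
  bdd : ∀ i < μ, ∀ e, c.E i = some e → ∀ A', WW lam Q c.A (c.lv i) c.E c.G i (i + 1) A' →
    (Q i).Bounded A'
  dead : ∀ i < μ, c.E i = none → ∀ A' : List Bool → Bool,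
    (∀ s : List Bool, s.length ≤ c.l → A' s = c.A s) → ¬ (Q i).Bounded A'

/-- `d` extends `c`, for the machines `i < μ` and the regions `r < ρ`. -/
structure CExt (c d : Cond) (μ ρ : ℕ) : Prop where
  l_le : c.l ≤ d.l
  agree : ∀ s : List Bool, s.length ≤ c.l → d.A s = c.A s
  E_eq : ∀ i < μ, d.E i = c.E i
  G_eq : ∀ r < ρ, d.G r = c.G r
  lv_eq : ∀ i < μ, d.lv i = c.lv i

end Pool.Agent.Helper67.LB
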