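import Pool.Agent.Helper67.LB.FReq

set_option autoImplicit false
set_option linter.unusedSectionVars false

/-!
The limit of the construction. (LB-F3.)

* `exists_seq`: start with `⟨fun _ => false, 0, fun _ => none, fun _ => 0, fun _ => 0⟩` (`Ok .. 0 0` is
  trivial) and iterate `stage` (recursion on `m` in the subtype of the correct conditions, with
  choice).
* `exists_oracle`: let `c` be the sequence; `m ≤ (c m).l`. For `m ≤ m'`: `CExt (c m) (c m') m m`
  (`CExt.trans`). Let `A s = (c s.length).A s`, `E i = (c (i + 1)).E i`, `G r = (c (r + 1)).G r`. Then `A`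
  agrees with `(c m).A` up to `(c m).l` (compare both with `(c (max m s.length)).A`), and
  `(c m).E i = E i` for `i < m`, `(c m).G r = G r` for `r < m`.
  - `Right lam Q A i e` if `E i = some e`: for an input `x` take `m ≥ i + 1` so large that `(c m).l` is at
    least `(Q i).time x` and the length of the strings of the block (`InB.length`); use
    `Ok.world` of `c m`, `QMachine.acc_congr`, `MB_congr`.
  - `Valid A (rcode r (G r) n)`: similarly (`valid_congr`, `bstr_length`).
  - `(Q i).Bounded A → ∃ e, E i = some e`: `Ok.dead` for `c (i + 1)`.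
  - the requirements: for `s, i` let `m = Nat.pair s i`; `A` agrees with `(c (m + 1)).A` up to
    `(c (m + 1)).l`, so `Req lam M (c (m + 1)).G m A`, and `(c (m + 1)).G s = G s` as
    `s ≤ m` (`Nat.left_le_pair`, `Nat.unpair_pair`).
-/

namespace Pool.Agent.Helper67.LB

open Finset Function Classical
open Pool.Agent.Helper67.EQP

variable {lam : ℕ → ℕ} (Q : ℕ → QMachine)

/-- the initial condition -/
private noncomputable def flim0 : Cond :=
  ⟨fun _ => false, 0, fun _ => none, fun _ => 0, fun _ => 0⟩

private theorem flim0_ok : Ok lam Q flim0 0 0 where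
  le := le_rfl
  world := ⟨fun _ _ => rfl, fun i hi => absurd hi (Nat.not_lt_zero i),
    fun r hr => absurd hr (Nat.not_lt_zero r)⟩
  lv_le i hi := absurd hi (Nat.not_lt_zero i)
  bdd i hi := absurd hi (Nat.not_lt_zero i)
  dead i hi := absurd hi (Nat.not_lt_zero i)

/-- the sequence of the conditions -/
private noncomputable def flimSeq (hlam : Monotone lam) (M : (k : ℕ) → ℕ → SMachine k) :
    (m : ℕ) → {c : Cond // Ok lam Q c m m}
  | 0 => ⟨flim0, flim0_ok Q⟩
  | m + 1 => ⟨(stage hlam M (flimSeq hlam M m).2).choose,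
      (stage hlam M (flimSeq hlam M m).2).choose_spec.1⟩

theorem exists_seq (hlam : Monotone lam) (M : (k : ℕ) → ℕ → SMachine k) :
    ∃ c : ℕ → Cond, ∀ m, Ok lam Q (c m) m m ∧ CExt (c m) (c (m + 1)) m m ∧
      (c m).l < (c (m + 1)).l ∧
      ∀ A' : List Bool → Bool, (∀ s : List Bool, s.length ≤ (c (m + 1)).l →
        A' s = (c (m + 1)).A s) → Req lam M (c (m + 1)).G m A' := by
  refine ⟨fun m => (flimSeq Q hlam M m).1, fun m => ⟨(flimSeq Q hlam M m).2, ?_⟩⟩
  exact (stage hlam M (flimSeq Q hlam M m).2).choose_spec.2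

private theorem CExt.refl' (c : Cond) (μ ρ : ℕ) : CExt c c μ ρ where
  l_le := le_rfl
  agree _ _ := rfl
  E_eq _ _ := rfl
  G_eq _ _ := rfl
  lv_eq _ _ := rfl

theorem exists_oracle (hlam : Monotone lam) (M : (k : ℕ) → ℕ → SMachine k) :
    ∃ (A : List Bool → Bool) (E : ℕ → Option ℕ) (G : ℕ → ℕ),
      (∀ i e, E i = some e → Right lam Q A i e) ∧
      (∀ r n, Valid A (rcode r (G r) n)) ∧
      (∀ i, (Q i).Bounded A → ∃ e, E i = some e) ∧
      (∀ s, 0 < lam s → ∀ i, ∃ n, ¬ ((M (lam s - 1) i).Accepts A n ↔
        RYes A (rcode s (G s) n))) ∧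
      (∀ j i, ∃ n, ¬ ((M j i).Accepts A n ↔ Alt (j + 1) true
        (fun y : Fin (j + 1) → Fin (4 * n) → Bool => A (fstr n y) = true))) := by
  obtain ⟨c, hc⟩ := exists_seq Q hlam M
  have hl : ∀ m, m ≤ (c m).l := by
    intro m
    induction m with
    | zero => exact Nat.zero_le _
    | succ m ih => exact lt_of_le_of_lt ih (hc m).2.2.1
  have hext : ∀ m m', m ≤ m' → CExt (c m) (c m') m m := by
    intro m m' hmm
    induction m', hmm using Nat.le_induction with
    | base => exact CExt.refl' _ _ _
    | succ n hn ih => exact CExt.trans ih (hc n).2.1 hn hn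
  let A : List Bool → Bool := fun s => (c s.length).A s
  have hA : ∀ m (s : List Bool), s.length ≤ (c m).l → A s = (c m).A s := by
    intro m s hs
    have h1 := (hext m (max m s.length) (le_max_left _ _)).agree s hs
    have h2 := (hext s.length (max m s.length) (le_max_right _ _)).agree s (hl s.length)
    change (c s.length).A s = (c m).A s
    rw [← h1, ← h2]
  let E : ℕ → Option ℕ := fun i => (c (i + 1)).E i
  let G : ℕ → ℕ := fun r => (c (r + 1)).G r
  have hE : ∀ m i, i < m → (c m).E i = E i := fun m i him =>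
    (hext (i + 1) m him).E_eq i (Nat.lt_succ_self i)
  have hG : ∀ m r, r < m → (c m).G r = G r := fun m r hrm =>
    (hext (r + 1) m hrm).G_eq r (Nat.lt_succ_self r)
  refine ⟨A, E, G, ?_, ?_, ?_, ?_, ?_⟩
  · intro i e he x
    set κ := (Q i).code i e x with hκ
    set m := max (i + 1) (max ((Q i).time x) (κ.length + 2 + lam (ones κ) * wid κ)) with hm
    have h1 : i < m := lt_of_lt_of_le (Nat.lt_succ_self i) (le_max_left _ _)
    have h2 : (Q i).time x ≤ m := (le_max_left _ _).trans (le_max_right _ _)
    have h3 : κ.length + 2 + lam (ones κ) * wid κ ≤ m :=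
      (le_max_right _ _).trans (le_max_right _ _)
    have h4 := (hc m).1.world.2.1 i h1 e ((hE m i h1).trans he) x
    rw [(Q i).acc_congr x (A := A) (A' := (c m).A)
      (fun s hs => hA m s (hs.trans (h2.trans (hl m)))), h4]
    refine (MB_congr fun s hs => ?_).symm
    refine hA m s ?_
    rw [hs.length]
    exact h3.trans (hl m)
  · intro r n
    set κ := rcode r (G r) n with hκ
    set m := max (r + 1) (13 * κ.length + 20) with hm
    have h1 : r < m := lt_of_lt_of_le (Nat.lt_succ_self r) (le_max_left _ _)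
    have h2 : 13 * κ.length + 20 ≤ m := le_max_right _ _
    have h4 := (hc m).1.world.2.2 r h1 n
    rw [hG m r h1] at h4
    refine (valid_congr fun a => ?_).2 h4
    refine hA m _ ?_
    rw [bstr_length]
    exact h2.trans (hl m)
  · intro i hb
    cases he : E i with
    | some e => exact ⟨e, rfl⟩
    | none =>
      exfalso
      exact (hc (i + 1)).1.dead i (Nat.lt_succ_self i) he A (fun s hs => hA (i + 1) s hs) hb
  · intro s hs i
    have h1 := (hc (Nat.pair s i)).2.2.2 A (fun t ht => hA _ t ht)
    have h2 := h1.1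
    rw [Nat.unpair_pair] at h2
    have h3 := h2 hs
    have h4 : (c (Nat.pair s i + 1)).G s = G s :=
      hG _ s (Nat.lt_succ_of_le (Nat.left_le_pair s i))
    simp only at h3
    rw [h4] at h3
    exact h3
  · intro j i
    have h1 := (hc (Nat.pair j i)).2.2.2 A (fun t ht => hA _ t ht)
    have h2 := h1.2
    rw [Nat.unpair_pair] at h2
    exact h2

end Pool.Agent.Helper67.LB
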