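import Pool.Agent.Helper67.LB.QBit

set_option autoImplicit false
set_option linter.unusedSectionVars false

/-!
All oracle bits have shallow trees, if the long ones are given by quantum circuits reading much
shorter strings. (LB-Q5.)

Proof of `cells_dtd` by strong induction on the length of `s`. In the second case
all strings of length at most `T` are shorter than `s` (`T < (144 (T + 1)) ^ 4 ≤ s.length`), so by the
induction hypothesis and `DTd.mono` their bits have trees of depth `D = 1 + T ^ 7`. By `bit_dtd` the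
bit at `s` has a tree of depth `(144 * (1 + T ^ 7) * T ^ 2) ^ 3 ≤ (144 (T + 1) ^ 9) ^ 3
≤ (144 (T + 1)) ^ 28 ≤ s.length ^ 7`.
-/

namespace Pool.Agent.Helper67.LB

open Finset Function Classical
open Pool.Agent.Helper67.EQP

private theorem cells_arith (T L : ℕ) (h : (144 * (T + 1)) ^ 4 ≤ L) :
    (144 * (1 + T ^ 7) * T ^ 2) ^ 3 ≤ 1 + L ^ 7 := by
  have h1 : 1 + T ^ 7 ≤ (T + 1) ^ 7 := by
    calc 1 + T ^ 7 = T ^ 7 + 1 := add_comm _ _
      _ ≤ T ^ 7 + 1 + (7 * T ^ 6 + 21 * T ^ 5 + 35 * T ^ 4 + 35 * T ^ 3 + 21 * T ^ 2 + 7 * T) :=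
          Nat.le_add_right _ _
      _ = (T + 1) ^ 7 := by ring
  have h2 : T ^ 2 ≤ (T + 1) ^ 2 := Nat.pow_le_pow_left (Nat.le_succ T) 2
  have hu : 1 ≤ 144 * (T + 1) := by omega
  have h3 : 144 * (1 + T ^ 7) * T ^ 2 ≤ (144 * (T + 1)) ^ 9 := by
    calc 144 * (1 + T ^ 7) * T ^ 2 ≤ 144 * (T + 1) ^ 7 * (T + 1) ^ 2 :=
          Nat.mul_le_mul (Nat.mul_le_mul_left _ h1) h2
      _ = 144 ^ 1 * (T + 1) ^ 9 := by ring
      _ ≤ 144 ^ 9 * (T + 1) ^ 9 :=
          Nat.mul_le_mul_right _ (Nat.pow_le_pow_right (by norm_num) (by norm_num))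
      _ = (144 * (T + 1)) ^ 9 := by rw [mul_pow]
  calc (144 * (1 + T ^ 7) * T ^ 2) ^ 3 ≤ ((144 * (T + 1)) ^ 9) ^ 3 := Nat.pow_le_pow_left h3 3
    _ = (144 * (T + 1)) ^ 27 := by rw [← pow_mul]
    _ ≤ (144 * (T + 1)) ^ 28 := Nat.pow_le_pow_right hu (by norm_num)
    _ = ((144 * (T + 1)) ^ 4) ^ 7 := by rw [← pow_mul]
    _ ≤ L ^ 7 := Nat.pow_le_pow_left h 7
    _ ≤ 1 + L ^ 7 := Nat.le_add_left _ _

theorem cells_dtd {ι : Type} [Fintype ι] [DecidableEq ι] (A : (ι → Bool) → List Bool → Bool)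
    (h : ∀ s : List Bool, DTd 1 (fun y => A y s) ∨ ∃ (C : QCircuit) (T : ℕ), UC C ∧
      C.ops.length ≤ T ∧ (∀ l, QOp.query l ∈ C.ops → l.length ≤ T) ∧
      (144 * (T + 1)) ^ 4 ≤ s.length ∧
      (∀ y, C.acceptProb (A y) ≤ 1 / 3 ∨ 2 / 3 ≤ C.acceptProb (A y)) ∧
      ∀ y, A y s = decide (2 / 3 ≤ C.acceptProb (A y))) :
    ∀ s : List Bool, DTd (1 + s.length ^ 7) (fun y => A y s) := by
  have key : ∀ (L : ℕ) (s : List Bool), s.length = L → DTd (1 + L ^ 7) (fun y => A y s) := by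
    intro L
    induction L using Nat.strong_induction_on with
    | _ L ih =>
      intro s hs
      rcases h s with h1 | ⟨C, T, hC, hT, hl, hLT, hb, hA⟩
      · exact h1.mono (Nat.le_add_right _ _)
      · rw [hs] at hLT
        have hTL : T < L := by
          have h2 : T < 144 * (T + 1) := by omega
          have h3 : 144 * (T + 1) ≤ (144 * (T + 1)) ^ 4 :=
            Nat.le_self_pow (by norm_num) _
          omega
        have h2 := bit_dtd hC hT hl A (D := 1 + T ^ 7) (fun s' hs' => by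
          have h3 := ih s'.length (by omega) s' rfl
          exact h3.mono (Nat.add_le_add_left (Nat.pow_le_pow_left hs' 7) 1)) hb
        have h3 : (fun y => A y s) = fun y => decide (2 / 3 ≤ C.acceptProb (A y)) :=
          funext hA
        rw [h3]
        exact h2.mono (cells_arith T L hLT)
  exact fun s => key s.length s rfl

end Pool.Agent.Helper67.LB
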