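import Pool.Agent.Helper67.LB.WRight
import Pool.Agent.Helper67.LB.QCells
import Pool.Agent.Helper67.LB.QSM
import Pool.Agent.Helper67.LB.TFin
import Pool.Agent.Helper67.LB.FDefs

set_option autoImplicit false
set_option linter.unusedSectionVars false

/-!
The requirements for the free blocks: `Σ_{j+1}` is different from `Σ_j`. (LB-K1.)

For `y : (Fin (j+1) → Fin (4*n) → Bool) → Bool` let `Of n y` prescribe the value `y v` at the string
`fstr n v` and nothing else, and `W y = wld lam Q c.A c.l c.E μ (Of n y)`.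

* `Of_fstr`: `fstr_inj`. `Of_none_*`: `not_InB_fstr`, `fstr_ne_bstr`.
* `free_WW`: `wld_short`, `wld_right` (with `Right lam Q c.A i e`, from `Ok`), `wld_valid`.
* `free_dtd`: `cells_dtd` for `A y = W y`. For a string `s`: if `s.length ≤ c.l` or `s` is no string
  `fstr n v` and lies in no committed block the bit is constant (`wld_short`, `wld_else`); if
  `s = fstr n v` and `c.l < s.length` the bit is `y v` (`DTd.lit`); if `c.l < s.length` and `Comd lam Q c.E μ i e x s`
  then the bit is `decide ((Q i).Acc (W y) x)`, given by the circuit `(Q i).circ x` with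
  `T = (Q i).time x` (`Comd.length_ge`), and it has bounded error in `W y` because
  `W y` is in `WW lam Q c.A (c.lv i) c.E c.G i (i + 1)` (`free_WW`, `WW_mono`, `Ok`: `c.lv i ≤ c.l`,
  `i + 1 ≤ μ ≤ ρ`).
* `free_num`: everything is bounded by a constant times a power of `n`, apply
  `EQP.pow_lt_two_pow` (e.g. `t = n ^ c + c ≤ (c + 1) * n ^ c` for `n ≥ 1`).
* `free_req`: let `t = n ^ M.c + M.c`, `K = (t + 1) * j + t * (1 + t ^ 7)`, `n` large and
  `n ≥ n0`, `n > c.l` (then all strings `fstr n v` are longer than `c.l`). Suppose that for all `y` the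
  machine and the block agree in `W y`. The block has the value `TT (j + 1) y` (`wld_O`). By
  `smachine_comp` and `free_dtd` (`DTd.mono`: `1 + s.length ^ 7 ≤ 1 + t ^ 7`) the function
  `f y = decide (M.Accepts (W y) n)` satisfies `Comp (t * (1 + t ^ 7)) j ((1 + 2 ^ t) ^ j) f`, and
  `(1 + 2 ^ t) ^ j ≤ 2 ^ ((t + 1) * j) ≤ 2 ^ K` (`Comp.mono`). Apply
  `sip_comp j n K (t * (1 + t ^ 7))` with `h = j`: the averages of `b2 (f y) = b2 (TT (j+1) y)` are 1
  and 0, so `1 ≤ 64 (j + 1) (K + 5 n) / 2 ^ n`, contradicting `free_num`.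
-/

namespace Pool.Agent.Helper67.LB

open Finset Function Classical
open Pool.Agent.Helper67.EQP

/-- The prescription of the free block. -/
noncomputable def Of {j m : ℕ} (n : ℕ) (y : (Fin j → Fin m → Bool) → Bool) (s : List Bool) :
    Option Bool :=
  if h : ∃ v : Fin j → Fin m → Bool, s = fstr n v then some (y (choose h)) else none

theorem Of_fstr {j m : ℕ} (n : ℕ) (y : (Fin j → Fin m → Bool) → Bool) (v : Fin j → Fin m → Bool) :
    Of n y (fstr n v) = some (y v) := by
  have h : ∃ v' : Fin j → Fin m → Bool, fstr n v = fstr n v' := ⟨v, rfl⟩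
  unfold Of
  rw [dif_pos h]
  congr 2
  exact (fstr_inj (choose_spec h)).symm

private theorem Of_none_InB {lam : ℕ → ℕ} {κ s : List Bool} {j m : ℕ} (n : ℕ)
    (y : (Fin j → Fin m → Bool) → Bool) (h : InB lam κ s) : Of n y s = none := by
  apply dif_neg
  rintro ⟨v, rfl⟩
  exact not_InB_fstr lam κ n v h

private theorem Of_none_bstr {κ : List Bool} {j m : ℕ} (n : ℕ)
    (y : (Fin j → Fin m → Bool) → Bool) (a : B0 (par κ) × Bool) : Of n y (bstr κ a) = none := by
  apply dif_neg
  rintro ⟨v, hv⟩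
  exact fstr_ne_bstr a n v hv.symm

variable {lam : ℕ → ℕ} {Q : ℕ → QMachine}

theorem free_WW {c : Cond} {μ ρ : ℕ} (hok : Ok lam Q c μ ρ) {j m : ℕ} (n : ℕ)
    (y : (Fin j → Fin m → Bool) → Bool) :
    WW lam Q c.A c.l c.E c.G μ ρ (wld lam Q c.A c.l c.E μ (Of n y)) := by
  refine ⟨fun s hs => wld_short lam Q hs, ?_, ?_⟩
  · intro i hi e he
    exact wld_right hi he (fun x s hs => Of_none_InB n y hs) (Or.inr (hok.world.2.1 i hi e he))
  · intro r hr n'
    exact wld_valid (fun a => Of_none_bstr n y a) (hok.world.2.2 r hr n')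

theorem free_dtd {c : Cond} {μ ρ : ℕ} (hok : Ok lam Q c μ ρ) {j m : ℕ} (n : ℕ) (s : List Bool) :
    DTd (1 + s.length ^ 7) (fun y : (Fin j → Fin m → Bool) → Bool =>
      wld lam Q c.A c.l c.E μ (Of n y) s) := by
  refine cells_dtd (fun (y : (Fin j → Fin m → Bool) → Bool) s =>
    wld lam Q c.A c.l c.E μ (Of n y) s) ?_ s
  intro s
  by_cases hs : s.length ≤ c.l
  · left
    have h1 : (fun y : (Fin j → Fin m → Bool) → Bool => wld lam Q c.A c.l c.E μ (Of n y) s) =
        fun _ => c.A s := by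
      funext y
      exact wld_short lam Q hs
    rw [h1]
    exact DTd.const 1 _
  · rw [not_le] at hs
    by_cases hv : ∃ v : Fin j → Fin m → Bool, s = fstr n v
    · left
      obtain ⟨v, rfl⟩ := hv
      have h1 : (fun y : (Fin j → Fin m → Bool) → Bool =>
          wld lam Q c.A c.l c.E μ (Of n y) (fstr n v)) = fun y => y v := by
        funext y
        exact wld_O lam Q hs (Of_fstr n y v)
      rw [h1]
      exact DTd.lit v
    · have hO : ∀ y : (Fin j → Fin m → Bool) → Bool, Of n y s = none := fun y => dif_neg hv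
      by_cases hc : ∃ i e x, Comd lam Q c.E μ i e x s
      · right
        obtain ⟨i, e, x, hc⟩ := hc
        refine ⟨(Q i).circ x, (Q i).time x, fun U e' h => (Q i).unitary x U e' h, (Q i).size x,
          fun l hl => (Q i).short x l hl, hc.length_ge, ?_, ?_⟩
        · intro y
          have hw := free_WW hok n y
          have hi := hc.1
          have hle := hok.le
          exact hok.bdd i hc.1 e hc.2.1 _
            (WW_mono hw (hok.lv_le i hc.1 e hc.2.1) (by omega) (by omega)) x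
        · intro y
          exact wld_code lam Q hs (hO y) hc
      · left
        push Not at hc
        have h1 : (fun y : (Fin j → Fin m → Bool) → Bool => wld lam Q c.A c.l c.E μ (Of n y) s) =
            fun _ => c.A s := by
          funext y
          exact wld_else lam Q (hO y) hc
        rw [h1]
        exact DTd.const 1 _

theorem free_num (j c : ℕ) : ∃ n1, ∀ n ≥ n1,
    64 * (j + 1) * (((n ^ c + c + 1) * j + (n ^ c + c) * (1 + (n ^ c + c) ^ 7)) + 5 * n) <
      2 ^ n := by
  obtain ⟨n1, h⟩ := pow_lt_two_pow (64 * (j + 1) * ((j + 2) * (c + 2) ^ 8 + 5)) (8 * c + 1)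
  refine ⟨max n1 1, fun n hn => ?_⟩
  have hn1 : n1 ≤ n := (le_max_left _ _).trans hn
  have hn0 : 1 ≤ n := (le_max_right _ _).trans hn
  refine lt_of_le_of_lt ?_ (h n hn1)
  have hp : 1 ≤ n ^ c := Nat.one_le_pow _ _ hn0
  set u := (c + 2) * n ^ c with hu
  have hu1 : 1 ≤ u := Nat.one_le_iff_ne_zero.2 (by positivity)
  have ht : n ^ c + c + 1 ≤ u := by
    rw [hu]
    nlinarith
  have ht' : n ^ c + c ≤ u := by omega
  have hu7 : 1 ≤ u ^ 7 := Nat.one_le_pow _ _ hu1
  have h1 : (n ^ c + c + 1) * j ≤ u ^ 8 * j := by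
    refine Nat.mul_le_mul_right _ (ht.trans ?_)
    exact Nat.le_self_pow (by norm_num) _
  have h2 : (n ^ c + c) * (1 + (n ^ c + c) ^ 7) ≤ 2 * u ^ 8 := by
    calc (n ^ c + c) * (1 + (n ^ c + c) ^ 7) ≤ u * (u ^ 7 + u ^ 7) :=
          Nat.mul_le_mul ht' (Nat.add_le_add hu7 (Nat.pow_le_pow_left ht' 7))
      _ = 2 * u ^ 8 := by ring
  have h3 : u ^ 8 = (c + 2) ^ 8 * n ^ (8 * c) := by
    rw [hu, mul_pow, ← pow_mul, mul_comm c 8]
  have h4 : n ^ (8 * c) ≤ n ^ (8 * c + 1) := Nat.pow_le_pow_right hn0 (Nat.le_succ _)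
  have h5 : n ≤ n ^ (8 * c + 1) := Nat.le_self_pow (by omega) _
  rw [mul_assoc (64 * (j + 1))]
  refine Nat.mul_le_mul_left _ ?_
  calc (n ^ c + c + 1) * j + (n ^ c + c) * (1 + (n ^ c + c) ^ 7) + 5 * n
      ≤ u ^ 8 * j + 2 * u ^ 8 + 5 * n := by omega
    _ = (j + 2) * ((c + 2) ^ 8 * n ^ (8 * c)) + 5 * n := by rw [h3]; ring
    _ ≤ (j + 2) * ((c + 2) ^ 8 * n ^ (8 * c + 1)) + 5 * n ^ (8 * c + 1) :=
        Nat.add_le_add (Nat.mul_le_mul_left _ (Nat.mul_le_mul_left _ h4))
          (Nat.mul_le_mul_left _ h5)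
    _ = _ := by ring

theorem free_req {c : Cond} {μ ρ : ℕ} (hok : Ok lam Q c μ ρ) (j : ℕ) (M : SMachine j) :
    ∃ n A', WW lam Q c.A c.l c.E c.G μ ρ A' ∧
      ¬ (M.Accepts A' n ↔ Alt (j + 1) true
        (fun y : Fin (j + 1) → Fin (4 * n) → Bool => A' (fstr n y) = true)) := by
  by_contra hcon
  push Not at hcon
  obtain ⟨n1, hn1⟩ := free_num j M.c
  set n := max n1 (c.l + 1) with hn
  have hnn1 : n1 ≤ n := le_max_left _ _
  have hnl : c.l < n := Nat.lt_of_succ_le (le_max_right _ _)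
  have hn0 : 0 < n := by omega
  have hnum := hn1 n hnn1
  set t := n ^ M.c + M.c with ht
  set K := (t + 1) * j + t * (1 + t ^ 7) with hK
  let W : ((Fin (j + 1) → Fin (4 * n) → Bool) → Bool) → List Bool → Bool := fun y =>
    wld lam Q c.A c.l c.E μ (Of n y)
  have hWv : ∀ y v, W y (fstr n v) = y v := by
    intro y v
    refine wld_O lam Q ?_ (Of_fstr n y v)
    rw [fstr_length]
    omega
  have hf : ∀ y, decide (M.Accepts (W y) n) = TT (j + 1) y := by
    intro y
    unfold TT
    have h1 := hcon n (W y) (free_WW hok n y)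
    have h2 : (fun v : Fin (j + 1) → Fin (4 * n) → Bool => W y (fstr n v) = true) =
        fun v => y v = true := by
      funext v
      rw [hWv]
    rw [h2] at h1
    exact decide_eq_decide.2 h1
  have hcomp : Comp (t * (1 + t ^ 7)) j ((1 + 2 ^ t) ^ j)
      (fun y : (Fin (j + 1) → Fin (4 * n) → Bool) → Bool => decide (M.Accepts (W y) n)) := by
    refine smachine_comp M n (1 + t ^ 7) W (fun s hs => ?_)
    exact (free_dtd hok n s).mono (Nat.add_le_add_left (Nat.pow_le_pow_left hs 7) 1)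
  have hsize : (1 + 2 ^ t) ^ j ≤ 2 ^ K := by
    calc (1 + 2 ^ t) ^ j ≤ (2 ^ (t + 1)) ^ j := by
          refine Nat.pow_le_pow_left ?_ j
          have : 1 ≤ 2 ^ t := Nat.one_le_two_pow
          rw [pow_succ]
          omega
      _ = 2 ^ ((t + 1) * j) := by rw [← pow_mul]
      _ ≤ 2 ^ K := Nat.pow_le_pow_right (by norm_num) (Nat.le_add_right _ _)
  obtain ⟨μ1, μ0, hμ1, hμ0, hz1, hz0, hmain⟩ := sip_comp j n K (t * (1 + t ^ 7)) hn0 (by omega)
  have h1 := hmain j le_rfl _ (hcomp.mono le_rfl hsize)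
  have e1 : ∑ x, μ1 x * b2 (decide (M.Accepts (W x) n)) = 1 := by
    rw [← hμ1.2]
    apply sum_congr rfl
    intro x _
    rw [hf]
    cases hx : TT (j + 1) x with
    | false => rw [hz1 x hx, zero_mul]
    | true => rw [b2_true, mul_one]
  have e0 : ∑ x, μ0 x * b2 (decide (M.Accepts (W x) n)) = 0 := by
    apply sum_eq_zero
    intro x _
    rw [hf]
    cases hx : TT (j + 1) x with
    | false => rw [b2_false, mul_zero]
    | true => rw [hz0 x hx, zero_mul]
  rw [e1, e0, sub_zero, abs_one] at h1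
  have hpow : (0 : ℝ) < 2 ^ n := by positivity
  rw [le_div_iff₀ hpow, one_mul] at h1
  have h2 : (2 : ℕ) ^ n ≤ 64 * (j + 1) * (K + 5 * n) := by exact_mod_cast h1
  omega

end Pool.Agent.Helper67.LB
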