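import Pool.Agent.Helper67.LB.KComp
import Pool.Agent.Helper67.LB.KDist

set_option autoImplicit false
set_option linter.unusedSectionVars false

/-!
The requirements for the regions: the language of the region `r` is not accepted by a
`Σ_k` machine, `k < lam r`. (LB-K6.)

Proof. Let `Lam = lam μ`, let `n` be larger than `c.l` and than the bound of `num_key k M.c Lam`;
`κs = rcode r (c.G r) n`, `t = n ^ M.c + M.c`, `w = t * (1 + t ^ 7)`, `K = (t + 1) * k + w`. Suppose
that `M.Accepts A' n ↔ RYes A' κs` for all `A'` in `WW lam Q c.A c.l c.E c.G μ ρ`. Apply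
`hyb_mainK` with the keys `Option (List Bool)`, `rk = rkO κs.length`, `Yp = Yk lam κs`,
`Np = Nk lam κs` (`exists_Yk`, `exists_Nk`), `B1 = BXk .. True`, `B0 = BXk .. False` (`BXk_congr`; they agree on
all keys `some κ`, and `rk none = κs.length` is not smaller than the `n` of
`hyb_mainK`, which is `κs.length`), `b = t`, `g X = b2 (decide (M.Accepts (WX .. X) n))` (`gX_congr`), the
distributions of `dist_key lam κs k K w t Lam`, `ε κ = QQ k K t Lam / 4 ^ rk κ`, and the list of
`exists_LK`. `hv1`, `hv0`: by `cons_WW` the world of consistent contents belongs to `WW ..`, so the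
machine accepts iff `RYes` iff `β` (`cons_RYes`). `hd`: for `κ = none`, and for `κ = some κ'` with
`Late .. κ' i e x`, use `dist_key` and `key_comp` (`Comp.mono`: `(t + 1) * k ≤ K`);
`ones κ' = i` (`ones_qcode`) and `k < lam r ≤ lam i ≤ lam μ` by monotonicity. For `κ = some κ'` not the code of
a late machine `g (update X κ y) = g X` (`not_late_const`), so both averages are `g X`. We get
`1 ≤ 2 * (4 * QQ / 2 ^ κs.length)`, but `n ≤ κs.length` (`rcode_length`) and `8 * QQ < 2 ^ n`.
-/

namespace Pool.Agent.Helper67.LB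

open Finset Function Classical
open Pool.Agent.Helper67.EQP

variable {lam : ℕ → ℕ} {Q : ℕ → QMachine}

theorem reg_req (hlam : Monotone lam) {c : Cond} {μ ρ : ℕ} (hok : Ok lam Q c μ ρ) {r k : ℕ}
    (hr : r < ρ) (hk : k < lam r) (M : SMachine k) :
    ∃ n A', WW lam Q c.A c.l c.E c.G μ ρ A' ∧
      ¬ (M.Accepts A' n ↔ RYes A' (rcode r (c.G r) n)) := by
  obtain ⟨n1, hn1⟩ := num_key k M.c (lam μ)
  by_contra hcon
  push Not at hcon
  obtain ⟨n, hn⟩ : ∃ n, n = max (c.l + 1) n1 := ⟨_, rfl⟩
  have hln : c.l < n := by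
    have := le_max_left (c.l + 1) n1
    omega
  have hnum := hn1 n (by rw [hn]; exact le_max_right _ _)
  have hcomp := fun (X : ContK (iK lam (rcode r (c.G r) n))) (κ : Option (List Bool)) =>
    key_comp hok X κ M
  have hgX := fun (X X' : ContK (iK lam (rcode r (c.G r) n))) =>
    gX_congr (lam := lam) (Q := Q) (r := r) (μ := μ) (κs := rcode r (c.G r) n) c M n X X'
  have hlen : n ≤ (rcode r (c.G r) n).length := by
    rw [rcode_length]
    omega
  have hworld : ∀ (β : Prop) (X : ContK (iK lam (rcode r (c.G r) n))),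
      Cons (Yk lam (rcode r (c.G r) n)) (Nk lam (rcode r (c.G r) n))
        (BXk lam Q c r μ (rcode r (c.G r) n) β) X →
      (M.Accepts (WX lam Q c r μ (rcode r (c.G r) n) X) n ↔ β) := by
    intro β X hX
    have h1 := hcon n (WX lam Q c r μ (rcode r (c.G r) n) X) (cons_WW hok hr hln hX)
    rw [h1]
    exact cons_RYes hln hX
  generalize rcode r (c.G r) n = κs at hcomp hgX hlen hworld
  generalize n ^ M.c + M.c = t at hnum hcomp hgX
  obtain ⟨w, hw⟩ : ∃ w, w = t * (1 + t ^ 7) := ⟨_, rfl⟩
  rw [← hw] at hnum hcomp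
  obtain ⟨K, hK⟩ : ∃ K, K = (t + 1) * k + w := ⟨_, rfl⟩
  rw [← hK] at hnum
  have hwK : w ≤ K := by rw [hK]; exact Nat.le_add_left _ _
  have hkK : (t + 1) * k ≤ K := by rw [hK]; exact Nat.le_add_right _ _
  choose μ1 μ0 d1 d0 s1 s0 dd using
    (fun κ : Option (List Bool) => dist_key lam κs k K w t (lam μ) hwK κ)
  have hQ : (0 : ℝ) ≤ (QQ k K t (lam μ) : ℝ) := Nat.cast_nonneg _
  obtain ⟨L, hL1, hL2, hL3, hL4⟩ := exists_LK κs.length t hQ
  have hmain := hyb_mainK (ι := iK lam κs) (rk := rkO κs.length) (Yp := Yk lam κs) (Np := Nk lam κs)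
    (exists_Yk lam κs) (exists_Nk lam κs)
    (B1 := BXk lam Q c r μ κs True) (B0 := BXk lam Q c r μ κs False)
    (fun κ X X' h => BXk_congr c True κ X X' h) (fun κ X X' h => BXk_congr c False κ X X' h)
    (μ1 := μ1) (μ0 := μ0) d1 d0 s1 s0
    (g := fun X => b2 (decide (M.Accepts (WX lam Q c r μ κs X) n)))
    (n := κs.length) (b := t) (ε := fun κ => (QQ k K t (lam μ) : ℝ) / 4 ^ rkO κs.length κ)
    (by
      intro κ X hκ
      cases κ with
      | none => exact absurd hκ (lt_irrefl _)
      | some κ => exact Iff.rfl)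
    (by
      intro X X' h
      have h1 := hgX X X' h
      simp only [h1])
    (by
      intro κ hκn hκb X
      have hup : ∀ y : iK lam κs κ → Bool,
          @update (Option (List Bool)) (fun κ => iK lam κs κ → Bool)
            (fun a b => propDecidable (a = b)) X κ y = update X κ y := by
        intro y
        congr 1
        exact Subsingleton.elim _ _
      simp only [hup]
      have key : (∀ κ', κ = some κ' → k < lam (ones κ') ∧ lam (ones κ') ≤ lam μ) →
          |∑ y, μ1 κ y * b2 (decide (M.Accepts (WX lam Q c r μ κs (update X κ y)) n)) -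
            ∑ z, μ0 κ z * b2 (decide (M.Accepts (WX lam Q c r μ κs (update X κ z)) n))| ≤
          (QQ k K t (lam μ) : ℝ) / 4 ^ rkO κs.length κ := by
        intro h
        refine dd κ hκb h
          (fun y => decide (M.Accepts (WX lam Q c r μ κs (update X κ y)) n)) ?_
        exact (hcomp X κ).mono le_rfl (Nat.pow_le_pow_right (by norm_num) hkK)
      by_cases hcase : ∀ κ', κ = some κ' → k < lam (ones κ') ∧ lam (ones κ') ≤ lam μ
      · exact key hcase
      · push Not at hcase
        obtain ⟨κ', rfl, hκ'⟩ := hcase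
        by_cases hL' : ∃ i e x, Late Q c.E r μ κ' i e x
        · exfalso
          obtain ⟨i, e, x, hl⟩ := hL'
          have h1 : ones κ' = i := by
            rw [hl.2.2.2, ones_qcode]
          rw [h1] at hκ'
          exact absurd (hlam hl.2.1.le) (not_le.mpr (hκ' (hk.trans_le (hlam hl.1))))
        · push Not at hL'
          have hc : ∀ y, WX lam Q c r μ κs (update X (some κ') y) = WX lam Q c r μ κs X :=
            fun y => not_late_const c r μ (fun i e x => hL' i e x) X y
          have e1 : ∑ y, μ1 (some κ') y *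
              b2 (decide (M.Accepts (WX lam Q c r μ κs (update X (some κ') y)) n)) =
              b2 (decide (M.Accepts (WX lam Q c r μ κs X) n)) := by
            simp only [hc]
            rw [← Finset.sum_mul, (d1 (some κ')).2, one_mul]
          have e0 : ∑ y, μ0 (some κ') y *
              b2 (decide (M.Accepts (WX lam Q c r μ κs (update X (some κ') y)) n)) =
              b2 (decide (M.Accepts (WX lam Q c r μ κs X) n)) := by
            simp only [hc]
            rw [← Finset.sum_mul, (d0 (some κ')).2, one_mul]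
          rw [e1, e0, sub_self, abs_zero]
          positivity)
    (by
      intro X hX
      have := (hworld True X hX)
      simp only [iff_true] at this
      simp [this])
    (by
      intro X hX
      have := (hworld False X hX)
      simp only [iff_false] at this
      simp [this])
    L hL1 hL2 hL3
  have h5 : (1 : ℝ) ≤ 2 * (4 * (QQ k K t (lam μ) : ℝ) / 2 ^ κs.length) := by
    refine hmain.trans ?_
    exact mul_le_mul_of_nonneg_left hL4 (by norm_num)
  have h6 : (2 : ℝ) ^ n ≤ 2 ^ κs.length := pow_le_pow_right₀ (by norm_num) hlen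
  have h7 : (8 : ℝ) * (QQ k K t (lam μ) : ℝ) < 2 ^ n := by
    exact_mod_cast hnum
  have h8 : (0 : ℝ) < 2 ^ κs.length := by positivity
  have h9 : (2 : ℝ) ^ κs.length ≤ 8 * (QQ k K t (lam μ) : ℝ) := by
    have h10 : (1 : ℝ) ≤ (8 * (QQ k K t (lam μ) : ℝ)) / 2 ^ κs.length := by
      calc (1 : ℝ) ≤ 2 * (4 * (QQ k K t (lam μ) : ℝ) / 2 ^ κs.length) := h5
        _ = (8 * (QQ k K t (lam μ) : ℝ)) / 2 ^ κs.length := by ring
    rwa [le_div_iff₀ h8, one_mul] at h10
  linarith

end Pool.Agent.Helper67.LB
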