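import Pool.Agent.Helper67.LB.FStep
import Pool.Agent.Helper67.LB.KReg
import Pool.Agent.Helper67.LB.KFree

set_option autoImplicit false
set_option linter.unusedSectionVars false

/-!
One stage of the construction, with its requirements. (LB-F2.)

* `ok_reg`: take `n`, `A'` from `reg_req` and extend by `ok_extend` to `A'` with
  `l' = max c.l (max (13 * (rcode r (c.G r) n).length + 20) (n ^ M.c + M.c))`; an oracle which agrees with
  `A'` up to `l'` has the same `RYes` (`ryes_congr`, `bstr_length`) and the same acceptance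
  (`SMachine.accepts_congr`).
* `ok_free`: the same with `free_req`; `l' = max c.l (max (length of the strings fstr n y) (n ^ M.c + M.c))`
  (`fstr_length`); use a congruence lemma for `Alt` (`alt_congr` in `TAlt.lean`).
* `stage`: `ok_region` (`ρ = m`), then `ok_machine` (`μ = m`), then
  `ok_reg` for `r = (Nat.unpair m).1 ≤ m < m + 1` (`Nat.unpair_left_le`) with `k = lam r - 1` and
  `M = M (lam r - 1) (Nat.unpair m).2` if `0 < lam r`, then `ok_free` for
  `j = (Nat.unpair m).1`, `M = M j (Nat.unpair m).2`, and finally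
  `ok_extend` with `l' = l + 1` (the same oracle). The requirements are preserved by further
  extensions since they speak about all oracles which agree with `d.A` up to `d.l`.
-/

namespace Pool.Agent.Helper67.LB

open Finset Function Classical
open Pool.Agent.Helper67.EQP

variable {lam : ℕ → ℕ} {Q : ℕ → QMachine}

theorem ok_reg (hlam : Monotone lam) {c : Cond} {μ ρ : ℕ} (hok : Ok lam Q c μ ρ) {r k : ℕ}
    (hr : r < ρ) (hk : k < lam r) (M : SMachine k) :
    ∃ d, Ok lam Q d μ ρ ∧ CExt c d μ ρ ∧ ∃ n, ∀ A' : List Bool → Bool,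
      (∀ s : List Bool, s.length ≤ d.l → A' s = d.A s) →
        ¬ (M.Accepts A' n ↔ RYes A' (rcode r (d.G r) n)) := by
  obtain ⟨n, A', hW, hne⟩ := reg_req hlam hok hr hk M
  obtain ⟨l', hl'⟩ : ∃ l', l' = max c.l (max (13 * (rcode r (c.G r) n).length + 20)
    (n ^ M.c + M.c)) := ⟨_, rfl⟩
  have hl1 : c.l ≤ l' := hl' ▸ le_max_left _ _
  have hl2 : 13 * (rcode r (c.G r) n).length + 20 ≤ l' :=
    hl' ▸ (le_max_left _ _).trans (le_max_right _ _)
  have hl3 : n ^ M.c + M.c ≤ l' := hl' ▸ (le_max_right _ _).trans (le_max_right _ _)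
  obtain ⟨h1, h2⟩ := ok_extend hok hW hl1
  refine ⟨⟨A', l', c.E, c.G, c.lv⟩, h1, h2, n, ?_⟩
  intro A'' hA'' hiff
  apply hne
  rw [← M.accepts_congr n (A := A'') (A' := A') (fun s hs => hA'' s (hs.trans hl3)),
    ← ryes_congr (A := A'') (A' := A') (fun a => hA'' _ (by rw [bstr_length]; exact hl2))]
  exact hiff

theorem ok_free {c : Cond} {μ ρ : ℕ} (hok : Ok lam Q c μ ρ) (j : ℕ) (M : SMachine j) :
    ∃ d, Ok lam Q d μ ρ ∧ CExt c d μ ρ ∧ ∃ n, ∀ A' : List Bool → Bool,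
      (∀ s : List Bool, s.length ≤ d.l → A' s = d.A s) →
        ¬ (M.Accepts A' n ↔ Alt (j + 1) true
          (fun y : Fin (j + 1) → Fin (4 * n) → Bool => A' (fstr n y) = true)) := by
  obtain ⟨n, A', hW, hne⟩ := free_req hok j M
  obtain ⟨l', hl'⟩ : ∃ l', l' = max c.l (max (2 + (j + 1) + 1 + n + 1 + (j + 1) * (4 * n))
    (n ^ M.c + M.c)) := ⟨_, rfl⟩
  have hl1 : c.l ≤ l' := hl' ▸ le_max_left _ _
  have hl2 : 2 + (j + 1) + 1 + n + 1 + (j + 1) * (4 * n) ≤ l' :=
    hl' ▸ (le_max_left _ _).trans (le_max_right _ _)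
  have hl3 : n ^ M.c + M.c ≤ l' := hl' ▸ (le_max_right _ _).trans (le_max_right _ _)
  obtain ⟨h1, h2⟩ := ok_extend hok hW hl1
  refine ⟨⟨A', l', c.E, c.G, c.lv⟩, h1, h2, n, ?_⟩
  intro A'' hA'' hiff
  apply hne
  rw [← M.accepts_congr n (A := A'') (A' := A') (fun s hs => hA'' s (hs.trans hl3)), hiff]
  refine alt_congr fun y => ?_
  rw [hA'' (fstr n y) (by rw [fstr_length]; exact hl2)]

/-- The requirements treated at the stage `m`, for the oracle `A`. -/
def Req (lam : ℕ → ℕ) (M : (k : ℕ) → ℕ → SMachine k) (G : ℕ → ℕ) (m : ℕ)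
    (A : List Bool → Bool) : Prop :=
  (0 < lam (Nat.unpair m).1 → ∃ n, ¬ ((M (lam (Nat.unpair m).1 - 1) (Nat.unpair m).2).Accepts A n ↔
    RYes A (rcode (Nat.unpair m).1 (G (Nat.unpair m).1) n))) ∧
  ∃ n, ¬ ((M (Nat.unpair m).1 (Nat.unpair m).2).Accepts A n ↔ Alt ((Nat.unpair m).1 + 1) true
    (fun y : Fin ((Nat.unpair m).1 + 1) → Fin (4 * n) → Bool => A (fstr n y) = true))

theorem stage (hlam : Monotone lam) (M : (k : ℕ) → ℕ → SMachine k) {c : Cond} {m : ℕ}
    (hok : Ok lam Q c m m) :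
    ∃ d, Ok lam Q d (m + 1) (m + 1) ∧ CExt c d m m ∧ c.l < d.l ∧
      ∀ A' : List Bool → Bool, (∀ s : List Bool, s.length ≤ d.l → A' s = d.A s) →
        Req lam M d.G m A' := by
  obtain ⟨d1, ho1, he1⟩ := ok_region hok
  obtain ⟨d2, ho2, he2⟩ := ok_machine ho1
  obtain ⟨r, hr⟩ : ∃ r, r = (Nat.unpair m).1 := ⟨_, rfl⟩
  have hrm : r < m + 1 := by
    rw [hr]
    exact Nat.lt_succ_of_le (Nat.unpair_left_le m)
  obtain ⟨d3, ho3, he3, hq3⟩ : ∃ d3, Ok lam Q d3 (m + 1) (m + 1) ∧ CExt d2 d3 (m + 1) (m + 1) ∧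
      (0 < lam r → ∃ n, ∀ A' : List Bool → Bool,
        (∀ s : List Bool, s.length ≤ d3.l → A' s = d3.A s) →
        ¬ ((M (lam r - 1) (Nat.unpair m).2).Accepts A' n ↔ RYes A' (rcode r (d3.G r) n))) := by
    by_cases h0 : 0 < lam r
    · obtain ⟨d, h1, h2, h3⟩ := ok_reg hlam ho2 hrm (k := lam r - 1) (by omega)
        (M (lam r - 1) (Nat.unpair m).2)
      exact ⟨d, h1, h2, fun _ => h3⟩
    · refine ⟨d2, ho2, ?_, fun h => absurd h h0⟩
      exact ⟨le_rfl, fun _ _ => rfl, fun _ _ => rfl, fun _ _ => rfl, fun _ _ => rfl⟩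
  obtain ⟨d4, ho4, he4, hq4⟩ := ok_free ho3 (Nat.unpair m).1 (M (Nat.unpair m).1 (Nat.unpair m).2)
  obtain ⟨ho5, he5⟩ := ok_extend ho4 ho4.world (Nat.le_succ d4.l)
  have e1 : CExt c d2 m m := he1.trans he2 le_rfl (Nat.le_succ m)
  have e2 : CExt c d3 m m := e1.trans he3 (Nat.le_succ m) (Nat.le_succ m)
  have e3 : CExt c d4 m m := e2.trans he4 (Nat.le_succ m) (Nat.le_succ m)
  have e4 := e3.trans he5 (Nat.le_succ m) (Nat.le_succ m)
  refine ⟨_, ho5, e4, Nat.lt_succ_of_le e3.l_le, ?_⟩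
  intro A' hA'
  have h4 : ∀ s : List Bool, s.length ≤ d4.l → A' s = d4.A s :=
    fun s hs => hA' s (hs.trans (Nat.le_succ _))
  have h3 : ∀ s : List Bool, s.length ≤ d3.l → A' s = d3.A s := by
    intro s hs
    rw [h4 s (hs.trans he4.l_le), he4.agree s hs]
  constructor
  · intro h0
    rw [← hr] at h0
    obtain ⟨n, hn⟩ := hq3 h0
    refine ⟨n, ?_⟩
    have h5 := hn A' h3
    rw [← he4.G_eq r hrm] at h5
    rw [← hr]
    exact h5
  · obtain ⟨n, hn⟩ := hq4
    exact ⟨n, hn A' h4⟩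

end Pool.Agent.Helper67.LB
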