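import Pool.Agent.Helper67.LB.FDefs
import Pool.Agent.Helper67.EQP.Inst

set_option autoImplicit false
set_option linter.unusedSectionVars false

/-!
The steps of the construction: extending a condition, a new region, a new machine. (LB-F1.)

* `ok_extend`: the condition `⟨A', l', c.E, c.G, c.lv⟩`. `world`: from `h` (drop the first
  component). `bdd`: a world for `A'` up to `c.lv i ≤ c.l` is a world for `c.A` up to `c.lv i`
  (`WW_trans`). `dead`: an oracle which agrees with `A'` up to `l'` agrees with `c.A` up to `c.l`.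
* `ok_region`: let `No`-instances be chosen (`EQP.exists_no`, `0 < par κ`), let `O` prescribe the
  no-instance in all blocks with the codes `rcode ρ (c.l + 1) n`, and nothing else, and
  `A' = wld lam Q c.A c.l c.E μ O`, `G' = update c.G ρ (c.l + 1)`. `A'` belongs to
  `WW lam Q c.A c.l c.E G' μ (ρ + 1)`: `wld_short`, `wld_right` (`not_InB_bstr`), for the old regions
  `wld_valid` (`EQP.bstr_inj`, `rcode_inj`), for the new one `wld_reads` (`rcode_length`:
  `c.l < 13 * κ.length + 20`). `bdd`: `G' = c.G` on the regions `≤ i < μ ≤ ρ`.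
* `ok_machine`: Case 1: some `A'` in `WW lam Q c.A c.l c.E c.G μ (μ + 1)` does not satisfy
  `(Q μ).Bounded A'`: there is an input `x` with acceptance probability strictly between 1/3 and 2/3. The
  new condition is `⟨A', max c.l ((Q μ).time x), update c.E μ none, c.G, c.lv⟩` (`dead` by
  `QMachine.prob_congr`). Case 2: otherwise the new condition is
  `⟨A', c.l, update c.E μ (some (c.l + 1)), c.G, update c.lv μ c.l⟩` with
  `A' = wld lam Q c.A c.l (update c.E μ (some (c.l + 1))) (μ + 1) (fun _ => none)`: `wld_right` with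
  `c.l < c.l + 1` for the machine `μ` and `Right lam Q c.A i e` for the others; `wld_valid`. `bdd` for
  the machine `μ`: a world in `WW lam Q A' c.l E' c.G μ (μ + 1)` is a world for `c.A`, `c.E`
  (`E' = c.E` below `μ`), so it is bounded as we are in Case 2.
-/

namespace Pool.Agent.Helper67.LB

open Finset Function Classical
open Pool.Agent.Helper67.EQP

variable {lam : ℕ → ℕ} {Q : ℕ → QMachine}

/-- The worlds depend only on the parameters of the machines `i < μ` and the regions `r < ρ`. -/
theorem WW_params {A A' : List Bool → Bool} {L : ℕ} {E E' : ℕ → Option ℕ} {G G' : ℕ → ℕ}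
    {μ ρ : ℕ} (hE : ∀ i < μ, E i = E' i) (hG : ∀ r < ρ, G r = G' r) :
    WW lam Q A L E G μ ρ A' ↔ WW lam Q A L E' G' μ ρ A' := by
  unfold WW
  constructor
  · rintro ⟨h1, h2, h3⟩
    refine ⟨h1, fun i hi e he => h2 i hi e (by rw [hE i hi, he]), fun r hr n => ?_⟩
    rw [← hG r hr]
    exact h3 r hr n
  · rintro ⟨h1, h2, h3⟩
    refine ⟨h1, fun i hi e he => h2 i hi e (by rw [← hE i hi, he]), fun r hr n => ?_⟩
    rw [hG r hr]
    exact h3 r hr n

theorem ok_extend {c : Cond} {μ ρ : ℕ} (hok : Ok lam Q c μ ρ) {A' : List Bool → Bool}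
    (h : WW lam Q c.A c.l c.E c.G μ ρ A') {l' : ℕ} (hl : c.l ≤ l') :
    Ok lam Q ⟨A', l', c.E, c.G, c.lv⟩ μ ρ ∧ CExt c ⟨A', l', c.E, c.G, c.lv⟩ μ ρ := by
  refine ⟨⟨hok.le, ⟨fun _ _ => rfl, h.2.1, h.2.2⟩, ?_, ?_, ?_⟩,
    ⟨hl, h.1, fun _ _ => rfl, fun _ _ => rfl, fun _ _ => rfl⟩⟩
  · intro i hi e he
    exact (hok.lv_le i hi e he).trans hl
  · intro i hi e he A'' h''
    exact hok.bdd i hi e he A'' (WW_trans h''
      (fun s hs => h.1 s (hs.trans (hok.lv_le i hi e he))) le_rfl)
  · intro i hi he A'' h''
    exact hok.dead i hi he A'' (fun s hs => (h'' s (hs.trans hl)).trans (h.1 s hs))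

theorem ok_region {c : Cond} {μ ρ : ℕ} (hok : Ok lam Q c μ ρ) :
    ∃ d, Ok lam Q d μ (ρ + 1) ∧ CExt c d μ ρ := by
  have hno : ∀ n : ℕ, ∃ x, No (par (rcode ρ (c.l + 1) n)) x := fun n =>
    exists_no (by show 0 < 4 * (rcode ρ (c.l + 1) n).length + 4; omega)
  choose X hX using hno
  obtain ⟨O, hO⟩ : ∃ O : List Bool → Option Bool, O = fun s =>
      if ∃ n, ∃ a : B0 (par (rcode ρ (c.l + 1) n)) × Bool, s = bstr (rcode ρ (c.l + 1) n) a then
        some (decide (∃ n, ∃ a : B0 (par (rcode ρ (c.l + 1) n)) × Bool,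
          s = bstr (rcode ρ (c.l + 1) n) a ∧
          ∃ i, posn (par (rcode ρ (c.l + 1) n)) a = some i ∧ X n i = true))
      else none := ⟨_, rfl⟩
  have hOb : ∀ (n : ℕ) (a : B0 (par (rcode ρ (c.l + 1) n)) × Bool),
      O (bstr (rcode ρ (c.l + 1) n) a) =
        some (decide (∃ i, posn (par (rcode ρ (c.l + 1) n)) a = some i ∧ X n i = true)) := by
    intro n a
    rw [hO]
    simp only []
    rw [if_pos ⟨n, a, rfl⟩]
    congr 1
    rw [decide_eq_decide]
    constructor
    · rintro ⟨n', a', h1, h2⟩
      obtain ⟨-, -, h4⟩ := rcode_inj (bstr_inj h1)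
      subst h4
      have h5 := bstr_inj2 h1
      subst h5
      exact h2
    · intro h2
      exact ⟨n, a, rfl, h2⟩
  have hOn : ∀ s, (∀ (n : ℕ) (a : B0 (par (rcode ρ (c.l + 1) n)) × Bool),
      s ≠ bstr (rcode ρ (c.l + 1) n) a) → O s = none := by
    intro s hs
    rw [hO]
    simp only []
    rw [if_neg]
    rintro ⟨n, a, h1⟩
    exact hs n a h1
  have hsh : ∀ s : List Bool, s.length ≤ c.l → wld lam Q c.A c.l c.E μ O s = c.A s :=
    fun s hs => wld_short lam Q hs
  refine ⟨⟨wld lam Q c.A c.l c.E μ O, c.l, c.E, update c.G ρ (c.l + 1), c.lv⟩,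
    ⟨hok.le.trans (Nat.le_succ ρ), ⟨fun _ _ => rfl, ?_, ?_⟩, hok.lv_le, ?_, ?_⟩,
    ⟨le_rfl, hsh, fun _ _ => rfl, ?_, fun _ _ => rfl⟩⟩
  · intro i hi e he
    refine wld_right hi he ?_ (Or.inr (hok.world.2.1 i hi e he))
    intro x s hs
    apply hOn
    rintro n a rfl
    exact not_InB_bstr lam _ _ a hs
  · intro r hr n
    show Valid _ (rcode r (update c.G ρ (c.l + 1) r) n)
    by_cases hrρ : r = ρ
    · subst hrρ
      rw [update_self]
      refine ⟨X n, wld_reads ?_ (hOb n), Or.inr (hX n)⟩
      rw [rcode_length]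
      omega
    · rw [update_of_ne hrρ]
      refine wld_valid ?_ (hok.world.2.2 r (by omega) n)
      intro a
      apply hOn
      intro n' a' h1
      exact hrρ (rcode_inj (bstr_inj h1)).1
  · intro i hi e he A'' h''
    have h1 : WW lam Q (wld lam Q c.A c.l c.E μ O) (c.lv i) c.E c.G i (i + 1) A'' := by
      refine (WW_params (fun _ _ => rfl) ?_).mp h''
      intro r hr
      have hle := hok.le
      exact update_of_ne (by omega) _ _
    exact hok.bdd i hi e he A'' (WW_trans h1
      (fun s hs => hsh s (hs.trans (hok.lv_le i hi e he))) le_rfl)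
  · intro i hi he A'' h''
    exact hok.dead i hi he A'' (fun s hs => (h'' s hs).trans (hsh s hs))
  · intro r hr
    exact update_of_ne (by omega) _ _

theorem ok_machine {c : Cond} {μ : ℕ} (hok : Ok lam Q c μ (μ + 1)) :
    ∃ d, Ok lam Q d (μ + 1) (μ + 1) ∧ CExt c d μ (μ + 1) := by
  by_cases hcase : ∃ A', WW lam Q c.A c.l c.E c.G μ (μ + 1) A' ∧ ¬ (Q μ).Bounded A'
  · obtain ⟨A', h, hnb⟩ := hcase
    unfold QMachine.Bounded at hnb
    push Not at hnb
    obtain ⟨x, hx1, hx2⟩ := hnb
    have hE' : ∀ i < μ, update c.E μ none i = c.E i := fun i hi => update_of_ne (by omega) _ _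
    have hlt : ∀ i < μ + 1, ∀ e, update c.E μ none i = some e → i < μ := by
      intro i hi e he
      by_contra hc
      have : i = μ := by omega
      subst this
      rw [update_self] at he
      exact absurd he (by simp)
    refine ⟨⟨A', max c.l ((Q μ).time x), update c.E μ none, c.G, c.lv⟩,
      ⟨le_rfl, ⟨fun _ _ => rfl, ?_, h.2.2⟩, ?_, ?_, ?_⟩,
      ⟨le_max_left _ _, h.1, hE', fun _ _ => rfl, fun _ _ => rfl⟩⟩
    · intro i hi e he
      have hi' := hlt i hi e he
      exact h.2.1 i hi' e (by rw [← hE' i hi']; exact he)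
    · intro i hi e he
      have hi' := hlt i hi e he
      exact (hok.lv_le i hi' e (by rw [← hE' i hi']; exact he)).trans (le_max_left _ _)
    · intro i hi e he A'' h''
      have hi' := hlt i hi e he
      have he' : c.E i = some e := by rw [← hE' i hi']; exact he
      have h1 : WW lam Q A' (c.lv i) c.E c.G i (i + 1) A'' :=
        (WW_params (fun j hj => hE' j (by omega)) (fun _ _ => rfl)).mp h''
      exact hok.bdd i hi' e he' A'' (WW_trans h1
        (fun s hs => h.1 s (hs.trans (hok.lv_le i hi' e he'))) le_rfl)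
    · intro i hi he A'' h''
      by_cases hiμ : i = μ
      · subst hiμ
        intro hb
        have h1 := (Q i).prob_congr x (A := A'') (A' := A')
          (fun s hs => h'' s (hs.trans (le_max_right _ _)))
        rcases hb x with h2 | h2
        · rw [h1] at h2; linarith
        · rw [h1] at h2; linarith
      · have hi' : i < μ := by omega
        exact hok.dead i hi' (by rw [← hE' i hi']; exact he) A''
          (fun s hs => (h'' s (hs.trans (le_max_left _ _))).trans (h.1 s hs))
  · push Not at hcase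
    have hE' : ∀ i < μ, update c.E μ (some (c.l + 1)) i = c.E i :=
      fun i hi => update_of_ne (by omega) _ _
    have hlv : ∀ i < μ, update c.lv μ c.l i = c.lv i := fun i hi => update_of_ne (by omega) _ _
    have hsh : ∀ s : List Bool, s.length ≤ c.l → wld lam Q c.A c.l
        (update c.E μ (some (c.l + 1))) (μ + 1) (fun _ => none) s = c.A s :=
      fun s hs => wld_short lam Q hs
    refine ⟨⟨wld lam Q c.A c.l (update c.E μ (some (c.l + 1))) (μ + 1) (fun _ => none), c.l,
      update c.E μ (some (c.l + 1)), c.G, update c.lv μ c.l⟩,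
      ⟨le_rfl, ⟨fun _ _ => rfl, ?_, ?_⟩, ?_, ?_, ?_⟩,
      ⟨le_rfl, hsh, hE', fun _ _ => rfl, hlv⟩⟩
    · intro i hi e he
      refine wld_right hi he (fun _ _ _ => rfl) ?_
      by_cases hiμ : i = μ
      · subst hiμ
        have he2 : update c.E i (some (c.l + 1)) i = some e := he
        rw [update_self, Option.some.injEq] at he2
        left
        omega
      · have hi' : i < μ := by omega
        exact Or.inr (hok.world.2.1 i hi' e (by rw [← hE' i hi']; exact he))
    · intro r hr n
      exact wld_valid (fun _ => rfl) (hok.world.2.2 r hr n)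
    · intro i hi e he
      show update c.lv μ c.l i ≤ c.l
      by_cases hiμ : i = μ
      · subst hiμ
        rw [update_self]
      · have hi' : i < μ := by omega
        rw [hlv i hi']
        exact hok.lv_le i hi' e (by rw [← hE' i hi']; exact he)
    · intro i hi e he A'' h''
      by_cases hiμ : i = μ
      · subst hiμ
        have h1 : WW lam Q (wld lam Q c.A c.l (update c.E i (some (c.l + 1))) (i + 1)
            (fun _ => none)) (update c.lv i c.l i) c.E c.G i (i + 1) A'' :=
          (WW_params (fun j hj => hE' j hj) (fun _ _ => rfl)).mp h''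
        rw [update_self] at h1
        exact hcase A'' (WW_trans h1 hsh le_rfl)
      · have hi' : i < μ := by omega
        have he' : c.E i = some e := by rw [← hE' i hi']; exact he
        have h1 : WW lam Q (wld lam Q c.A c.l (update c.E μ (some (c.l + 1))) (μ + 1)
            (fun _ => none)) (update c.lv μ c.l i) c.E c.G i (i + 1) A'' :=
          (WW_params (fun j hj => hE' j (by omega)) (fun _ _ => rfl)).mp h''
        rw [hlv i hi'] at h1
        exact hok.bdd i hi' e he' A'' (WW_trans h1
          (fun s hs => hsh s (hs.trans (hok.lv_le i hi' e he'))) le_rfl)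
    · intro i hi he A'' h''
      by_cases hiμ : i = μ
      · subst hiμ
        have he2 : update c.E i (some (c.l + 1)) i = none := he
        rw [update_self] at he2
        exact absurd he2 (by simp)
      · have hi' : i < μ := by omega
        exact hok.dead i hi' (by rw [← hE' i hi']; exact he) A''
          (fun s hs => (h'' s hs).trans (hsh s hs))

theorem CExt.trans {c d e : Cond} {μ ρ μ' ρ' : ℕ} (h : CExt c d μ ρ) (h' : CExt d e μ' ρ')
    (hμ : μ ≤ μ') (hρ : ρ ≤ ρ') : CExt c e μ ρ := by
  refine ⟨h.l_le.trans h'.l_le, ?_, ?_, ?_, ?_⟩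
  · intro s hs
    rw [h'.agree s (hs.trans h.l_le), h.agree s hs]
  · intro i hi
    rw [h'.E_eq i (by omega), h.E_eq i hi]
  · intro r hr
    rw [h'.G_eq r (by omega), h.G_eq r hr]
  · intro i hi
    rw [h'.lv_eq i (by omega), h.lv_eq i hi]

end Pool.Agent.Helper67.LB
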