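import Pool.Agent.Helper67.LB.HAbs

set_option autoImplicit false
set_option linter.unusedSectionVars false

/-!
The list of the keys. (LB-H2, compare `EQP.exists_L`, `EQP.goodL_append` in `EQP/CHyb.lean`.)

The keys are the strings `κ`, of rank `κ.length`, and one more key `none`, of rank `n`. Prove the
statement first for the levels `n' + 1, ..., b` with `n ≤ n'` (only strings, induction as in
`EQP.exists_L`, the lists are `(allS l).map some`), with sum at most `2 * Q / 2 ^ (n' + 1)`, and
then put `none :: (allS n).map some` in front, which adds `Q / 4 ^ n + Q / 2 ^ n`. The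
total is at most `Q / 2 ^ n + Q / 2 ^ n + Q / 2 ^ n ≤ 4 * Q / 2 ^ n`. If `b < n` take the empty list.
-/

namespace Pool.Agent.Helper67.LB

open Finset Function Classical
open Pool.Agent.Helper67.EQP

/-- The rank of the keys. -/
def rkO (n : ℕ) : Option (List Bool) → ℕ
  | none => n
  | some κ => κ.length

theorem goodLK_append {n b l : ℕ} (hn : n ≤ l) (ms ks : List (Option (List Bool)))
    (hms : ms.Nodup) (hml : ∀ κ ∈ ms, rkO n κ = l) (hks : GoodLK (rkO n) n b ks)
    (hkl : ∀ κ ∈ ks, l < rkO n κ) (hc : ∀ κ, l < rkO n κ → rkO n κ ≤ b → κ ∈ ks) :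
    GoodLK (rkO n) n b (ms ++ ks) := by
  induction ms with
  | nil => exact hks
  | cons κ ms ih =>
    rw [List.nodup_cons] at hms
    have hκ : rkO n κ = l := hml κ (by simp)
    refine ⟨?_, by omega, ?_, ih hms.2 (fun κ' h => hml κ' (by simp [h]))⟩
    · intro h
      rcases List.mem_append.mp h with h | h
      · exact hms.1 h
      · have := hkl κ h
        omega
    · intro κ' hb hκ'
      rw [hκ]
      by_contra hlt
      exact hκ' (List.mem_append.mpr (Or.inr (hc κ' (by omega) hb)))

theorem mem_map_some {l : ℕ} {κ : Option (List Bool)} :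
    κ ∈ (allS l).map some ↔ ∃ w : List Bool, κ = some w ∧ w.length = l := by
  rw [List.mem_map]
  constructor
  · rintro ⟨w, hw, rfl⟩
    exact ⟨w, rfl, mem_allS.mp hw⟩
  · rintro ⟨w, rfl, hw⟩
    exact ⟨w, mem_allS.mpr hw, rfl⟩

theorem sum_map_some (n l : ℕ) (Q : ℝ) :
    (((allS l).map some).map (fun κ => Q / 4 ^ rkO n κ)).sum = Q / 2 ^ l := by
  have e2 : ((allS l).map some).map (fun κ => Q / 4 ^ rkO n κ) =
      List.replicate (2 ^ l) (Q / 4 ^ l) := by
    rw [← length_allS l]
    apply List.eq_replicate_iff.mpr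
    refine ⟨by rw [List.length_map, List.length_map], ?_⟩
    intro x hx
    rw [List.mem_map] at hx
    obtain ⟨κ, hκ, rfl⟩ := hx
    obtain ⟨w, rfl, hw⟩ := mem_map_some.mp hκ
    simp only [rkO]
    rw [hw]
  rw [e2, List.sum_replicate, nsmul_eq_mul]
  push_cast
  have e3 : (4 : ℝ) ^ l = 2 ^ l * 2 ^ l := by
    rw [← mul_pow]; norm_num
  rw [e3]
  have e4 : (2 : ℝ) ^ l ≠ 0 := by positivity
  field_simp

theorem exists_LS (n b : ℕ) {Q : ℝ} (hQ : 0 ≤ Q) (j n' : ℕ) (h : n' + j = b + 1) (hn : n < n') :
    ∃ L, GoodLK (rkO n) n b L ∧ (∀ κ ∈ L, n' ≤ rkO n κ ∧ rkO n κ ≤ b) ∧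
      (∀ κ, n' ≤ rkO n κ → rkO n κ ≤ b → κ ∈ L) ∧
      (L.map (fun κ => Q / 4 ^ rkO n κ)).sum ≤ 2 * Q / 2 ^ n' := by
  induction j generalizing n' with
  | zero =>
    refine ⟨[], trivial, fun κ hκ => absurd hκ (by simp), fun κ h1 h2 => by omega, ?_⟩
    simp only [List.map_nil, List.sum_nil]
    positivity
  | succ j ih =>
    obtain ⟨L, h1, h2, h3, h4⟩ := ih (n' + 1) (by omega) (by omega)
    refine ⟨(allS n').map some ++ L, ?_, ?_, ?_, ?_⟩
    · apply goodLK_append (l := n') hn.le _ _ (List.Nodup.map (Option.some_injective _) (nodup_allS n'))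
        ?_ h1
      · intro κ hκ
        have := h2 κ hκ
        omega
      · intro κ hκ hb
        exact h3 κ (by omega) hb
      · intro κ hκ
        obtain ⟨w, rfl, hw⟩ := mem_map_some.mp hκ
        exact hw
    · intro κ hκ
      rcases List.mem_append.mp hκ with hκ | hκ
      · obtain ⟨w, rfl, hw⟩ := mem_map_some.mp hκ
        simp only [rkO]
        omega
      · have := h2 κ hκ
        omega
    · intro κ hκ hb
      rw [List.mem_append]
      rcases Nat.eq_or_lt_of_le hκ with h5 | h5
      · left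
        rw [mem_map_some]
        cases κ with
        | none => simp only [rkO] at h5; omega
        | some w => exact ⟨w, rfl, h5.symm⟩
      · exact Or.inr (h3 κ (by omega) hb)
    · rw [List.map_append, List.sum_append, sum_map_some]
      have e5 : 2 * Q / 2 ^ (n' + 1) = Q / 2 ^ n' := by
        rw [pow_succ]
        field_simp
      have e6 : 2 * Q / 2 ^ n' = Q / 2 ^ n' + Q / 2 ^ n' := by ring
      rw [e5] at h4
      rw [e6]
      linarith

theorem exists_LK (n b : ℕ) {Q : ℝ} (hQ : 0 ≤ Q) :
    ∃ L : List (Option (List Bool)), GoodLK (rkO n) n b L ∧ (∀ κ ∈ L, rkO n κ ≤ b) ∧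
      (∀ κ, n ≤ rkO n κ → rkO n κ ≤ b → κ ∈ L) ∧
      (L.map (fun κ => Q / 4 ^ rkO n κ)).sum ≤ 4 * Q / 2 ^ n := by
  by_cases hb : b < n
  · refine ⟨[], trivial, fun κ hκ => absurd hκ (by simp), fun κ h1 h2 => by omega, ?_⟩
    simp only [List.map_nil, List.sum_nil]
    positivity
  · obtain ⟨L, h1, h2, h3, h4⟩ := exists_LS n b hQ (b - n) (n + 1) (by omega) (by omega)
    have hms : (none :: (allS n).map some).Nodup := by
      rw [List.nodup_cons]
      refine ⟨?_, List.Nodup.map (Option.some_injective _) (nodup_allS n)⟩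
      intro h
      obtain ⟨w, hw, -⟩ := mem_map_some.mp h
      exact absurd hw (by simp)
    have hml : ∀ κ ∈ (none :: (allS n).map some), rkO n κ = n := by
      intro κ hκ
      rcases List.mem_cons.mp hκ with rfl | hκ
      · rfl
      · obtain ⟨w, rfl, hw⟩ := mem_map_some.mp hκ
        exact hw
    refine ⟨(none :: (allS n).map some) ++ L, ?_, ?_, ?_, ?_⟩
    · apply goodLK_append (l := n) le_rfl _ _ hms hml h1
      · intro κ hκ
        have := h2 κ hκ
        omega
      · intro κ hκ hb
        exact h3 κ (by omega) hb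
    · intro κ hκ
      rcases List.mem_append.mp hκ with hκ | hκ
      · rw [hml κ hκ]; omega
      · exact (h2 κ hκ).2
    · intro κ hκ hb
      rw [List.mem_append]
      rcases Nat.eq_or_lt_of_le hκ with h5 | h5
      · left
        cases κ with
        | none => exact List.mem_cons_self
        | some w =>
          apply List.mem_cons_of_mem
          rw [mem_map_some]
          exact ⟨w, rfl, h5.symm⟩
      · exact Or.inr (h3 κ (by omega) hb)
    · rw [List.map_append, List.sum_append, List.map_cons, List.sum_cons, sum_map_some]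
      simp only [rkO] at h4 ⊢
      have e5 : 2 * Q / 2 ^ (n + 1) = Q / 2 ^ n := by
        rw [pow_succ]
        field_simp
      have e6 : 4 * Q / 2 ^ n = Q / 2 ^ n + Q / 2 ^ n + Q / 2 ^ n + Q / 2 ^ n := by ring
      have e7 : Q / 4 ^ n ≤ Q / 2 ^ n := by
        apply div_le_div_of_nonneg_left hQ (by positivity)
        exact pow_le_pow_left₀ (by norm_num) (by norm_num) n
      have e8 : 0 ≤ Q / 2 ^ n := by positivity
      rw [e5] at h4
      rw [e6]
      linarith

end Pool.Agent.Helper67.LB
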