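import Pool.Agent.Helper67.LB.KOX
import Pool.Agent.Helper67.LB.QCells
import Pool.Agent.Helper67.LB.QSM

set_option autoImplicit false
set_option linter.unusedSectionVars false

/-!
The oracle and the machine as functions of the content of one key. (LB-K4.)

Let `κs = rcode r (c.G r) n`.
* `early_bdd`: let `i < min r μ`, `c.E i = some e`. For arbitrary contents `X` the world
  `W = WX lam Q c r μ κs X` belongs to `WW lam Q c.A (c.lv i) c.E c.G i (i + 1)`: it agrees with `c.A` up
  to `c.l ≥ c.lv i`; the machines `i' < i` are right by `wld_right` (`i' < min r μ`, `OX_early`,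
  `Right lam Q c.A i' e'`); the blocks `rcode r' (c.G r') n'` with `r' ≤ i < r` are different from `κs`
  (`rcode_inj`), so they are valid by `wld_valid`, `OX_other` and the validity in `c.A` (`r' < ρ`
  because `r' ≤ i < μ ≤ ρ`). So `(Q i).Bounded W` by `hok.bdd`.
* `key_dtd`: `cells_dtd` with `A y = WX .. (update X κ y)`. For a string `s`: if `s.length ≤ c.l` the bit is
  constant. Otherwise, if `s = bstr κs a` the bit is
  `decide (∃ i, posn (par κs) a = some i ∧ update X κ y none i = true)` (`OX_bstr`, `wld_O`), a constant if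
  `κ ≠ none`, and a constant or `y i` if `κ = none` (cases on `posn (par κs) a`); if `s = mstr κ' y'` with
  `Late .. κ' ..` the bit is `update X κ y (some κ') y'`, constant or `y y'`. Otherwise
  `OX .. s = none`; if `Comd lam Q c.E (min r μ) i e x s` the bit is
  `decide ((Q i).Acc (WX ..) x)` (`wld_code`), given by the circuit `(Q i).circ x`, `T = (Q i).time x`
  (`Comd.length_ge`, `early_bdd`), else it is constant (`wld_else`).
* `key_comp`: `smachine_comp` with `D = 1 + t ^ 7`, `t = n ^ M.c + M.c`, `DTd.mono`;
  `(1 + 2 ^ t) ^ k ≤ 2 ^ ((t + 1) * k)`, `Comp.mono`.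
* `not_late_const`: if `κ` is not the code of a late machine then `OX` does not depend on `X (some κ)`.
-/

namespace Pool.Agent.Helper67.LB

open Finset Function Classical
open Pool.Agent.Helper67.EQP

variable {lam : ℕ → ℕ} {Q : ℕ → QMachine}

theorem early_bdd {c : Cond} {μ ρ : ℕ} (hok : Ok lam Q c μ ρ) {r n : ℕ} {i e : ℕ}
    (hi : i < min r μ) (he : c.E i = some e) (X : ContK (iK lam (rcode r (c.G r) n))) :
    (Q i).Bounded (WX lam Q c r μ (rcode r (c.G r) n) X) := by
  have hir : i < r := lt_of_lt_of_le hi (min_le_left _ _)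
  have hiμ : i < μ := lt_of_lt_of_le hi (min_le_right _ _)
  have hle := hok.le
  refine hok.bdd i hiμ e he _ ⟨?_, ?_, ?_⟩
  · intro s hs
    exact wld_short lam Q (hs.trans (hok.lv_le i hiμ e he))
  · intro i' hi' e' he'
    have hi'm : i' < min r μ := by omega
    apply wld_right hi'm he'
    · intro x s hs
      exact OX_early X (by omega) hs
    · right
      exact hok.world.2.1 i' (by omega) e' he'
  · intro r' hr' n'
    have hne : rcode r' (c.G r') n' ≠ rcode r (c.G r) n := by
      intro h
      have h1 := (rcode_inj h).1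
      omega
    apply wld_valid
    · intro a
      exact OX_other X hne a
    · exact hok.world.2.2 r' (by omega) n'

theorem key_dtd {c : Cond} {μ ρ : ℕ} (hok : Ok lam Q c μ ρ) {r n : ℕ}
    (X : ContK (iK lam (rcode r (c.G r) n))) (κ : Option (List Bool)) (s : List Bool) :
    DTd (1 + s.length ^ 7) (fun y : iK lam (rcode r (c.G r) n) κ → Bool =>
      WX lam Q c r μ (rcode r (c.G r) n) (update X κ y) s) := by
  refine cells_dtd (fun (y : iK lam (rcode r (c.G r) n) κ → Bool) (s : List Bool) =>
    WX lam Q c r μ (rcode r (c.G r) n) (update X κ y) s) ?_ s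
  intro s
  by_cases hL : s.length ≤ c.l
  · left
    have h1 : (fun y : iK lam (rcode r (c.G r) n) κ → Bool =>
        WX lam Q c r μ (rcode r (c.G r) n) (update X κ y) s) = fun _ => c.A s := by
      funext y
      exact wld_short lam Q hL
    change DTd 1 (fun y : iK lam (rcode r (c.G r) n) κ → Bool =>
        WX lam Q c r μ (rcode r (c.G r) n) (update X κ y) s)
    rw [h1]
    exact DTd.const _ _
  rw [not_le] at hL
  by_cases hb : ∃ a : B0 (par (rcode r (c.G r) n)) × Bool, s = bstr (rcode r (c.G r) n) a
  · left
    obtain ⟨a, rfl⟩ := hb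
    have h1 : ∀ y : iK lam (rcode r (c.G r) n) κ → Bool,
        WX lam Q c r μ (rcode r (c.G r) n) (update X κ y) (bstr (rcode r (c.G r) n) a) = true ↔
        ∃ i, posn (par (rcode r (c.G r) n)) a = some i ∧ (update X κ y) none i = true := by
      intro y
      have h3 := wld_O lam Q (A0 := c.A) (E := c.E) (m := min r μ) hL
        (OX_bstr (E := c.E) (Q := Q) (r := r) (μ := μ) (update X κ y) a)
      change wld lam Q c.A c.l c.E (min r μ) (OX lam Q c.E r μ (rcode r (c.G r) n)
        (update X κ y)) (bstr _ a) = true ↔ _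
      rw [h3]
      exact @decide_eq_true_iff _ (_)
    change DTd 1 (fun y : iK lam (rcode r (c.G r) n) κ → Bool =>
        WX lam Q c r μ (rcode r (c.G r) n) (update X κ y) (bstr (rcode r (c.G r) n) a))
    cases κ with
    | some κ' =>
      have h2 : (fun y : iK lam (rcode r (c.G r) n) (some κ') → Bool =>
          WX lam Q c r μ (rcode r (c.G r) n) (update X (some κ') y)
            (bstr (rcode r (c.G r) n) a)) = fun _ =>
          decide (∃ i, posn (par (rcode r (c.G r) n)) a = some i ∧ X none i = true) := by
        funext y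
        rw [Bool.eq_iff_iff, h1, decide_eq_true_iff, update_of_ne (by simp)]
      rw [h2]
      exact DTd.const _ _
    | none =>
      cases hp : posn (par (rcode r (c.G r) n)) a with
      | none =>
        have h2 : (fun y : iK lam (rcode r (c.G r) n) none → Bool =>
            WX lam Q c r μ (rcode r (c.G r) n) (update X none y)
              (bstr (rcode r (c.G r) n) a)) = fun _ => false := by
          funext y
          rw [Bool.eq_iff_iff, h1, hp]
          simp
        rw [h2]
        exact DTd.const _ _
      | some i0 =>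
        have h2 : (fun y : iK lam (rcode r (c.G r) n) none → Bool =>
            WX lam Q c r μ (rcode r (c.G r) n) (update X none y)
              (bstr (rcode r (c.G r) n) a)) = fun y => y i0 := by
          funext y
          rw [Bool.eq_iff_iff, h1, hp, update_self]
          constructor
          · rintro ⟨i, h3, h4⟩
            rw [Option.some.inj h3]
            exact h4
          · intro h3
            exact ⟨i0, rfl, h3⟩
        rw [h2]
        exact DTd.lit (ι := iK lam (rcode r (c.G r) n) none) i0
  by_cases hm : ∃ κ', (∃ i e x, Late Q c.E r μ κ' i e x) ∧ InB lam κ' s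
  · left
    obtain ⟨κ', ⟨i, e, x, hl⟩, z, rfl⟩ := hm
    have h1 : (fun y : iK lam (rcode r (c.G r) n) κ → Bool =>
        WX lam Q c r μ (rcode r (c.G r) n) (update X κ y) (mstr κ' z)) =
        fun y => (update X κ y) (some κ') z := by
      funext y
      exact wld_O lam Q hL (OX_mstr _ hl z)
    change DTd 1 (fun y : iK lam (rcode r (c.G r) n) κ → Bool =>
        WX lam Q c r μ (rcode r (c.G r) n) (update X κ y) (mstr κ' z))
    rw [h1]
    by_cases hκ : some κ' = κ
    · subst hκ
      have h2 : (fun y : iK lam (rcode r (c.G r) n) (some κ') → Bool =>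
          (update X (some κ') y) (some κ') z) = fun y => y z := by
        funext y
        rw [update_self]
      rw [h2]
      exact DTd.lit (ι := iK lam (rcode r (c.G r) n) (some κ')) z
    · have h2 : (fun y : iK lam (rcode r (c.G r) n) κ → Bool =>
          (update X κ y) (some κ') z) = fun _ => X (some κ') z := by
        funext y
        rw [update_of_ne hκ]
      rw [h2]
      exact DTd.const _ _
  have hO : ∀ y : iK lam (rcode r (c.G r) n) κ → Bool,
      OX lam Q c.E r μ (rcode r (c.G r) n) (update X κ y) s = none := by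
    intro y
    refine OX_none _ (fun a ha => hb ⟨a, ha⟩) (fun κ' i e x hl hi => hm ⟨κ', ⟨i, e, x, hl⟩, hi⟩)
  by_cases hc : ∃ i e x, Comd lam Q c.E (min r μ) i e x s
  · right
    obtain ⟨i, e, x, hc⟩ := hc
    refine ⟨(Q i).circ x, (Q i).time x, (Q i).unitary x, (Q i).size x, (Q i).short x,
      hc.length_ge, ?_, ?_⟩
    · intro y
      exact early_bdd hok hc.1 hc.2.1 (update X κ y) x
    · intro y
      have h1 := wld_code lam Q (A0 := c.A) hL (hO y) hc
      refine Eq.trans h1 ?_
      rw [Bool.eq_iff_iff, decide_eq_true_iff, decide_eq_true_iff]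
      exact Iff.rfl
  · left
    have h1 : (fun y : iK lam (rcode r (c.G r) n) κ → Bool =>
        WX lam Q c r μ (rcode r (c.G r) n) (update X κ y) s) = fun _ => c.A s := by
      funext y
      exact wld_else lam Q (hO y) (fun i e x h => hc ⟨i, e, x, h⟩)
    change DTd 1 (fun y : iK lam (rcode r (c.G r) n) κ → Bool =>
        WX lam Q c r μ (rcode r (c.G r) n) (update X κ y) s)
    rw [h1]
    exact DTd.const _ _

theorem key_comp {c : Cond} {μ ρ : ℕ} (hok : Ok lam Q c μ ρ) {r n : ℕ}
    (X : ContK (iK lam (rcode r (c.G r) n))) (κ : Option (List Bool)) {k : ℕ} (M : SMachine k) :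
    Comp ((n ^ M.c + M.c) * (1 + (n ^ M.c + M.c) ^ 7)) k (2 ^ ((n ^ M.c + M.c + 1) * k))
      (fun y : iK lam (rcode r (c.G r) n) κ → Bool =>
        decide (M.Accepts (WX lam Q c r μ (rcode r (c.G r) n) (update X κ y)) n)) := by
  have h := smachine_comp M n (1 + (n ^ M.c + M.c) ^ 7)
    (fun (y : iK lam (rcode r (c.G r) n) κ → Bool) (s : List Bool) =>
      WX lam Q c r μ (rcode r (c.G r) n) (update X κ y) s)
    (fun s hs => (key_dtd hok X κ s).mono (Nat.add_le_add_left (Nat.pow_le_pow_left hs 7) 1))
  refine h.mono le_rfl ?_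
  rw [pow_mul]
  apply Nat.pow_le_pow_left
  rw [pow_succ]
  have h1 : 1 ≤ 2 ^ (n ^ M.c + M.c) := Nat.one_le_two_pow
  omega

theorem not_late_const (c : Cond) (r μ : ℕ) {κs κ : List Bool}
    (h : ∀ i e x, ¬ Late Q c.E r μ κ i e x) (X : ContK (iK lam κs))
    (y : iK lam κs (some κ) → Bool) :
    WX lam Q c r μ κs (update X (some κ) y) = WX lam Q c r μ κs X := by
  have hO : OX lam Q c.E r μ κs (update X (some κ) y) = OX lam Q c.E r μ κs X := by
    funext s
    by_cases h1 : ∃ a : B0 (par κs) × Bool, s = bstr κs a
    · obtain ⟨a, rfl⟩ := h1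
      rw [OX_bstr, OX_bstr, update_of_ne (by simp)]
    · by_cases h2 : ∃ κ', (∃ i e x, Late Q c.E r μ κ' i e x) ∧ InB lam κ' s
      · obtain ⟨κ', ⟨i, e, x, hl⟩, z, rfl⟩ := h2
        have hne : some κ' ≠ some κ := by
          intro h3
          obtain rfl := Option.some.inj h3
          exact h i e x hl
        rw [OX_mstr _ hl, OX_mstr _ hl, update_of_ne hne]
      · have h3 : ∀ a : B0 (par κs) × Bool, s ≠ bstr κs a := fun a ha => h1 ⟨a, ha⟩
        have h4 : ∀ κ i e x, Late Q c.E r μ κ i e x → ¬ InB lam κ s :=
          fun κ' i e x hl hi => h2 ⟨κ', ⟨i, e, x, hl⟩, hi⟩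
        rw [OX_none _ h3 h4, OX_none _ h3 h4]
  unfold WX
  rw [hO]

end Pool.Agent.Helper67.LB
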