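import Pool.Agent.Helper67.LB.FDefs
import Pool.Agent.Helper67.LB.HList
import Pool.Agent.Helper67.LB.TDefs

set_option autoImplicit false
set_option linter.unusedSectionVars false

/-!
The hybrid argument for the regions: the keys, their contents and the worlds. (Definitions.)

The target block has the code `κs`. The key `none` stands for the target block and the key `some κ`
for the machine block with the code `κ`. The late machines are those with `r ≤ i < μ`.
-/

namespace Pool.Agent.Helper67.LB

open Finset Function Classical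
open Pool.Agent.Helper67.EQP

/-- Positions of the contents. -/
def iK (lam : ℕ → ℕ) (κs : List Bool) : Option (List Bool) → Type
  | none => Idx (par κs)
  | some κ => Fin (lam (ones κ)) → Fin (wid κ) → Bool

instance iK_fintype (lam : ℕ → ℕ) (κs : List Bool) : ∀ κ, Fintype (iK lam κs κ)
  | none => inferInstanceAs (Fintype (Idx (par κs)))
  | some κ => inferInstanceAs (Fintype (Fin (lam (ones κ)) → Fin (wid κ) → Bool))

instance iK_decEq (lam : ℕ → ℕ) (κs : List Bool) : ∀ κ, DecidableEq (iK lam κs κ)
  | none => inferInstanceAs (DecidableEq (Idx (par κs)))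
  | some κ => inferInstanceAs (DecidableEq (Fin (lam (ones κ)) → Fin (wid κ) → Bool))

/-- Contents with the value 1. -/
def Yk (lam : ℕ → ℕ) (κs : List Bool) : (κ : Option (List Bool)) → (iK lam κs κ → Bool) → Prop
  | none, y => Yes (par κs) y
  | some κ, y => TT (Y := Fin (wid κ) → Bool) (lam (ones κ)) y = true

/-- Contents with the value 0. -/
def Nk (lam : ℕ → ℕ) (κs : List Bool) : (κ : Option (List Bool)) → (iK lam κs κ → Bool) → Prop
  | none, y => No (par κs) y
  | some κ, y => TT (Y := Fin (wid κ) → Bool) (lam (ones κ)) y = false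

/-- `κ` is the code of a late machine on the input `x`. -/
def Late (Q : ℕ → QMachine) (E : ℕ → Option ℕ) (r μ : ℕ) (κ : List Bool) (i e : ℕ)
    (x : List Bool) : Prop :=
  r ≤ i ∧ i < μ ∧ E i = some e ∧ κ = (Q i).code i e x

/-- The prescription given by the contents. -/
noncomputable def OX (lam : ℕ → ℕ) (Q : ℕ → QMachine) (E : ℕ → Option ℕ) (r μ : ℕ)
    (κs : List Bool) (X : ContK (iK lam κs)) (s : List Bool) : Option Bool :=
  if ∃ a : B0 (par κs) × Bool, s = bstr κs a then
    some (decide (∃ a : B0 (par κs) × Bool, s = bstr κs a ∧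
      ∃ i, posn (par κs) a = some i ∧ X none i = true))
  else if ∃ κ, (∃ i e x, Late Q E r μ κ i e x) ∧ InB lam κ s then
    some (decide (∃ κ, (∃ i e x, Late Q E r μ κ i e x) ∧
      ∃ y : Fin (lam (ones κ)) → Fin (wid κ) → Bool, s = mstr κ y ∧ X (some κ) y = true))
  else none

/-- The world given by the contents. -/
noncomputable def WX (lam : ℕ → ℕ) (Q : ℕ → QMachine) (c : Cond) (r μ : ℕ) (κs : List Bool)
    (X : ContK (iK lam κs)) : List Bool → Bool :=
  wld lam Q c.A c.l c.E (min r μ) (OX lam Q c.E r μ κs X)

/-- The bits which should be encoded by the contents, if `β` is the intended value of the target. -/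
def BXk (lam : ℕ → ℕ) (Q : ℕ → QMachine) (c : Cond) (r μ : ℕ) (κs : List Bool) (β : Prop) :
    Option (List Bool) → ContK (iK lam κs) → Prop
  | none, _ => β
  | some κ, X => ∃ i e x, Late Q c.E r μ κ i e x ∧ (Q i).Acc (WX lam Q c r μ κs X) x

end Pool.Agent.Helper67.LB
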