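import Pool.Agent.Helper67.LB.KDefs

set_option autoImplicit false
set_option linter.unusedSectionVars false

/-!
The prescriptions `OX`: values and locality. (LB-K2.)

* `OX_bstr`: `bstr_inj2`. `OX_mstr`: the string is not of the form `bstr κs a` (`not_InB_bstr`), and `κ`,
  `y` are determined by the string (`mstr_code`, `false_mem_qcode`, `mstr_inj`).
* `OX_none`: definition. `OX_other`: `EQP.bstr_inj` (`bstr κ a = bstr κs a' → κ = κs`) and
  `not_InB_bstr`. `OX_early`: a string of a block of an early machine (`i < r`) is not in a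
  block of a late one (`mstr_code`, `qcode_inj`).
* `OX_congr`: if `s` has length at most `l` and `s = bstr κs a` then
  `13 * κs.length + 20 ≤ l` (`bstr_length`); if `InB lam κ s` then `κ.length < s.length`
  (`InB.length`).
* `BXk_congr`: `wld_congr` and `OX_congr` with `l = (Q i).time x`, `QMachine.acc_congr`;
  `(Q i).time x < κ.length` by `qcode_length` (`T < (144 * (T + 1)) ^ 4`).
* `gX_congr`: the same with `SMachine.accepts_congr`.
-/

namespace Pool.Agent.Helper67.LB

open Finset Function Classical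
open Pool.Agent.Helper67.EQP

variable {lam : ℕ → ℕ} {Q : ℕ → QMachine} {E : ℕ → Option ℕ} {r μ : ℕ} {κs : List Bool}

theorem Late.unique {κ : List Bool} {i e i' e' : ℕ} {x x' : List Bool}
    (h : Late Q E r μ κ i e x) (h' : Late Q E r μ κ i' e' x') : i = i' ∧ e = e' ∧ x = x' := by
  obtain ⟨_, _, _, h1⟩ := h
  obtain ⟨_, _, _, h2⟩ := h'
  exact qcode_inj (h1.symm.trans h2)

theorem Late.time_lt {κ : List Bool} {i e : ℕ} {x : List Bool} (h : Late Q E r μ κ i e x) :
    (Q i).time x < κ.length := by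
  obtain ⟨_, _, _, h1⟩ := h
  rw [h1, qcode_length]
  have h2 : 144 * ((Q i).time x + 1) ≤ (144 * ((Q i).time x + 1)) ^ 4 :=
    Nat.le_self_pow (by norm_num) _
  omega

private theorem Late.false_mem {κ : List Bool} {i e : ℕ} {x : List Bool}
    (h : Late Q E r μ κ i e x) : false ∈ κ := by
  obtain ⟨_, _, _, h1⟩ := h
  rw [h1]
  exact false_mem_qcode _ _ _ _

theorem OX_bstr (X : ContK (iK lam κs)) (a : B0 (par κs) × Bool) :
    OX lam Q E r μ κs X (bstr κs a) =
      some (decide (∃ i, posn (par κs) a = some i ∧ X none i = true)) := by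
  unfold OX
  rw [if_pos ⟨a, rfl⟩]
  congr 1
  rw [decide_eq_decide]
  constructor
  · rintro ⟨a', h1, h2⟩
    rw [bstr_inj2 h1]
    exact h2
  · intro h
    exact ⟨a, rfl, h⟩

theorem OX_mstr (X : ContK (iK lam κs)) {κ : List Bool} {i e : ℕ} {x : List Bool}
    (h : Late Q E r μ κ i e x) (y : Fin (lam (ones κ)) → Fin (wid κ) → Bool) :
    OX lam Q E r μ κs X (mstr κ y) = some (X (some κ) y) := by
  have hin : InB lam κ (mstr κ y) := ⟨y, rfl⟩
  unfold OX
  rw [if_neg, if_pos ⟨κ, ⟨i, e, x, h⟩, hin⟩]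
  · congr 1
    have key : (∃ κ', (∃ i e x, Late Q E r μ κ' i e x) ∧
        ∃ y' : Fin (lam (ones κ')) → Fin (wid κ') → Bool,
          mstr κ y = mstr κ' y' ∧ X (some κ') y' = true) ↔ X (some κ) y = true := by
      constructor
      · rintro ⟨κ', ⟨i', e', x', h'⟩, y', h1, h2⟩
        have hin' : InB lam κ' (mstr κ y) := ⟨y', h1⟩
        have h3 : κ = κ' := mstr_code h.false_mem h'.false_mem hin hin'
        subst h3
        rw [mstr_inj h1]
        exact h2
      · intro h1
        exact ⟨κ, ⟨i, e, x, h⟩, y, rfl, h1⟩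
    rw [Bool.eq_iff_iff, decide_eq_true_iff]
    exact key
  · rintro ⟨a, ha⟩
    exact not_InB_bstr lam κ κs a (ha ▸ hin)

theorem OX_none (X : ContK (iK lam κs)) {s : List Bool} (h1 : ∀ a : B0 (par κs) × Bool, s ≠ bstr κs a)
    (h2 : ∀ κ i e x, Late Q E r μ κ i e x → ¬ InB lam κ s) : OX lam Q E r μ κs X s = none := by
  unfold OX
  rw [if_neg, if_neg]
  · rintro ⟨κ, ⟨i, e, x, h⟩, hin⟩
    exact h2 κ i e x h hin
  · rintro ⟨a, ha⟩
    exact h1 a ha

theorem OX_other (X : ContK (iK lam κs)) {κ : List Bool} (hκ : κ ≠ κs)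
    (a : B0 (par κ) × Bool) : OX lam Q E r μ κs X (bstr κ a) = none := by
  refine OX_none X (fun a' h => hκ (bstr_inj h)) ?_
  intro κ' i e x _ hin
  exact not_InB_bstr lam κ' κ a hin

theorem OX_early (X : ContK (iK lam κs)) {i e : ℕ} {x s : List Bool} (hi : i < r)
    (h : InB lam ((Q i).code i e x) s) : OX lam Q E r μ κs X s = none := by
  refine OX_none X ?_ ?_
  · rintro a rfl
    exact not_InB_bstr lam _ κs a h
  · intro κ' i' e' x' hl hin
    have h1 : (Q i).code i e x = κ' := mstr_code (false_mem_qcode _ _ _ _) hl.false_mem h hin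
    have h2 := hl.2.2.2
    rw [h2] at h1
    have h3 := (qcode_inj h1).1
    have h4 := hl.1
    omega

theorem OX_congr {X X' : ContK (iK lam κs)} {l : ℕ}
    (h : ∀ κ, rkO κs.length κ ≤ l → X κ = X' κ) (s : List Bool) (hs : s.length ≤ l) :
    OX lam Q E r μ κs X s = OX lam Q E r μ κs X' s := by
  unfold OX
  by_cases h1 : ∃ a : B0 (par κs) × Bool, s = bstr κs a
  · rw [if_pos h1, if_pos h1]
    have h2 : X none = X' none := by
      apply h
      obtain ⟨a, ha⟩ := h1
      rw [ha, bstr_length] at hs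
      show κs.length ≤ l
      omega
    rw [h2]
  · rw [if_neg h1, if_neg h1]
    by_cases h2 : ∃ κ, (∃ i e x, Late Q E r μ κ i e x) ∧ InB lam κ s
    · rw [if_pos h2, if_pos h2]
      congr 1
      rw [decide_eq_decide]
      refine exists_congr fun κ => and_congr_right fun _ => exists_congr fun y =>
        and_congr_right fun h3 => ?_
      have h4 : InB lam κ s := ⟨y, h3⟩
      have h5 := h4.length
      have h6 : X (some κ) = X' (some κ) := by
        apply h
        show κ.length ≤ l
        omega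
      rw [h6]
    · rw [if_neg h2, if_neg h2]

private theorem WX_congr (c : Cond) {X X' : ContK (iK lam κs)} {l : ℕ}
    (h : ∀ κ, rkO κs.length κ ≤ l → X κ = X' κ) (s : List Bool) (hs : s.length ≤ l) :
    WX lam Q c r μ κs X s = WX lam Q c r μ κs X' s := by
  unfold WX
  exact wld_congr lam Q (fun s' hs' => OX_congr h s' hs') s hs

theorem BXk_congr (c : Cond) (β : Prop) (κ : Option (List Bool)) (X X' : ContK (iK lam κs))
    (h : ∀ κ', rkO κs.length κ' < rkO κs.length κ → X κ' = X' κ') :
    BXk lam Q c r μ κs β κ X ↔ BXk lam Q c r μ κs β κ X' := by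
  cases κ with
  | none => exact Iff.rfl
  | some κ =>
    show (∃ i e x, Late Q c.E r μ κ i e x ∧ (Q i).Acc (WX lam Q c r μ κs X) x) ↔
      ∃ i e x, Late Q c.E r μ κ i e x ∧ (Q i).Acc (WX lam Q c r μ κs X') x
    refine exists_congr fun i => exists_congr fun e => exists_congr fun x =>
      and_congr_right fun hl => ?_
    have h1 := hl.time_lt
    refine (Q i).acc_congr x fun s hs => ?_
    refine WX_congr c (l := (Q i).time x) (fun κ' hκ' => h κ' ?_) s hs
    exact lt_of_le_of_lt hκ' h1

theorem gX_congr (c : Cond) {k : ℕ} (M : SMachine k) (n : ℕ) (X X' : ContK (iK lam κs))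
    (h : ∀ κ, rkO κs.length κ ≤ n ^ M.c + M.c → X κ = X' κ) :
    M.Accepts (WX lam Q c r μ κs X) n ↔ M.Accepts (WX lam Q c r μ κs X') n := by
  have h1 : (fun y => (M.tree n y).eval (WX lam Q c r μ κs X) = true) =
      fun y => (M.tree n y).eval (WX lam Q c r μ κs X') = true := by
    funext y
    rw [tree_congr (M.short n y) (fun s hs => WX_congr c h s hs)]
  unfold SMachine.Accepts
  rw [h1]

end Pool.Agent.Helper67.LB
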