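import Pool.Agent.Helper67.EQP.DT

set_option autoImplicit false
set_option linter.unusedSectionVars false

/-!
Block sensitivity, certificates and decision trees. (LB-Q3.)

* `cert_of_dtd`: induction on `DTd`: for a query of `i` take the certificate of the branch
  `f (update · i (y i))` together with `i`.
* `cert_of_bs`: choose a maximal family of pairwise disjoint minimal sensitive blocks at `y`
  (a block `S` is sensitive at `y` if `f (flipS y S) ≠ f y`). A minimal sensitive block `S` has at most
  `B` elements: for `i ∈ S` we have `f (flipS y (S \ {i})) = f y ≠ f (flipS y S)`, so the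
  singletons `{i}`, `i ∈ S`, are disjoint sensitive blocks at `flipS y S`. There are at most `B`
  blocks in the family, so the union `U` has at most `B ^ 2` elements. If `y'` agrees with `y` on
  `U` and `f y' ≠ f y`, then the set of all `i` with `y' i ≠ y i` is a sensitive block disjoint
  from `U`; it contains a minimal one, which contradicts maximality. (Instead of a maximal family:
  take the largest `r ≤ B` such that there are `r` pairwise disjoint minimal sensitive blocks.)
* `dtd_of_cert`: induction on `r`, for all `f`. If `f` is constant, done. Otherwise
  let `a` be an input with `f a = true` and `S` a certificate at `a` with at most `C` elements. For every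
  assignment `β` of the variables in `S`, the function
  `fβ x = f (fun i => if i ∈ S then β i else x i)` has a tree of depth `r * C`: if `β = a` on `S` it is
  constantly `true`. Otherwise apply the induction hypothesis: it has certificates of size
  at most `C` at the inputs with value `true`; and if
  `B_1, ..., B_m` are disjoint sensitive blocks at an input `y` with `fβ y = false`, then, with
  `yβ = fun i => if i ∈ S then β i else y i`, the blocks `B_j \ S` and
  `{i ∈ S | β i ≠ a i}` are disjoint sensitive blocks of `f` at `yβ`, `f yβ = false`, so
  `m + 1 ≤ r + 1`. For `r = 0` a nonconstant `f` has an input `y` with `f y = false` and an input `y'`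
  with `f y' = true`, and the set of the `i` where they differ is a sensitive block at `y`. Now use
  `DTd.of_subset` (`EQP/DT.lean`), giving `r * C + S.card ≤ (r + 1) * C`.
* `bs_dtd`: `cert_of_bs` and `dtd_of_cert` with `C = B ^ 2`, `r = B`.
-/

namespace Pool.Agent.Helper67.LB

open Finset Function Classical
open Pool.Agent.Helper67.EQP

/-- Flip the bits in `S`. -/
def flipS {ι : Type} [DecidableEq ι] (y : ι → Bool) (S : Finset ι) : ι → Bool :=
  fun i => if i ∈ S then !y i else y i

/-- At most `B` pairwise disjoint sensitive blocks at `y`. -/
def BS {ι : Type} [DecidableEq ι] (f : (ι → Bool) → Bool) (B : ℕ) (y : ι → Bool) : Prop :=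
  ∀ (r : ℕ) (S : Fin r → Finset ι), (∀ a b, a ≠ b → Disjoint (S a) (S b)) →
    (∀ a, f (flipS y (S a)) ≠ f y) → r ≤ B

theorem cert_of_dtd {ι : Type} [DecidableEq ι] {D : ℕ} {f : (ι → Bool) → Bool} (hf : DTd D f)
    (y : ι → Bool) : ∃ S : Finset ι, S.card ≤ D ∧ ∀ y', (∀ i ∈ S, y' i = y i) → f y' = f y := by
  induction hf with
  | const w b => exact ⟨∅, by simp, fun y' _ => rfl⟩
  | query w i f h0 h1 ih0 ih1 =>
    have key : ∀ b : Bool, y i = b → (∃ S : Finset ι, S.card ≤ w ∧
        ∀ y', (∀ i ∈ S, y' i = y i) → f (update y' i b) = f (update y i b)) →
        ∃ S : Finset ι, S.card ≤ w + 1 ∧ ∀ y', (∀ i ∈ S, y' i = y i) → f y' = f y := by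
      rintro b rfl ⟨S, hS, hS'⟩
      refine ⟨insert i S, (card_insert_le i S).trans (by omega), fun y' hy' => ?_⟩
      have h1 := hS' y' (fun j hj => hy' j (mem_insert_of_mem hj))
      have h2 : y' i = y i := hy' i (mem_insert_self i S)
      have h3 : update y' i (y i) = y' := by rw [← h2]; exact update_eq_self i y'
      rw [h3, update_eq_self] at h1
      exact h1
    cases hb : y i with
    | false => exact key false hb ih0
    | true => exact key true hb ih1

private theorem flipS_diffset_q3 {ι : Type} [Fintype ι] [DecidableEq ι] (y y' : ι → Bool) :
    flipS y (univ.filter (fun i => y' i ≠ y i)) = y' := by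
  funext i
  unfold flipS
  by_cases h : y' i = y i
  · simp [h]
  · rw [if_pos (by simp [h])]
    cases h1 : y i <;> cases h2 : y' i <;> simp_all

private theorem min_block_q3 {ι : Type} [DecidableEq ι] {f : (ι → Bool) → Bool}
    (y : ι → Bool) (D : Finset ι) (hD : f (flipS y D) ≠ f y) :
    ∃ M : Finset ι, M ⊆ D ∧ f (flipS y M) ≠ f y ∧ ∀ T, T ⊂ M → f (flipS y T) = f y := by
  have hne : (D.powerset.filter (fun T => f (flipS y T) ≠ f y)).Nonempty :=
    ⟨D, by simp [hD]⟩
  obtain ⟨M, hM, hmin⟩ := exists_min_image _ card hne
  rw [mem_filter, mem_powerset] at hM
  refine ⟨M, hM.1, hM.2, fun T hT => ?_⟩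
  by_contra hc
  have h1 := hmin T (by
    rw [mem_filter, mem_powerset]
    exact ⟨hT.subset.trans hM.1, hc⟩)
  have h2 := card_lt_card hT
  omega

private theorem block_card_q3 {ι : Type} [DecidableEq ι] {f : (ι → Bool) → Bool} {B : ℕ}
    (y : ι → Bool) (M : Finset ι) (hM : f (flipS y M) ≠ f y)
    (hmin : ∀ T, T ⊂ M → f (flipS y T) = f y) (h : BS f B (flipS y M)) : M.card ≤ B := by
  refine h M.card (fun j => {(M.equivFin.symm j : ι)}) ?_ ?_
  · intro a b hab
    rw [disjoint_singleton]
    intro hc
    apply hab
    exact M.equivFin.symm.injective (Subtype.ext hc)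
  · intro a
    have hi : (M.equivFin.symm a : ι) ∈ M := (M.equivFin.symm a).2
    have h1 : flipS (flipS y M) {(M.equivFin.symm a : ι)} =
        flipS y (M.erase (M.equivFin.symm a : ι)) := by
      funext j
      unfold flipS
      by_cases hj : j = (M.equivFin.symm a : ι)
      · subst hj
        simp
      · simp [hj]
    simp only [h1, hmin _ (erase_ssubset hi)]
    exact fun hc => hM hc.symm

theorem cert_of_bs {ι : Type} [Fintype ι] [DecidableEq ι] {f : (ι → Bool) → Bool} {B : ℕ}
    (h : ∀ y, BS f B y) (y : ι → Bool) :
    ∃ S : Finset ι, S.card ≤ B ^ 2 ∧ ∀ y', (∀ i ∈ S, y' i = y i) → f y' = f y := by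
  let P : ℕ → Prop := fun r => ∃ S : Fin r → Finset ι,
    (∀ a b, a ≠ b → Disjoint (S a) (S b)) ∧ (∀ a, f (flipS y (S a)) ≠ f y) ∧
    (∀ a, ∀ T, T ⊂ S a → f (flipS y T) = f y)
  have hP0 : P 0 := ⟨fun _ => ∅, fun a => a.elim0, fun a => a.elim0, fun a => a.elim0⟩
  have hPB : ∀ r, P r → r ≤ B := by
    rintro r ⟨S, h1, h2, -⟩
    exact h y r S h1 h2
  have hex : ∃ r, P r ∧ ¬ P (r + 1) := by
    by_contra hc
    push Not at hc
    have hall : ∀ r, P r := by
      intro r
      induction r with
      | zero => exact hP0
      | succ n ih => exact hc n ih
    have := hPB (B + 1) (hall (B + 1))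
    omega
  obtain ⟨r, hPr, hPr'⟩ := hex
  have hrB := hPB r hPr
  obtain ⟨S, hd, hs, hm⟩ := hPr
  refine ⟨univ.biUnion S, ?_, ?_⟩
  · calc (univ.biUnion S).card ≤ ∑ a, (S a).card := card_biUnion_le
      _ ≤ ∑ _a : Fin r, B := sum_le_sum (fun a _ => block_card_q3 y (S a) (hs a) (hm a) (h _))
      _ = r * B := by simp
      _ ≤ B * B := Nat.mul_le_mul_right B hrB
      _ = B ^ 2 := (sq B).symm
  · intro y' hy'
    by_contra hne
    apply hPr'
    have hfl := flipS_diffset_q3 y y'
    obtain ⟨M, hMD, hMs, hMm⟩ := min_block_q3 (f := f) y (univ.filter (fun i => y' i ≠ y i))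
      (by rw [hfl]; exact hne)
    have hMd : ∀ a, Disjoint M (S a) := by
      intro a
      rw [disjoint_left]
      intro i hi hi'
      have h1 := hMD hi
      rw [mem_filter] at h1
      exact h1.2 (hy' i (mem_biUnion.mpr ⟨a, mem_univ a, hi'⟩))
    refine ⟨Fin.cons M S, ?_, ?_, ?_⟩
    · intro a b
      refine Fin.cases ?_ (fun a' => ?_) a
      · refine Fin.cases ?_ (fun b' => ?_) b
        · intro hab; exact absurd rfl hab
        · intro _
          simpa using hMd b'
      · refine Fin.cases ?_ (fun b' => ?_) b
        · intro _
          simpa using (hMd a').symm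
        · intro hab
          have : a' ≠ b' := fun hc => hab (by rw [hc])
          simpa using hd a' b' this
    · intro a
      refine Fin.cases ?_ (fun a' => ?_) a
      · simpa using hMs
      · simpa using hs a'
    · intro a
      refine Fin.cases ?_ (fun a' => ?_) a
      · simpa using hMm
      · simpa using hm a'

theorem dtd_of_cert {ι : Type} [Fintype ι] [DecidableEq ι] {C : ℕ} (r : ℕ)
    {f : (ι → Bool) → Bool}
    (hc : ∀ y, f y = true → ∃ S : Finset ι, S.card ≤ C ∧ ∀ y', (∀ i ∈ S, y' i = y i) →
      f y' = true)
    (hb : ∀ y, f y = false → BS f r y) : DTd (r * C) f := by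
  induction r generalizing f with
  | zero =>
    by_cases h1 : ∃ y', f y' = true
    · obtain ⟨y', hy'⟩ := h1
      have h2 : ∀ y, f y = true := by
        intro y
        by_contra hy
        have hy2 : f y = false := by simpa using hy
        have := hb y hy2 1 (fun _ => univ.filter (fun i => y' i ≠ y i))
          (fun a b hab => absurd (Subsingleton.elim a b) hab)
          (fun _ => by simp only [flipS_diffset_q3 y y', hy', hy2]; decide)
        omega
      have h3 : f = fun _ => true := funext h2
      rw [h3]
      exact DTd.const _ true
    · have h3 : f = fun _ => false := by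
        funext y
        by_contra hy
        exact h1 ⟨y, by simpa using hy⟩
      rw [h3]
      exact DTd.const _ false
  | succ r ih =>
    by_cases h1 : ∃ a, f a = true
    · obtain ⟨a, ha⟩ := h1
      obtain ⟨S, hS, hS'⟩ := hc a ha
      have key : ∀ β : ι → Bool, DTd (r * C) (fun x => f (fun i => if i ∈ S then β i else x i)) := by
        intro β
        by_cases hβ : ∀ i ∈ S, β i = a i
        · have h2 : (fun x : ι → Bool => f (fun i => if i ∈ S then β i else x i)) =
              fun _ => true := by
            funext x
            apply hS'
            intro i hi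
            simp [hi, hβ i hi]
          rw [h2]
          exact DTd.const _ true
        · apply ih
          · intro y hy
            obtain ⟨S', hS1, hS2⟩ := hc _ hy
            refine ⟨S', hS1, fun y' hy' => hS2 _ ?_⟩
            intro i hi
            by_cases hiS : i ∈ S
            · simp [hiS]
            · simp [hiS, hy' i hi]
          · intro y hy m T hT1 hT2
            have h3 := hb _ hy (m + 1)
              (Fin.cons (S.filter (fun i => β i ≠ a i)) (fun j => T j \ S)) ?_ ?_
            · omega
            · intro p q
              refine Fin.cases ?_ (fun p' => ?_) p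
              · refine Fin.cases ?_ (fun q' => ?_) q
                · intro hab; exact absurd rfl hab
                · intro _
                  simp only [Fin.cons_zero, Fin.cons_succ]
                  rw [disjoint_left]
                  intro i hi hi'
                  exact (mem_sdiff.mp hi').2 (mem_filter.mp hi).1
              · refine Fin.cases ?_ (fun q' => ?_) q
                · intro _
                  simp only [Fin.cons_zero, Fin.cons_succ]
                  rw [disjoint_left]
                  intro i hi hi'
                  exact (mem_sdiff.mp hi).2 (mem_filter.mp hi').1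
                · intro hpq
                  have : p' ≠ q' := fun hcc => hpq (by rw [hcc])
                  simp only [Fin.cons_succ]
                  exact (hT1 p' q' this).mono sdiff_subset sdiff_subset
            · intro p
              refine Fin.cases ?_ (fun p' => ?_) p
              · simp only [Fin.cons_zero]
                have h4 : f (flipS (fun i => if i ∈ S then β i else y i)
                    (S.filter (fun i => β i ≠ a i))) = true := by
                  apply hS'
                  intro i hi
                  unfold flipS
                  by_cases hia : β i = a i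
                  · simp [hi, hia]
                  · rw [if_pos (by simp [hi, hia])]
                    simp only [hi, if_true]
                    cases h5 : β i <;> cases h6 : a i <;> simp_all
                rw [h4, hy]
                decide
              · simp only [Fin.cons_succ]
                have h4 : flipS (fun i => if i ∈ S then β i else y i) (T p' \ S) =
                    fun i => if i ∈ S then β i else flipS y (T p') i := by
                  funext i
                  unfold flipS
                  by_cases hiS : i ∈ S
                  · simp [hiS]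
                  · simp [hiS]
                rw [h4]
                exact hT2 p'
      have h5 := DTd.of_subset S (r * C) f key
      exact h5.mono (by rw [Nat.add_mul, Nat.one_mul]; omega)
    · have h3 : f = fun _ => false := by
        funext y
        by_contra hy
        exact h1 ⟨y, by simpa using hy⟩
      rw [h3]
      exact DTd.const _ false

theorem bs_dtd {ι : Type} [Fintype ι] [DecidableEq ι] {f : (ι → Bool) → Bool} {B : ℕ}
    (h : ∀ y, BS f B y) : DTd (B ^ 3) f := by
  have h1 : DTd (B * B ^ 2) f := by
    apply dtd_of_cert B
    · intro y hy
      obtain ⟨S, h1, h2⟩ := cert_of_bs h y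
      exact ⟨S, h1, fun y' hy' => by rw [h2 y' hy', hy]⟩
    · intro y _
      exact h y
  rwa [← pow_succ'] at h1

end Pool.Agent.Helper67.LB
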