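import Pool.Agent.Helper67.LB.QMag
import Pool.Agent.Helper67.LB.QCert

set_option autoImplicit false
set_option linter.unusedSectionVars false

/-!
The output of a bounded error quantum circuit whose oracle depends on an unknown assignment through
shallow decision trees has a shallow decision tree. (LB-Q4.)

Proof of `bit_dtd`. By `bs_dtd` it suffices to show `BS f B y` with `B = 144 * D * T ^ 2`, where
`f y = decide (2/3 ≤ C.acceptProb (A y))`. Let `S_1, ..., S_r` be disjoint sensitive blocks at `y`,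
`y_a = flipS y (S_a)`. By bounded error `|acceptProb (A y) - acceptProb (A y_a)| ≥ 1/3`. Let
`D_a str` say that `A y str ≠ A y_a str` (and `str.length ≤ T`). By `qhyb`,
`1/3 ≤ 4 √(n * qmag C (A y) D_a)`, `n = C.ops.length ≤ T`, so `1 ≤ 144 * T * qmag C (A y) D_a`
(note `qmag ≥ 0`). For a string `str` of length at most `T` let `Z` be a certificate at `y` of the function
`fun y => A y str` with at most `D` elements (`cert_of_dtd`): if `D_a str` holds then `S_a` meets `Z`
(otherwise `y_a = y` on `Z`), and as the `S_a` are disjoint this happens for at most `D` indices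
`a`. So by `qmag_sum`, `∑ a, qmag C (A y) D_a ≤ D * n ≤ D * T`, and
`r ≤ ∑ a, 144 * T * qmag .. ≤ 144 * T * (D * T)`.
-/

namespace Pool.Agent.Helper67.LB

open Finset Function Classical
open Pool.Agent.Helper67.EQP

private theorem few_blocks_q4 {ι : Type} [Fintype ι] [DecidableEq ι] {D r : ℕ}
    {g : (ι → Bool) → Bool} (hg : DTd D g) (y : ι → Bool) (S : Fin r → Finset ι)
    (hd : ∀ a b, a ≠ b → Disjoint (S a) (S b)) (s : Finset (Fin r))
    (hs : ∀ a ∈ s, g y ≠ g (flipS y (S a))) : s.card ≤ D := by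
  obtain ⟨Z, hZ, hZ'⟩ := cert_of_dtd hg y
  have hex : ∀ a ∈ s, ∃ i, i ∈ S a ∧ i ∈ Z := by
    intro a ha
    by_contra hc
    push Not at hc
    apply hs a ha
    symm
    apply hZ'
    intro i hi
    unfold flipS
    rw [if_neg (fun hi' => hc i hi' hi)]
  rcases s.eq_empty_or_nonempty with rfl | ⟨a0, ha0⟩
  · simp
  have : Nonempty ι := ⟨(hex a0 ha0).choose⟩
  choose! e he1 he2 using hex
  refine le_trans ?_ hZ
  apply card_le_card_of_injOn e (fun a ha => he2 a ha)
  intro a ha b hb hab
  by_contra hne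
  have h1 := he1 a ha
  have h2 := he1 b hb
  rw [← hab] at h2
  exact (disjoint_left.mp (hd a b hne)) h1 h2

theorem bit_dtd {ι : Type} [Fintype ι] [DecidableEq ι] {C : QCircuit} (hC : UC C) {T D : ℕ}
    (hT : C.ops.length ≤ T) (hl : ∀ l, QOp.query l ∈ C.ops → l.length ≤ T)
    (A : (ι → Bool) → List Bool → Bool)
    (hA : ∀ s : List Bool, s.length ≤ T → DTd D (fun y => A y s))
    (hb : ∀ y, C.acceptProb (A y) ≤ 1 / 3 ∨ 2 / 3 ≤ C.acceptProb (A y)) :
    DTd ((144 * D * T ^ 2) ^ 3) (fun y => decide (2 / 3 ≤ C.acceptProb (A y))) := by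
  apply bs_dtd
  intro y r S hd hs
  obtain ⟨Da, hDa⟩ : ∃ Da : Fin r → List Bool → Prop, ∀ a str,
      Da a str ↔ (str.length ≤ T ∧ A y str ≠ A (flipS y (S a)) str) := ⟨_, fun _ _ => Iff.rfl⟩
  have h1 : ∀ a, (1 : ℝ) ≤ 144 * T * qmag C (A y) (Da a) := by
    intro a
    have hq := qhyb hC (A := A y) (A' := A (flipS y (S a))) (D := Da a)
      (by
        intro l hl1 str hstr hnd
        by_contra hc
        exact hnd ((hDa a str).mpr ⟨hstr ▸ hl l hl1, hc⟩))
    have hdiff : (1 : ℝ) / 3 ≤ |C.acceptProb (A y) - C.acceptProb (A (flipS y (S a)))| := by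
      have hsa := hs a
      simp only [ne_eq, decide_eq_decide] at hsa
      rcases hb y with h | h <;> rcases hb (flipS y (S a)) with h' | h'
      · exfalso
        apply hsa
        constructor <;> intro h3 <;> linarith
      · rw [abs_sub_comm]
        refine le_trans ?_ (le_abs_self _)
        linarith
      · refine le_trans ?_ (le_abs_self _)
        linarith
      · exfalso
        apply hsa
        constructor <;> intro h3 <;> linarith
    have hqn := qmag_nonneg C (A y) (Da a)
    have hn : (C.ops.length : ℝ) ≤ T := by exact_mod_cast hT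
    have h2 : (1 : ℝ) / 12 ≤ Real.sqrt (C.ops.length * qmag C (A y) (Da a)) := by linarith
    have h3 : ((1 : ℝ) / 12) ^ 2 ≤ C.ops.length * qmag C (A y) (Da a) := by
      have h4 := Real.le_sqrt' (x := (1 : ℝ) / 12) (y := C.ops.length * qmag C (A y) (Da a))
        (by norm_num)
      exact h4.mp h2
    have h5 : (C.ops.length : ℝ) * qmag C (A y) (Da a) ≤ T * qmag C (A y) (Da a) :=
      mul_le_mul_of_nonneg_right hn hqn
    nlinarith
  have h2 := qmag_sum hC (A y) (univ : Finset (Fin r)) Da D
    (by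
      intro l hl1 str hstr
      have hlen : str.length ≤ T := hstr ▸ hl l hl1
      apply few_blocks_q4 (hA str hlen) y S hd
      intro a ha
      rw [mem_filter] at ha
      exact ((hDa a str).mp ha.2).2)
  have h3 : (r : ℝ) ≤ ∑ a : Fin r, 144 * T * qmag C (A y) (Da a) := by
    calc (r : ℝ) = ∑ _a : Fin r, (1 : ℝ) := by simp
      _ ≤ _ := sum_le_sum (fun a _ => h1 a)
  rw [← mul_sum] at h3
  have hn : (C.ops.length : ℝ) ≤ T := by exact_mod_cast hT
  have h4 : (∑ a : Fin r, qmag C (A y) (Da a)) ≤ D * T :=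
    h2.trans (mul_le_mul_of_nonneg_left hn (Nat.cast_nonneg D))
  have h5 : (r : ℝ) ≤ 144 * T * (D * T) :=
    h3.trans (mul_le_mul_of_nonneg_left h4 (by positivity))
  have h6 : (r : ℝ) ≤ ((144 * D * T ^ 2 : ℕ) : ℝ) := by
    push_cast
    linarith
  exact_mod_cast h6

end Pool.Agent.Helper67.LB
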