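import Pool.Agent.Helper67.LB.QNorm

set_option autoImplicit false
set_option linter.unusedSectionVars false

/-!
Query magnitudes and the hybrid argument of Bennett, Bernstein, Brassard and Vazirani. (LB-Q2.)

* `qmag_sum`: at every time `t` with an oracle gate `l`,
  `∑ a ∈ s, ∑ b, (if D a (l.map b) then ‖ψ b‖ ^ 2 else 0) ≤ m * ∑ b, ‖ψ b‖ ^ 2 = m` (exchange the
  sums; for a fixed `b` at most `m` of the `a` satisfy `D a (l.map b)`); sum over the
  `C.ops.length` times.
* `qhyb`. Let `ψ t = qst C A t`, `φ t = qst C A' t`, and let `N v = √(∑ b, ‖v b‖ ^ 2)` be the Euclidean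
  norm (triangle inequality: e.g. via `EuclideanSpace`, `norm_add_le`, or Minkowski
  `Real.Lp_add_le` with `p = 2`). If the operation `t` is a gate,
  `ψ (t+1) - φ (t+1)` is the gate applied to `ψ t - φ t` (`run_sub`), with the same norm
  (`run_norm`). If it is an oracle gate `l`, then
  `ψ (t+1) - φ (t+1) = (O_A - O_A') ψ t + O_A' (ψ t - φ t)`, and `(O_A - O_A') ψ t` vanishes at `b`
  unless `D (l.map b)` (there `A = A'` otherwise, `h`) and is at most `2 ‖ψ t b‖` in absolute value, so its norm is at
  most `2 √(qwt C A D t)`. Hence `N (ψ n - φ n) ≤ 2 ∑ t, √(qwt t) ≤ 2 √(n * qmag)`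
  (Cauchy-Schwarz, `Real.sum_sqrt_mul_sqrt_le` or `sq_sum_le_card_mul_sum_sq`). The acceptance
  probabilities are `N (P ψ n) ^ 2`, `N (P φ n) ^ 2` with the projection `P` on the accepting basis
  states, and `|a ^ 2 - b ^ 2| = |a - b| (a + b) ≤ 2 |a - b|` as both are at most 1, with
  `|N (P ψ) - N (P φ)| ≤ N (ψ - φ)`.
-/

namespace Pool.Agent.Helper67.LB

open Finset Function Classical
open Pool.Agent.Helper67.EQP

/-- The weight of the queries satisfying `D` at time `t`. -/
noncomputable def qwt (C : QCircuit) (A : List Bool → Bool) (D : List Bool → Prop) (t : ℕ) : ℝ :=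
  match C.ops[t]? with
  | some (.query l) => ∑ b : C.W → Bool, if D (l.map b) then ‖qst C A t b‖ ^ 2 else 0
  | _ => 0

/-- The total weight of the queries satisfying `D`. -/
noncomputable def qmag (C : QCircuit) (A : List Bool → Bool) (D : List Bool → Prop) : ℝ :=
  ∑ t ∈ range C.ops.length, qwt C A D t

private theorem qwt_nonneg (C : QCircuit) (A : List Bool → Bool) (D : List Bool → Prop) (t : ℕ) :
    0 ≤ qwt C A D t := by
  unfold qwt
  split
  · refine Finset.sum_nonneg (fun b _ => ?_)
    split_ifs
    · positivity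
    · exact le_rfl
  · exact le_rfl

private theorem qwt_query (C : QCircuit) (A : List Bool → Bool) (D : List Bool → Prop) {t : ℕ}
    {l : List C.W} (h : C.ops[t]? = some (.query l)) :
    qwt C A D t = ∑ b : C.W → Bool, if D (l.map b) then ‖qst C A t b‖ ^ 2 else 0 := by
  unfold qwt
  rw [h]

private theorem qwt_gate (C : QCircuit) (A : List Bool → Bool) (D : List Bool → Prop) {t : ℕ}
    {U : Matrix (Fin 3 → Bool) (Fin 3 → Bool) ℂ} {e : Fin 3 ↪ C.W}
    (h : C.ops[t]? = some (.gate U e)) : qwt C A D t = 0 := by
  unfold qwt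
  rw [h]

theorem qmag_nonneg (C : QCircuit) (A : List Bool → Bool) (D : List Bool → Prop) :
    0 ≤ qmag C A D := by
  exact Finset.sum_nonneg (fun t _ => qwt_nonneg C A D t)

/-- the Euclidean norm -/
private noncomputable def nm {β : Type} [Fintype β] (v : β → ℂ) : ℝ := Real.sqrt (∑ b, ‖v b‖ ^ 2)

private theorem nm_eq {β : Type} [Fintype β] (v : β → ℂ) :
    nm v = ‖(WithLp.toLp 2 v : EuclideanSpace ℂ β)‖ := by
  rw [EuclideanSpace.norm_eq]
  rfl

private theorem nm_nonneg {β : Type} [Fintype β] (v : β → ℂ) : 0 ≤ nm v := Real.sqrt_nonneg _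

private theorem nm_add {β : Type} [Fintype β] (u v : β → ℂ) :
    nm (fun b => u b + v b) ≤ nm u + nm v := by
  rw [nm_eq, nm_eq, nm_eq]
  exact norm_add_le _ _

private theorem nm_sub_abs {β : Type} [Fintype β] (u v : β → ℂ) :
    |nm u - nm v| ≤ nm (fun b => u b - v b) := by
  rw [nm_eq, nm_eq, nm_eq]
  exact abs_norm_sub_norm_le _ _

private theorem nm_mono {β : Type} [Fintype β] (u v : β → ℂ) (h : ∀ b, ‖u b‖ ≤ ‖v b‖) :
    nm u ≤ nm v := by
  unfold nm
  exact Real.sqrt_le_sqrt (Finset.sum_le_sum (fun b _ =>
    pow_le_pow_left₀ (norm_nonneg _) (h b) 2))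

theorem qmag_sum {C : QCircuit} (hC : UC C) (A : List Bool → Bool) {α : Type} (s : Finset α)
    (D : α → List Bool → Prop) (m : ℕ)
    (hD : ∀ l, QOp.query l ∈ C.ops → ∀ str : List Bool, str.length = l.length →
      (s.filter (fun a => D a str)).card ≤ m) :
    ∑ a ∈ s, qmag C A (D a) ≤ m * C.ops.length := by
  unfold qmag
  rw [Finset.sum_comm]
  have h1 : ∀ t ∈ range C.ops.length, ∑ a ∈ s, qwt C A (D a) t ≤ m := by
    intro t ht
    rw [Finset.mem_range] at ht
    have h2 : C.ops[t]? = some C.ops[t] := List.getElem?_eq_getElem ht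
    have h3 : C.ops[t] ∈ C.ops := List.getElem_mem ht
    cases ho : C.ops[t] with
    | gate U e =>
      rw [ho] at h2
      rw [Finset.sum_eq_zero (fun a _ => qwt_gate C A (D a) h2)]
      exact Nat.cast_nonneg _
    | query l =>
      rw [ho] at h2 h3
      have h4 : ∀ a ∈ s, qwt C A (D a) t =
          ∑ b : C.W → Bool, if D a (l.map b) then ‖qst C A t b‖ ^ 2 else 0 :=
        fun a _ => qwt_query C A (D a) h2
      rw [Finset.sum_congr rfl h4, Finset.sum_comm]
      calc ∑ b : C.W → Bool, ∑ a ∈ s, (if D a (l.map b) then ‖qst C A t b‖ ^ 2 else 0)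
          ≤ ∑ b : C.W → Bool, (m : ℝ) * ‖qst C A t b‖ ^ 2 := by
            refine Finset.sum_le_sum (fun b _ => ?_)
            rw [← Finset.sum_filter, Finset.sum_const, nsmul_eq_mul]
            refine mul_le_mul_of_nonneg_right ?_ (by positivity)
            exact_mod_cast hD l h3 (l.map b) (by rw [List.length_map])
        _ = m := by rw [← Finset.mul_sum, qst_norm hC, mul_one]
  refine (Finset.sum_le_sum h1).trans ?_
  rw [Finset.sum_const, Finset.card_range, nsmul_eq_mul, mul_comm]

theorem qhyb {C : QCircuit} (hC : UC C) {A A' : List Bool → Bool} {D : List Bool → Prop}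
    (h : ∀ l, QOp.query l ∈ C.ops → ∀ str : List Bool, str.length = l.length → ¬ D str →
      A str = A' str) :
    |C.acceptProb A - C.acceptProb A'| ≤ 4 * Real.sqrt (C.ops.length * qmag C A D) := by
  have hstep : ∀ t, t < C.ops.length →
      nm (fun b => qst C A (t + 1) b - qst C A' (t + 1) b) ≤
        nm (fun b => qst C A t b - qst C A' t b) + 2 * Real.sqrt (qwt C A D t) := by
    intro t ht
    have h2 : C.ops[t]? = some C.ops[t] := List.getElem?_eq_getElem ht
    have h3 : C.ops[t] ∈ C.ops := List.getElem_mem ht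
    rw [qst_succ C A ht, qst_succ C A' ht]
    cases ho : C.ops[t] with
    | gate U e =>
      rw [ho] at h2 h3
      rw [qwt_gate C A D h2, Real.sqrt_zero, mul_zero, add_zero]
      have h4 : (fun b => (QOp.gate U e).run A (qst C A t) b -
          (QOp.gate U e).run A' (qst C A' t) b) =
          (QOp.gate U e).run A (fun b => qst C A t b - qst C A' t b) := by
        rw [run_sub]
        rfl
      rw [h4]
      unfold nm
      rw [run_norm hC h3]
    | query l =>
      rw [ho] at h2 h3
      have h4 : (fun b => (QOp.query l).run A (qst C A t) b -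
          (QOp.query l).run A' (qst C A' t) b) =
          fun b => (QOp.query l).run A' (fun b => qst C A t b - qst C A' t b) b +
            ((if A (l.map b) then (-1 : ℂ) else 1) - (if A' (l.map b) then (-1 : ℂ) else 1)) *
              qst C A t b := by
        funext b
        simp only [QOp.run]
        ring
      rw [h4]
      refine (nm_add _ _).trans (add_le_add ?_ ?_)
      · unfold nm
        rw [run_norm hC h3]
      · unfold nm
        rw [qwt_query C A D h2]
        have h5 : (2 : ℝ) * Real.sqrt (∑ b : C.W → Bool,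
            if D (l.map b) then ‖qst C A t b‖ ^ 2 else 0) =
            Real.sqrt (2 ^ 2 * ∑ b : C.W → Bool,
              if D (l.map b) then ‖qst C A t b‖ ^ 2 else 0) := by
          rw [Real.sqrt_mul (by norm_num), Real.sqrt_sq (by norm_num)]
        rw [h5]
        refine Real.sqrt_le_sqrt ?_
        rw [Finset.mul_sum]
        refine Finset.sum_le_sum (fun b _ => ?_)
        beta_reduce
        by_cases hDb : D (l.map b)
        · rw [if_pos hDb, norm_mul, mul_pow]
          refine mul_le_mul_of_nonneg_right ?_ (by positivity)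
          refine pow_le_pow_left₀ (norm_nonneg _) ?_ 2
          refine (norm_sub_le _ _).trans ?_
          have e1 : ∀ p : Prop, ∀ [Decidable p], ‖(if p then (-1 : ℂ) else 1)‖ = 1 := by
            intro p _
            split_ifs <;> simp
          rw [e1, e1]
          norm_num
        · rw [if_neg hDb, h l h3 (l.map b) (by rw [List.length_map]) hDb, sub_self, zero_mul,
            norm_zero]
          norm_num
  have hind : ∀ t, t ≤ C.ops.length →
      nm (fun b => qst C A t b - qst C A' t b) ≤ 2 * ∑ i ∈ range t, Real.sqrt (qwt C A D i) := by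
    intro t
    induction t with
    | zero =>
      intro _
      rw [qst_zero, qst_zero]
      simp [nm]
    | succ t ih =>
      intro ht
      rw [Finset.sum_range_succ, mul_add]
      exact (hstep t (by omega)).trans (add_le_add (ih (by omega)) le_rfl)
  have hfin : nm (fun b => C.state A b - C.state A' b) ≤
      2 * Real.sqrt (C.ops.length * qmag C A D) := by
    have h1 := hind C.ops.length le_rfl
    rw [qst_length, qst_length] at h1
    refine h1.trans (mul_le_mul_of_nonneg_left ?_ (by norm_num))
    apply Real.le_sqrt_of_sq_le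
    refine (sq_sum_le_card_mul_sum_sq).trans ?_
    rw [Finset.card_range]
    refine mul_le_mul_of_nonneg_left (le_of_eq ?_) (Nat.cast_nonneg _)
    exact Finset.sum_congr rfl (fun t _ => Real.sq_sqrt (qwt_nonneg C A D t))
  -- the projection onto the accepting basis states
  have hacc : ∀ A₀ : List Bool → Bool, C.acceptProb A₀ =
      nm (fun b => if b C.out = true then C.state A₀ b else 0) ^ 2 := by
    intro A₀
    unfold nm QCircuit.acceptProb
    rw [Real.sq_sqrt (Finset.sum_nonneg (fun b _ => by positivity))]
    refine Finset.sum_congr rfl (fun b _ => ?_)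
    by_cases hb : b C.out = true
    · simp only [if_pos hb]
    · simp only [if_neg hb, norm_zero]
      norm_num
  have hle1 : ∀ A₀ : List Bool → Bool,
      nm (fun b => if b C.out = true then C.state A₀ b else 0) ≤ 1 := by
    intro A₀
    have h1 : nm (C.state A₀) = 1 := by
      unfold nm
      rw [← qst_length, qst_norm hC, Real.sqrt_one]
    rw [← h1]
    refine nm_mono _ _ (fun b => ?_)
    split_ifs
    · exact le_rfl
    · rw [norm_zero]; exact norm_nonneg _
  rw [hacc, hacc]
  set a := nm (fun b => if b C.out = true then C.state A b else 0) with ha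
  set a' := nm (fun b => if b C.out = true then C.state A' b else 0) with ha'
  have h1 : |a - a'| ≤ 2 * Real.sqrt (C.ops.length * qmag C A D) := by
    refine (nm_sub_abs _ _).trans (le_trans (nm_mono _ _ (fun b => ?_)) hfin)
    split_ifs
    · exact le_rfl
    · rw [sub_zero, norm_zero]; exact norm_nonneg _
  have h2 : a ^ 2 - a' ^ 2 = (a - a') * (a + a') := by ring
  have h3 : |a + a'| ≤ 2 := by
    rw [abs_of_nonneg (add_nonneg (nm_nonneg _) (nm_nonneg _))]
    have := hle1 A
    have := hle1 A'
    linarith
  rw [h2, abs_mul]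
  calc |a - a'| * |a + a'| ≤ (2 * Real.sqrt (C.ops.length * qmag C A D)) * 2 :=
        mul_le_mul h1 h3 (abs_nonneg _) (by positivity)
    _ = 4 * Real.sqrt (C.ops.length * qmag C A D) := by ring

end Pool.Agent.Helper67.LB
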