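import Pool.Agent.Helper67.LB.Defs
import Pool.Agent.Helper67.EQP.Quantum

set_option autoImplicit false
set_option linter.unusedSectionVars false

/-!
Quantum circuits: norms. (LB-Q1.)

* `run_sub`: linear (`Finset.sum_sub_distrib`, `mul_sub`).
* `gate_norm`: the sum over `b : W → Bool` may be replaced by the double sum over `(b0, a)` where
  `a : Fin 3 → Bool` are the values on the range of `e` and `b0` the others: e.g. the map
  `b ↦ (fun i => b (e i), restriction of b to the complement of the range of e)` is an equivalence,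
  or: `∑ b, F b = (1/8) ∑ b, ∑ a : Fin 3 → Bool, F (extend e a b)`, because for fixed `a` the
  map `b ↦ extend e a b` ... each configuration with values `a` on the range is hit 8 times. For fixed `b`, put
  `v c = ψ (extend e c b)`; the new vector at `extend e a b` is `∑ c, U a c * v c = (U.mulVec v) a`
  (`extend e c (extend e a b) = extend e c b`, and `extend e a b (e i) = a i` as `e` is injective), and
  `∑ a, ‖(U.mulVec v) a‖ ^ 2 = ∑ a, ‖v a‖ ^ 2` because `star U * U = 1`. (Compare `EQP/QCirc.lean`,
  `EQP/Quantum.lean` for similar computations.)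
* `query_norm`: the factors have absolute value 1.
* `qst_norm`: induction on `t` (`List.take_succ`, `List.foldl_append`); the initial vector has
  norm 1.
* `acceptProb_congr`: the two computations are equal step by step, because `A` and `A'` are equal
  at all strings `l.map b` (length `l.length`).
-/

namespace Pool.Agent.Helper67.LB

open Finset Function Classical
open Pool.Agent.Helper67.EQP

theorem run_sub {W : Type} (A : List Bool → Bool) (o : QOp W) (ψ φ : (W → Bool) → ℂ) :
    o.run A (fun b => ψ b - φ b) = fun b => o.run A ψ b - o.run A φ b := by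
  cases o with
  | gate U e =>
    funext b
    change ∑ c : Fin 3 → Bool, U (fun i => b (e i)) c * (ψ (Function.extend e c b) - φ (Function.extend e c b)) =
      ∑ c : Fin 3 → Bool, U (fun i => b (e i)) c * ψ (Function.extend e c b) -
      ∑ c : Fin 3 → Bool, U (fun i => b (e i)) c * φ (Function.extend e c b)
    rw [← Finset.sum_sub_distrib]
    exact Finset.sum_congr rfl fun c _ => by rw [mul_sub]
  | query l =>
    funext b
    change (if A (l.map b) then (-1 : ℂ) else 1) * (ψ b - φ b) =
      (if A (l.map b) then (-1 : ℂ) else 1) * ψ b - (if A (l.map b) then (-1 : ℂ) else 1) * φ b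
    rw [mul_sub]

private theorem extend_extend {W : Type} (e : Fin 3 ↪ W) (a c : Fin 3 → Bool) (b : W → Bool) :
    Function.extend e c (Function.extend e a b) = Function.extend e c b := by
  funext w
  by_cases h : ∃ i, e i = w
  · obtain ⟨i, rfl⟩ := h
    rw [e.injective.extend_apply, e.injective.extend_apply]
  · rw [Function.extend_apply' _ _ _ h, Function.extend_apply' _ _ _ h,
      Function.extend_apply' _ _ _ h]

private theorem extend_self {W : Type} (e : Fin 3 ↪ W) (b : W → Bool) :
    Function.extend e (fun i => b (e i)) b = b := by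
  funext w
  by_cases h : ∃ i, e i = w
  · obtain ⟨i, rfl⟩ := h
    rw [e.injective.extend_apply]
  · rw [Function.extend_apply' _ _ _ h]

private theorem sum_extend {W : Type} [Fintype W] [DecidableEq W] (e : Fin 3 ↪ W)
    (F : (W → Bool) → ℝ) :
    ∑ b : W → Bool, ∑ a : Fin 3 → Bool, F (Function.extend e a b) =
      ∑ b : W → Bool, ∑ _a : Fin 3 → Bool, F b := by
  rw [← Fintype.sum_prod_type' (f := fun (b : W → Bool) (a : Fin 3 → Bool) => F (Function.extend e a b)),
    ← Fintype.sum_prod_type' (f := fun (b : W → Bool) (_ : Fin 3 → Bool) => F b)]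
  let Φ : (W → Bool) × (Fin 3 → Bool) → (W → Bool) × (Fin 3 → Bool) := fun p =>
    (Function.extend e p.2 p.1, fun i => p.1 (e i))
  have hΦ : Function.Involutive Φ := by
    rintro ⟨b, a⟩
    refine Prod.ext ?_ ?_
    · change Function.extend e (fun i => b (e i)) (Function.extend e a b) = b
      rw [extend_extend, extend_self]
    · funext i
      change Function.extend e a b (e i) = a i
      rw [e.injective.extend_apply]
  exact Fintype.sum_equiv hΦ.toPerm _ _ fun p => rfl

theorem gate_norm {W : Type} [Fintype W] [DecidableEq W] {U : Matrix (Fin 3 → Bool) (Fin 3 → Bool) ℂ}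
    (hU : U ∈ Matrix.unitaryGroup (Fin 3 → Bool) ℂ) (e : Fin 3 ↪ W) (A : List Bool → Bool)
    (ψ : (W → Bool) → ℂ) : ∑ b, ‖(QOp.gate U e).run A ψ b‖ ^ 2 = ∑ b, ‖ψ b‖ ^ 2 := by
  have h1 := sum_extend e (fun b => ‖(QOp.gate U e).run A ψ b‖ ^ 2)
  have h2 := sum_extend e (fun b => ‖ψ b‖ ^ 2)
  have h3 : ∀ b : W → Bool, ∑ a : Fin 3 → Bool, ‖(QOp.gate U e).run A ψ (Function.extend e a b)‖ ^ 2 =
      ∑ a : Fin 3 → Bool, ‖ψ (Function.extend e a b)‖ ^ 2 := by
    intro b
    have h4 := nsq_unitary hU (fun c => ψ (Function.extend e c b))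
    unfold nsq at h4
    rw [← h4]
    refine Finset.sum_congr rfl fun a _ => ?_
    congr 2
    change ∑ c : Fin 3 → Bool, U (fun i => Function.extend e a b (e i)) c *
      ψ (Function.extend e c (Function.extend e a b)) = ∑ c, U a c * ψ (Function.extend e c b)
    refine Finset.sum_congr rfl fun c _ => ?_
    rw [extend_extend]
    congr 2
    funext i
    rw [e.injective.extend_apply]
  rw [Finset.sum_congr rfl fun b _ => h3 b, h2] at h1
  simp only [Finset.sum_const, nsmul_eq_mul, ← Finset.mul_sum] at h1
  have h5 : ((#(univ : Finset (Fin 3 → Bool)) : ℕ) : ℝ) ≠ 0 := by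
    rw [Finset.card_univ]
    exact_mod_cast Fintype.card_ne_zero
  exact (mul_left_cancel₀ h5 h1).symm

theorem query_norm {W : Type} [Fintype W] [DecidableEq W] (l : List W) (A : List Bool → Bool)
    (ψ : (W → Bool) → ℂ) : ∑ b, ‖(QOp.query l).run A ψ b‖ ^ 2 = ∑ b, ‖ψ b‖ ^ 2 := by
  refine Finset.sum_congr rfl fun b _ => ?_
  change ‖(if A (l.map b) then (-1 : ℂ) else 1) * ψ b‖ ^ 2 = _
  split_ifs <;> simp

/-- All gates of the circuit are unitary. -/
def UC (C : QCircuit) : Prop :=
  ∀ U e, QOp.gate U e ∈ C.ops → U ∈ Matrix.unitaryGroup (Fin 3 → Bool) ℂ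

/-- The state after `t` operations. -/
noncomputable def qst (C : QCircuit) (A : List Bool → Bool) (t : ℕ) : (C.W → Bool) → ℂ :=
  (C.ops.take t).foldl (fun ψ o => o.run A ψ) (fun b => if b = (fun _ => false) then 1 else 0)

theorem qst_zero (C : QCircuit) (A : List Bool → Bool) :
    qst C A 0 = fun b => if b = (fun _ => false) then 1 else 0 := by
  unfold qst
  rw [List.take_zero, List.foldl_nil]

theorem qst_succ (C : QCircuit) (A : List Bool → Bool) {t : ℕ} (ht : t < C.ops.length) :
    qst C A (t + 1) = (C.ops[t]).run A (qst C A t) := by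
  unfold qst
  rw [List.take_succ_eq_append_getElem ht, List.foldl_append, List.foldl_cons, List.foldl_nil]

theorem qst_length (C : QCircuit) (A : List Bool → Bool) : qst C A C.ops.length = C.state A := by
  unfold qst QCircuit.state
  rw [List.take_length]

theorem run_norm {C : QCircuit} (hC : UC C) {o : QOp C.W} (ho : o ∈ C.ops) (A : List Bool → Bool)
    (ψ : (C.W → Bool) → ℂ) : ∑ b, ‖o.run A ψ b‖ ^ 2 = ∑ b, ‖ψ b‖ ^ 2 := by
  cases o with
  | gate U e => exact gate_norm (hC U e ho) e A ψ
  | query l => exact query_norm l A ψ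

theorem qst_norm {C : QCircuit} (hC : UC C) (A : List Bool → Bool) (t : ℕ) :
    ∑ b, ‖qst C A t b‖ ^ 2 = 1 := by
  induction t with
  | zero =>
    rw [qst_zero]
    rw [Finset.sum_eq_single (fun _ => false)]
    · simp
    · intro b _ hb
      simp [hb]
    · intro h; exact absurd (mem_univ _) h
  | succ t ih =>
    by_cases ht : t < C.ops.length
    · rw [qst_succ C A ht, run_norm hC (List.getElem_mem ht), ih]
    · have h1 : qst C A (t + 1) = qst C A t := by
        unfold qst
        rw [List.take_of_length_le (by omega), List.take_of_length_le (by omega)]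
      rw [h1, ih]

private theorem foldl_run_congr {W : Type} (ops : List (QOp W)) {A A' : List Bool → Bool}
    (h : ∀ l, QOp.query l ∈ ops → ∀ s : List Bool, s.length = l.length → A s = A' s)
    (ψ : (W → Bool) → ℂ) :
    ops.foldl (fun ψ o => o.run A ψ) ψ = ops.foldl (fun ψ o => o.run A' ψ) ψ := by
  induction ops generalizing ψ with
  | nil => rfl
  | cons o ops ih =>
    rw [List.foldl_cons, List.foldl_cons]
    have h1 : o.run A ψ = o.run A' ψ := by
      cases o with
      | gate U e => rfl
      | query l =>
        funext b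
        change (if A (l.map b) then (-1 : ℂ) else 1) * ψ b = (if A' (l.map b) then (-1 : ℂ) else 1) * ψ b
        rw [h l (by simp) (l.map b) (by simp)]
    rw [h1]
    exact ih (fun l hl => h l (List.mem_cons_of_mem _ hl)) _

theorem acceptProb_congr (C : QCircuit) {A A' : List Bool → Bool}
    (h : ∀ l, QOp.query l ∈ C.ops → ∀ s : List Bool, s.length = l.length → A s = A' s) :
    C.acceptProb A = C.acceptProb A' := by
  have h1 : C.state A = C.state A' := foldl_run_congr C.ops h _
  unfold QCircuit.acceptProb
  rw [h1]

/-- The acceptance probability depends only on short strings. -/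
theorem QMachine.prob_congr (Q : QMachine) (x : List Bool) {A A' : List Bool → Bool}
    (h : ∀ s : List Bool, s.length ≤ Q.time x → A s = A' s) :
    (Q.circ x).acceptProb A = (Q.circ x).acceptProb A' := by
  refine acceptProb_congr _ fun l hl s hs => h s ?_
  rw [hs]
  exact Q.short x l hl

theorem QMachine.acc_congr (Q : QMachine) (x : List Bool) {A A' : List Bool → Bool}
    (h : ∀ s : List Bool, s.length ≤ Q.time x → A s = A' s) : Q.Acc A x ↔ Q.Acc A' x := by
  unfold QMachine.Acc
  rw [Q.prob_congr x h]

end Pool.Agent.Helper67.LB
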