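import Pool.Agent.Helper67.LB.SDefs

set_option autoImplicit false
set_option linter.unusedSectionVars false

/-!
Block restrictions: basic facts. (LB-S1. All are short; compare `EQP/Switch.lean`, of which this is
the block version: `Term.fals_ext`, `first_ext`, ....)

* `falsB_ext`, `satB_ext`: immediate from the definition of `ExtB`.
* `firstB_ext`: as `first_ext`.
* `satB_of`: if there is no star and the term is not falsified, then for a literal `i` the known
  value `kv ν (ρ i.1) i.2` is not `none` (else `i.1 ∈ starsB`), and not the wrong one.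
* `DTd_app`: the substitution replaces every variable by a constant or one variable
  (`DTd.comp`); for each `v`, `fun z => app ν ρ z v` is constant or `fun z => z v.1`.
-/

namespace Pool.Agent.Helper67.LB

open Finset Function Classical
open Pool.Agent.Helper67.EQP

variable {P Y : Type} {w : ℕ} {ν : Bool}

theorem falsB_ext {T : Term (P × Y) w} {τ τ' : P → Blk Y} (h : ExtB ν τ τ')
    (hf : falsB ν T τ) : falsB ν T τ' := by
  obtain ⟨j, i, h1, h2⟩ := hf
  exact ⟨j, i, h1, h i.1 i.2 _ h2⟩

theorem satB_ext {T : Term (P × Y) w} {τ τ' : P → Blk Y} (h : ExtB ν τ τ')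
    (hf : satB ν T τ) : satB ν T τ' := by
  intro j i hji
  exact h i.1 i.2 _ (hf j i hji)

theorem not_falsB_of_satB {T : Term (P × Y) w} {τ : P → Blk Y} (h : satB ν T τ) :
    ¬ falsB ν T τ := by
  rintro ⟨j, i, h1, h2⟩
  rw [h j i h1] at h2
  simp at h2

theorem firstB_ext {F : List (Term (P × Y) w)} {ρ ρ' : P → Blk Y} {T : Term (P × Y) w}
    (h : firstB ν F ρ = some T) (he : ExtB ν ρ ρ') (hT : ¬ falsB ν T ρ') :
    firstB ν F ρ' = some T := by
  unfold firstB at h ⊢
  rw [List.find?_eq_some_iff_append] at h ⊢
  obtain ⟨_, as, bs, hF, has⟩ := h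
  refine ⟨by simpa using hT, as, bs, hF, ?_⟩
  intro a ha
  have := has a ha
  simp only [decide_not, Bool.not_not, decide_eq_true_eq] at this ⊢
  exact falsB_ext he this

theorem firstB_not_falsB {F : List (Term (P × Y) w)} {ρ : P → Blk Y} {T : Term (P × Y) w}
    (h : firstB ν F ρ = some T) : ¬ falsB ν T ρ := by
  unfold firstB at h
  have := List.find?_some h
  simpa using this

theorem firstB_mem {F : List (Term (P × Y) w)} {ρ : P → Blk Y} {T : Term (P × Y) w}
    (h : firstB ν F ρ = some T) : T ∈ F := by
  unfold firstB at h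
  exact List.mem_of_find?_eq_some h

theorem firstB_none {F : List (Term (P × Y) w)} {ρ : P → Blk Y}
    (h : firstB ν F ρ = none) : ∀ T ∈ F, falsB ν T ρ := by
  unfold firstB at h
  rw [List.find?_eq_none] at h
  intro T hT
  have := h T hT
  simpa using this

/-- A satisfied term is true whatever the values of the new variables are. -/
theorem sat_app_of_satB {T : Term (P × Y) w} {ρ : P → Blk Y} (h : satB ν T ρ) (z : P → Bool) :
    T.sat (app ν ρ z) := by
  intro j i hji
  unfold app
  rw [h j i hji]
  rfl

/-- A falsified term is false whatever the values of the new variables are. -/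
theorem not_sat_of_falsB {T : Term (P × Y) w} {ρ : P → Blk Y} (h : falsB ν T ρ) (z : P → Bool) :
    ¬ T.sat (app ν ρ z) := by
  intro hs
  obtain ⟨j, i, h1, h2⟩ := h
  have := hs j i h1
  unfold app at this
  rw [h2] at this
  simp at this

theorem mem_starsB [Fintype P] {T : Term (P × Y) w} {ρ : P → Blk Y} {p : P} :
    p ∈ starsB ν T ρ ↔ ∃ j i, T.v j = some i ∧ i.1 = p ∧ kv ν (ρ p) i.2 = none := by
  unfold starsB
  simp only [mem_filter, mem_univ, true_and]

theorem mem_unsB [Fintype P] [Fintype Y] {T : Term (P × Y) w} {ρ : P → Blk Y} {i : P × Y} :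
    i ∈ unsB ν T ρ ↔ (∃ j, T.v j = some i) ∧ T.s i = ν ∧ kv ν (ρ i.1) i.2 = none := by
  unfold unsB
  simp only [mem_filter, mem_univ, true_and]

/-- The value is unknown only for the selected elements of the blocks with a new variable. -/
theorem kv_eq_none {B : Blk Y} {y : Y} : kv ν B y = none ↔ B.1 y = true ∧ B.2 = none := by
  unfold kv
  by_cases hB : B.1 y = true
  · simp [hB]
  · simp [hB]

theorem satB_of [Fintype P] {T : Term (P × Y) w} {ρ : P → Blk Y} (h1 : starsB ν T ρ = ∅)
    (h2 : ¬ falsB ν T ρ) : satB ν T ρ := by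
  intro j i hji
  rcases hk : kv ν (ρ i.1) i.2 with _ | b
  · exfalso
    have hm : i.1 ∈ starsB ν T ρ := mem_starsB.mpr ⟨j, i, hji, rfl, hk⟩
    rw [h1] at hm
    simp at hm
  · congr 1
    by_contra hb
    apply h2
    refine ⟨j, i, hji, ?_⟩
    rw [hk]
    congr 1
    cases b <;> cases hh : T.s i <;> simp_all

/-- Functions with shallow trees remain so under block restrictions. -/
theorem DTd_app [DecidableEq P] [DecidableEq Y] {d : ℕ} {f : (P × Y → Bool) → Bool}
    (h : DTd d f) (ρ : P → Blk Y) : DTd d (fun z : P → Bool => f (app ν ρ z)) := by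
  refine h.comp (fun z : P → Bool => app ν ρ z) ?_
  intro i
  rcases hk : kv ν (ρ i.1) i.2 with _ | b
  · have : (fun z : P → Bool => app ν ρ z i) = fun z => z i.1 := by
      funext z
      unfold app
      rw [hk]
      rfl
    rw [this]
    exact DTd.lit i.1
  · have : (fun z : P → Bool => app ν ρ z i) = fun _ => b := by
      funext z
      unfold app
      rw [hk]
      rfl
    rw [this]
    exact DTd.const 1 b

theorem ExtB.trans {τ τ' τ'' : P → Blk Y} (h : ExtB ν τ τ') (h' : ExtB ν τ' τ'') :
    ExtB ν τ τ'' := fun p y b hb => h' p y b (h p y b hb)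

end Pool.Agent.Helper67.LB
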