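import Pool.Agent.Helper67.LB.SBasic

set_option autoImplicit false
set_option linter.unusedSectionVars false

/-!
Block restrictions: a deep restriction has a first term with a star. (LB-S2, block version of
`EQP.deep_step` in `EQP/Switch.lean`.)

Proof. `h` says that `fun z => f (app ν ρ z)` has no tree of depth `k`. If `firstB ν F ρ = none`
then all terms are falsified and the function is constantly false (`not_sat_of_falsB`). So let `T`
be the first term. If `starsB ν T ρ = ∅` then `T` is satisfied (`satB_of`, `sat_app_of_satB`) and the
function is constantly true. Finally, if for every `β` the restricted function `asgB ρ S β`,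
`S = starsB ν T ρ`, has a tree of depth `k'` where `k = k' + S.card`, then `f (app ν ρ ·)` has a
tree of depth `k` by `DTd.of_subset` (in `EQP/DT.lean`), because
`app ν ρ (fun p => if p ∈ S then β p else z p) = app ν (asgB ρ S β) z`: for `p ∈ S` we have
`(ρ p).2 = none` by `mem_starsB` and `kv_eq_none`.
-/

namespace Pool.Agent.Helper67.LB

open Finset Function Classical
open Pool.Agent.Helper67.EQP

variable {P Y : Type} [Fintype P] [DecidableEq P] [Fintype Y] [DecidableEq Y] {w : ℕ} {ν : Bool}

private theorem sdeep_inst {P : Type} (i1 i2 : DecidableEq P) (k : ℕ)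
    (g : (P → Bool) → Bool) : @DTd P i1 k g ↔ @DTd P i2 k g := by
  rw [Subsingleton.elim i1 i2]

private theorem sdeep_congr {P : Type} [DecidableEq P] {k : ℕ} {g g' : (P → Bool) → Bool}
    (h : g = g') (h' : DTd k g') : DTd k g := by
  rw [h]
  exact h'

theorem deep_stepB {F : List (Term (P × Y) w)} {f : (P × Y → Bool) → Bool} (hF : IsDNF F f)
    {ρ : P → Blk Y} {k : ℕ} (h : DeepB ν f ρ (k + 1)) :
    ∃ T, firstB ν F ρ = some T ∧ (starsB ν T ρ).Nonempty ∧
      ∃ β, DeepB ν f (asgB ρ (starsB ν T ρ) β) (k + 1 - (starsB ν T ρ).card) := by
  have hDeep : ∀ (ρ : P → Blk Y) (k : ℕ), DeepB ν f ρ (k + 1) ↔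
      ¬ DTd k (fun z : P → Bool => f (app ν ρ z)) := by
    intro ρ k
    unfold DeepB
    exact not_congr (sdeep_inst _ _ _ _)
  have hD : ¬ DTd k (fun z : P → Bool => f (app ν ρ z)) := (hDeep ρ k).1 h
  rcases hT : firstB ν F ρ with _ | T
  · exfalso
    apply hD
    have hall := firstB_none hT
    have : (fun z : P → Bool => f (app ν ρ z)) = fun _ => false := by
      funext z
      by_contra hne
      have hx : f (app ν ρ z) = true := by simpa using hne
      obtain ⟨T, hTF, hs⟩ := (hF _).mp hx
      exact not_sat_of_falsB (hall T hTF) z hs
    rw [this]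
    exact DTd.const k false
  · refine ⟨T, rfl, ?_, ?_⟩
    · by_contra hne
      rw [not_nonempty_iff_eq_empty] at hne
      apply hD
      have : (fun z : P → Bool => f (app ν ρ z)) = fun _ => true := by
        funext z
        rw [hF]
        exact ⟨T, firstB_mem hT, sat_app_of_satB (satB_of hne (firstB_not_falsB hT)) z⟩
      rw [this]
      exact DTd.const k true
    · by_contra hcon
      push Not at hcon
      obtain ⟨k', hk'⟩ : ∃ k', k + 1 - (starsB ν T ρ).card = k' + 1 := by
        refine ⟨k + 1 - (starsB ν T ρ).card - 1, ?_⟩
        by_contra hne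
        have h0 : k + 1 - (starsB ν T ρ).card = 0 := by omega
        have := hcon (fun _ => false)
        rw [h0] at this
        exact this trivial
      apply hD
      have hk : k = k' + (starsB ν T ρ).card := by omega
      rw [hk]
      apply DTd.of_subset
      intro β
      have := hcon β
      rw [hk'] at this
      have h2 : DTd k' (fun z : P → Bool => f (app ν (asgB ρ (starsB ν T ρ) β) z)) := by
        by_contra hh
        exact this ((hDeep _ k').2 hh)
      refine sdeep_congr ?_ h2
      funext z
      refine congrArg f ?_
      funext v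
      obtain ⟨p, y⟩ := v
      unfold app asgB
      by_cases hp : p ∈ starsB ν T ρ
      · have hnone : (ρ p).2 = none := by
          rw [mem_starsB] at hp
          obtain ⟨j, i, -, -, h3⟩ := hp
          exact (kv_eq_none.1 h3).2
        simp only [hp, if_true]
        unfold kv
        by_cases hy : (ρ p).1 y = true
        · simp [hy, hnone]
        · simp [hy]
      · simp [hp]

end Pool.Agent.Helper67.LB
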