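import Pool.Agent.Helper67.EQP.AC

set_option autoImplicit false
set_option linter.unusedSectionVars false

/-!
Block restrictions: definitions.

The variables are indexed by `P × Y`; the block of `p : P` consists of the variables `(p, y)`. A
block restriction selects a set of variables in every block; all variables which are not selected
get the value `ν`; the selected variables of a block all get the same value, which is either known
or a new variable (there is one new variable for every block).
-/

namespace Pool.Agent.Helper67.LB

open Finset Function Classical
open Pool.Agent.Helper67.EQP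

variable {P Y : Type} {w : ℕ}

/-- A block: the selected variables, and their common value (`none` = the new variable). -/
abbrev Blk (Y : Type) : Type := (Y → Bool) × Option Bool

/-- The value of the element `y` of a block, if it is known. -/
def kv (ν : Bool) (B : Blk Y) (y : Y) : Option Bool := if B.1 y then B.2 else some ν

/-- The assignment obtained from a block restriction and the values of the new variables. -/
def app (ν : Bool) (ρ : P → Blk Y) (z : P → Bool) : P × Y → Bool :=
  fun v => (kv ν (ρ v.1) v.2).getD (z v.1)

/-- Some literal of the term has the wrong known value. -/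
def falsB (ν : Bool) (T : Term (P × Y) w) (ρ : P → Blk Y) : Prop :=
  ∃ j i, T.v j = some i ∧ kv ν (ρ i.1) i.2 = some (!T.s i)

/-- All literals of the term have the right known value. -/
def satB (ν : Bool) (T : Term (P × Y) w) (ρ : P → Blk Y) : Prop :=
  ∀ j i, T.v j = some i → kv ν (ρ i.1) i.2 = some (T.s i)

/-- The blocks whose new variable occurs in the restricted term. -/
noncomputable def starsB [Fintype P] (ν : Bool) (T : Term (P × Y) w) (ρ : P → Blk Y) : Finset P :=
  univ.filter (fun p => ∃ j i, T.v j = some i ∧ i.1 = p ∧ kv ν (ρ p) i.2 = none)

/-- The variables of the term whose value is not known and which should have the value `ν`. -/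
noncomputable def unsB [Fintype P] [Fintype Y] (ν : Bool) (T : Term (P × Y) w) (ρ : P → Blk Y) :
    Finset (P × Y) :=
  univ.filter (fun i => (∃ j, T.v j = some i) ∧ T.s i = ν ∧ kv ν (ρ i.1) i.2 = none)

/-- First term of the list which is not falsified. -/
noncomputable def firstB (ν : Bool) (F : List (Term (P × Y) w)) (ρ : P → Blk Y) :
    Option (Term (P × Y) w) :=
  F.find? (fun T => decide (¬ falsB ν T ρ))

/-- The known values of `τ` are known values of `τ'`. -/
def ExtB (ν : Bool) (τ τ' : P → Blk Y) : Prop :=
  ∀ p y b, kv ν (τ p) y = some b → kv ν (τ' p) y = some b

/-- `τ'` has the same blocks as `τ` wherever the common value is known in `τ`. -/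
def Agr (τ τ' : P → Blk Y) : Prop := ∀ p, (τ p).2 ≠ none → τ' p = τ p

/-- Assign the new variables of the blocks in `S`. -/
noncomputable def asgB (ρ : P → Blk Y) (S : Finset P) (β : P → Bool) : P → Blk Y :=
  fun p => if p ∈ S then ((ρ p).1, some (β p)) else ρ p

/-- The encoded restriction: in the blocks in `S` the variables in `U` are unselected and the other
selected variables get the value `!ν`. -/
noncomputable def encB (ν : Bool) (ρ : P → Blk Y) (S : Finset P) (U : Finset (P × Y)) :
    P → Blk Y :=
  fun p => if p ∈ S then (fun y => (ρ p).1 y && !decide ((p, y) ∈ U), some (!ν)) else ρ p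

/-- Depth of the restricted function is at least `k`. -/
def DeepB (ν : Bool) (f : (P × Y → Bool) → Bool) (ρ : P → Blk Y) : ℕ → Prop
  | 0 => True
  | (k + 1) => ¬ DTd k (fun z : P → Bool => f (app ν ρ z))

/-- Partial maps on block restrictions which keep the blocks with a new variable and commute with
extensions. -/
structure GoodMapB (ν : Bool) (m : (P → Blk Y) → Option (P → Blk Y)) : Prop where
  star_eq : ∀ τ ρ, m τ = some ρ → ∀ p, (τ p).2 = none → ρ p = τ p
  nonstar : ∀ τ ρ, m τ = some ρ → ∀ p, (τ p).2 ≠ none → (ρ p).2 ≠ none
  ext : ∀ τ ρ τ', m τ = some ρ → Agr τ τ' → ExtB ν τ τ' →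
    m τ' = some (fun p => if (τ p).2 = none then τ' p else ρ p)

/-- Codes: a position of the term can be marked as the representative of a block, with the value
of the new variable of that block, and it can be marked as unselected by the encoding. -/
abbrev BCode (w : ℕ) : Type := Fin w → Option Bool × Bool

/-- Number of representatives. -/
noncomputable def reps (c : BCode w) : ℕ := (univ.filter (fun j => (c j).1 ≠ none)).card

/-- Number of marks for unselected variables. -/
noncomputable def mks (c : BCode w) : ℕ := (univ.filter (fun j => (c j).2 = true)).card

/-- In the blocks having a representative, select the marked variables again and assign the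
value given by the code. -/
noncomputable def asgcB (ρ : P → Blk Y) (T : Term (P × Y) w) (c : BCode w) : P → Blk Y :=
  fun p => if h : ∃ j, (∃ i, T.v j = some i ∧ i.1 = p) ∧ (c j).1 ≠ none then
    (fun y => (ρ p).1 y || decide (∃ j, T.v j = some (p, y) ∧ (c j).2 = true),
      (c (choose h)).1) else ρ p

/-- The representatives lie in blocks whose common value is known. -/
def okc (ρ : P → Blk Y) (T : Term (P × Y) w) (c : BCode w) : Prop :=
  ∀ j i, T.v j = some i → (c j).1 ≠ none → (ρ i.1).2 ≠ none

/-- The decoding step. -/
noncomputable def decB (ν : Bool) (F : List (Term (P × Y) w)) (c : BCode w)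
    (m : (P → Blk Y) → Option (P → Blk Y)) (τ : P → Blk Y) : Option (P → Blk Y) :=
  (m τ).bind (fun ρ => (firstB ν F ρ).bind (fun T =>
    if satB ν T ρ ∧ okc ρ T c then some (asgcB ρ T c) else none))

variable [Fintype Y]

/-- Weights of the random block restriction: every variable is selected with probability `p`, and
the common value is a new variable with probability `p` and `!ν` otherwise. -/
noncomputable def bw (p : ℝ) (ν : Bool) (_ : P) (B : Blk Y) : ℝ :=
  (∏ y, if B.1 y then p else 1 - p) *
    (match B.2 with
      | none => p
      | some b => if b = ν then 0 else 1 - p)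

/-- Weight of a block restriction. -/
noncomputable def wtB [Fintype P] (p : ℝ) (ν : Bool) (ρ : P → Blk Y) : ℝ := ∏ i, bw p ν i (ρ i)

end Pool.Agent.Helper67.LB
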