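import Pool.Agent.Helper67.LB.SBasic

set_option autoImplicit false
set_option linter.unusedSectionVars false

/-!
Block restrictions: the decoding steps are good maps. (LB-S3, block version of `EQP.goodMap_some`,
`EQP.dec_eq_some`, `EQP.goodMap_dec` in `EQP/Switch.lean`.)

Proof of `goodMap_decB`. Let `decB ν F c m τ = some σ`, so `m τ = some ρ`, `firstB ν F ρ = some T`,
`satB ν T ρ`, `okc ρ T c` and `σ = asgcB ρ T c`.
* `star_eq`: if `(τ p).2 = none` then `ρ p = τ p` by `hm`, in particular `(ρ p).2 = none`, hence no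
  position `j` with `T.v j = some i`, `i.1 = p`, `(c j).1 ≠ none` exists by `okc`, so `σ p = ρ p`.
* `nonstar`: if `(τ p).2 ≠ none` then `(ρ p).2 ≠ none`, and either `σ p = ρ p` or the second component
  of `σ p` is `(c j).1 ≠ none`.
* `ext`: let `Agr τ τ'` and `ExtB ν τ τ'`. By `hm`, `m τ' = some ρ'` with
  `ρ' p = if (τ p).2 = none then τ' p else ρ p`. We have `ExtB ν ρ ρ'`: if `(τ p).2 = none` then
  `ρ p = τ p` and `ρ' p = τ' p`, otherwise `ρ' p = ρ p`. So `T` is still satisfied and the first term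
  (`satB_ext`, `firstB_ext`, `not_falsB_of_satB`). `okc ρ' T c`: a marked position lies in a block
  `p` with `(ρ p).2 ≠ none`, so `(τ p).2 ≠ none` (`star_eq`), and `ρ' p = ρ p`. So
  `decB ν F c m τ' = some (asgcB ρ' T c)`, and this is the required map: for `(τ p).2 = none` the
  block `p` has no marked position, and `asgcB ρ' T c p = ρ' p = τ' p`; for `(τ p).2 ≠ none` we have
  `ρ' p = ρ p` and `asgcB` looks only at this.
-/

namespace Pool.Agent.Helper67.LB

open Finset Function Classical
open Pool.Agent.Helper67.EQP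

variable {P Y : Type} {w : ℕ} {ν : Bool}

theorem goodMapB_some : GoodMapB ν (some : (P → Blk Y) → Option (P → Blk Y)) where
  star_eq := by
    intro τ ρ h p _
    rw [Option.some.inj h]
  nonstar := by
    intro τ ρ h p hp
    rw [← Option.some.inj h]
    exact hp
  ext := by
    intro τ ρ τ' h hA _
    congr 1
    funext p
    rw [← Option.some.inj h]
    by_cases hp : (τ p).2 = none
    · simp [hp]
    · simp only [hp, if_false]
      exact hA p hp

theorem decB_eq_some {F : List (Term (P × Y) w)} {c : BCode w}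
    {m : (P → Blk Y) → Option (P → Blk Y)} {τ σ : P → Blk Y} :
    decB ν F c m τ = some σ ↔ ∃ ρ T, m τ = some ρ ∧ firstB ν F ρ = some T ∧ satB ν T ρ ∧
      okc ρ T c ∧ σ = asgcB ρ T c := by
  unfold decB
  constructor
  · intro h
    rw [Option.bind_eq_some_iff] at h
    obtain ⟨ρ, hρ, h⟩ := h
    rw [Option.bind_eq_some_iff] at h
    obtain ⟨T, hT, h⟩ := h
    by_cases hs : satB ν T ρ ∧ okc ρ T c
    · rw [if_pos hs] at h
      exact ⟨ρ, T, hρ, hT, hs.1, hs.2, (Option.some.inj h).symm⟩
    · rw [if_neg hs] at h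
      simp at h
  · rintro ⟨ρ, T, hρ, hT, hs, ho, rfl⟩
    rw [hρ, Option.bind_some, hT, Option.bind_some, if_pos ⟨hs, ho⟩]

theorem goodMap_decB {F : List (Term (P × Y) w)} {c : BCode w}
    {m : (P → Blk Y) → Option (P → Blk Y)} (hm : GoodMapB ν m) : GoodMapB ν (decB ν F c m) where
  star_eq := by
    intro τ σ h p hp
    rw [decB_eq_some] at h
    obtain ⟨ρ, T, hρ, hT, hs, ho, rfl⟩ := h
    have h1 := hm.star_eq τ ρ hρ p hp
    have hno : ¬ ∃ j, (∃ i, T.v j = some i ∧ i.1 = p) ∧ (c j).1 ≠ none := by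
      rintro ⟨j, ⟨i, hi, rfl⟩, hc⟩
      apply ho j i hi hc
      rw [h1]
      exact hp
    unfold asgcB
    rw [dif_neg hno]
    exact h1
  nonstar := by
    intro τ σ h p hp
    rw [decB_eq_some] at h
    obtain ⟨ρ, T, hρ, hT, hs, ho, rfl⟩ := h
    have h1 := hm.nonstar τ ρ hρ p hp
    unfold asgcB
    by_cases hh : ∃ j, (∃ i, T.v j = some i ∧ i.1 = p) ∧ (c j).1 ≠ none
    · rw [dif_pos hh]
      exact (choose_spec hh).2
    · rw [dif_neg hh]
      exact h1
  ext := by
    intro τ σ τ' h hA hE
    rw [decB_eq_some] at h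
    obtain ⟨ρ, T, hρ, hT, hs, ho, rfl⟩ := h
    rw [decB_eq_some]
    have hext := hm.ext τ ρ τ' hρ hA hE
    have hE' : ExtB ν ρ (fun p => if (τ p).2 = none then τ' p else ρ p) := by
      intro p y b hb
      by_cases hp : (τ p).2 = none
      · rw [hm.star_eq τ ρ hρ p hp] at hb
        simp only [hp, if_true]
        exact hE p y b hb
      · simp only [hp, if_false]
        exact hb
    have hs' := satB_ext hE' hs
    have hnone : ∀ p, (τ p).2 = none → (ρ p).2 = none := by
      intro p hp
      rw [hm.star_eq τ ρ hρ p hp]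
      exact hp
    refine ⟨_, T, hext, firstB_ext hT hE' (not_falsB_of_satB hs'), hs', ?_, ?_⟩
    · intro j i hi hc
      have h2 := ho j i hi hc
      have h3 : ¬ (τ i.1).2 = none := fun h => h2 (hnone _ h)
      simp only [h3, if_false]
      exact h2
    · funext p
      by_cases hp : (τ p).2 = none
      · have hno : ¬ ∃ j, (∃ i, T.v j = some i ∧ i.1 = p) ∧ (c j).1 ≠ none := by
          rintro ⟨j, ⟨i, hi, rfl⟩, hc⟩
          exact ho j i hi hc (hnone _ hp)
        simp only [asgcB]
        rw [dif_neg hno, if_pos hp, dif_neg hno]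
      · simp only [asgcB]
        rw [if_neg hp, if_neg hp]

end Pool.Agent.Helper67.LB
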