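import Pool.Agent.Helper67.LB.SDeep
import Pool.Agent.Helper67.LB.SGood

set_option autoImplicit false
set_option linter.unusedSectionVars false

/-!
Block restrictions: the encoding of a deep restriction. (LB-S4, block version of `EQP.encode` in
`EQP/Switch.lean`.)

Proof. Let `m τ = some ρ` and `T`, `β` be given by `deep_stepB`; `S = starsB ν T ρ`,
`U = unsB ν T ρ`. For `p ∈ S` there is an element `y` with `kv ν (ρ p) y = none`, so
`(ρ p).2 = none` (`kv_eq_none`), so `(τ p).2 = none` (`hm.nonstar`) and `ρ p = τ p` (`hm.star_eq`).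
For `i ∈ U`: `i.1 ∈ S` and `(ρ i.1).1 i.2 = true`, so `(τ i.1).1 i.2 = true`.
Let `τ' = encB ν τ S U`. Then `Agr τ τ'` (blocks of `S` have `(τ p).2 = none`) and `ExtB ν τ τ'`
(for `p ∈ S` the known values of `τ p` are those of the unselected elements, and these are still
unselected). By `hm.ext`, `m τ' = some ρ'`, `ρ' p = if (τ p).2 = none then τ' p else ρ p`, and
`ρ' = encB ν ρ S U` (if `p ∉ S` and `(τ p).2 = none` then `τ' p = τ p = ρ p`). Similarly
`ExtB ν ρ ρ'`. `satB ν T ρ'`: for a literal `(p, y)` of `T` with `p ∈ S`: if it is unselected in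
`ρ p` then its value under `ρ` is `ν`, and this is right because `T` is not falsified
(`firstB_not_falsB`), and it is still unselected; if it is selected then it is in `U` iff
`T.s (p, y) = ν`, and then it has the value `ν` under `ρ'`; otherwise it is still selected and has
the value `!ν = T.s (p, y)`. For `p ∉ S` the value is known in `ρ` (else `p ∈ S`) and not wrong.
So `firstB ν F ρ' = some T`.

The code: choose for every `p ∈ S` a position `g p` with `T.v (g p) = some i`, `i.1 = p`, and for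
every `i ∈ U` a position `g' i` with `T.v (g' i) = some i`; both are injective. Let
`(c j).1 = some (β p)` if `j = g p` for some `p ∈ S`, and `none` if there is no such `p`; let
`(c j).2 = true` iff `j = g' i` for some `i ∈ U`. Then `reps c = S.card`, `mks c = U.card`
(`Finset.card_bij`), the blocks in `S` are exactly those with a marked position, and
`asgcB ρ' T c = asgB ρ S β`.
-/

namespace Pool.Agent.Helper67.LB

open Finset Function Classical
open Pool.Agent.Helper67.EQP

variable {P Y : Type} [Fintype P] [DecidableEq P] [Fintype Y] [DecidableEq Y] {w : ℕ} {ν : Bool}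

private theorem senc_kv_of_unsel {B : Blk Y} {y : Y} (h : B.1 y = false) : kv ν B y = some ν := by
  simp [kv, h]

private theorem senc_kv_of_sel {B : Blk Y} {y : Y} (h : B.1 y = true) : kv ν B y = B.2 := by
  simp [kv, h]

private theorem senc_encB_of_mem {ρ : P → Blk Y} {S : Finset P} {U : Finset (P × Y)} {p : P}
    (h : p ∈ S) : encB ν ρ S U p = (fun y => (ρ p).1 y && !decide ((p, y) ∈ U), some (!ν)) := by
  unfold encB
  rw [if_pos h]
  refine Prod.ext ?_ rfl
  funext y
  by_cases hy : (p, y) ∈ U <;> simp [hy]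

private theorem senc_encB_of_not_mem {ρ : P → Blk Y} {S : Finset P} {U : Finset (P × Y)} {p : P}
    (h : p ∉ S) : encB ν ρ S U p = ρ p := by
  simp [encB, h]

private theorem senc_extB {ρ : P → Blk Y} {S : Finset P} {U : Finset (P × Y)}
    (hS : ∀ p ∈ S, (ρ p).2 = none) : ExtB ν ρ (encB ν ρ S U) := by
  intro p y b hb
  by_cases hp : p ∈ S
  · rw [senc_encB_of_mem hp]
    rcases hy : (ρ p).1 y with _ | _
    · rw [senc_kv_of_unsel hy] at hb
      rw [senc_kv_of_unsel (by simp [hy])]
      exact hb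
    · rw [senc_kv_of_sel hy, hS p hp] at hb
      simp at hb
  · rw [senc_encB_of_not_mem hp]
    exact hb

/-- Encoding of a deep restriction. -/
theorem encodeB {F : List (Term (P × Y) w)} {f : (P × Y → Bool) → Bool} (hF : IsDNF F f)
    {m : (P → Blk Y) → Option (P → Blk Y)} (hm : GoodMapB ν m) {k : ℕ}
    {τ : P → Blk Y} (h : ∃ ρ, m τ = some ρ ∧ DeepB ν f ρ (k + 1)) :
    ∃ (c : BCode w) (S : Finset P) (U : Finset (P × Y)) (T : Term (P × Y) w),
      0 < reps c ∧ S.card = reps c ∧ U.card = mks c ∧ (∀ p ∈ S, (τ p).2 = none) ∧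
      (∀ i ∈ U, i.1 ∈ S ∧ (τ i.1).1 i.2 = true) ∧
      (∃ ρ', m (encB ν τ S U) = some ρ' ∧ firstB ν F ρ' = some T) ∧
      (∀ p, p ∈ S ↔ ∃ j, (∃ i, T.v j = some i ∧ i.1 = p) ∧ (c j).1 ≠ none) ∧
      (∀ i, i ∈ U ↔ ∃ j, T.v j = some i ∧ (c j).2 = true) ∧
      (∃ σ, decB ν F c m (encB ν τ S U) = some σ ∧ DeepB ν f σ (k + 1 - reps c)) := by
  obtain ⟨ρ, hρ, hD⟩ := h
  obtain ⟨T, hT, hne, β, hβ⟩ := deep_stepB hF hD
  set S := starsB ν T ρ with hS
  set U := unsB ν T ρ with hU
  have hSmem : ∀ p, p ∈ S ↔ ∃ j i, T.v j = some i ∧ i.1 = p ∧ kv ν (ρ p) i.2 = none := by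
    intro p
    rw [hS]
    exact mem_starsB
  have hUmem : ∀ i, i ∈ U ↔ (∃ j, T.v j = some i) ∧ T.s i = ν ∧ kv ν (ρ i.1) i.2 = none := by
    intro i
    rw [hU]
    exact mem_unsB
  have hSρ : ∀ p ∈ S, (ρ p).2 = none := by
    intro p hp
    obtain ⟨j, i, h1, h2, h3⟩ := (hSmem p).mp hp
    exact (kv_eq_none.mp h3).2
  have hSτ : ∀ p ∈ S, (τ p).2 = none := by
    intro p hp
    by_contra hcon
    exact hm.nonstar τ ρ hρ p hcon (hSρ p hp)
  have hSeq : ∀ p, (τ p).2 = none → ρ p = τ p := fun p hp => hm.star_eq τ ρ hρ p hp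
  have hUS : ∀ i ∈ U, i.1 ∈ S ∧ (ρ i.1).1 i.2 = true := by
    intro i hi
    obtain ⟨⟨j, hj⟩, h2, h3⟩ := (hUmem i).mp hi
    exact ⟨(hSmem i.1).mpr ⟨j, i, hj, rfl, h3⟩, (kv_eq_none.mp h3).1⟩
  have hUτ : ∀ i ∈ U, i.1 ∈ S ∧ (τ i.1).1 i.2 = true := by
    intro i hi
    obtain ⟨h1, h2⟩ := hUS i hi
    refine ⟨h1, ?_⟩
    rw [← hSeq i.1 (hSτ i.1 h1)]
    exact h2
  -- the encoded restriction
  have hagr : Agr τ (encB ν τ S U) := by
    intro p hp
    have : p ∉ S := fun hh => hp (hSτ p hh)
    exact senc_encB_of_not_mem this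
  have hmext := hm.ext τ ρ _ hρ hagr (senc_extB hSτ)
  have hρ' : (fun p => if (τ p).2 = none then encB ν τ S U p else ρ p) = encB ν ρ S U := by
    funext p
    by_cases hp : p ∈ S
    · rw [if_pos (hSτ p hp), senc_encB_of_mem hp, senc_encB_of_mem hp, hSeq p (hSτ p hp)]
    · rw [senc_encB_of_not_mem hp, senc_encB_of_not_mem hp]
      by_cases hn : (τ p).2 = none
      · rw [if_pos hn, hSeq p hn]
      · rw [if_neg hn]
  rw [hρ'] at hmext
  have hextρ : ExtB ν ρ (encB ν ρ S U) := senc_extB hSρ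
  have hnf := firstB_not_falsB hT
  have hsat : satB ν T (encB ν ρ S U) := by
    intro j i hji
    by_cases hp : i.1 ∈ S
    · rw [senc_encB_of_mem hp]
      rcases hy : (ρ i.1).1 i.2 with _ | _
      · rw [senc_kv_of_unsel (by simp [hy])]
        congr 1
        by_contra hb
        apply hnf
        refine ⟨j, i, hji, ?_⟩
        rw [senc_kv_of_unsel hy]
        congr 1
        cases ν <;> cases hh : T.s i <;> simp_all
      · have hk : kv ν (ρ i.1) i.2 = none := by rw [senc_kv_of_sel hy, hSρ _ hp]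
        by_cases hs : T.s i = ν
        · have hiU : i ∈ U := (hUmem i).mpr ⟨⟨j, hji⟩, hs, hk⟩
          rw [senc_kv_of_unsel (by simp [hiU]), hs]
        · have hiU : i ∉ U := fun hh => hs ((hUmem i).mp hh).2.1
          rw [senc_kv_of_sel (by simp [hiU, hy])]
          simp only
          congr 1
          cases ν <;> cases hh : T.s i <;> simp_all
    · rw [senc_encB_of_not_mem hp]
      rcases hρi : kv ν (ρ i.1) i.2 with _ | b
      · exfalso
        exact hp ((hSmem i.1).mpr ⟨j, i, hji, rfl, hρi⟩)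
      · congr 1
        by_contra hb
        apply hnf
        refine ⟨j, i, hji, ?_⟩
        rw [hρi]
        congr 1
        cases b <;> cases hh : T.s i <;> simp_all
  have hfirst : firstB ν F (encB ν ρ S U) = some T :=
    firstB_ext hT hextρ (not_falsB_of_satB hsat)
  -- the positions
  have hsel : ∃ g : P → Option (Fin w), ∀ p ∈ S, ∃ j, g p = some j ∧ ∃ i, T.v j = some i ∧ i.1 = p := by
    refine ⟨fun p => if h : ∃ j, ∃ i, T.v j = some i ∧ i.1 = p then some (choose h) else none, ?_⟩
    intro p hp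
    obtain ⟨j, i, h1, h2, -⟩ := (hSmem p).mp hp
    have h : ∃ j, ∃ i, T.v j = some i ∧ i.1 = p := ⟨j, i, h1, h2⟩
    exact ⟨choose h, dif_pos h, choose_spec h⟩
  obtain ⟨g, hg⟩ := hsel
  have hsel' : ∃ g' : P × Y → Option (Fin w), ∀ i ∈ U, ∃ j, g' i = some j ∧ T.v j = some i := by
    refine ⟨fun i => if h : ∃ j, T.v j = some i then some (choose h) else none, ?_⟩
    intro i hi
    have h := ((hUmem i).mp hi).1
    exact ⟨choose h, dif_pos h, choose_spec h⟩
  obtain ⟨g', hg'⟩ := hsel'
  let c : BCode w := fun j =>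
    (if h : ∃ p ∈ S, g p = some j then some (β (choose h)) else none,
      decide (∃ i ∈ U, g' i = some j))
  have hc1 : ∀ j, (c j).1 ≠ none ↔ ∃ p ∈ S, g p = some j := by
    intro j
    by_cases h : ∃ p ∈ S, g p = some j
    · simp [c, h]
    · simp [c, h]
  have hc1' : ∀ j, (c j).2 = true ↔ ∃ i ∈ U, g' i = some j := by
    intro j
    simp [c]
  have hc2 : ∀ j p, p ∈ S → g p = some j → (c j).1 = some (β p) := by
    intro j p hp hgp
    have h : ∃ p ∈ S, g p = some j := ⟨p, hp, hgp⟩
    have hcj : (c j).1 = some (β (choose h)) := by simp only [c, dif_pos h]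
    rw [hcj]
    obtain ⟨h1, h2⟩ := choose_spec h
    obtain ⟨j1, hj1, i1, hv1, hi1⟩ := hg _ h1
    obtain ⟨j2, hj2, i2, hv2, hi2⟩ := hg p hp
    have e1 : j1 = j := Option.some.inj (hj1.symm.trans h2)
    have e2 : j2 = j := Option.some.inj (hj2.symm.trans hgp)
    subst e1
    subst e2
    have e3 := Option.some.inj (hv1.symm.trans hv2)
    rw [← hi1, e3, hi2]
  have hc3 : ∀ j i, T.v j = some i → (c j).1 ≠ none → i.1 ∈ S ∧ g i.1 = some j := by
    intro j i hji hcj
    obtain ⟨p, hp, hgp⟩ := (hc1 j).mp hcj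
    obtain ⟨j1, hj1, i1, hv1, hi1⟩ := hg p hp
    have e1 : j1 = j := Option.some.inj (hj1.symm.trans hgp)
    subst e1
    have e2 : i1 = i := Option.some.inj (hv1.symm.trans hji)
    subst e2
    subst hi1
    exact ⟨hp, hgp⟩
  have hSc : ∀ p, p ∈ S ↔ ∃ j, (∃ i, T.v j = some i ∧ i.1 = p) ∧ (c j).1 ≠ none := by
    intro p
    constructor
    · intro hp
      obtain ⟨j, hj, i, hv, hi⟩ := hg p hp
      exact ⟨j, ⟨i, hv, hi⟩, (hc1 j).mpr ⟨p, hp, hj⟩⟩
    · rintro ⟨j, ⟨i, hv, hi⟩, hcj⟩
      rw [← hi]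
      exact (hc3 j i hv hcj).1
  have hUc : ∀ i, i ∈ U ↔ ∃ j, T.v j = some i ∧ (c j).2 = true := by
    intro i
    constructor
    · intro hi
      obtain ⟨j, hj, hv⟩ := hg' i hi
      exact ⟨j, hv, (hc1' j).mpr ⟨i, hi, hj⟩⟩
    · rintro ⟨j, hj, hcj⟩
      obtain ⟨i', hi', hgi'⟩ := (hc1' j).mp hcj
      obtain ⟨j1, hj1, hv1⟩ := hg' i' hi'
      have e1 : j1 = j := Option.some.inj (hj1.symm.trans hgi')
      subst e1
      have e2 : i' = i := Option.some.inj (hv1.symm.trans hj)
      subst e2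
      exact hi'
  have hcard : S.card = reps c := by
    unfold reps
    apply Finset.card_bij (fun p hp => choose (hg p hp))
    · intro p hp
      simp only [mem_filter, mem_univ, true_and]
      have := choose_spec (hg p hp)
      exact (hc1 _).mpr ⟨p, hp, this.1⟩
    · intro p1 h1 p2 h2 heq
      have s1 := choose_spec (hg p1 h1)
      have s2 := choose_spec (hg p2 h2)
      rw [heq] at s1
      obtain ⟨-, i1, hv1, hi1⟩ := s1
      obtain ⟨-, i2, hv2, hi2⟩ := s2
      have e := Option.some.inj (hv1.symm.trans hv2)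
      rw [← hi1, ← hi2, e]
    · intro j hj
      simp only [mem_filter, mem_univ, true_and] at hj
      obtain ⟨p, hp, hgp⟩ := (hc1 j).mp hj
      refine ⟨p, hp, ?_⟩
      have s := choose_spec (hg p hp)
      exact Option.some.inj (s.1.symm.trans hgp)
  have hcard' : U.card = mks c := by
    unfold mks
    apply Finset.card_bij (fun i hi => choose (hg' i hi))
    · intro i hi
      simp only [mem_filter, mem_univ, true_and]
      have := choose_spec (hg' i hi)
      exact (hc1' _).mpr ⟨i, hi, this.1⟩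
    · intro i1 h1 i2 h2 heq
      have s1 := choose_spec (hg' i1 h1)
      have s2 := choose_spec (hg' i2 h2)
      rw [heq] at s1
      exact Option.some.inj (s1.2.symm.trans s2.2)
    · intro j hj
      simp only [mem_filter, mem_univ, true_and] at hj
      obtain ⟨i, hi, hgi⟩ := (hc1' j).mp hj
      refine ⟨i, hi, ?_⟩
      have s := choose_spec (hg' i hi)
      exact Option.some.inj (s.1.symm.trans hgi)
  have hok : okc (encB ν ρ S U) T c := by
    intro j i hji hcj
    rw [senc_encB_of_mem (hc3 j i hji hcj).1]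
    simp
  have hasg : asgcB (encB ν ρ S U) T c = asgB ρ S β := by
    funext p
    unfold asgcB asgB
    by_cases hp : p ∈ S
    · have hex := (hSc p).mp hp
      rw [dif_pos hex, if_pos hp]
      obtain ⟨⟨i, hv, hi⟩, hcj⟩ := choose_spec hex
      refine Prod.ext ?_ ?_
      · funext y
        simp only
        rw [senc_encB_of_mem hp]
        have hiff : (∃ j, T.v j = some (p, y) ∧ (c j).2 = true) ↔ (p, y) ∈ U := (hUc (p, y)).symm
        rw [Bool.eq_iff_iff]
        simp only [Bool.or_eq_true, Bool.and_eq_true, Bool.not_eq_true', decide_eq_true_eq,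
          decide_eq_false_iff_not]
        rw [hiff]
        constructor
        · rintro (h1 | h1)
          · exact h1.1
          · exact (hUS _ h1).2
        · intro h1
          by_cases hy : (p, y) ∈ U
          · exact Or.inr hy
          · exact Or.inl ⟨h1, hy⟩
      · simp only
        apply hc2 _ p hp
        have := (hc3 _ i hv hcj).2
        rw [hi] at this
        exact this
    · have hex : ¬ ∃ j, (∃ i, T.v j = some i ∧ i.1 = p) ∧ (c j).1 ≠ none :=
        fun hh => hp ((hSc p).mpr hh)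
      rw [dif_neg hex, if_neg hp, senc_encB_of_not_mem hp]
  refine ⟨c, S, U, T, ?_, hcard, hcard', hSτ, hUτ, ⟨_, hmext, hfirst⟩, hSc, hUc, ?_⟩
  · rw [← hcard]
    exact Finset.card_pos.mpr hne
  · refine ⟨asgcB (encB ν ρ S U) T c, ?_, ?_⟩
    · rw [decB_eq_some]
      exact ⟨_, T, hmext, hfirst, hsat, hok, rfl⟩
    · rw [hasg, ← hcard]
      exact hβ

end Pool.Agent.Helper67.LB
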