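import Pool.Agent.Helper67.LB.SSwitch

set_option autoImplicit false
set_option linter.unusedSectionVars false

/-!
One level of a circuit disappears under a random block restriction. (LB-S8, compare
`EQP.gate_switch` and the induction step in `EQP.ac_switch` in `EQP/AC.lean`.)

Proof. `gate_switchB`: by `EQP.gate_dnf` the gate or its negation is a DNF of width `w`; apply
`switchingB` (and `DTd.not`). `level_switchB`: the indicator is at most the sum over the gates `j`
with `level j = k` of the indicators that `fun z => g j (app ν ρ z)` has no tree of depth `w`;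
the gates of lower level have trees of depth `w` before the restriction, hence after it
(`DTd_app`). Sum over at most `s` gates.
-/

namespace Pool.Agent.Helper67.LB

open Finset Function Classical
open Pool.Agent.Helper67.EQP

variable {P Y : Type} [Fintype P] [DecidableEq P] [Fintype Y] [DecidableEq Y] {ν : Bool}

/-- Switching lemma for one gate. -/
theorem gate_switchB {w : ℕ} (hw : 0 < w) {lower : Set ((P × Y → Bool) → Bool)}
    {f : (P × Y → Bool) → Bool} (hl : ∀ a ∈ lower, DTd w a) (hf : IsGate w lower f)
    {p : ℝ} (hp : 0 < p) (hpw : 16 * p * w ≤ 1) (k : ℕ) :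
    pm (bw p ν) (fun ρ : P → Blk Y =>
      if DTd k (fun z : P → Bool => f (app ν ρ z)) then 0 else 1) ≤ (16 * p * w) ^ (k + 1) := by
  obtain ⟨F, hF | hF⟩ := gate_dnf hw hl hf
  · exact switchingB hF hw hp hpw k
  · have := switchingB (ν := ν) hF hw hp hpw k
    refine le_trans (le_of_eq ?_) this
    congr 1
    funext ρ
    have hiff : DTd k (fun z : P → Bool => f (app ν ρ z)) ↔
        DTd k (fun z : P → Bool => !f (app ν ρ z)) := by
      constructor
      · exact fun h => h.not
      · intro h
        have := h.not
        simpa using this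
    by_cases h : DTd k (fun z : P → Bool => f (app ν ρ z))
    · rw [if_pos h, if_pos (hiff.mp h)]
    · rw [if_neg h, if_neg (fun h' => h (hiff.mpr h'))]

/-- The substitution keeps the structure of the circuit. -/
theorem ACfam.app {w s : ℕ} {level : Fin s → ℕ} {g : Fin s → (P × Y → Bool) → Bool}
    (h : ACfam w level g) (ρ : P → Blk Y) :
    ACfam w level (fun j (z : P → Bool) => g j (app ν ρ z)) := by
  intro j
  obtain ⟨W, hW, hg⟩ := h j
  refine ⟨(fun a z => a (LB.app ν ρ z)) '' W, ?_, ?_⟩
  · rintro _ ⟨a, ha, rfl⟩
    rcases hW a ha with h1 | ⟨j', hj', rfl⟩ | ⟨j', hj', he⟩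
    · exact Or.inl (DTd_app h1 ρ)
    · exact Or.inr (Or.inl ⟨j', hj', rfl⟩)
    · refine Or.inr (Or.inr ⟨j', hj', ?_⟩)
      funext z
      exact congrFun he (LB.app ν ρ z)
  · rcases hg with hg | hg
    · left
      intro z
      beta_reduce
      rw [hg (LB.app ν ρ z)]
      simp
    · right
      intro z
      beta_reduce
      rw [hg (LB.app ν ρ z)]
      simp

/-- One more level has shallow trees, with high probability. -/
theorem level_switchB {s : ℕ} {level : Fin s → ℕ} {g : Fin s → (P × Y → Bool) → Bool}
    {w : ℕ} (h : ACfam w level g) (hw : 0 < w) {p : ℝ} (hp : 0 < p) (hpw : 16 * p * w ≤ 1)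
    {k : ℕ} (hk : GoodUpTo w k level g) :
    pm (bw p ν) (fun ρ : P → Blk Y =>
      if GoodUpTo w (k + 1) level (fun j (z : P → Bool) => g j (app ν ρ z)) then 0 else 1) ≤
      s * (16 * p * w) ^ (w + 1) := by
  have hw1 : (1 : ℝ) ≤ w := by exact_mod_cast hw
  have hp1 : p ≤ 1 := by nlinarith
  have hb : ∀ ρ : P → Blk Y,
      (if GoodUpTo w (k + 1) level (fun j (z : P → Bool) => g j (app ν ρ z))
        then (0 : ℝ) else 1) ≤
      ∑ j ∈ univ.filter (fun j => level j = k),
        (if DTd w (fun z : P → Bool => g j (app ν ρ z)) then 0 else 1) := by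
    intro ρ
    by_cases hσ : ∀ j ∈ univ.filter (fun j => level j = k),
        DTd w (fun z : P → Bool => g j (app ν ρ z))
    · rw [if_pos]
      · apply sum_nonneg
        intro j _
        split_ifs <;> norm_num
      · intro j hj
        rcases Nat.lt_succ_iff_lt_or_eq.mp hj with h1 | h1
        · exact DTd_app (hk j h1) ρ
        · exact hσ j (by simpa using h1)
    · push Not at hσ
      obtain ⟨j, hj, hjn⟩ := hσ
      refine le_trans (b := 1) (by split_ifs <;> norm_num) ?_
      have := single_le_sum
        (f := fun j => if DTd w (fun z : P → Bool => g j (app ν ρ z)) then (0 : ℝ) else 1)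
        (fun i _ => by split_ifs <;> norm_num) hj
      beta_reduce at this
      rw [if_neg hjn] at this
      exact this
  refine (pm_mono _ (fun i b => bw_nonneg hp.le hp1 ν i b) hb).trans ?_
  rw [pm_sum]
  have hone : ∀ j ∈ univ.filter (fun j => level j = k),
      pm (bw p ν) (fun ρ : P → Blk Y =>
        if DTd w (fun z : P → Bool => g j (app ν ρ z)) then (0 : ℝ) else 1) ≤
        (16 * p * w) ^ (w + 1) := by
    intro j hj
    have hlev : level j = k := by simpa using hj
    apply gate_switchB hw _ (h j) hp hpw w
    rintro _ ⟨j', hj', rfl⟩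
    exact hk j' (by omega)
  refine (sum_le_sum hone).trans ?_
  rw [sum_const, nsmul_eq_mul]
  apply mul_le_mul_of_nonneg_right _ (by positivity)
  have := card_le_univ (univ.filter (fun j => level j = k))
  rw [Fintype.card_fin] at this
  exact_mod_cast this

end Pool.Agent.Helper67.LB
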