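import Pool.Agent.Helper67.LB.SDefs

set_option autoImplicit false
set_option linter.unusedSectionVars false

/-!
Block restrictions: the sum over the codes. (LB-S6, compare `EQP.sum_code_le`.)

Proof. With `x = 1 / (8 w)`, `x ^ reps c * lam ^ mks c` is the product over the positions `j` of
`(if (c j).1 = none then 1 else x) * (if (c j).2 = true then lam else 1)`, so the sum over all
codes is `((1 + 2 x) * (1 + lam)) ^ w` (`EQP.sum_prod_eq`, `Fintype.sum_prod_type`,
`Fintype.sum_option`, `Fintype.sum_bool`). As `1 + t ≤ exp t`, it is at most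
`exp ((2 x + lam) w) ≤ exp (1/4 + 1/8) ≤ 2` (`Real.add_one_le_exp`, `Real.exp_nat_mul`,
`Real.exp_one_lt_d9`: `exp (3/8) ^ 8 = exp 1 ^ 3 < 2.7182818286 ^ 3 < 256 = 2 ^ 8`). The code
without any mark is not counted in the sum on the left and contributes 1 to the sum over all codes.
-/

namespace Pool.Agent.Helper67.LB

open Finset Function Classical
open Pool.Agent.Helper67.EQP

theorem sum_codeB {w : ℕ} (hw : 0 < w) {lam : ℝ} (h0 : 0 ≤ lam) (hl : 8 * lam * w ≤ 1) :
    ∑ c : BCode w, (if reps c = 0 then 0 else ((1 : ℝ) / (8 * w)) ^ reps c * lam ^ mks c) ≤ 1 := by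
  have hwpos : (0 : ℝ) < w := by exact_mod_cast hw
  have hx0 : (0 : ℝ) ≤ 1 / (8 * w) := by positivity
  have hG0 : ∀ c : BCode w, (0 : ℝ) ≤ ((1 : ℝ) / (8 * w)) ^ reps c * lam ^ mks c :=
    fun c => mul_nonneg (pow_nonneg hx0 _) (pow_nonneg h0 _)
  have hprod : ∀ c : BCode w, ((1 : ℝ) / (8 * w)) ^ reps c * lam ^ mks c =
      ∏ j, ((if (c j).1 = none then (1 : ℝ) else ((1 : ℝ) / (8 * w))) *
        (if (c j).2 = true then lam else 1)) := by
    intro c
    unfold reps mks
    rw [prod_mul_distrib]
    congr 1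
    · rw [Finset.prod_ite, prod_const_one, one_mul, prod_const]
    · rw [Finset.prod_ite, prod_const_one, mul_one, prod_const]
  have htotal : ∑ c : BCode w, ((1 : ℝ) / (8 * w)) ^ reps c * lam ^ mks c ≤ 2 := by
    simp_rw [hprod]
    rw [sum_prod_eq (fun (_ : Fin w) (r : Option Bool × Bool) =>
      ((if r.1 = none then (1 : ℝ) else ((1 : ℝ) / (8 * w))) *
        (if r.2 = true then lam else 1)))]
    have h2 : ∀ j : Fin w, (∑ b : Option Bool × Bool,
        ((if b.1 = none then (1 : ℝ) else ((1 : ℝ) / (8 * w))) *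
        (if b.2 = true then lam else 1))) = (1 + 2 * (1 / (8 * w))) * (1 + lam) := by
      intro j
      rw [Fintype.sum_prod_type, Fintype.sum_option, Fintype.sum_bool]
      simp only [Fintype.sum_bool, if_true, reduceCtorEq, if_false]
      ring
    rw [prod_congr rfl (fun j _ => h2 j), prod_const, card_univ, Fintype.card_fin]
    have h3 : (1 : ℝ) + 2 * (1 / (8 * w)) ≤ Real.exp (2 * (1 / (8 * w))) := by
      rw [add_comm]
      exact Real.add_one_le_exp _
    have h4 : (1 : ℝ) + lam ≤ Real.exp lam := by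
      rw [add_comm]
      exact Real.add_one_le_exp _
    have h5 : (1 + 2 * ((1 : ℝ) / (8 * w))) * (1 + lam) ≤
        Real.exp (2 * (1 / (8 * w)) + lam) := by
      rw [Real.exp_add]
      exact mul_le_mul h3 h4 (by linarith) (Real.exp_pos _).le
    calc ((1 + 2 * ((1 : ℝ) / (8 * w))) * (1 + lam)) ^ w
        ≤ (Real.exp (2 * (1 / (8 * w)) + lam)) ^ w :=
          pow_le_pow_left₀ (by positivity) h5 w
      _ = Real.exp (w * (2 * (1 / (8 * w)) + lam)) := by
          rw [← Real.exp_nat_mul]
      _ ≤ Real.exp (3 / 8) := by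
          apply Real.exp_le_exp.mpr
          have : (w : ℝ) * (2 * (1 / (8 * w)) + lam) = 1 / 4 + lam * w := by
            field_simp
            ring
          rw [this]
          linarith
      _ ≤ 2 := by
          by_contra hcon
          rw [not_le] at hcon
          have h6 : (2 : ℝ) ^ 8 < (Real.exp (3 / 8)) ^ 8 :=
            pow_lt_pow_left₀ hcon (by norm_num) (by norm_num)
          have h7 : (Real.exp (3 / 8)) ^ 8 = (Real.exp 1) ^ 3 := by
            rw [← Real.exp_nat_mul, ← Real.exp_nat_mul]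
            congr 1
            norm_num
          rw [h7] at h6
          have h8 : (Real.exp 1) ^ 3 < (2.7182818286 : ℝ) ^ 3 :=
            pow_lt_pow_left₀ Real.exp_one_lt_d9 (Real.exp_pos 1).le (by norm_num)
          have h9 : (2.7182818286 : ℝ) ^ 3 < 2 ^ 8 := by norm_num
          linarith
  let c0 : BCode w := fun _ => (none, false)
  have hr0 : reps c0 = 0 := by
    unfold reps
    simp [c0]
  have hm0 : mks c0 = 0 := by
    unfold mks
    simp [c0]
  have hG1 : ((1 : ℝ) / (8 * w)) ^ reps c0 * lam ^ mks c0 = 1 := by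
    rw [hr0, hm0]; norm_num
  have hsplit := Finset.sum_erase_eq_sub (s := univ) (f := fun c : BCode w =>
    ((1 : ℝ) / (8 * w)) ^ reps c * lam ^ mks c) (mem_univ c0)
  have hsplit2 : ∑ c : BCode w, (if reps c = 0 then 0 else
      ((1 : ℝ) / (8 * w)) ^ reps c * lam ^ mks c) =
      ∑ c ∈ univ.erase c0, (if reps c = 0 then 0 else
      ((1 : ℝ) / (8 * w)) ^ reps c * lam ^ mks c) := by
    rw [Finset.sum_erase]
    simp [hr0]
  rw [hsplit2]
  calc ∑ c ∈ univ.erase c0, (if reps c = 0 then 0 else
      ((1 : ℝ) / (8 * w)) ^ reps c * lam ^ mks c)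
      ≤ ∑ c ∈ univ.erase c0, ((1 : ℝ) / (8 * w)) ^ reps c * lam ^ mks c := by
        apply sum_le_sum
        intro c _
        split_ifs with h
        · exact hG0 c
        · exact le_refl _
    _ ≤ 1 := by
        rw [hsplit, hG1]
        linarith

end Pool.Agent.Helper67.LB
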