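import Pool.Agent.Helper67.LB.SDefs

set_option autoImplicit false
set_option linter.unusedSectionVars false

/-!
Block restrictions: weights. (LB-S5.)

* `bw_sum`: the sum over `(s, o) : (Y → Bool) × Option Bool` factors;
  `∑ s, ∏ y, (if s y then p else 1 - p) = ∏ y, (p + (1 - p)) = 1` (`EQP.sum_prod_eq`), and the sum over
  `o` is `p + 0 + (1 - p) = 1` (cases on `ν`).
* `wtB_encB`: both weights are products over the blocks; for `p' ∉ S` the blocks are equal. For
  `p' ∈ S` we have `bw p ν p' (ρ p') = (p / (1 - p)) ^ (1 + u) * bw p ν p' (encB ν ρ S U p')`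
  where `u` is the number of `y` with `(p', y) ∈ U`: the factor of the common value is `p`
  against `1 - p`, and the factor of each `y` with `(p', y) ∈ U` is `p` against `1 - p`, the other
  factors agree. And `U.card = ∑ p' ∈ S, #{y | (p', y) ∈ U}`
  (`Finset.card_eq_sum_card_fiberwise`), or write `(p / (1 - p)) ^ U.card` as
  `∏ p', ∏ y, if (p', y) ∈ U then p / (1 - p) else 1` (`Finset.prod_product'`,
  `Fintype.prod_prod_type'`).
-/

namespace Pool.Agent.Helper67.LB

open Finset Function Classical
open Pool.Agent.Helper67.EQP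

variable {P Y : Type} [Fintype P] [DecidableEq P] [Fintype Y] [DecidableEq Y]

theorem bw_nonneg {p : ℝ} (h0 : 0 ≤ p) (h1 : p ≤ 1) (ν : Bool) (i : P) (B : Blk Y) :
    0 ≤ bw p ν i B := by
  unfold bw
  refine mul_nonneg (Finset.prod_nonneg fun y _ => ?_) ?_
  · split_ifs
    · exact h0
    · linarith
  · rcases B with ⟨s, o⟩
    rcases o with _ | b
    · exact h0
    · change 0 ≤ if b = ν then (0 : ℝ) else 1 - p
      split_ifs
      · exact le_rfl
      · linarith

theorem bw_sum (p : ℝ) (ν : Bool) (i : P) : ∑ B : Blk Y, bw p ν i B = 1 := by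
  have h1 : ∑ s : Y → Bool, ∏ y, (if s y then p else 1 - p) = 1 := by
    rw [sum_prod_eq (fun (_ : Y) (b : Bool) => if b then p else 1 - p)]
    apply Finset.prod_eq_one
    intro y _
    rw [Fintype.sum_bool]
    simp
  have h2 : ∑ o : Option Bool, (match o with
      | none => p
      | some b => if b = ν then (0 : ℝ) else 1 - p) = 1 := by
    rw [Fintype.sum_option, Fintype.sum_bool]
    cases ν <;> simp
  calc ∑ B : Blk Y, bw p ν i B = ∑ s : Y → Bool, ∑ o : Option Bool,
        (∏ y, if s y then p else 1 - p) * (match o with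
      | none => p
      | some b => if b = ν then (0 : ℝ) else 1 - p) := by
        rw [Fintype.sum_prod_type]
        rfl
    _ = (∑ s : Y → Bool, ∏ y, (if s y then p else 1 - p)) * ∑ o : Option Bool, (match o with
      | none => p
      | some b => if b = ν then (0 : ℝ) else 1 - p) := by
        rw [Finset.sum_mul_sum]
    _ = 1 := by rw [h1, h2, one_mul]

theorem wtB_nonneg {p : ℝ} (h0 : 0 ≤ p) (h1 : p ≤ 1) (ν : Bool) (ρ : P → Blk Y) :
    0 ≤ wtB p ν ρ := by
  unfold wtB
  exact Finset.prod_nonneg fun i _ => bw_nonneg h0 h1 ν i (ρ i)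

theorem wtB_sum (p : ℝ) (ν : Bool) : ∑ ρ : P → Blk Y, wtB p ν ρ = 1 := by
  unfold wtB
  rw [sum_prod_eq (fun (i : P) (B : Blk Y) => bw p ν i B)]
  exact Finset.prod_eq_one fun i _ => bw_sum p ν i

theorem wtB_encB {p : ℝ} (h1 : p < 1) (ν : Bool) (ρ : P → Blk Y) (S : Finset P)
    (U : Finset (P × Y)) (hS : ∀ q ∈ S, (ρ q).2 = none)
    (hU : ∀ i ∈ U, i.1 ∈ S ∧ (ρ i.1).1 i.2 = true) :
    wtB p ν ρ = (p / (1 - p)) ^ (S.card + U.card) * wtB p ν (encB ν ρ S U) := by
  have hp : (1 - p) ≠ 0 := by linarith
  obtain ⟨r, hr⟩ : ∃ r, r = p / (1 - p) := ⟨_, rfl⟩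
  have hrp : r * (1 - p) = p := by rw [hr]; field_simp
  rw [← hr]
  have hSc : r ^ S.card = ∏ i : P, (if i ∈ S then r else 1) := by
    rw [Finset.prod_ite_mem, Finset.univ_inter, Finset.prod_const]
  have hUc : r ^ U.card = ∏ i : P, ∏ y : Y, (if (i, y) ∈ U then r else 1) := by
    rw [← Fintype.prod_prod_type' (fun (i : P) (y : Y) => if (i, y) ∈ U then r else 1)]
    rw [show (∏ x : P × Y, if (x.1, x.2) ∈ U then r else 1) =
      ∏ x : P × Y, if x ∈ U then r else 1 from rfl]
    rw [Finset.prod_ite_mem, Finset.univ_inter, Finset.prod_const]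
  unfold wtB
  rw [pow_add, hSc, hUc, ← Finset.prod_mul_distrib, ← Finset.prod_mul_distrib]
  apply Finset.prod_congr rfl
  intro i _
  by_cases hi : i ∈ S
  · have hnone := hS i hi
    have he : encB ν ρ S U i =
        (fun y => (ρ i).1 y && !decide ((i, y) ∈ U), some (!ν)) := by
      unfold encB
      rw [if_pos hi]
      refine Prod.ext (funext fun y => ?_) rfl
      simp only []
      by_cases hy : (i, y) ∈ U
      · simp [hy]
      · simp [hy]
    have hb1 : bw p ν i (ρ i) = (∏ y, if (ρ i).1 y then p else 1 - p) * p := by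
      unfold bw
      rw [hnone]
    have hb2 : bw p ν i (encB ν ρ S U i) =
        (∏ y, if ((ρ i).1 y && !decide ((i, y) ∈ U)) = true then p else 1 - p) * (1 - p) := by
      rw [he]
      unfold bw
      change (∏ y, if ((ρ i).1 y && !decide ((i, y) ∈ U)) = true then p else 1 - p) *
        (if (!ν) = ν then (0 : ℝ) else 1 - p) = _
      rw [if_neg (by cases ν <;> simp)]
    rw [hb1, hb2, if_pos hi]
    have hprod : (∏ y, if (ρ i).1 y then p else 1 - p) =
        (∏ y, if (i, y) ∈ U then r else 1) *
          (∏ y, if ((ρ i).1 y && !decide ((i, y) ∈ U)) = true then p else 1 - p) := by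
      rw [← Finset.prod_mul_distrib]
      apply Finset.prod_congr rfl
      intro y _
      by_cases hy : (i, y) ∈ U
      · have h2 := (hU (i, y) hy).2
        change (ρ i).1 y = true at h2
        rw [if_pos h2, if_pos hy, if_neg (by simp [hy]), hrp]
      · rw [if_neg hy, one_mul]
        by_cases h3 : (ρ i).1 y = true
        · rw [if_pos h3, if_pos (by simp [h3, hy])]
        · rw [if_neg h3, if_neg (by simp [h3])]
    rw [hprod]
    calc _ = (∏ y, if (i, y) ∈ U then r else 1) *
          (∏ y, if ((ρ i).1 y && !decide ((i, y) ∈ U)) = true then p else 1 - p) *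
            (r * (1 - p)) := by rw [hrp]
      _ = _ := by ring
  · have he : encB ν ρ S U i = ρ i := by
      unfold encB
      rw [if_neg hi]
    have hone : (∏ y : Y, if (i, y) ∈ U then r else 1) = 1 := by
      apply Finset.prod_eq_one
      intro y _
      rw [if_neg]
      intro h
      exact hi (hU (i, y) h).1
    rw [he, if_neg hi, hone, one_mul, one_mul]

end Pool.Agent.Helper67.LB
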