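import Pool.Agent.Helper67.LB.SEnc
import Pool.Agent.Helper67.LB.SWt
import Pool.Agent.Helper67.LB.SSum

set_option autoImplicit false
set_option linter.unusedSectionVars false

/-!
The switching lemma for block restrictions. (LB-S7, block version of `EQP.switching_aux`,
`EQP.switching` in `EQP/Switch.lean`; the counting is the same.)

Proof of `switching_auxB` by strong induction on `k`. `k = 0`: `wtB_sum`. For `k + 1` let
`B = {τ | ∃ ρ, m τ = some ρ ∧ DeepB ν f ρ (k + 1)}` and choose for `τ ∈ B` the data
`c, S, U, T` of `encodeB`. With `lam = p / (1 - p) ≤ 2 p` (as `p ≤ 1/16`) we have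
`wtB τ = lam ^ (reps c + mks c) * wtB (encB ν τ S U)` (`wtB_encB`). Split the sum according to `c`.
For a fixed code `c` with `0 < reps c` the map `τ ↦ encB ν τ S U` is injective: the encoded
restriction determines `ρ' = m (encB ..)`, then `T = firstB ν F ρ'`, then `S` and `U` (by the
descriptions in `encodeB`), and then `τ`: outside `S` it is equal to the encoded restriction, and
for `p ∈ S` we have `(τ p).2 = none` and
`(τ p).1 y = (encoded p).1 y || decide ((p, y) ∈ U)` (as `(τ i.1).1 i.2 = true` for `i ∈ U`).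
So by the induction hypothesis for `decB ν F c m` (good by `goodMap_decB`) the part belonging to
`c` is at most `lam ^ (reps c + mks c) * (16 p w) ^ (k + 1 - reps c)`, and
`lam ^ reps c ≤ ((1 / (8 w)) * (16 p w)) ^ reps c`, so it is at most
`(1 / (8 w)) ^ reps c * lam ^ mks c * (16 p w) ^ (k + 1)` (`pow_le_pow_of_le_one` if
`k + 1 < reps c`). Sum over `c` with `sum_codeB` (`8 * lam * w ≤ 16 * p * w ≤ 1`).
-/

namespace Pool.Agent.Helper67.LB

open Finset Function Classical
open Pool.Agent.Helper67.EQP

variable {P Y : Type} [Fintype P] [DecidableEq P] [Fintype Y] [DecidableEq Y] {w : ℕ} {ν : Bool}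

/-- The counting induction. -/
theorem switching_auxB {F : List (Term (P × Y) w)} {f : (P × Y → Bool) → Bool} (hF : IsDNF F f)
    (hw : 0 < w) {p : ℝ} (hp : 0 < p) (hpw : 16 * p * w ≤ 1) (k : ℕ) :
    ∀ m : (P → Blk Y) → Option (P → Blk Y), GoodMapB ν m →
      ∑ τ : P → Blk Y, (if ∃ ρ, m τ = some ρ ∧ DeepB ν f ρ k then wtB p ν τ else 0) ≤
        (16 * p * w) ^ k := by
  have hw1 : (1 : ℝ) ≤ w := by exact_mod_cast hw
  have hp2 : p ≤ 1 / 16 := by nlinarith
  have hnn : ∀ τ : P → Blk Y, 0 ≤ wtB p ν τ := fun τ => wtB_nonneg hp.le (by linarith) ν τ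
  induction k using Nat.strong_induction_on with
  | _ k ih =>
  intro m hm
  rcases k with _ | k
  · rw [pow_zero]
    calc _ ≤ ∑ τ : P → Blk Y, wtB p ν τ := by
          apply sum_le_sum
          intro τ _
          split_ifs
          · exact le_rfl
          · exact hnn τ
      _ = 1 := wtB_sum p ν
  · set lam : ℝ := p / (1 - p) with hlam
    have hlam0 : 0 ≤ lam := by
      rw [hlam]; apply div_nonneg <;> linarith
    have hlam4 : lam ≤ 2 * p := by
      rw [hlam, div_le_iff₀ (by linarith)]
      nlinarith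
    set B : Finset (P → Blk Y) :=
      univ.filter (fun τ => ∃ ρ, m τ = some ρ ∧ DeepB ν f ρ (k + 1)) with hB
    have henc : ∀ τ ∈ B, ∃ (c : BCode w) (S : Finset P) (U : Finset (P × Y))
      (T : Term (P × Y) w),
      0 < reps c ∧ S.card = reps c ∧ U.card = mks c ∧ (∀ p ∈ S, (τ p).2 = none) ∧
      (∀ i ∈ U, i.1 ∈ S ∧ (τ i.1).1 i.2 = true) ∧
      (∃ ρ', m (encB ν τ S U) = some ρ' ∧ firstB ν F ρ' = some T) ∧
      (∀ p, p ∈ S ↔ ∃ j, (∃ i, T.v j = some i ∧ i.1 = p) ∧ (c j).1 ≠ none) ∧
      (∀ i, i ∈ U ↔ ∃ j, T.v j = some i ∧ (c j).2 = true) ∧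
      (∃ σ, decB ν F c m (encB ν τ S U) = some σ ∧ DeepB ν f σ (k + 1 - reps c)) := by
      intro τ hτ
      rw [hB] at hτ
      simp only [mem_filter, mem_univ, true_and] at hτ
      exact encodeB hF hm hτ
    have : Nonempty (Term (P × Y) w) := ⟨⟨fun _ => none, fun _ => true⟩⟩
    choose! cd Sd Ud Td h1 h2 h2' h3 h3' h4 h5 h5' h6 using henc
    have hsum : ∑ τ : P → Blk Y, (if ∃ ρ, m τ = some ρ ∧ DeepB ν f ρ (k + 1) then wtB p ν τ else 0)
        = ∑ τ ∈ B, lam ^ (reps (cd τ) + mks (cd τ)) * wtB p ν (encB ν τ (Sd τ) (Ud τ)) := by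
      rw [hB, sum_filter]
      apply sum_congr rfl
      intro τ _
      by_cases hτ : ∃ ρ, m τ = some ρ ∧ DeepB ν f ρ (k + 1)
      · rw [if_pos hτ, if_pos hτ]
        have hτB : τ ∈ B := by rw [hB]; simpa using hτ
        rw [← h2 τ hτB, ← h2' τ hτB]
        exact wtB_encB (by linarith) ν τ (Sd τ) (Ud τ) (h3 τ hτB) (h3' τ hτB)
      · rw [if_neg hτ, if_neg hτ]
    rw [hsum]
    rw [← Finset.sum_fiberwise B cd]
    have hfib : ∀ c : BCode w,
        ∑ τ ∈ B with cd τ = c,
          lam ^ (reps (cd τ) + mks (cd τ)) * wtB p ν (encB ν τ (Sd τ) (Ud τ)) ≤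
          (if reps c = 0 then 0 else ((1 : ℝ) / (8 * w)) ^ reps c * lam ^ mks c) *
            (16 * p * w) ^ (k + 1) := by
      intro c
      by_cases hc : reps c = 0
      · rw [if_pos hc, zero_mul]
        apply le_of_eq
        apply sum_eq_zero
        intro τ hτ
        rw [mem_filter] at hτ
        have := h1 τ hτ.1
        rw [hτ.2, hc] at this
        exact absurd this (lt_irrefl 0)
      · rw [if_neg hc]
        have hinj : ∀ τ1 ∈ B.filter (fun τ => cd τ = c), ∀ τ2 ∈ B.filter (fun τ => cd τ = c),
            encB ν τ1 (Sd τ1) (Ud τ1) = encB ν τ2 (Sd τ2) (Ud τ2) → τ1 = τ2 := by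
          intro τ1 ht1 τ2 ht2 heq
          rw [mem_filter] at ht1 ht2
          obtain ⟨ρ1, hρ1, hf1⟩ := h4 τ1 ht1.1
          obtain ⟨ρ2, hρ2, hf2⟩ := h4 τ2 ht2.1
          rw [heq, hρ2] at hρ1
          have hρ : ρ2 = ρ1 := Option.some.inj hρ1
          rw [hρ, hf1] at hf2
          have hTT : Td τ1 = Td τ2 := Option.some.inj hf2
          have hSS : ∀ q, q ∈ Sd τ1 ↔ q ∈ Sd τ2 := by
            intro q
            rw [h5 τ1 ht1.1, h5 τ2 ht2.1, hTT, ht1.2, ht2.2]
          have hUU : ∀ i, i ∈ Ud τ1 ↔ i ∈ Ud τ2 := by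
            intro i
            rw [h5' τ1 ht1.1, h5' τ2 ht2.1, hTT, ht1.2, ht2.2]
          funext q
          have hq := congrFun heq q
          by_cases hi : q ∈ Sd τ1
          · have hi2 : q ∈ Sd τ2 := (hSS q).mp hi
            unfold encB at hq
            rw [if_pos hi, if_pos hi2] at hq
            have hq1 := congrArg Prod.fst hq
            apply Prod.ext
            · funext y
              have hy := congrFun hq1 y
              dsimp only at hy
              by_cases hU : (q, y) ∈ Ud τ1
              · have e1 := (h3' τ1 ht1.1 (q, y) hU).2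
                have e2 := (h3' τ2 ht2.1 (q, y) ((hUU _).mp hU)).2
                dsimp only at e1 e2
                rw [e1, e2]
              · have hU2 : (q, y) ∉ Ud τ2 := fun h => hU ((hUU _).mpr h)
                simpa [hU, hU2] using hy
            · rw [h3 τ1 ht1.1 q hi, h3 τ2 ht2.1 q hi2]
          · have hi2 : q ∉ Sd τ2 := fun h => hi ((hSS q).mpr h)
            unfold encB at hq
            rw [if_neg hi, if_neg hi2] at hq
            exact hq
        have hstep : ∑ τ ∈ B with cd τ = c,
            lam ^ (reps (cd τ) + mks (cd τ)) * wtB p ν (encB ν τ (Sd τ) (Ud τ)) ≤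
            lam ^ (reps c + mks c) * (16 * p * w) ^ (k + 1 - reps c) := by
          calc _ = ∑ τ ∈ B with cd τ = c,
                lam ^ (reps c + mks c) * wtB p ν (encB ν τ (Sd τ) (Ud τ)) := by
                apply sum_congr rfl
                intro τ hτ
                rw [mem_filter] at hτ
                rw [hτ.2]
            _ = lam ^ (reps c + mks c) * ∑ τ ∈ B with cd τ = c,
                wtB p ν (encB ν τ (Sd τ) (Ud τ)) := by
                rw [mul_sum]
            _ ≤ lam ^ (reps c + mks c) * ∑ τ' : P → Blk Y,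
                (if ∃ ρ, decB ν F c m τ' = some ρ ∧ DeepB ν f ρ (k + 1 - reps c)
                  then wtB p ν τ' else 0) := by
                apply mul_le_mul_of_nonneg_left _ (pow_nonneg hlam0 _)
                rw [← sum_filter]
                rw [← sum_image (f := fun τ' => wtB p ν τ') hinj]
                apply sum_le_sum_of_subset_of_nonneg
                · intro τ' hτ'
                  rw [mem_image] at hτ'
                  obtain ⟨τ, hτ, rfl⟩ := hτ'
                  rw [mem_filter] at hτ
                  simp only [mem_filter, mem_univ, true_and]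
                  have := h6 τ hτ.1
                  rw [hτ.2] at this
                  exact this
                · intro τ' _ _
                  exact hnn τ'
            _ ≤ lam ^ (reps c + mks c) * (16 * p * w) ^ (k + 1 - reps c) := by
                apply mul_le_mul_of_nonneg_left _ (pow_nonneg hlam0 _)
                exact ih (k + 1 - reps c) (by omega) _ (goodMap_decB hm)
        refine hstep.trans ?_
        have hq : lam ≤ (1 / (8 * w)) * (16 * p * w) := by
          have : (1 / (8 * (w : ℝ))) * (16 * p * w) = 2 * p := by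
            have : (w : ℝ) ≠ 0 := by positivity
            field_simp
            norm_num
          rw [this]
          exact hlam4
        have hmu0 : 0 < 16 * p * w := by positivity
        have hmu : (16 * p * (w : ℝ)) ^ reps c * (16 * p * w) ^ (k + 1 - reps c) ≤
            (16 * p * w) ^ (k + 1) := by
          rw [← pow_add]
          exact pow_le_pow_of_le_one hmu0.le hpw (by omega)
        have hlm : 0 ≤ lam ^ mks c := pow_nonneg hlam0 _
        calc lam ^ (reps c + mks c) * (16 * p * w) ^ (k + 1 - reps c)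
            = lam ^ reps c * (lam ^ mks c * (16 * p * w) ^ (k + 1 - reps c)) := by
              rw [pow_add]; ring
          _ ≤ ((1 / (8 * w)) * (16 * p * w)) ^ reps c *
                (lam ^ mks c * (16 * p * w) ^ (k + 1 - reps c)) := by
              apply mul_le_mul_of_nonneg_right _ (by positivity)
              exact pow_le_pow_left₀ hlam0 hq _
          _ = ((1 / (8 * w)) ^ reps c * lam ^ mks c) *
                ((16 * p * w) ^ reps c * (16 * p * w) ^ (k + 1 - reps c)) := by
              rw [mul_pow]; ring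
          _ ≤ _ := mul_le_mul_of_nonneg_left hmu (by positivity)
    refine (sum_le_sum (fun c _ => hfib c)).trans ?_
    rw [← sum_mul]
    have h8 : 8 * lam * w ≤ 1 := by
      have : lam * w ≤ 2 * p * w := mul_le_mul_of_nonneg_right hlam4 (by positivity)
      linarith
    have := sum_codeB hw hlam0 h8
    have hpos : 0 ≤ (16 * p * (w : ℝ)) ^ (k + 1) := by positivity
    calc _ ≤ (1 : ℝ) * (16 * p * w) ^ (k + 1) := mul_le_mul_of_nonneg_right this hpos
      _ = _ := one_mul _

private theorem sswitch_inst {P : Type} (i1 i2 : DecidableEq P) (k : ℕ)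
    (g : (P → Bool) → Bool) : @DTd P i1 k g ↔ @DTd P i2 k g := by
  rw [Subsingleton.elim i1 i2]

/-- Switching lemma for block restrictions. -/
theorem switchingB {F : List (Term (P × Y) w)} {f : (P × Y → Bool) → Bool} (hF : IsDNF F f)
    (hw : 0 < w) {p : ℝ} (hp : 0 < p) (hpw : 16 * p * w ≤ 1) (k : ℕ) :
    pm (bw p ν) (fun ρ : P → Blk Y =>
      if DTd k (fun z : P → Bool => f (app ν ρ z)) then 0 else 1) ≤ (16 * p * w) ^ (k + 1) := by
  have := switching_auxB (ν := ν) hF hw hp hpw (k + 1) some goodMapB_some
  refine le_trans (le_of_eq ?_) this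
  unfold pm
  apply sum_congr rfl
  intro ρ _
  beta_reduce
  have hD : DeepB ν f ρ (k + 1) ↔ ¬ DTd k (fun z : P → Bool => f (app ν ρ z)) := by
    unfold DeepB
    exact not_congr (sswitch_inst _ _ _ _)
  by_cases h : DTd k (fun z : P → Bool => f (app ν ρ z))
  · rw [if_pos h, mul_zero, if_neg]
    rintro ⟨ρ', h1, h2⟩
    rw [← Option.some.inj h1] at h2
    exact hD.1 h2 h
  · rw [if_neg h, mul_one, if_pos ⟨ρ, rfl, hD.2 h⟩]
    rfl

end Pool.Agent.Helper67.LB
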