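import Pool.Agent.Helper67.LB.TTop
import Pool.Agent.Helper67.LB.SWt

set_option autoImplicit false
set_option linter.unusedSectionVars false

/-!
The expectation `Ex p k b` is the expectation of a probability distribution. (LB-T5.)

Proof by induction on `k`: it suffices that `Ex p k b` is linear, monotone (nonnegative on nonnegative
functions) and maps the constant 1 to 1; then take `W x = Ex p k b (indicator of x)`. Or directly:
for `k = 0` take `W x = ∑ S, if (fun v => if S v then b else false) = x then ∏ v, bern p v (S v)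
else 0`; for `k + 1`, `W x = ∑ ρ, (∏ v, bw p _ v (ρ v)) * ∑ z, if appV _ _ ρ z = x then W' z else 0`,
where `W'` belongs to `k` (weights: `bern_sum`, `bern_nonneg`, `bw_sum`, `bw_nonneg`,
`EQP.sum_prod_eq`).
-/

namespace Pool.Agent.Helper67.LB

open Finset Function Classical
open Pool.Agent.Helper67.EQP

variable {Y : Type} [Fintype Y] [DecidableEq Y]

theorem Ex_mono {p : ℝ} (h0 : 0 ≤ p) (h1 : p ≤ 1) (k : ℕ) (b : Bool)
    {F G : ((Fin (k + 1) → Y) → Bool) → ℝ} (h : ∀ x, F x ≤ G x) : Ex p k b F ≤ Ex p k b G := by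
  induction k with
  | zero => exact pm_mono _ (fun i c => bern_nonneg h0 h1 i c) fun S => h _
  | succ k ih =>
    exact pm_mono _ (fun i c => bw_nonneg h0 h1 _ i c) fun ρ => ih fun z => h _

theorem Ex_add (p : ℝ) (k : ℕ) (b : Bool) (F G : ((Fin (k + 1) → Y) → Bool) → ℝ) :
    Ex p k b (fun x => F x + G x) = Ex p k b F + Ex p k b G := by
  induction k with
  | zero => exact pm_add _ _ _
  | succ k ih =>
    simp only [Ex]
    rw [← pm_add]
    congr 1
    funext ρ
    exact ih _ _

theorem Ex_mul (p : ℝ) (k : ℕ) (b : Bool) (c : ℝ) (F : ((Fin (k + 1) → Y) → Bool) → ℝ) :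
    Ex p k b (fun x => c * F x) = c * Ex p k b F := by
  induction k with
  | zero => exact pm_mul_left _ _ _
  | succ k ih =>
    simp only [Ex]
    rw [← pm_mul_left]
    congr 1
    funext ρ
    exact ih _

theorem Ex_const (p : ℝ) (k : ℕ) (b : Bool) (c : ℝ) :
    Ex (Y := Y) p k b (fun _ => c) = c := by
  induction k with
  | zero => exact pm_const _ (fun i => bern_sum p i) c
  | succ k ih =>
    simp only [Ex]
    simp only [ih]
    exact pm_const _ (fun i => bw_sum p _ i) c

theorem Ex_sum {α : Type} (s : Finset α) (p : ℝ) (k : ℕ) (b : Bool)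
    (F : α → ((Fin (k + 1) → Y) → Bool) → ℝ) :
    Ex p k b (fun x => ∑ a ∈ s, F a x) = ∑ a ∈ s, Ex p k b (F a) := by
  induction s using Finset.induction_on with
  | empty =>
    simp only [Finset.sum_empty]
    exact Ex_const p k b 0
  | insert a s ha ih =>
    simp only [Finset.sum_insert ha]
    rw [Ex_add, ih]

theorem Ex_dist {p : ℝ} (h0 : 0 ≤ p) (h1 : p ≤ 1) (k : ℕ) (b : Bool) :
    ∃ W : ((Fin (k + 1) → Y) → Bool) → ℝ, IsDist W ∧ ∀ F, Ex p k b F = ∑ x, W x * F x := by
  refine ⟨fun x => Ex p k b (fun y => if y = x then 1 else 0), ⟨?_, ?_⟩, ?_⟩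
  · intro x
    have h := Ex_mono h0 h1 k b (F := fun _ => 0)
      (G := fun y : (Fin (k + 1) → Y) → Bool => if y = x then 1 else 0) (fun y => by
        split_ifs <;> norm_num)
    rwa [Ex_const] at h
  · rw [← Ex_sum]
    have h : (fun y : (Fin (k + 1) → Y) → Bool => ∑ x, (if y = x then (1 : ℝ) else 0)) =
        fun _ => 1 := by
      funext y
      simp
    rw [h, Ex_const]
  · intro F
    have h : F = fun y => ∑ x, F x * (if y = x then (1 : ℝ) else 0) := by
      funext y
      simp
    conv_lhs => rw [h]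
    rw [Ex_sum]
    refine Finset.sum_congr rfl fun x _ => ?_
    rw [Ex_mul, mul_comm]

end Pool.Agent.Helper67.LB
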