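import Pool.Agent.Helper67.LB.SLevel
import Pool.Agent.Helper67.LB.TLin

set_option autoImplicit false
set_option linter.unusedSectionVars false

/-!
Circuits with `k` layers do not see the value of `k + 1` quantifiers. (LB-T2.)

Proof of `hide` by induction on `k` (for all `k0`, `g`). `k = 0`: `level j < k0`, so `g j` has a tree
of depth `w`: `top_bound`. `k + 1`: with `g' ρ = fun j z => g j (appV _ _ ρ z)` the difference is
`pm (bw ..) (fun ρ => Ex p k true (b2 ∘ g' ρ j) - Ex p k false (b2 ∘ g' ρ j))` (`EQP.pm_sub`), at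
most `pm (bw ..) |..|` (`EQP.pm_abs_le`). If `GoodUpTo w (k0 + 1) level (g' ρ)` the term is at most
`w p + k s (16 p w) ^ (w + 1)` by the induction hypothesis for `k0 + 1` (`level j < k0 + 1 + k`);
otherwise it is at most 1 (`Ex_mono`, `Ex_const`, `b2_nonneg`, `b2_le_one`). Add, using
`level_switchB`. Note that `appV` is `app` after the bijection
`v ↦ (Fin.init v, v (Fin.last k))` of `Fin (k + 1) → Y` with `(Fin k → Y) × Y`; so compose `g` with
this bijection first (`ACfam.comp`, `DTd.comp` with `DTd.lit`) and apply `level_switchB` to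
`fun j x => g j (fun v => x (Fin.init v, v (Fin.last _)))`.
-/

namespace Pool.Agent.Helper67.LB

open Finset Function Classical
open Pool.Agent.Helper67.EQP

variable {Y : Type} [Fintype Y] [DecidableEq Y]

private theorem appV_lit {k : ℕ} {ν : Bool} (ρ : (Fin k → Y) → Blk Y) (v : Fin (k + 1) → Y) :
    DTd 1 (fun z => appV k ν ρ z v) := by
  rcases hk : kv ν (ρ (Fin.init (α := fun _ => Y) v)) (v (Fin.last k)) with _ | b
  · have : (fun z => appV k ν ρ z v) = fun z => z (Fin.init (α := fun _ => Y) v) := by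
      funext z
      unfold appV app
      simp only []
      rw [hk]
      rfl
    rw [this]
    exact DTd.lit _
  · have : (fun z => appV k ν ρ z v) = fun _ => b := by
      funext z
      unfold appV app
      simp only []
      rw [hk]
      rfl
    rw [this]
    exact DTd.const 1 b

/-- The restriction of a shallow tree. -/
theorem DTd_appV {k d : ℕ} {ν : Bool} {f : ((Fin (k + 1) → Y) → Bool) → Bool} (h : DTd d f)
    (ρ : (Fin k → Y) → Blk Y) : DTd d (fun z => f (appV k ν ρ z)) :=
  h.comp (fun z => appV k ν ρ z) (appV_lit ρ)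

/-- The restriction of a circuit. -/
theorem ACfam_appV {k w s : ℕ} {ν : Bool} {level : Fin s → ℕ}
    {g : Fin s → ((Fin (k + 1) → Y) → Bool) → Bool} (h : ACfam w level g)
    (ρ : (Fin k → Y) → Blk Y) : ACfam w level (fun j z => g j (appV k ν ρ z)) :=
  h.comp (fun z => appV k ν ρ z) (appV_lit ρ)

theorem level_switchV {k s : ℕ} {ν : Bool} {level : Fin s → ℕ}
    {g : Fin s → ((Fin (k + 1) → Y) → Bool) → Bool} {w : ℕ} (h : ACfam w level g) (hw : 0 < w)
    {p : ℝ} (hp : 0 < p) (hpw : 16 * p * w ≤ 1) {k0 : ℕ} (hk : GoodUpTo w k0 level g) :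
    pm (bw p ν) (fun ρ : (Fin k → Y) → Blk Y =>
      if GoodUpTo w (k0 + 1) level (fun j z => g j (appV k ν ρ z)) then 0 else 1) ≤
      s * (16 * p * w) ^ (w + 1) := by
  have h1 : ACfam w level (fun j (x : (Fin k → Y) × Y → Bool) =>
      g j (fun v => x (Fin.init (α := fun _ => Y) v, v (Fin.last k)))) :=
    h.comp (fun x v => x (Fin.init (α := fun _ => Y) v, v (Fin.last k))) (fun _ => DTd.lit _)
  have h2 : GoodUpTo w k0 level (fun j (x : (Fin k → Y) × Y → Bool) =>
      g j (fun v => x (Fin.init (α := fun _ => Y) v, v (Fin.last k)))) := fun j hj =>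
    (hk j hj).comp (fun x v => x (Fin.init (α := fun _ => Y) v, v (Fin.last k)))
      (fun _ => DTd.lit _)
  exact level_switchB (ν := ν) h1 hw hp hpw h2

/-- Depth-`w` trees do not see the value. -/
theorem hide_dtd {w : ℕ} {p : ℝ} (hp : 0 ≤ p) (hp1 : p ≤ 1) (k : ℕ)
    {f : ((Fin (k + 1) → Y) → Bool) → Bool} (hf : DTd w f) :
    |Ex p k true (fun x => b2 (f x)) - Ex p k false (fun x => b2 (f x))| ≤ w * p := by
  induction k with
  | zero => exact top_bound hf hp hp1
  | succ k ih =>
    have hnn : ∀ (i : Fin (k + 1) → Y) (B : Blk Y), 0 ≤ bw p (nu (k + 2)) i B :=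
      fun i B => bw_nonneg hp hp1 _ i B
    change |pm (bw p (nu (k + 2))) _ - pm (bw p (nu (k + 2))) _| ≤ _
    rw [← pm_sub]
    refine (pm_abs_le _ hnn _).trans ?_
    refine (pm_mono _ hnn (G := fun _ => (w : ℝ) * p) ?_).trans ?_
    · intro ρ
      exact ih (f := fun z => f (appV (k + 1) (nu (k + 2)) ρ z)) (DTd_appV hf ρ)
    · rw [pm_const _ (fun i => bw_sum p _ i)]

theorem hide {w : ℕ} (hw : 0 < w) {p : ℝ} (hp : 0 < p) (hpw : 16 * p * w ≤ 1) (k k0 : ℕ) {s : ℕ}
    {level : Fin s → ℕ} {g : Fin s → ((Fin (k + 1) → Y) → Bool) → Bool} (h : ACfam w level g)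
    (hk0 : GoodUpTo w k0 level g) (j : Fin s) (hj : level j < k0 + k) :
    |Ex p k true (fun x => b2 (g j x)) - Ex p k false (fun x => b2 (g j x))| ≤
      w * p + k * (s * (16 * p * w) ^ (w + 1)) := by
  have hw1 : (1 : ℝ) ≤ w := by exact_mod_cast hw
  have hp1 : p ≤ 1 := by nlinarith
  have hq : (0 : ℝ) ≤ s * (16 * p * w) ^ (w + 1) := by positivity
  induction k generalizing k0 with
  | zero =>
    have h1 := top_bound (hk0 j hj) hp.le hp1
    simpa using h1
  | succ k ih =>
    have hnn : ∀ (i : Fin (k + 1) → Y) (B : Blk Y), 0 ≤ bw p (nu (k + 2)) i B :=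
      fun i B => bw_nonneg hp.le hp1 _ i B
    change |pm (bw p (nu (k + 2))) _ - pm (bw p (nu (k + 2))) _| ≤ _
    rw [← pm_sub]
    refine (pm_abs_le _ hnn _).trans ?_
    refine (pm_mono _ hnn (G := fun ρ => (w * p + k * (s * (16 * p * w) ^ (w + 1))) +
      if GoodUpTo w (k0 + 1) level (fun j z => g j (appV (k + 1) (nu (k + 2)) ρ z)) then 0
        else 1) ?_).trans ?_
    · intro ρ
      beta_reduce
      by_cases hρ : GoodUpTo w (k0 + 1) level
          (fun j z => g j (appV (k + 1) (nu (k + 2)) ρ z))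
      · rw [if_pos hρ, add_zero]
        exact ih (k0 + 1) (g := fun j z => g j (appV (k + 1) (nu (k + 2)) ρ z))
          (ACfam_appV h ρ) hρ (by omega)
      · rw [if_neg hρ]
        have hb : ∀ b, 0 ≤ Ex p k b (fun z => b2 (g j (appV (k + 1) (nu (k + 2)) ρ z))) ∧
            Ex p k b (fun z => b2 (g j (appV (k + 1) (nu (k + 2)) ρ z))) ≤ 1 := by
          intro b
          constructor
          · have h3 := Ex_mono (Y := Y) hp.le hp1 k b (F := fun _ => (0 : ℝ))
              (G := fun z => b2 (g j (appV (k + 1) (nu (k + 2)) ρ z))) (fun z => b2_nonneg _)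
            rwa [Ex_const] at h3
          · have h3 := Ex_mono (Y := Y) hp.le hp1 k b (G := fun _ => (1 : ℝ))
              (F := fun z => b2 (g j (appV (k + 1) (nu (k + 2)) ρ z))) (fun z => b2_le_one _)
            rwa [Ex_const] at h3
        have h4 := hb true
        have h5 := hb false
        have h6 : (0 : ℝ) ≤ w * p + k * (s * (16 * p * w) ^ (w + 1)) := by positivity
        rw [abs_le]
        constructor
        · linarith [h4.1, h5.2]
        · linarith [h4.2, h5.1]
    · rw [pm_add, pm_const _ (fun i => bw_sum p _ i)]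
      have h7 := level_switchV (ν := nu (k + 2)) h hw hp hpw hk0
      push_cast
      linarith

end Pool.Agent.Helper67.LB
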