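import Pool.Agent.Helper67.LB.TDefs

set_option autoImplicit false
set_option linter.unusedSectionVars false

/-!
Shallow trees do not see a sparse random set. (LB-T1.)

Proof of `bern_near` by induction on `hf : DTd w f`. Constant functions: `EQP.pm_const`. For a query
of the variable `i`: write `h0, h1` for the functions `fun x => f (update x i false)`,
`fun x => f (update x i true)`. Conditioning on the coordinate `i`,
`pm (bern p) (b2 ∘ f) = p * pm (bern p) (b2 ∘ h1) + (1 - p) * pm (bern p) (b2 ∘ h0)`
(for instance: both `h0`, `h1` do not depend on the coordinate `i`; use `EQP.pm_comp` with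
`m = fun j a b => if j = i then a else b`, or split the sum with
`Equiv.piSplitAt`/`Fintype.sum_equiv`; it may be handy to prove first
`pm θ F = pm θ (fun a => ∑ b, θ i b * F (update a i b))` for probability weights `θ`).
As `f (fun _ => false) = h0 (fun _ => false)` and everything lies between 0 and 1 the difference is at
most `p + (1 - p) * (w * p) ≤ (w + 1) * p`.

`top_bound`: with `b = true` the assignment is `S` itself (`if S v then true else false = S v`), with
`b = false` it is constantly false, and `EQP.pm_const` applies.
-/

namespace Pool.Agent.Helper67.LB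

open Finset Function Classical
open Pool.Agent.Helper67.EQP

theorem bern_sum {V : Type} (p : ℝ) (v : V) : ∑ b, bern p v b = 1 := by
  rw [Fintype.sum_bool]
  simp [bern]

theorem bern_nonneg {V : Type} {p : ℝ} (h0 : 0 ≤ p) (h1 : p ≤ 1) (v : V) (b : Bool) :
    0 ≤ bern p v b := by
  cases b
  · simp [bern]; exact h1
  · simp [bern]; exact h0

private theorem pm_coord {ι A : Type} [Fintype ι] [DecidableEq ι] [Fintype A] (θ : ι → A → ℝ)
    (hθ : ∀ i, ∑ a, θ i a = 1) (i : ι) (g : A → ℝ) :
    pm θ (fun a => g (a i)) = ∑ b, θ i b * g b := by
  have h1 : (fun a : ι → A => g (a i)) =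
      fun a => ∏ j, (if j = i then g (a j) else 1) := by
    funext a
    rw [Finset.prod_ite_eq' Finset.univ i (fun j => g (a j))]
    simp
  rw [h1, pm_prod_fun θ (fun j b => if j = i then g b else 1), Finset.prod_eq_single i]
  · simp
  · intro j _ hj
    simp only [hj, if_false, mul_one]
    exact hθ j
  · intro h
    exact absurd (Finset.mem_univ i) h

/-- Resampling one coordinate. -/
theorem pm_resample {ι A : Type} [Fintype ι] [DecidableEq ι] [Fintype A] (θ : ι → A → ℝ)
    (hθ : ∀ i, ∑ a, θ i a = 1) (i : ι) (F : (ι → A) → ℝ) :
    pm θ F = pm θ (fun a => ∑ b, θ i b * F (update a i b)) := by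
  rw [← pm_comp θ θ θ (fun j a b => if j = i then b else a) _ F]
  · congr 1
    funext a
    rw [← pm_coord θ hθ i (fun b => F (update a i b))]
    congr 1
    funext b
    congr 1
    funext j
    by_cases hj : j = i
    · subst hj
      simp
    · simp [hj]
  · intro j c
    by_cases hj : j = i
    · simp only [hj, if_true]
      have h2 : ∀ a : A, ∑ b : A, (if b = c then θ i a * θ i b else 0) = θ i a * θ i c := by
        intro a
        rw [Finset.sum_ite_eq' Finset.univ c (fun b => θ i a * θ i b)]
        simp
      rw [Finset.sum_congr rfl (fun a _ => h2 a), ← Finset.sum_mul, hθ, one_mul]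
    · simp only [hj, if_false]
      have h2 : ∀ a : A, ∑ b : A, (if a = c then θ j a * θ j b else 0) =
          if a = c then θ j a else 0 := by
        intro a
        by_cases hac : a = c
        · simp only [hac, if_true]
          rw [← Finset.mul_sum, hθ, mul_one]
        · simp [hac]
      rw [Finset.sum_congr rfl (fun a _ => h2 a),
        Finset.sum_ite_eq' Finset.univ c (fun a => θ j a)]
      simp

theorem bern_near {V : Type} [Fintype V] [DecidableEq V] {w : ℕ} {f : (V → Bool) → Bool}
    (hf : DTd w f) {p : ℝ} (h0 : 0 ≤ p) (h1 : p ≤ 1) :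
    |pm (bern p) (fun S : V → Bool => b2 (f S)) - b2 (f (fun _ => false))| ≤ w * p := by
  induction hf with
  | const w b =>
    simp only
    rw [pm_const _ (fun i => bern_sum p i)]
    simp only [sub_self, abs_zero]
    positivity
  | query w i f hf0 hf1 ih0 ih1 =>
    have e0 : update (fun _ : V => false) i false = fun _ => false := by
      funext j
      by_cases hj : j = i
      · subst hj
        simp
      · simp [hj]
    simp only [e0] at ih0
    have hr := pm_resample (bern p) (fun i => bern_sum p i) i (fun S : V → Bool => b2 (f S))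
    have hs : (fun a : V → Bool => ∑ b, bern p i b * b2 (f (update a i b))) =
        fun a => p * b2 (f (update a i true)) + (1 - p) * b2 (f (update a i false)) := by
      funext a
      rw [Fintype.sum_bool]
      simp [bern]
    rw [hs, pm_add, pm_mul_left, pm_mul_left] at hr
    rw [hr]
    have hP1 : 0 ≤ pm (bern p) (fun a : V → Bool => b2 (f (update a i true))) :=
      pm_nonneg _ (fun i b => bern_nonneg h0 h1 i b) (fun a => b2_nonneg _)
    have hP2 : pm (bern p) (fun a : V → Bool => b2 (f (update a i true))) ≤ 1 := by
      refine (pm_mono (bern p) (fun i b => bern_nonneg h0 h1 i b)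
        (G := fun _ => 1) (fun a => b2_le_one _)).trans ?_
      rw [pm_const _ (fun i => bern_sum p i)]
    have hb1 := b2_nonneg (f (fun _ => false))
    have hb2 := b2_le_one (f (fun _ => false))
    rw [abs_le] at ih0 ⊢
    obtain ⟨i1, i2⟩ := ih0
    push_cast
    have hw : (0 : ℝ) ≤ w := Nat.cast_nonneg w
    generalize pm (bern p) (fun a : V → Bool => b2 (f (update a i true))) = P1 at *
    generalize pm (bern p) (fun a : V → Bool => b2 (f (update a i false))) = P0 at *
    generalize b2 (f (fun _ => false)) = B at *
    have hq : 0 ≤ 1 - p := by linarith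
    have hwp : 0 ≤ (w : ℝ) * p * p := by positivity
    constructor
    · have a1 : (1 - p) * (-(w * p)) ≤ (1 - p) * (P0 - B) := mul_le_mul_of_nonneg_left i1 hq
      have a2 : p * (-1) ≤ p * (P1 - B) := mul_le_mul_of_nonneg_left (by linarith) h0
      nlinarith
    · have a1 : (1 - p) * (P0 - B) ≤ (1 - p) * (w * p) := mul_le_mul_of_nonneg_left i2 hq
      have a2 : p * (P1 - B) ≤ p * 1 := mul_le_mul_of_nonneg_left (by linarith) h0
      nlinarith

theorem top_bound {Y : Type} [Fintype Y] [DecidableEq Y] {w : ℕ}
    {f : ((Fin 1 → Y) → Bool) → Bool} (hf : DTd w f) {p : ℝ} (h0 : 0 ≤ p) (h1 : p ≤ 1) :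
    |Ex p 0 true (fun x => b2 (f x)) - Ex p 0 false (fun x => b2 (f x))| ≤ w * p := by
  have h := bern_near hf h0 h1
  have e1 : Ex p 0 true (fun x => b2 (f x)) =
      pm (bern p) (fun S : (Fin 1 → Y) → Bool => b2 (f S)) := by
    show pm (bern p) (fun S : (Fin 1 → Y) → Bool =>
      b2 (f (fun v => if S v then true else false))) = _
    congr 1
    funext S
    congr 2
    funext v
    cases S v <;> simp
  have e2 : Ex p 0 false (fun x => b2 (f x)) = b2 (f (fun _ => false)) := by
    show pm (bern p) (fun S : (Fin 1 → Y) → Bool =>
      b2 (f (fun v => if S v then false else false))) = _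
    have : (fun S : (Fin 1 → Y) → Bool => b2 (f (fun v => if S v then false else false))) =
        fun _ => b2 (f (fun _ => false)) := by
      funext S
      congr 2
      funext v
      simp
    rw [this, pm_const _ (fun i => bern_sum p i)]
  rw [e1, e2]
  exact h

end Pool.Agent.Helper67.LB
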