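import Pool.Agent.Helper67.LB.WCode

set_option autoImplicit false
set_option linter.unusedSectionVars false

/-!
Worlds. (LB-W2.)

`wld lam Q A0 L E m O` is the oracle which is equal to `A0` on the strings of length at most `L`, has the
values prescribed by `O` on longer strings, and whose blocks belonging to the machines `i < m`
with `E i = some e` (if longer than `L` and not prescribed) are filled with the output of the
machine; everything else is as in `A0`.

* `exists_wld`: `EQP.exists_fix` with rank `List.length`: `(Q i).Acc W x` depends only on `W` at
  strings of length at most `(Q i).time x` (`QMachine.acc_congr` in `QNorm.lean`), and this is smaller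
  than the length of the strings of the block (`qcode_length`, `InB.length`:
  `T < (144 * (T + 1)) ^ 4`).
* `wld_code`: the triple `i, e, x` is determined by `s` (`mstr_code`, `false_mem_qcode`,
  `qcode_inj`).
* `wld_congr`: strong induction on the length of the string.
-/

namespace Pool.Agent.Helper67.LB

open Finset Function Classical
open Pool.Agent.Helper67.EQP

variable (lam : ℕ → ℕ) (Q : ℕ → QMachine)

/-- `s` belongs to the block for the input `x` of the machine `i < m`. -/
def Comd (E : ℕ → Option ℕ) (m : ℕ) (i e : ℕ) (x s : List Bool) : Prop :=
  i < m ∧ E i = some e ∧ InB lam ((Q i).code i e x) s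

/-- The defining operator of the worlds. -/
noncomputable def ΦW (A0 : List Bool → Bool) (L : ℕ) (E : ℕ → Option ℕ) (m : ℕ)
    (O : List Bool → Option Bool) (W : List Bool → Bool) (s : List Bool) : Bool :=
  if s.length ≤ L then A0 s else
    match O s with
    | some b => b
    | none => if ∃ i e x, Comd lam Q E m i e x s then
        decide (∃ i e x, Comd lam Q E m i e x s ∧ (Q i).Acc W x) else A0 s

end Pool.Agent.Helper67.LB
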