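import Pool.Agent.Helper67.LB.WWld

set_option autoImplicit false
set_option linter.unusedSectionVars false

/-!
Worlds: correct machine blocks and valid region blocks. (LB-W3.)

* `wld_right`: let `κ = (Q i).code i e x`. All strings of the block have the same length
  `ℓ` (`InB.length`). If `L < ℓ` then all strings of the block have the value
  `decide ((Q i).Acc W x)` (`wld_code`), apply `MB_const`. If `ℓ ≤ L` then `e < ℓ ≤ L`
  (`qcode_length`), so `Right lam Q A0 i e`; the world agrees with `A0` on the block and on the strings of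
  length at most `(Q i).time x < ℓ` (`wld_short`, `QMachine.acc_congr`, `MB_congr`).
* `wld_valid`: the strings `bstr κ a` are not in machine blocks (`not_InB_bstr`), so the world is equal
  to `A0` there (`wld_else`).
* `wld_reads`: `wld_O`, with `bstr_length`.
* `reads_unique_yes`: by `EQP.kcirc_acceptProb` and `EQP.three_query` the acceptance probability of
  `kcirc κ` would be 1 and 0.
* `WW_mono`: immediate.
-/

namespace Pool.Agent.Helper67.LB

open Finset Function Classical
open Pool.Agent.Helper67.EQP

/-- The blocks of the machine `i`, with parameter `e`, contain the output of the machine. -/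
def Right (lam : ℕ → ℕ) (Q : ℕ → QMachine) (A : List Bool → Bool) (i e : ℕ) : Prop :=
  ∀ x, (Q i).Acc A x ↔ MB lam A ((Q i).code i e x)

/-- The block with the code `κ` contains the truth table `x`. -/
def Reads (A : List Bool → Bool) (κ : List Bool) (x : Idx (par κ) → Bool) : Prop :=
  ∀ a : B0 (par κ) × Bool, A (bstr κ a) = true ↔ ∃ i, posn (par κ) a = some i ∧ x i = true

/-- The block with the code `κ` contains a yes-instance or a no-instance. -/
def Valid (A : List Bool → Bool) (κ : List Bool) : Prop :=
  ∃ x, Reads A κ x ∧ (Yes (par κ) x ∨ No (par κ) x)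

/-- The block with the code `κ` contains a yes-instance. -/
def RYes (A : List Bool → Bool) (κ : List Bool) : Prop := ∃ x, Reads A κ x ∧ Yes (par κ) x

/-- The worlds: oracles which agree with `A` up to length `L`, with correct blocks for the
committed machines `i < μ` and valid blocks in the regions `r < ρ`. -/
def WW (lam : ℕ → ℕ) (Q : ℕ → QMachine) (A : List Bool → Bool) (L : ℕ) (E : ℕ → Option ℕ)
    (G : ℕ → ℕ) (μ ρ : ℕ) (A' : List Bool → Bool) : Prop :=
  (∀ s : List Bool, s.length ≤ L → A' s = A s) ∧ (∀ i < μ, ∀ e, E i = some e → Right lam Q A' i e) ∧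
    ∀ r < ρ, ∀ n, Valid A' (rcode r (G r) n)

variable {lam : ℕ → ℕ} {Q : ℕ → QMachine} {A0 A A' : List Bool → Bool} {L : ℕ}
  {E : ℕ → Option ℕ} {G : ℕ → ℕ} {m : ℕ} {O : List Bool → Option Bool}

theorem wld_right {i e : ℕ} (hi : i < m) (he : E i = some e)
    (hO : ∀ x s, InB lam ((Q i).code i e x) s → O s = none)
    (h : L < e ∨ Right lam Q A0 i e) : Right lam Q (wld lam Q A0 L E m O) i e := by
  intro x
  by_cases hL : L < ((Q i).code i e x).length + 2 +
      lam (ones ((Q i).code i e x)) * wid ((Q i).code i e x)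
  · symm
    apply MB_const
    intro s hs
    rw [wld_code lam Q (by rw [hs.length]; exact hL) (hO x s hs) ⟨hi, he, hs⟩]
    exact decide_eq_true_iff
  · have hlen := qcode_length (Q i) i e x
    have h2 : (Q i).time x + 1 ≤ (144 * ((Q i).time x + 1)) ^ 4 := by
      calc (Q i).time x + 1 ≤ 144 * ((Q i).time x + 1) := by omega
        _ ≤ (144 * ((Q i).time x + 1)) ^ 4 := Nat.le_self_pow (by norm_num) _
    rcases h with h | h
    · omega
    · have h3 : (Q i).Acc (wld lam Q A0 L E m O) x ↔ (Q i).Acc A0 x := by
        apply QMachine.acc_congr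
        intro s hs
        apply wld_short
        omega
      have h4 : MB lam (wld lam Q A0 L E m O) ((Q i).code i e x) ↔
          MB lam A0 ((Q i).code i e x) := by
        apply MB_congr
        intro s hs
        apply wld_short
        rw [hs.length]
        omega
      rw [h3, h4]
      exact h x

theorem reads_congr {κ : List Bool} {x : Idx (par κ) → Bool}
    (h : ∀ a : B0 (par κ) × Bool, A (bstr κ a) = A' (bstr κ a)) : Reads A κ x ↔ Reads A' κ x := by
  unfold Reads
  simp only [h]

theorem valid_congr {κ : List Bool} (h : ∀ a : B0 (par κ) × Bool, A (bstr κ a) = A' (bstr κ a)) :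
    Valid A κ ↔ Valid A' κ := by
  unfold Valid
  simp only [reads_congr h]

theorem ryes_congr {κ : List Bool} (h : ∀ a : B0 (par κ) × Bool, A (bstr κ a) = A' (bstr κ a)) :
    RYes A κ ↔ RYes A' κ := by
  unfold RYes
  simp only [reads_congr h]

theorem wld_bstr {κ : List Bool} {a : B0 (par κ) × Bool} (h : O (bstr κ a) = none) :
    wld lam Q A0 L E m O (bstr κ a) = A0 (bstr κ a) :=
  wld_else lam Q h (fun _ _ _ hc => not_InB_bstr lam _ _ _ hc.2.2)

theorem wld_valid {κ : List Bool} (h : ∀ a : B0 (par κ) × Bool, O (bstr κ a) = none)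
    (hA : Valid A0 κ) : Valid (wld lam Q A0 L E m O) κ :=
  (valid_congr (fun a => wld_bstr (h a))).2 hA

theorem wld_reads {κ : List Bool} {x : Idx (par κ) → Bool} (hL : L < 13 * κ.length + 20)
    (h : ∀ a : B0 (par κ) × Bool,
      O (bstr κ a) = some (decide (∃ i, posn (par κ) a = some i ∧ x i = true))) :
    Reads (wld lam Q A0 L E m O) κ x := by
  intro a
  rw [wld_O lam Q (by rw [bstr_length]; exact hL) (h a)]
  exact decide_eq_true_iff

theorem reads_yes_no {κ : List Bool} {x x' : Idx (par κ) → Bool} (h : Reads A κ x)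
    (h' : Reads A κ x') (hy : Yes (par κ) x) (hn : No (par κ) x') : False := by
  have h1 := kcirc_acceptProb κ A x h
  have h2 := kcirc_acceptProb κ A x' h'
  rw [(three_query (par κ)).1 x hy] at h1
  rw [(three_query (par κ)).2 x' hn] at h2
  rw [h1] at h2
  exact one_ne_zero h2

theorem WW_mono {L' μ ρ μ' ρ' : ℕ} (h : WW lam Q A L E G μ ρ A') (hL : L' ≤ L) (hμ : μ' ≤ μ)
    (hρ : ρ' ≤ ρ) : WW lam Q A L' E G μ' ρ' A' :=
  ⟨fun s hs => h.1 s (hs.trans hL), fun i hi => h.2.1 i (hi.trans_le hμ),
    fun r hr => h.2.2 r (hr.trans_le hρ)⟩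

/-- Changing the reference oracle. -/
theorem WW_trans {B : List Bool → Bool} {L' μ ρ : ℕ} (h : WW lam Q A L E G μ ρ A')
    (hB : ∀ s : List Bool, s.length ≤ L' → A s = B s) (hL : L' ≤ L) :
    WW lam Q B L' E G μ ρ A' :=
  ⟨fun s hs => (h.1 s (hs.trans hL)).trans (hB s hs), h.2.1, h.2.2⟩

end Pool.Agent.Helper67.LB
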