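import Pool.Agent.Helper67.LB.WDefs
import Pool.Agent.Helper67.LB.QNorm

set_option autoImplicit false
set_option linter.unusedSectionVars false

/-!
Worlds: existence and basic properties. (LB-W2.)

* `exists_wld`: `EQP.exists_fix` (in `EQP/CWorld.lean`) with rank `List.length`: `(Q i).Acc W x`
  depends only on `W` at strings of length at most `(Q i).time x` (`QMachine.acc_congr`), and
  this is smaller than the length of the strings of the block (`time_lt_of_Comd`).
* `time_lt_of_Comd`: `qcode_length`, `InB.length`: `T < (144 * (T + 1)) ^ 4`.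
* `wld_code`: the triple `i, e, x` is determined by `s` (`mstr_code`, `false_mem_qcode`,
  `qcode_inj`).
* `wld_congr`: strong induction on the length of the string.
-/

namespace Pool.Agent.Helper67.LB

open Finset Function Classical
open Pool.Agent.Helper67.EQP

variable (lam : ℕ → ℕ) (Q : ℕ → QMachine)

variable {lam Q} in
theorem Comd.length_ge {E : ℕ → Option ℕ} {m i e : ℕ} {x s : List Bool}
    (h : Comd lam Q E m i e x s) : (144 * ((Q i).time x + 1)) ^ 4 ≤ s.length := by
  rw [h.2.2.length, qcode_length]
  omega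

variable {lam Q} in
theorem Comd.time_lt {E : ℕ → Option ℕ} {m i e : ℕ} {x s : List Bool}
    (h : Comd lam Q E m i e x s) : (Q i).time x < s.length := by
  have h1 := h.length_ge
  have h2 : (Q i).time x + 1 ≤ (144 * ((Q i).time x + 1)) ^ 4 := by
    calc (Q i).time x + 1 ≤ 144 * ((Q i).time x + 1) := by omega
      _ ≤ (144 * ((Q i).time x + 1)) ^ 4 := Nat.le_self_pow (by norm_num) _
  omega

variable {lam Q} in
theorem Comd.unique {E : ℕ → Option ℕ} {m m' i e i' e' : ℕ} {x x' s : List Bool}
    (h : Comd lam Q E m i e x s) (h' : Comd lam Q E m' i' e' x' s) :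
    i = i' ∧ e = e' ∧ x = x' := by
  have h1 := mstr_code (false_mem_qcode _ _ _ _) (false_mem_qcode _ _ _ _) h.2.2 h'.2.2
  exact qcode_inj h1

variable {lam Q} in
theorem ΦW_key {E : ℕ → Option ℕ} {m : ℕ} {X X' : List Bool → Bool} {s : List Bool}
    (h : ∀ s' : List Bool, s'.length < s.length → X s' = X' s') :
    (∃ i e x, Comd lam Q E m i e x s ∧ (Q i).Acc X x) ↔
      (∃ i e x, Comd lam Q E m i e x s ∧ (Q i).Acc X' x) := by
  apply exists_congr
  intro i
  apply exists_congr
  intro e
  apply exists_congr
  intro x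
  apply and_congr_right
  intro hc
  apply QMachine.acc_congr
  intro s' hs'
  apply h
  have := hc.time_lt
  omega

theorem exists_wld (A0 : List Bool → Bool) (L : ℕ) (E : ℕ → Option ℕ) (m : ℕ)
    (O : List Bool → Option Bool) : ∃ W : List Bool → Bool, ∀ s, W s = ΦW lam Q A0 L E m O W s := by
  apply exists_fix (V := fun _ => Bool) List.length (ΦW lam Q A0 L E m O) (fun _ => false)
  intro s X X' h
  unfold ΦW
  simp only [ΦW_key h]

/-- The world. -/
noncomputable def wld (A0 : List Bool → Bool) (L : ℕ) (E : ℕ → Option ℕ) (m : ℕ)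
    (O : List Bool → Option Bool) : List Bool → Bool := (exists_wld lam Q A0 L E m O).choose

variable {A0 : List Bool → Bool} {L : ℕ} {E : ℕ → Option ℕ} {m : ℕ}
  {O : List Bool → Option Bool}

theorem wld_spec (s : List Bool) :
    wld lam Q A0 L E m O s = ΦW lam Q A0 L E m O (wld lam Q A0 L E m O) s :=
  (exists_wld lam Q A0 L E m O).choose_spec s

theorem wld_short {s : List Bool} (h : s.length ≤ L) : wld lam Q A0 L E m O s = A0 s := by
  rw [wld_spec]
  unfold ΦW
  rw [if_pos h]

theorem wld_O {s : List Bool} (h : L < s.length) {b : Bool} (hO : O s = some b) :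
    wld lam Q A0 L E m O s = b := by
  rw [wld_spec]
  unfold ΦW
  rw [if_neg (by omega), hO]

theorem wld_code {s : List Bool} (h : L < s.length) (hO : O s = none) {i e : ℕ} {x : List Bool}
    (hc : Comd lam Q E m i e x s) :
    wld lam Q A0 L E m O s = decide ((Q i).Acc (wld lam Q A0 L E m O) x) := by
  rw [wld_spec]
  unfold ΦW
  rw [if_neg (by omega), hO]
  dsimp only
  rw [if_pos ⟨i, e, x, hc⟩]
  apply decide_eq_decide.2
  constructor
  · rintro ⟨i', e', x', hc', h'⟩
    obtain ⟨rfl, rfl, rfl⟩ := hc.unique hc'
    exact h'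
  · intro h'
    exact ⟨i, e, x, hc, h'⟩

theorem wld_else {s : List Bool} (hO : O s = none) (hc : ∀ i e x, ¬ Comd lam Q E m i e x s) :
    wld lam Q A0 L E m O s = A0 s := by
  rw [wld_spec]
  unfold ΦW
  by_cases h1 : s.length ≤ L
  · rw [if_pos h1]
  · rw [if_neg h1, hO]
    dsimp only
    rw [if_neg]
    rintro ⟨i, e, x, h⟩
    exact hc i e x h

theorem wld_congr {O' : List Bool → Option Bool} {l : ℕ}
    (h : ∀ s : List Bool, s.length ≤ l → O s = O' s) (s : List Bool) (hs : s.length ≤ l) :
    wld lam Q A0 L E m O s = wld lam Q A0 L E m O' s := by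
  have key : ∀ n, ∀ s : List Bool, s.length = n → s.length ≤ l →
      wld lam Q A0 L E m O s = wld lam Q A0 L E m O' s := by
    intro n
    induction n using Nat.strong_induction_on with
    | _ n ih =>
      intro s hs hsl
      rw [wld_spec, wld_spec]
      unfold ΦW
      rw [h s hsl]
      have h1 := ΦW_key (lam := lam) (Q := Q) (E := E) (m := m) (s := s)
        (X := wld lam Q A0 L E m O) (X' := wld lam Q A0 L E m O')
        (fun s' hs' => ih s'.length (by omega) s' rfl (by omega))
      simp only [h1]
  exact key s.length s rfl hs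

end Pool.Agent.Helper67.LB
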